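import Pool.Agent.Lib.MP_781e3b_co.RR.SF

/-!
Definitions for the density potential. Edges form a type `W` with end points `x`, `y`.
-/

namespace Pool.Agent.Lib.MP_781e3b_co.RR

open Set Function

variable {W V : Type}

/-- The edges `D` lie inside `K`. -/
def Ins (x y : W → V) (K : Finset V) (D : Finset W) : Prop := ∀ d ∈ D, x d ∈ K ∧ y d ∈ K

/-- The edges in `B` have 2-density at most `m`. -/
def Wk (x y : W → V) (m : ℝ) (B : Set W) : Prop :=
  ∀ (K : Finset V) (D : Finset W), 2 ≤ K.card → ↑D ⊆ B → Ins x y K D →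
    (D.card : ℝ) ≤ m * (K.card - 2) + 1

/-- Relative bound over the vertex set `N z`. -/
def Rl (x y : W → V) (N : W → Set V) (m : ℝ) (B : Set W) : Prop :=
  ∀ z ∈ B, ∀ (K : Finset V) (D : Finset W), ↑D ⊆ B → z ∉ D →
    (∀ d ∈ D, (x d ∈ K ∨ x d ∈ N z) ∧ (y d ∈ K ∨ y d ∈ N z)) → (D.card : ℝ) ≤ m * K.card

/-- Minimal tight pair on `n` vertices. -/
def MT (x y : W → V) (m : ℝ) (n : ℕ) (K : Finset V) (D : Finset W) : Prop :=
  K.card = n ∧ Ins x y K D ∧ (D.card : ℝ) = m * (K.card - 2) + 1 ∧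
    ∀ K' ⊂ K, 3 ≤ K'.card → ∀ D' ⊆ D, Ins x y K' D' → (D'.card : ℝ) < m * (K'.card - 2) + 1

def NoMT (x y : W → V) (m : ℝ) (n : ℕ) (B : Set W) : Prop :=
  ∀ (K : Finset V) (D : Finset W), ↑D ⊆ B → ¬ MT x y m n K D

/-- `a` and `b` are joined by an edge of `F` other than `d`. -/
def Link (x y : W → V) (F : Set W) (d : W) (a b : V) : Prop :=
  ∃ d' ∈ F, d' ≠ d ∧ ((x d' = a ∧ y d' = b) ∨ (x d' = b ∧ y d' = a))

/-- `F` is a forest whose components are induced: the ends of no edge `d` (in `F` or not) are joined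
in `F - d`. -/
def Acy (x y : W → V) (F : Set W) : Prop :=
  ∀ d, ¬ Relation.ReflTransGen (Link x y F d) (x d) (y d)

/-- The points of `N z` are pairwise not joined through the sets `h z'`, `z' ≠ z`. -/
def Sep (N h : W → Set V) (B : Set W) : Prop :=
  ∀ z ∈ B, ∀ u ∈ N z, ∀ w ∈ N z,
    Relation.ReflTransGen (fun a b => ∃ z' ∈ B, z' ≠ z ∧ a ∈ h z' ∧ b ∈ h z') u w → u = w

open Classical in
/-- All edges inside `K`. -/
noncomputable def ed [Fintype W] (x y : W → V) (K : Finset V) : Finset W :=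
  Finset.univ.filter fun d => x d ∈ K ∧ y d ∈ K

theorem mem_ed [Fintype W] {x y : W → V} {K : Finset V} {d : W} :
    d ∈ ed x y K ↔ x d ∈ K ∧ y d ∈ K := by simp [ed]

def Tight [Fintype W] (x y : W → V) (m : ℝ) (K : Finset V) : Prop :=
  2 ≤ K.card ∧ ((ed x y K).card : ℝ) = m * (K.card - 2) + 1

/-- Minimal tight set on `n` vertices. -/
def MinT [Fintype W] (x y : W → V) (m : ℝ) (n : ℕ) (K : Finset V) : Prop :=
  K.card = n ∧ Tight x y m K ∧ ∀ K' ⊂ K, 3 ≤ K'.card → ¬ Tight x y m K'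

/-- A cluster `S` of the family `M` of minimal tight sets. -/
structure Clu [Fintype W] [DecidableEq V] (x y : W → V) (m : ℝ) (n : ℕ)
    (M S : Finset (Finset V)) : Prop where
  sub : S ⊆ M
  ne : S.Nonempty
  tight : Tight x y m (S.biUnion id)
  edge : ∀ d ∈ ed x y (S.biUnion id), ∃ K ∈ S, d ∈ ed x y K
  card : (S.biUnion id).card = (n - 2) * S.card + 2
  cross : ∀ K ∈ S, ∀ K' ∈ M, K' ∉ S → Disjoint (ed x y K) (ed x y K')
  leaf : ∃ L ⊆ S.biUnion id, n ≤ L.card ∧ ∀ z ∈ L, ∃ K ∈ S, z ∈ K ∧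
    (∀ K' ∈ S, z ∈ K' → K' = K) ∧
    ∀ d ∈ ed x y K, ∀ d' ∈ ed x y K, (∃ K' ∈ M, K' ≠ K ∧ d ∈ ed x y K') →
      (∃ K' ∈ M, K' ≠ K ∧ d' ∈ ed x y K') → d = d'

section Tee
variable {U E K P : Type}

open Classical in
/-- The edge `d` of the copy `p` is padded to a tuple, with its ends at the places `α < β`. -/
noncomputable def ttup (x y : E → U) (α β : P → E → K) (z : P × E) (k : K) : P × (U ⊕ E × K) :=
  if k = α z.1 z.2 then (z.1, Sum.inl (x z.2))
  else if k = β z.1 z.2 then (z.1, Sum.inl (y z.2)) else (z.1, Sum.inr (z.2, k))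

/-- Disjoint copies of a graph whose edges are padded to tuples, as a train of height one. -/
noncomputable def tee [Finite U] [Finite E] [Finite K] [Finite P] (x y : E → U)
    (α β : P → E → K) : Tr Unit K where
  V := P × (U ⊕ E × K)
  W := fun | 0 => P × E | _ + 1 => Unit
  finV := inferInstance
  finW := fun | 0 => inferInstanceAs (Finite (P × E)) | _ + 1 => inferInstanceAs (Finite Unit)
  par := fun _ _ => ()
  N := fun | 0 => fun z => range (ttup x y α β z) | _ + 1 => fun _ => univ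
  tup := ttup x y α β
  lab := fun _ => ()

end Tee

end Pool.Agent.Lib.MP_781e3b_co.RR
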