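import Pool.Agent.Lib.MP_781e3b_co.RR.Fo

/-!
The substitution lemma.
-/

namespace Pool.Agent.Lib.MP_781e3b_co.RR

open Set Function

variable {CH WH VH CL WL VL W V : Type} {SH : Sys CH WH VH} {SL : Sys CL WL VL}
  {S : Sys (CH × CL) W V} {full : Prop}

/-- What the substitution gives over the forest `(CsH, ZH, RH)` of `SH`. -/
structure Amal.Res (a : Amal SH SL S full) (CsH : Set CH) (ZH : Set WH) (RH : Set (WH × VH))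
    (XP : Finset (CH × CL)) (XW : Finset W) (Cs : Set (CH × CL)) (Z : Set W) (R : Set (W × V)) :
    Prop where
  fo : Fo S full Cs Z R
  cp : ∀ P ∈ XP, P ∈ Cs
  wg : ∀ z ∈ XW, z ∈ Z
  rC : ∀ P ∈ Cs, P.1 ∈ CsH
  rZ : ∀ z ∈ Z, z ∈ a.iW '' ZH ∨ ∃ c ∈ CsH, z ∈ range (a.sW c)
  rR : ∀ z v, (z, v) ∈ R → v ∈ a.iV '' SH.BV CsH RH ∨ ∃ c ∈ CsH, v ∈ range (a.sV c)
  s1 : ∀ y u, a.iW y ∈ XW → (y, u) ∈ RH → (a.iW y, a.iV u) ∈ R
  s2 : ∀ z ∈ XW, ∀ v ∈ S.N z, v ∉ range a.iV → v ∈ S.BV Cs R → (z, v) ∈ R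
  s3 : ∀ z ∈ XW, z ∉ range a.iW → ∀ v ∈ S.N z, (z, v) ∈ R
  s4 : ∀ c ∈ CsH, ∀ z ∈ XW, ∀ z' ∈ XW, z ≠ z' → z ∈ range (a.sW c) → z' ∈ range (a.sW c) →
    ∀ v ∈ S.N z, v ∈ range (a.sV c) → (z, v) ∈ R
  cl : ∀ P : CH × CL, P.1 ∈ CsH → ∀ z ∈ XW, ∀ z' ∈ XW, z ≠ z' → z ∈ S.wb P → z' ∈ S.wb P → P ∈ Cs

namespace Amal

variable (a : Amal SH SL S full)

/-- The region of a forest of `SH`: vertices. -/
def RegV (CsH : Set CH) (RH : Set (WH × VH)) (v : V) : Prop :=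
  v ∈ a.iV '' SH.BV CsH RH ∨ ∃ c ∈ CsH, v ∈ range (a.sV c)

/-- The region of a forest of `SH`: wagons. -/
def RegW (CsH : Set CH) (ZH : Set WH) (z : W) : Prop :=
  z ∈ a.iW '' ZH ∨ ∃ c ∈ CsH, z ∈ range (a.sW c)

/-- The wagon `z` has its host in the forest. -/
def Host (CsH : Set CH) (ZH : Set WH) (z : W) : Prop :=
  z ∈ a.iW '' ZH ∨ (z ∉ range a.iW ∧ ∃ c ∈ CsH, z ∈ range (a.sW c))

theorem eqV {c c' : CH} {v : V} (h : v ∈ range (a.sV c)) (h' : v ∈ range (a.sV c'))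
    (hv : v ∉ range a.iV) : c = c' := by
  obtain ⟨u, rfl⟩ := h
  obtain ⟨u', e⟩ := h'
  exact (a.sepV c c' u u' e.symm).resolve_right fun h => hv ((a.dV c u).2 h)

theorem eqW {c c' : CH} {z : W} (h : z ∈ range (a.sW c)) (h' : z ∈ range (a.sW c'))
    (hv : z ∉ range a.iW) : c = c' := by
  obtain ⟨u, rfl⟩ := h
  obtain ⟨u', e⟩ := h'
  exact (a.sepW c c' u u' e.symm).resolve_right fun h => hv ((a.dW c u).2 h)

variable {a}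

theorem RegV.pull {CsH : Set CH} {RH : Set (WH × VH)} {u : VH} (h : a.RegV CsH RH (a.iV u)) :
    u ∈ SH.BV CsH RH := by
  rcases h with ⟨u', h, e⟩ | ⟨c, hc, h⟩
  · exact a.iVinj e ▸ h
  · exact Or.inl ⟨c, hc, (a.hvb c u).2 h⟩

theorem RegW.pull {CsH : Set CH} {ZH : Set WH} {y : WH} (h : a.RegW CsH ZH (a.iW y)) :
    y ∈ SH.BW CsH ZH := by
  rcases h with ⟨u', h, e⟩ | ⟨c, hc, h⟩
  · exact Or.inr (a.iWinj e ▸ h)
  · exact Or.inl ⟨c, hc, (a.hwb c y).2 h⟩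

theorem RegV.common {C₁ C₂ : Set CH} {R₁ R₂ : Set (WH × VH)} (hd : Disjoint C₁ C₂) {v : V}
    (h₁ : a.RegV C₁ R₁ v) (h₂ : a.RegV C₂ R₂ v) :
    ∃ u, v = a.iV u ∧ u ∈ SH.BV C₁ R₁ ∧ u ∈ SH.BV C₂ R₂ := by
  by_cases hv : v ∈ range a.iV
  · obtain ⟨u, rfl⟩ := hv
    exact ⟨u, rfl, h₁.pull, h₂.pull⟩
  · rcases h₁ with ⟨u, -, e⟩ | ⟨c, hc, h⟩
    · exact (hv ⟨u, e⟩).elim
    rcases h₂ with ⟨u, -, e⟩ | ⟨c', hc', h'⟩
    · exact (hv ⟨u, e⟩).elim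
    exact (disjoint_left.1 hd hc (a.eqV h h' hv ▸ hc')).elim

theorem RegW.common {C₁ C₂ : Set CH} {Z₁ Z₂ : Set WH} (hd : Disjoint C₁ C₂) {z : W}
    (h₁ : a.RegW C₁ Z₁ z) (h₂ : a.RegW C₂ Z₂ z) :
    ∃ y, z = a.iW y ∧ y ∈ SH.BW C₁ Z₁ ∧ y ∈ SH.BW C₂ Z₂ := by
  by_cases hv : z ∈ range a.iW
  · obtain ⟨u, rfl⟩ := hv
    exact ⟨u, rfl, h₁.pull, h₂.pull⟩
  · rcases h₁ with ⟨u, -, e⟩ | ⟨c, hc, h⟩
    · exact (hv ⟨u, e⟩).elim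
    rcases h₂ with ⟨u, -, e⟩ | ⟨c', hc', h'⟩
    · exact (hv ⟨u, e⟩).elim
    exact (disjoint_left.1 hd hc (a.eqW h h' hv ▸ hc')).elim

theorem Host.reg {CsH : Set CH} {ZH : Set WH} {z : W} (h : a.Host CsH ZH z) : a.RegW CsH ZH z :=
  h.imp id And.right

theorem vb_range {P : CH × CL} {v : V} (h : v ∈ S.vb P) : v ∈ range (a.sV P.1) := by
  obtain ⟨c, P⟩ := P
  rw [a.vb] at h
  exact image_subset_range _ _ h

theorem wb_range {P : CH × CL} {z : W} (h : z ∈ S.wb P) : z ∈ range (a.sW P.1) := by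
  obtain ⟨c, P⟩ := P
  rw [a.wb] at h
  exact image_subset_range _ _ h

section
variable {CsH C₁ C₂ : Set CH} {ZH Z₁ Z₂ : Set WH} {RH R₁ R₂ : Set (WH × VH)}
  {XP XP₁ XP₂ : Finset (CH × CL)} {XW XW₁ XW₂ : Finset W} {Cs D₁ D₂ : Set (CH × CL)}
  {Z Y₁ Y₂ : Set W} {R T₁ T₂ : Set (W × V)}

theorem Res.regV (r : a.Res CsH ZH RH XP XW Cs Z R) {v : V} (h : v ∈ S.BV Cs R) :
    a.RegV CsH RH v := by
  rcases h with ⟨P, hP, h⟩ | ⟨z, h⟩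
  · exact Or.inr ⟨P.1, r.rC P hP, vb_range h⟩
  · exact r.rR z v h

theorem Res.regW (r : a.Res CsH ZH RH XP XW Cs Z R) {z : W} (h : z ∈ S.BW Cs Z) :
    a.RegW CsH ZH z := by
  rcases h with ⟨P, hP, h⟩ | h
  · exact Or.inr ⟨P.1, r.rC P hP, wb_range h⟩
  · exact r.rZ z h

theorem Res.disj (r₁ : a.Res C₁ Z₁ R₁ XP₁ XW₁ D₁ Y₁ T₁) (r₂ : a.Res C₂ Z₂ R₂ XP₂ XW₂ D₂ Y₂ T₂)
    (hd : Disjoint C₁ C₂) : Disjoint D₁ D₂ :=
  disjoint_left.2 fun P h₁ h₂ => disjoint_left.1 hd (r₁.rC P h₁) (r₂.rC P h₂)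

theorem Res.nil : a.Res CsH ZH RH ∅ ∅ ∅ ∅ ∅ := by
  refine ⟨Fo.empty, ?_, ?_, ?_, ?_, ?_, ?_, ?_, ?_, ?_, ?_⟩ <;> simp

theorem host_left (hc : ∀ y ∈ SH.BW C₁ Z₁, y ∈ SH.BW C₂ Z₂ → y ∈ Z₁) {z : W}
    (h : a.Host C₁ Z₁ z ∨ a.Host C₂ Z₂ z) {c : CH} (hc₁ : c ∈ C₁) (hz : z ∈ range (a.sW c)) :
    a.Host C₁ Z₁ z := by
  by_cases hv : z ∈ range a.iW
  · obtain ⟨y, rfl⟩ := hv
    refine h.elim id fun h => Or.inl ⟨y, hc y ?_ h.reg.pull, rfl⟩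
    exact Or.inl ⟨c, hc₁, (a.hwb c y).2 hz⟩
  · exact Or.inr ⟨hv, c, hc₁, hz⟩

theorem Res.s2' (r₁ : a.Res C₁ Z₁ R₁ XP₁ XW₁ D₁ Y₁ T₁) {z : W}
    (k : ∀ c ∈ C₁, z ∈ range (a.sW c) → z ∈ XW₁) {v : V} (hv : v ∈ S.N z) (hv' : v ∉ range a.iV)
    (hB : v ∈ S.BV D₁ T₁) : (z, v) ∈ T₁ := by
  rcases r₁.regV hB with ⟨u, -, e⟩ | ⟨c, hc, h⟩
  · exact (hv' ⟨u, e⟩).elim
  rcases a.inc z v hv with h' | ⟨c', h1, h2⟩
  · exact (hv' h'.1).elim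
  exact r₁.s2 z (k c hc (a.eqV h h1 hv' ▸ h2)) v hv hv' hB

theorem Res.merge (r₁ : a.Res C₁ Z₁ R₁ XP₁ XW₁ D₁ Y₁ T₁) (r₂ : a.Res C₂ Z₂ R₂ XP₂ XW₂ D₂ Y₂ T₂)
    (fo : Fo S full (D₁ ∪ D₂) (Y₁ ∪ Y₂) (T₁ ∪ T₂)) (hP : ∀ P ∈ XP, P ∈ XP₁ ∨ P ∈ XP₂)
    (hW : ∀ z ∈ XW, a.Host C₁ Z₁ z ∨ a.Host C₂ Z₂ z) (w₁ : ∀ z ∈ XW, a.Host C₁ Z₁ z → z ∈ XW₁)
    (w₂ : ∀ z ∈ XW, a.Host C₂ Z₂ z → z ∈ XW₂)
    (hc : ∀ y ∈ SH.BW C₁ Z₁, y ∈ SH.BW C₂ Z₂ → y ∈ Z₁ ∧ y ∈ Z₂)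
    (s₁ : ∀ y u, (y, u) ∈ R₁ → y ∈ Z₁) (s₂ : ∀ y u, (y, u) ∈ R₂ → y ∈ Z₂) :
    a.Res (C₁ ∪ C₂) (Z₁ ∪ Z₂) (R₁ ∪ R₂) XP XW (D₁ ∪ D₂) (Y₁ ∪ Y₂) (T₁ ∪ T₂) := by
  have k₁ : ∀ z ∈ XW, ∀ c ∈ C₁, z ∈ range (a.sW c) → z ∈ XW₁ := fun z hz c h1 h2 =>
    w₁ z hz (host_left (fun y h h' => (hc y h h').1) (hW z hz) h1 h2)
  have k₂ : ∀ z ∈ XW, ∀ c ∈ C₂, z ∈ range (a.sW c) → z ∈ XW₂ := fun z hz c h1 h2 =>
    w₂ z hz (host_left (fun y h h' => (hc y h' h).2) (hW z hz).symm h1 h2)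
  refine ⟨fo, fun P h => (hP P h).imp (r₁.cp P) (r₂.cp P),
    fun z h => (hW z h).imp (fun h' => r₁.wg z (w₁ z h h')) fun h' => r₂.wg z (w₂ z h h'),
    fun P h => h.imp (r₁.rC P) (r₂.rC P), ?_, ?_, ?_, ?_, ?_, ?_, ?_⟩
  · rintro z (h | h)
    · exact (r₁.rZ z h).imp (fun h => image_mono subset_union_left h)
        fun ⟨c, h1, h2⟩ => ⟨c, Or.inl h1, h2⟩
    · exact (r₂.rZ z h).imp (fun h => image_mono subset_union_right h)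
        fun ⟨c, h1, h2⟩ => ⟨c, Or.inr h1, h2⟩
  · rw [Sys.BV_union]
    rintro z v (h | h)
    · exact (r₁.rR z v h).imp (fun h => image_mono subset_union_left h)
        fun ⟨c, h1, h2⟩ => ⟨c, Or.inl h1, h2⟩
    · exact (r₂.rR z v h).imp (fun h => image_mono subset_union_right h)
        fun ⟨c, h1, h2⟩ => ⟨c, Or.inr h1, h2⟩
  · rintro y u hy (h | h)
    · exact Or.inl (r₁.s1 y u (w₁ _ hy (Or.inl ⟨y, s₁ y u h, rfl⟩)) h)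
    · exact Or.inr (r₂.s1 y u (w₂ _ hy (Or.inl ⟨y, s₂ y u h, rfl⟩)) h)
  · rw [Sys.BV_union]
    rintro z hz v hv hv' (h | h)
    · exact Or.inl (r₁.s2' (k₁ z hz) hv hv' h)
    · exact Or.inr (r₂.s2' (k₂ z hz) hv hv' h)
  · intro z hz hz' v hv
    exact (hW z hz).imp (fun h => r₁.s3 z (w₁ z hz h) hz' v hv) fun h => r₂.s3 z (w₂ z hz h) hz' v hv
  · rintro c (h | h) z hz z' hz' hne h1 h2 v hv hv'
    · exact Or.inl (r₁.s4 c h z (k₁ z hz c h h1) z' (k₁ z' hz' c h h2) hne h1 h2 v hv hv')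
    · exact Or.inr (r₂.s4 c h z (k₂ z hz c h h1) z' (k₂ z' hz' c h h2) hne h1 h2 v hv hv')
  · rintro P (h | h) z hz z' hz' hne h1 h2
    · exact Or.inl (r₁.cl P h z (k₁ z hz _ h (wb_range h1)) z' (k₁ z' hz' _ h (wb_range h2)) hne
        h1 h2)
    · exact Or.inr (r₂.cl P h z (k₂ z hz _ h (wb_range h1)) z' (k₂ z' hz' _ h (wb_range h2)) hne
        h1 h2)

theorem host_union {z : W} (h : a.Host (C₁ ∪ C₂) (Z₁ ∪ Z₂) z) :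
    a.Host C₁ Z₁ z ∨ a.Host C₂ Z₂ z := by
  rcases h with ⟨y, h | h, e⟩ | ⟨h, c, hc | hc, h'⟩
  exacts [Or.inl (Or.inl ⟨y, h, e⟩), Or.inr (Or.inl ⟨y, h, e⟩), Or.inl (Or.inr ⟨h, c, hc, h'⟩),
    Or.inr (Or.inr ⟨h, c, hc, h'⟩)]

end

theorem core_atom {n : ℕ} (hL : FP SL full n) {c : CH} {ZH : Set WH} {RH : Set (WH × VH)}
    (h1 : ZH ⊆ SH.wb c) (h2 : ∀ z v, (z, v) ∈ RH → z ∈ ZH ∧ v ∈ SH.vb c ∧ v ∈ SH.N z)
    (XP : Finset (CH × CL)) (XW : Finset W) (hn : XP.card + XW.card ≤ n)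
    (hP : ∀ P ∈ XP, P.1 = c) (hW : ∀ z ∈ XW, a.Host {c} ZH z) :
    ∃ Cs Z R, a.Res {c} ZH RH XP XW Cs Z R := by
  classical
  have hW' : ∀ z ∈ XW, z ∈ range (a.sW c) := by
    intro z hz
    rcases hW z hz with ⟨y, hy, rfl⟩ | ⟨-, c', rfl, h⟩
    · exact (a.hwb c y).1 (h1 hy)
    · exact h
  obtain ⟨Cs, Z, R, hf, hc⟩ := hL (XP.image Prod.snd) (XW.preimage (a.sW c) (a.sWinj c).injOn)
    ((add_le_add Finset.card_image_le (Finset.card_le_card_of_injOn (a.sW c)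
      (fun y hy => by simpa using hy) (a.sWinj c).injOn)).trans hn)
  have fo := hf.map (S' := S) (fC := fun P => (c, P)) (fW := a.sW c) (fV := a.sV c)
    (fun P Q h => (Prod.ext_iff.1 h).2) (a.sWinj c) (a.sVinj c) (a.vb c) (a.wb c)
    (fun y u hu => (a.sN c y u).2 hu) (fun hf y v hv => by
      obtain ⟨u, rfl⟩ := a.fs hf c y hv
      exact ⟨u, (a.sN c y u).1 hv, rfl⟩)
  have key : ∀ z ∈ XW, ∀ v ∈ S.N z, v ∈ range (a.sV c) →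
      (z, v) ∈ Prod.map (a.sW c) (a.sV c) '' R := by
    rintro z hz v hv ⟨u, rfl⟩
    obtain ⟨y, rfl⟩ := hW' z hz
    exact ⟨(y, u), hc.st y (by simpa using hz) u ((a.sN c y u).1 hv), rfl⟩
  have rR : ∀ z v, (z, v) ∈ Prod.map (a.sW c) (a.sV c) '' R → v ∈ range (a.sV c) := by
    rintro z v ⟨p, -, e⟩
    exact ⟨p.2, (Prod.ext_iff.1 e).2⟩
  refine ⟨_, _, _, fo, ?_, ?_, ?_, ?_, ?_, ?_, ?_, ?_, ?_, ?_⟩
  · intro P h
    exact ⟨P.2, hc.cp _ (Finset.mem_image_of_mem _ h), Prod.ext (hP P h).symm rfl⟩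
  · intro z hz
    obtain ⟨y, rfl⟩ := hW' z hz
    exact ⟨y, hc.wg y (by simpa using hz), rfl⟩
  · rintro _ ⟨P, -, rfl⟩
    rfl
  · rintro _ ⟨y, -, rfl⟩
    exact Or.inr ⟨c, rfl, y, rfl⟩
  · exact fun z v h => Or.inr ⟨c, rfl, rR z v h⟩
  · intro y u hy h
    exact key _ hy _ ((a.iN y u).2 (h2 y u h).2.2) ((a.hvb c u).1 (h2 y u h).2.1)
  · rintro z hz v hv - (⟨_, ⟨P, -, rfl⟩, h⟩ | ⟨y, h⟩)
    · exact key z hz v hv (vb_range h)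
    · exact key z hz v hv (rR y v h)
  · intro z hz hz' v hv
    rcases a.inc z v hv with h | ⟨c', h3, h4⟩
    · exact (hz' h.2).elim
    · exact key z hz v hv (a.eqW h4 (hW' z hz) hz' ▸ h3)
  · rintro _ rfl z hz z' - - - - v hv hv'
    exact key z hz v hv hv'
  · rintro ⟨c', P⟩ (rfl : c' = c) z hz z' hz' hne h3 h4
    rw [a.wb] at h3 h4
    obtain ⟨y, h3, rfl⟩ := h3
    obtain ⟨y', h4, rfl⟩ := h4
    exact ⟨P, hc.cl P y (by simpa using hz) y' (by simpa using hz') (fun e => hne (e ▸ rfl)) h3 h4,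
      rfl⟩

theorem core_star {y : WH} {RH : Set (WH × VH)} (h1 : ∀ z v, (z, v) ∈ RH → z = y ∧ v ∈ SH.N y)
    (h2 : full → ∀ v ∈ SH.N y, (y, v) ∈ RH) (XP : Finset (CH × CL)) (XW : Finset W)
    (hP : ∀ P ∈ XP, P.1 ∈ (∅ : Set CH)) (hW : ∀ z ∈ XW, a.Host ∅ {y} z) :
    a.Res ∅ {y} RH XP XW ∅ {a.iW y} (Prod.map a.iW a.iV '' RH) := by
  have hW' : ∀ z ∈ XW, z = a.iW y := by
    intro z hz
    rcases hW z hz with ⟨_, rfl, rfl⟩ | ⟨-, c', h, -⟩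
    · rfl
    · exact h.elim
  have rR : ∀ z v, (z, v) ∈ Prod.map a.iW a.iV '' RH → v ∈ a.iV '' SH.BV ∅ RH := by
    rintro z v ⟨p, hp, e⟩
    exact ⟨p.2, Or.inr ⟨p.1, hp⟩, (Prod.ext_iff.1 e).2⟩
  refine ⟨Fo.star _ _ ?_ ?_, fun P h => (hP P h).elim, hW', fun P h => h.elim, ?_,
    fun z v h => Or.inl (rR z v h), fun y u _ h => ⟨(y, u), h, rfl⟩, ?_, ?_, fun c h => h.elim,
    fun P h => h.elim⟩
  · rintro z v ⟨⟨z', u⟩, hp, e⟩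
    obtain ⟨rfl, rfl⟩ := Prod.ext_iff.1 e
    obtain ⟨rfl, h⟩ := h1 z' u hp
    exact ⟨rfl, (a.iN _ u).2 h⟩
  · intro hf v hv
    obtain ⟨u, rfl⟩ := a.fi hf y hv
    exact ⟨(y, u), h2 hf u ((a.iN y u).1 hv), rfl⟩
  · rintro _ rfl
    exact Or.inl ⟨y, rfl, rfl⟩
  · rintro z hz v hv hv' (⟨P, h, -⟩ | ⟨z', h⟩)
    · exact h.elim
    · exact (hv' (image_subset_range _ _ (rR z' v h))).elim
  · intro z hz hz'
    exact (hz' ⟨y, (hW' z hz).symm⟩).elim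

end Amal

/-- Induction on the forest of `SH`, for all `XP`, `XW`. -/
theorem Amal.core (a : Amal SH SL S full) {n : ℕ} (hL : FP SL full n) {CsH : Set CH} {ZH : Set WH}
    {RH : Set (WH × VH)} (hT : Fo SH full CsH ZH RH) (XP : Finset (CH × CL)) (XW : Finset W)
    (hn : XP.card + XW.card ≤ n) (hP : ∀ P ∈ XP, P.1 ∈ CsH)
    (hW : ∀ z ∈ XW, z ∈ a.iW '' ZH ∨ (z ∉ range a.iW ∧ ∃ c ∈ CsH, z ∈ range (a.sW c))) :
    ∃ Cs Z R, a.Res CsH ZH RH XP XW Cs Z R := by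
  classical
  change ∀ z ∈ XW, a.Host CsH ZH z at hW
  induction hT generalizing XP XW with
  | empty =>
    obtain rfl : XP = ∅ := Finset.eq_empty_of_forall_notMem fun P h => hP P h
    obtain rfl : XW = ∅ := Finset.eq_empty_of_forall_notMem fun z h => by
      rcases hW z h with ⟨_, h, _⟩ | ⟨-, _, h, -⟩ <;> exact h
    exact ⟨_, _, _, Amal.Res.nil⟩
  | atom c ZH RH h1 h2 _ => exact Amal.core_atom hL h1 h2 XP XW hn hP hW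
  | star y RH h1 h2 => exact ⟨_, _, _, Amal.core_star h1 h2 XP XW hP hW⟩
  | @glueV C₁ C₂ Z₁ Z₂ R₁ R₂ f₁ f₂ hd hw hv ih₁ ih₂ =>
    obtain ⟨D₁, Y₁, T₁, r₁⟩ := ih₁ (XP.filter (·.1 ∈ C₁)) (XW.filter (a.Host C₁ Z₁))
      ((add_le_add (Finset.card_filter_le _ _) (Finset.card_filter_le _ _)).trans hn)
      (fun P h => (Finset.mem_filter.1 h).2) fun z h => (Finset.mem_filter.1 h).2
    obtain ⟨D₂, Y₂, T₂, r₂⟩ := ih₂ (XP.filter (·.1 ∈ C₂)) (XW.filter (a.Host C₂ Z₂))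
      ((add_le_add (Finset.card_filter_le _ _) (Finset.card_filter_le _ _)).trans hn)
      (fun P h => (Finset.mem_filter.1 h).2) fun z h => (Finset.mem_filter.1 h).2
    refine ⟨_, _, _, r₁.merge r₂ (Fo.glueV r₁.fo r₂.fo (r₁.disj r₂ hd) ?_ ?_)
      (fun P h => (hP P h).imp (fun h' => Finset.mem_filter.2 ⟨h, h'⟩)
        fun h' => Finset.mem_filter.2 ⟨h, h'⟩) (fun z h => Amal.host_union (hW z h))
      (fun z h h' => Finset.mem_filter.2 ⟨h, h'⟩) (fun z h h' => Finset.mem_filter.2 ⟨h, h'⟩)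
      (fun y h h' => (disjoint_left.1 hw h h').elim) (fun y u h => (f₁.sound h).1)
      fun y u h => (f₂.sound h).1⟩
    · refine disjoint_left.2 fun z h₁ h₂ => ?_
      obtain ⟨y, -, h3, h4⟩ := (r₁.regW h₁).common hd (r₂.regW h₂)
      exact disjoint_left.1 hw h3 h4
    · intro v h v' h'
      obtain ⟨u, rfl, h3⟩ := (r₁.regV h.1).common hd (r₂.regV h.2)
      obtain ⟨u', rfl, h4⟩ := (r₁.regV h'.1).common hd (r₂.regV h'.2)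
      rw [hv h3 h4]
  | @glueW y₀ C₁ C₂ Z₁ Z₂ R₁ R₂ f₁ f₂ hd hz₁ hz₂ hw hv ih₁ ih₂ =>
    set P₁ := XP.filter (·.1 ∈ C₁) with eP₁
    set P₂ := XP.filter (·.1 ∈ C₂) with eP₂
    set W₁ := XW.filter (a.Host C₁ Z₁) with eW₁
    set W₂ := XW.filter (a.Host C₂ Z₂) with eW₂
    have p₁ : ∀ P ∈ P₁, P.1 ∈ C₁ := fun P h => (Finset.mem_filter.1 h).2
    have p₂ : ∀ P ∈ P₂, P.1 ∈ C₂ := fun P h => (Finset.mem_filter.1 h).2
    have q₁ : ∀ z ∈ W₁, a.Host C₁ Z₁ z := fun z h => (Finset.mem_filter.1 h).2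
    have q₂ : ∀ z ∈ W₂, a.Host C₂ Z₂ z := fun z h => (Finset.mem_filter.1 h).2
    have hP' : ∀ P ∈ XP, P ∈ P₁ ∨ P ∈ P₂ := fun P h => (hP P h).imp
      (fun h' => Finset.mem_filter.2 ⟨h, h'⟩) fun h' => Finset.mem_filter.2 ⟨h, h'⟩
    have hW' := fun z h => Amal.host_union (hW z h)
    have w₁ : ∀ z ∈ XW, a.Host C₁ Z₁ z → z ∈ W₁ := fun z h h' => Finset.mem_filter.2 ⟨h, h'⟩
    have w₂ : ∀ z ∈ XW, a.Host C₂ Z₂ z → z ∈ W₂ := fun z h h' => Finset.mem_filter.2 ⟨h, h'⟩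
    have hc : ∀ y ∈ SH.BW C₁ Z₁, y ∈ SH.BW C₂ Z₂ → y ∈ Z₁ ∧ y ∈ Z₂ := fun y h h' =>
      hw y h h' ▸ ⟨hz₁, hz₂⟩
    have s₁ : ∀ y u, (y, u) ∈ R₁ → y ∈ Z₁ := fun y u h => (f₁.sound h).1
    have s₂ : ∀ y u, (y, u) ∈ R₂ → y ∈ Z₂ := fun y u h => (f₂.sound h).1
    have c₁ : P₁.card ≤ XP.card := Finset.card_filter_le _ _
    have c₂ : P₂.card ≤ XP.card := Finset.card_filter_le _ _
    have c₃ : W₁.card ≤ XW.card := Finset.card_filter_le _ _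
    have c₄ : W₂.card ≤ XW.card := Finset.card_filter_le _ _
    by_cases e₂ : P₂ = ∅ ∧ W₂ = ∅
    · obtain ⟨D₁, Y₁, T₁, r₁⟩ := ih₁ P₁ W₁ (by omega) p₁ q₁
      exact ⟨_, _, _, r₁.merge Amal.Res.nil (by simpa using r₁.fo) (e₂.1 ▸ hP') hW' w₁ (e₂.2 ▸ w₂)
        hc s₁ s₂⟩
    by_cases e₁ : P₁ = ∅ ∧ W₁ = ∅
    · obtain ⟨D₂, Y₂, T₂, r₂⟩ := ih₂ P₂ W₂ (by omega) p₂ q₂
      exact ⟨_, _, _, Amal.Res.nil.merge r₂ (by simpa using r₂.fo) (e₁.1 ▸ hP') hW' (e₁.2 ▸ w₁) w₂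
        hc s₁ s₂⟩
    have o₁ : a.Host C₁ Z₁ (a.iW y₀) := Or.inl ⟨y₀, hz₁, rfl⟩
    have o₂ : a.Host C₂ Z₂ (a.iW y₀) := Or.inl ⟨y₀, hz₂, rfl⟩
    have hcard : P₁.card + (insert (a.iW y₀) W₁).card ≤ n ∧
        P₂.card + (insert (a.iW y₀) W₂).card ≤ n := by
      by_cases h0 : a.iW y₀ ∈ XW
      · rw [Finset.insert_eq_of_mem (w₁ _ h0 o₁), Finset.insert_eq_of_mem (w₂ _ h0 o₂)]
        omega
      · have d₁ : P₁.card + P₂.card ≤ XP.card := by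
          rw [← Finset.card_union_of_disjoint (Finset.disjoint_left.2 fun P h h' =>
            disjoint_left.1 hd (p₁ P h) (p₂ P h'))]
          exact Finset.card_le_card
            (Finset.union_subset (Finset.filter_subset _ _) (Finset.filter_subset _ _))
        have d₂ : W₁.card + W₂.card ≤ XW.card := by
          rw [← Finset.card_union_of_disjoint (Finset.disjoint_left.2 fun z h h' => ?_)]
          · exact Finset.card_le_card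
              (Finset.union_subset (Finset.filter_subset _ _) (Finset.filter_subset _ _))
          · obtain ⟨y, rfl, h3, h4⟩ := (q₁ z h).reg.common hd (q₂ z h').reg
            exact h0 (hw y h3 h4 ▸ (Finset.mem_filter.1 h).1)
        have := Finset.card_insert_le (a.iW y₀) W₁
        have := Finset.card_insert_le (a.iW y₀) W₂
        simp only [← Finset.card_eq_zero] at e₁ e₂
        omega
    obtain ⟨D₁, Y₁, T₁, r₁⟩ := ih₁ P₁ (insert (a.iW y₀) W₁) hcard.1 p₁ fun z h =>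
      (Finset.mem_insert.1 h).elim (fun e => e ▸ o₁) (q₁ z)
    obtain ⟨D₂, Y₂, T₂, r₂⟩ := ih₂ P₂ (insert (a.iW y₀) W₂) hcard.2 p₂ fun z h =>
      (Finset.mem_insert.1 h).elim (fun e => e ▸ o₂) (q₂ z)
    refine ⟨_, _, _, r₁.merge r₂ (Fo.glueW (a.iW y₀) r₁.fo r₂.fo (r₁.disj r₂ hd)
      (r₁.wg _ (Finset.mem_insert_self _ _)) (r₂.wg _ (Finset.mem_insert_self _ _)) ?_ ?_) hP' hW'
      (fun z h h' => Finset.mem_insert_of_mem (w₁ z h h'))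
      (fun z h h' => Finset.mem_insert_of_mem (w₂ z h h')) hc s₁ s₂⟩
    · intro z h₁ h₂
      obtain ⟨y, rfl, h3, h4⟩ := (r₁.regW h₁).common hd (r₂.regW h₂)
      rw [hw y h3 h4]
    · intro v h₁ h₂
      obtain ⟨u, rfl, h3, h4⟩ := (r₁.regV h₁).common hd (r₂.regV h₂)
      exact ⟨r₁.s1 y₀ u (Finset.mem_insert_self _ _) (hv u h3 h4).1,
        r₂.s1 y₀ u (Finset.mem_insert_self _ _) (hv u h3 h4).2⟩

/-- From a forest of `SH` that hosts everything to a cover in `S`. -/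
theorem Amal.cover (a : Amal SH SL S full) {n : ℕ} (hL : FP SL full n) {CsH : Set CH} {ZH : Set WH}
    {RH : Set (WH × VH)} (hT : Fo SH full CsH ZH RH) (XP : Finset (CH × CL)) (XW : Finset W)
    (hn : XP.card + XW.card ≤ n) (hP : ∀ P ∈ XP, P.1 ∈ CsH)
    (hW : ∀ z ∈ XW, z ∉ range a.iW → ∃ c ∈ CsH, z ∈ range (a.sW c))
    (hH : ∀ y, a.iW y ∈ XW → y ∈ ZH ∧ ∀ u ∈ SH.N y, (y, u) ∈ RH)
    (h1 : ∀ P : CH × CL, ∀ z ∈ XW, ∀ z' ∈ XW, z ≠ z' → z ∈ S.wb P → z' ∈ S.wb P → P.1 ∈ CsH)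
    (h2 : ∀ c, ∀ z ∈ XW, ∀ z' ∈ XW, z ≠ z' → z ∈ range (a.sW c) → z' ∈ range (a.sW c) →
      ∀ v ∈ S.N z, v ∈ S.N z' → v ∉ range a.iV → v ∈ range (a.sV c) → c ∈ CsH) :
    ∃ Cs Z R, Fo S full Cs Z R ∧ S.Cov XP XW Cs Z R := by
  obtain ⟨Cs, Z, R, r⟩ := a.core hL hT XP XW hn hP fun z hz => by
    by_cases h : z ∈ range a.iW
    · obtain ⟨y, rfl⟩ := h
      exact Or.inl ⟨y, (hH y hz).1, rfl⟩
    · exact Or.inr ⟨h, hW z hz h⟩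
  have k : ∀ z ∈ XW, ∀ v ∈ S.N z, v ∈ range a.iV → (z, v) ∈ R := by
    rintro z hz v hv ⟨u, rfl⟩
    by_cases h : z ∈ range a.iW
    · obtain ⟨y, rfl⟩ := h
      exact r.s1 y u hz ((hH y hz).2 u ((a.iN y u).1 hv))
    · exact r.s3 z hz h _ hv
  refine ⟨Cs, Z, _, r.fo.addPrivs XW r.wg (fun z hz v hv hB => ?_)
    fun z hz z' hz' hne v hv hv' => Or.inr ⟨z, ?_⟩, r.cp, r.wg, fun z hz v hv => Or.inr ⟨hz, hv⟩,
    fun P z hz z' hz' hne h3 h4 => r.cl P (h1 P z hz z' hz' hne h3 h4) z hz z' hz' hne h3 h4⟩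
  · by_cases h : v ∈ range a.iV
    · exact k z hz v hv h
    · exact r.s2 z hz v hv h hB
  · by_cases h : v ∈ range a.iV
    · exact k z hz v hv h
    rcases a.inc z v hv with h' | ⟨c, h3, h4⟩
    · exact (h h'.1).elim
    rcases a.inc z' v hv' with h' | ⟨c', h5, h6⟩
    · exact (h h'.1).elim
    obtain rfl := a.eqV h3 h5 h
    exact r.s4 c (h2 c z hz z' hz' hne h4 h6 v hv hv' h h3) z hz z' hz' hne h4 h6 v hv h3

theorem Amal.fp (a : Amal SH SL S full) {n : ℕ} (hH : FP SH full n) (hL : FP SL full n) :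
    FP S full n := by
  classical
  intro XP XW hn
  have hh : ∀ z : W, z ∉ range a.iW → ∃ c, z ∈ range (a.sW c) := fun z h =>
    (a.cov z).resolve_left h
  choose ho hho using hh
  set A := XW.filter (· ∉ range a.iW) with hA
  set B := XW.preimage a.iW a.iWinj.injOn with hB
  have hA' : ∀ z ∈ A, z ∉ range a.iW := fun z h => (Finset.mem_filter.1 h).2
  have cAB : A.card + B.card ≤ XW.card := by
    rw [← Finset.card_image_of_injective B a.iWinj, ← Finset.card_union_of_disjoint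
      (Finset.disjoint_left.2 fun z h h' => ?_)]
    · refine Finset.card_le_card (Finset.union_subset (Finset.filter_subset _ _) fun z h => ?_)
      obtain ⟨y, h', rfl⟩ := Finset.mem_image.1 h
      exact Finset.mem_preimage.1 h'
    · obtain ⟨y, -, rfl⟩ := Finset.mem_image.1 h'
      exact hA' _ h ⟨y, rfl⟩
  obtain ⟨CsH, ZH, RH, hT, hc⟩ := hH
    (XP.image Prod.fst ∪ A.attach.image fun z : {z // z ∈ A} => ho z.1 (hA' z.1 z.2)) B (by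
      have h1 := Finset.card_union_le (XP.image Prod.fst)
        (A.attach.image fun z : {z // z ∈ A} => ho z.1 (hA' z.1 z.2))
      have h2 : (XP.image Prod.fst).card ≤ XP.card := Finset.card_image_le
      have h3 : (A.attach.image fun z : {z // z ∈ A} => ho z.1 (hA' z.1 z.2)).card ≤ A.card :=
        Finset.card_image_le.trans Finset.card_attach.le
      omega)
  have k₁ : ∀ z ∈ XW, z ∉ range a.iW → ∀ c, z ∈ range (a.sW c) → c ∈ CsH := fun z hz h c h' =>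
    a.eqW (hho z h) h' h ▸ hc.cp _ (Finset.mem_union_right _ (Finset.mem_image.2
      ⟨⟨z, Finset.mem_filter.2 ⟨hz, h⟩⟩, Finset.mem_attach _ _, rfl⟩))
  have k₂ : ∀ c, ∀ z ∈ XW, ∀ z' ∈ XW, z ≠ z' → z ∈ range (a.sW c) → z' ∈ range (a.sW c) →
      c ∈ CsH := by
    intro c z hz z' hz' hne h1 h2
    by_cases h : z ∈ range a.iW
    swap
    · exact k₁ z hz h c h1
    by_cases h' : z' ∈ range a.iW
    swap
    · exact k₁ z' hz' h' c h2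
    obtain ⟨y, rfl⟩ := h
    obtain ⟨y', rfl⟩ := h'
    exact hc.cl c y (Finset.mem_preimage.2 hz) y' (Finset.mem_preimage.2 hz')
      (fun e => hne (e ▸ rfl)) ((a.hwb c y).2 h1) ((a.hwb c y').2 h2)
  exact a.cover hL hT XP XW hn
    (fun P h => hc.cp _ (Finset.mem_union_left _ (Finset.mem_image_of_mem _ h)))
    (fun z hz h => ⟨_, k₁ z hz h _ (hho z h), hho z h⟩)
    (fun y hy => ⟨hc.wg y (Finset.mem_preimage.2 hy), hc.st y (Finset.mem_preimage.2 hy)⟩)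
    (fun P z hz z' hz' hne h1 h2 => k₂ _ z hz z' hz' hne (Amal.wb_range h1) (Amal.wb_range h2))
    fun c z hz z' hz' hne h1 h2 _ _ _ _ _ => k₂ c z hz z' hz' hne h1 h2

end Pool.Agent.Lib.MP_781e3b_co.RR
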