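import Mathlib

/-!
Definitions for the girth Ramsey theorem (Reiher-Rodl) in forest form.
-/

namespace Pool.Agent.Lib.MP_781e3b_co.RR

open Set Function

/-! ### Forests of sets -/

/-- Union of the sets with index in `X`. -/
def Un {W V : Type} (N : W → Set V) (X : Set W) : Set V := {v | ∃ z ∈ X, v ∈ N z}

/-- The sets `N z`, `z ∈ X`, form a forest. -/
inductive SF {W V : Type} (N : W → Set V) : Set W → Prop
  | empty : SF N ∅
  | single (z : W) : SF N {z}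
  | glue {X Y : Set W} : SF N X → SF N Y → Disjoint X Y → (Un N X ∩ Un N Y).Subsingleton →
      SF N (X ∪ Y)

/-- Girth larger than `n`. -/
def Gir {W V : Type} (N : W → Set V) (n : ℕ) : Prop := ∀ X : Finset W, X.card ≤ n → SF N ↑X

/-- Linear set system. -/
def Lin {W V : Type} (N : W → Set V) : Prop := ∀ z z', z ≠ z' → (N z ∩ N z').Subsingleton

/-! ### Forests of copies -/

/-- A system of copies: each copy has a bag of vertices and a bag of wagons. -/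
structure Sys (C W V : Type) where
  vb : C → Set V
  wb : C → Set W
  N : W → Set V

section
variable {C W V : Type}

/-- Vertices seen by a forest. -/
def Sys.BV (S : Sys C W V) (Cs : Set C) (R : Set (W × V)) : Set V :=
  {v | (∃ P ∈ Cs, v ∈ S.vb P) ∨ ∃ z, (z, v) ∈ R}

/-- Wagons seen by a forest. -/
def Sys.BW (S : Sys C W V) (Cs : Set C) (Z : Set W) : Set W :=
  {z | (∃ P ∈ Cs, z ∈ S.wb P) ∨ z ∈ Z}

/-- Forest with copies `Cs`, starred wagons `Z` and visible incidences `R`. With `full` every star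
shows all vertices of its wagon. -/
inductive Fo (S : Sys C W V) (full : Prop) : Set C → Set W → Set (W × V) → Prop
  | empty : Fo S full ∅ ∅ ∅
  | atom (P : C) (Z : Set W) (R : Set (W × V)) : Z ⊆ S.wb P →
      (∀ z v, (z, v) ∈ R → z ∈ Z ∧ v ∈ S.vb P ∧ v ∈ S.N z) →
      (full → ∀ z ∈ Z, ∀ v ∈ S.N z, (z, v) ∈ R) → Fo S full {P} Z R
  | star (z : W) (R : Set (W × V)) : (∀ y v, (y, v) ∈ R → y = z ∧ v ∈ S.N z) →
      (full → ∀ v ∈ S.N z, (z, v) ∈ R) → Fo S full ∅ {z} R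
  | glueV {C₁ C₂ : Set C} {Z₁ Z₂ : Set W} {R₁ R₂ : Set (W × V)} :
      Fo S full C₁ Z₁ R₁ → Fo S full C₂ Z₂ R₂ → Disjoint C₁ C₂ →
      Disjoint (S.BW C₁ Z₁) (S.BW C₂ Z₂) → (S.BV C₁ R₁ ∩ S.BV C₂ R₂).Subsingleton →
      Fo S full (C₁ ∪ C₂) (Z₁ ∪ Z₂) (R₁ ∪ R₂)
  | glueW (z : W) {C₁ C₂ : Set C} {Z₁ Z₂ : Set W} {R₁ R₂ : Set (W × V)} :
      Fo S full C₁ Z₁ R₁ → Fo S full C₂ Z₂ R₂ → Disjoint C₁ C₂ → z ∈ Z₁ → z ∈ Z₂ →
      (∀ y ∈ S.BW C₁ Z₁, y ∈ S.BW C₂ Z₂ → y = z) →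
      (∀ v ∈ S.BV C₁ R₁, v ∈ S.BV C₂ R₂ → (z, v) ∈ R₁ ∧ (z, v) ∈ R₂) →
      Fo S full (C₁ ∪ C₂) (Z₁ ∪ Z₂) (R₁ ∪ R₂)

/-- The forest `(Cs, Z, R)` covers the copies `XP` and the wagons `XW`, and holds every copy that
contains two wagons of `XW`. -/
structure Sys.Cov (S : Sys C W V) (XP : Finset C) (XW : Finset W) (Cs : Set C) (Z : Set W)
    (R : Set (W × V)) : Prop where
  cp : ∀ P ∈ XP, P ∈ Cs
  wg : ∀ z ∈ XW, z ∈ Z
  st : ∀ z ∈ XW, ∀ v ∈ S.N z, (z, v) ∈ R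
  cl : ∀ P, ∀ z ∈ XW, ∀ z' ∈ XW, z ≠ z' → z ∈ S.wb P → z' ∈ S.wb P → P ∈ Cs

/-- Any `n` copies and wagons are covered by a forest. -/
def FP (S : Sys C W V) (full : Prop) (n : ℕ) : Prop :=
  ∀ (XP : Finset C) (XW : Finset W), XP.card + XW.card ≤ n →
    ∃ Cs Z R, Fo S full Cs Z R ∧ S.Cov XP XW Cs Z R

/-- A wagon in a copy has all its vertices in the copy (true on the level of edges). -/
def Sys.Whole (S : Sys C W V) : Prop := ∀ P, ∀ z ∈ S.wb P, S.N z ⊆ S.vb P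

end

/-- `S` is an amalgam: a part that is a copy of the ground structure of `SH`, and for every copy `c`
of `SH` a standard copy of `SL`, whose part `(DV, DW)` is identified with the bag of `c`. -/
structure Amal {CH WH VH CL WL VL W V : Type} (SH : Sys CH WH VH) (SL : Sys CL WL VL)
    (S : Sys (CH × CL) W V) (full : Prop) where
  iV : VH → V
  iW : WH → W
  sV : CH → VL → V
  sW : CH → WL → W
  DV : Set VL
  DW : Set WL
  iVinj : Injective iV
  iWinj : Injective iW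
  sVinj : ∀ c, Injective (sV c)
  sWinj : ∀ c, Injective (sW c)
  vb : ∀ c P, S.vb (c, P) = sV c '' SL.vb P
  wb : ∀ c P, S.wb (c, P) = sW c '' SL.wb P
  iN : ∀ y u, iV u ∈ S.N (iW y) ↔ u ∈ SH.N y
  sN : ∀ c y u, sV c u ∈ S.N (sW c y) ↔ u ∈ SL.N y
  inc : ∀ z v, v ∈ S.N z → (v ∈ range iV ∧ z ∈ range iW) ∨ ∃ c, v ∈ range (sV c) ∧ z ∈ range (sW c)
  cov : ∀ z, z ∈ range iW ∨ ∃ c, z ∈ range (sW c)
  dV : ∀ c u, sV c u ∈ range iV ↔ u ∈ DV
  dW : ∀ c y, sW c y ∈ range iW ↔ y ∈ DW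
  sepV : ∀ c c' u u', sV c u = sV c' u' → c = c' ∨ u ∈ DV
  sepW : ∀ c c' y y', sW c y = sW c' y' → c = c' ∨ y ∈ DW
  hvb : ∀ c u, u ∈ SH.vb c ↔ iV u ∈ range (sV c)
  hwb : ∀ c y, y ∈ SH.wb c ↔ iW y ∈ range (sW c)
  fi : full → ∀ y, S.N (iW y) ⊆ range iV
  fs : full → ∀ c y, S.N (sW c y) ⊆ range (sV c)

/-! ### Trains -/

/-- Put `a` in front of a sequence. -/
def cons {α : Type} (a : α) (f : ℕ → α) : ℕ → α
  | 0 => a
  | μ + 1 => f μ

/-- Vertices with labels, wagons on every level with vertex sets, edges (level `0`) as tuples. -/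
structure Tr (I K : Type) where
  V : Type
  W : ℕ → Type
  finV : Finite V
  finW : ∀ μ, Finite (W μ)
  par : ∀ μ, W μ → W (μ + 1)
  N : ∀ μ, W μ → Set V
  tup : W 0 → K → V
  lab : V → I

attribute [instance] Tr.finV Tr.finW

/-- Ancestors in a tower. -/
def anc {W : ℕ → Type} (par : ∀ μ, W μ → W (μ + 1)) : ∀ μ, W 0 → W μ
  | 0 => id
  | μ + 1 => fun z => par μ (anc par μ z)

section
variable {I K : Type}

/-- A train of height `m` with parameters `A`: siblings on level `μ < m` meet only in vertices with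
label in `A μ`, wagons on level `m` are disjoint. -/
structure Good [LinearOrder K] (τ : K → I) (m : ℕ) (A : ℕ → Set I) (F : Tr I K) : Prop where
  N0 : ∀ f, F.N 0 f = range (F.tup f)
  lab : ∀ f k, F.lab (F.tup f k) = τ k
  sub : ∀ μ < m, ∀ z, F.N μ z ⊆ F.N (μ + 1) (F.par μ z)
  sib : ∀ μ ≤ m, ∀ z z', z ≠ z' → (μ < m → F.par μ z = F.par μ z') →
    ∀ v ∈ F.N μ z, v ∈ F.N μ z' → μ < m ∧ F.lab v ∈ A μ
  ord : ∃ ρ : F.V → ℕ, ∀ f, StrictMono fun k => ρ (F.tup f k)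

/-- Homomorphism of trains of height `m`. -/
structure Hom (m : ℕ) (F H : Tr I K) where
  v : F.V → H.V
  w : ∀ μ, F.W μ → H.W μ
  par : ∀ μ z, w (μ + 1) (F.par μ z) = H.par μ (w μ z)
  N : ∀ μ ≤ m, ∀ z x, x ∈ F.N μ z → v x ∈ H.N μ (w μ z)
  tup : ∀ f k, H.tup (w 0 f) k = v (F.tup f k)
  lab : ∀ x, H.lab (v x) = F.lab x

/-- Induced embedding of trains of height `m`. -/
structure Emb (m : ℕ) (F H : Tr I K) extends Hom m F H where
  vinj : Injective v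
  winj : ∀ μ ≤ m, Injective (w μ)
  ind : ∀ μ ≤ m, ∀ z x, v x ∈ H.N μ (w μ z) → x ∈ F.N μ z

/-- The system of copies on level `μ`. -/
def sys {m : ℕ} {F H : Tr I K} {J : Type} (e : J → Emb m F H) (μ : ℕ) : Sys J (H.W μ) H.V where
  vb j := range (e j).v
  wb j := range ((e j).w μ)
  N := H.N μ

/-- What a Ramsey construction gives. -/
structure Out [LinearOrder K] (τ : K → I) (m : ℕ) (n : ℕ → ℕ) (A : ℕ → Set I) (κ : Type)
    {F H : Tr I K} {J : Type} (e : J → Emb m F H) : Prop where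
  fin : Finite J
  good : Good τ m A H
  lin : Lin (H.N 0)
  si : ∀ j f, f ∉ range ((e j).w 0) → (H.N 0 f ∩ range (e j).v).Subsingleton
  ram : ∀ c : H.W 0 → κ, ∃ j γ, ∀ f, c ((e j).w 0 f) = γ
  fp : ∀ μ < m, FP (sys e μ) (μ = 0) (n μ)

end

/-- The Ramsey theorem for trains of height `m` with girth sequence `n`. -/
def Dia (m : ℕ) (n : ℕ → ℕ) : Prop :=
  ∀ (I K : Type) [LinearOrder K] [Finite K] (τ : K → I) (A : ℕ → Set I) (κ : Type) [Finite κ]
    [Nonempty κ] (F : Tr I K), Good τ m A F → Lin (F.N 0) →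
    (∀ μ, 1 ≤ μ → μ < m → Gir (F.N μ) (n μ)) →
    ∃ (H : Tr I K) (J : Type) (e : J → Emb m F H), Out τ m n A κ e

/-- A revision of depth `M`: `M` levels of girth larger than `g` between the edges `E` and the
wagons `W`, siblings meeting in one label class inside `A` only. -/
def Rev {V K E : Type} (lab : V → K) (g : ℕ) (A : Set K) (NE : E → Set V) :
    ℕ → (W : Type) → (W → Set V) → (E → W) → Prop
  | 0, _, NW, p => ∃ B : Set K, B ⊆ A ∧ B.Subsingleton ∧ (∀ f, NE f ⊆ NW (p f)) ∧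
      ∀ f f', f ≠ f' → p f = p f' → ∀ v ∈ NE f, v ∈ NE f' → lab v ∈ B
  | M + 1, W, NW, p => ∃ (W' : Type) (N' : W' → Set V) (p' : E → W') (q : W' → W) (B : Set K),
      Finite W' ∧ Rev lab g A NE M W' N' p' ∧ (∀ f, p f = q (p' f)) ∧ Gir N' g ∧ B ⊆ A ∧
      B.Subsingleton ∧ (∀ y, N' y ⊆ NW (q y)) ∧
      ∀ y y', y ≠ y' → q y = q y' → ∀ v ∈ N' y, v ∈ N' y' → lab v ∈ B

/-- The train has a revision between its levels `0` and `1`. -/
def Tr.HasRev {K : Type} (F : Tr K K) (g : ℕ) (A : Set K) : Prop :=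
  ∃ M, Rev F.lab g A (F.N 0) M (F.W 1) (F.N 1) (F.par 0)

/-- The partite lemma used in the step from `g` to `g + 1`. -/
def Hor (g m : ℕ) (n : ℕ → ℕ) : Prop :=
  ∀ (K : Type) [LinearOrder K] [Finite K] (A : ℕ → Set K) (κ : Type) [Finite κ] [Nonempty κ]
    (F : Tr K K), Good id (m + 1) A F → Lin (F.N 0) →
    (∀ μ, 1 ≤ μ → μ < m + 1 → Gir (F.N μ) (cons g n μ)) → F.HasRev g (A 0) →
    ∃ (H : Tr K K) (J : Type) (e : J → Emb (m + 1) F H),
      Out id (m + 1) (cons g n) A κ e ∧ Gir (H.N 0) (g + 1)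

end Pool.Agent.Lib.MP_781e3b_co.RR
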