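import Pool.Agent.Lib.MP_781e3b_co.RR.Amal

/-!
Trains, embeddings and systems of embeddings: basic facts.
-/

namespace Pool.Agent.Lib.MP_781e3b_co.RR

open Set Function

section
variable {CH CL WL VL W V : Type}

/-- Copies inside copies. -/
theorem fp_comp {SH : Sys CH W V} {SL : Sys CL WL VL} {S : Sys (CH × CL) W V} {f₁ f₂ : Prop}
    {n : ℕ} (sV : CH → VL → V) (sW : CH → WL → W) (hV : ∀ c, Injective (sV c))
    (hW : ∀ c, Injective (sW c)) (hvb : ∀ c, SH.vb c = range (sV c))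
    (hwb : ∀ c, SH.wb c = range (sW c)) (hN : ∀ c y u, sV c u ∈ SH.N (sW c y) ↔ u ∈ SL.N y)
    (e1 : ∀ c P, S.vb (c, P) = sV c '' SL.vb P) (e2 : ∀ c P, S.wb (c, P) = sW c '' SL.wb P)
    (e3 : S.N = SH.N) (hH : FP SH f₁ n) (hL : FP SL f₂ n) : FP S False n :=
  Amal.fp (SH := SH) (SL := SL)
    { iV := id, iW := id, sV := sV, sW := sW, DV := univ, DW := univ
      iVinj := injective_id, iWinj := injective_id, sVinj := hV, sWinj := hW, vb := e1, wb := e2
      iN := fun y u => by rw [e3]; rfl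
      sN := fun c y u => by rw [e3]; exact hN c y u
      inc := fun z v _ => Or.inl ⟨⟨v, rfl⟩, z, rfl⟩
      cov := fun z => Or.inl ⟨z, rfl⟩
      dV := fun c u => by simp
      dW := fun c u => by simp
      sepV := fun _ _ _ _ _ => Or.inr trivial
      sepW := fun _ _ _ _ _ => Or.inr trivial
      hvb := fun c u => by rw [hvb]; rfl
      hwb := fun c u => by rw [hwb]; rfl
      fi := False.elim
      fs := False.elim } (hH.weaken False.elim) (hL.weaken False.elim)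

end

variable {I K : Type} {m : ℕ}

/-- Girth passes from `F` to the host. -/
theorem gir_of_fp {F H : Tr I K} {J : Type} (e : J → Emb m F H) {μ n : ℕ} (hμ : μ ≤ m)
    {full : Prop} (h : FP (sys e μ) full n) (hg : Gir (F.N μ) n) : Gir (H.N μ) n :=
  FP.gir (S := (⟨fun _ => ∅, fun _ => ∅, H.N μ⟩ : Sys (J × Empty) _ _)) (full := False)
    (fp_comp (SH := sys e μ) (SL := (⟨fun _ => ∅, fun _ => ∅, F.N μ⟩ : Sys Empty _ _))
      (f₂ := False) (fun j => (e j).v) (fun j => (e j).w μ) (fun j => (e j).vinj)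
      (fun j => (e j).winj μ hμ) (fun _ => rfl) (fun _ => rfl)
      (fun j y u => ⟨(e j).ind μ hμ y u, (e j).N μ hμ y u⟩) (fun _ P => P.elim) (fun _ P => P.elim)
      rfl h (Gir.fp hg))

theorem Hom.w_anc {F H : Tr I K} (e : Hom m F H) (f : F.W 0) (μ : ℕ) :
    e.w μ (anc F.par μ f) = anc H.par μ (e.w 0 f) := by
  induction μ with
  | zero => rfl
  | succ μ ih => simp only [anc]; rw [e.par, ih]

/-- Composition of embeddings. -/
def Emb.comp {F G H : Tr I K} (b : Emb m G H) (a : Emb m F G) : Emb m F H where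
  v x := b.v (a.v x)
  w μ z := b.w μ (a.w μ z)
  par μ z := by rw [a.par, b.par]
  N μ h z x hx := b.N μ h _ _ (a.N μ h z x hx)
  tup f k := by rw [b.tup, a.tup]
  lab x := by rw [b.lab, a.lab]
  vinj := b.vinj.comp a.vinj
  winj μ h := (b.winj μ h).comp (a.winj μ h)
  ind μ h z x hx := a.ind μ h z x (b.ind μ h _ _ hx)

variable [LinearOrder K] {τ : K → I} {A A' : ℕ → Set I} {F H : Tr I K}

theorem Good.inj (h : Good τ m A F) (f : F.W 0) : Injective (F.tup f) := by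
  obtain ⟨ρ, hρ⟩ := h.ord
  exact fun k k' e => (hρ f).injective (by simp only [e])

theorem Good.top (h : Good τ m A F) (z z' : F.W m) (hne : z ≠ z') (v : F.V) (hv : v ∈ F.N m z) :
    v ∉ F.N m z' := fun hv' =>
  lt_irrefl _ (h.sib m le_rfl z z' hne (fun h => (lt_irrefl _ h).elim) v hv hv').1

theorem Good.gir_top (h : Good τ m A F) (n : ℕ) : Gir (F.N m) n := gir_of_disjoint h.top n

theorem Good.tup_anc (h : Good τ m A F) (f : F.W 0) (k : K) {μ : ℕ} (hμ : μ ≤ m) :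
    F.tup f k ∈ F.N μ (anc F.par μ f) := by
  induction μ with
  | zero => rw [h.N0]; exact ⟨k, rfl⟩
  | succ μ ih => exact h.sub μ hμ _ (ih (Nat.le_of_succ_le hμ))

theorem Good.mono (h : Good τ m A F) (hA : ∀ μ < m, A μ ⊆ A' μ) : Good τ m A' F :=
  ⟨h.N0, h.lab, h.sub, fun μ hμ z z' h1 h2 v h3 h4 =>
    let ⟨a, b⟩ := h.sib μ hμ z z' h1 h2 v h3 h4
    ⟨a, hA μ a b⟩, h.ord⟩

theorem Hom.N0 (e : Hom m F H) {m' : ℕ} (hF : Good τ m A F) (hH : Good τ m' A' H) (f : F.W 0) :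
    H.N 0 (e.w 0 f) = e.v '' F.N 0 f := by
  rw [hF.N0, hH.N0, ← range_comp]
  exact congrArg range (funext (e.tup f))

theorem sys_whole {J : Type} (e : J → Emb m F H) (hH : Good τ m A H) : (sys e 0).Whole := by
  rintro j _ ⟨f, rfl⟩ v hv
  change v ∈ H.N 0 _ at hv
  rw [hH.N0] at hv
  obtain ⟨k, rfl⟩ := hv
  exact ⟨_, ((e j).tup f k).symm⟩

/-- Girth on the levels `1, …, m` of the host. -/
theorem Out.gir {n : ℕ → ℕ} {κ J : Type} {e : J → Emb m F H} (h : Out τ m n A κ e) {μ : ℕ}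
    (hμ : μ < m) (hg : Gir (F.N μ) (n μ)) : Gir (H.N μ) (n μ) :=
  gir_of_fp e hμ.le (h.fp μ hμ) hg

end Pool.Agent.Lib.MP_781e3b_co.RR
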