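import Pool.Agent.Lib.MP_781e3b_co.RR.Defs

/-!
The Nesetril-Rodl theorem for ordered linear hypergraphs with labels.
-/

namespace Pool.Agent.Lib.MP_781e3b_co.RR

open Set Function

variable {I K V E V' E' J : Type}

/-- A linear hypergraph with labelled vertices; only vertices with label in `A` are shared. -/
structure LinHG (τ : K → I) (A : Set I) (tup : E → K → V) (lab : V → I) : Prop where
  hlab : ∀ f k, lab (tup f k) = τ k
  lin : Lin fun f => range (tup f)
  par : ∀ f f', f ≠ f' → ∀ v ∈ range (tup f), v ∈ range (tup f') → lab v ∈ A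

/-- Copies `(ηV j, ηE j)` that are strongly induced. -/
structure Cop (tup : E → K → V) (lab : V → I) (tup' : E' → K → V') (lab' : V' → I)
    (ηV : J → V → V') (ηE : J → E → E') : Prop where
  vinj : ∀ j, Injective (ηV j)
  einj : ∀ j, Injective (ηE j)
  hlab : ∀ j x, lab' (ηV j x) = lab x
  htup : ∀ j f k, tup' (ηE j f) k = ηV j (tup f k)
  si : ∀ j f', f' ∉ range (ηE j) → (range (tup' f') ∩ range (ηV j)).Subsingleton

namespace NR1Aux

open Combinatorics

variable {ι : Type}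

/-- The point of the cube part over `v` in the copy `l`. -/
def cl (tup : E → K → V) {p : E → Prop} (l : Line {f // p f} ι) (k : K) (v : V) : ι → V :=
  fun i => (l.idxFun i).elim v fun a => tup a.1 k

open Classical in
/-- Vertices of the standard copy. -/
noncomputable def eV (tup : E → K → V) (p : E → Prop) (l : Line {f // p f} ι) (v : V) :
    (K × (ι → V)) ⊕ (Line {f // p f} ι × V) :=
  if h : ∃ k f, p f ∧ tup f k = v then Sum.inl (h.choose, cl tup l h.choose v) else Sum.inr (l, v)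

open Classical in
/-- Edges of the standard copy. -/
noncomputable def eE (p : E → Prop) (l : Line {f // p f} ι) (f : E) :
    (ι → {f // p f}) ⊕ (Line {f // p f} ι × {f // ¬ p f}) :=
  if h : p f then Sum.inl (l ⟨f, h⟩) else Sum.inr (l, ⟨f, h⟩)

/-- Tuples of the amalgam. -/
noncomputable def tp (tup : E → K → V) (p : E → Prop) :
    (ι → {f // p f}) ⊕ (Line {f // p f} ι × {f // ¬ p f}) → K →
      (K × (ι → V)) ⊕ (Line {f // p f} ι × V)
  | Sum.inl w, k => Sum.inl (k, fun i => tup (w i).1 k)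
  | Sum.inr q, k => eV tup p q.1 (tup q.2.1 k)

/-- The hypotheses used. -/
structure Hy (tup : E → K → V) (p : E → Prop) : Prop where
  two : ∀ f f' k m k' m', k ≠ m → tup f k = tup f' k' → tup f m = tup f' m' → f = f'
  uniq : ∀ f f' k k', p f → p f' → tup f k = tup f' k' → k = k'

variable {tup : E → K → V} {p : E → Prop}

theorem eV_pos (H : Hy tup p) (l : Line {f // p f} ι) {v : V} {k : K} {f : E} (hf : p f)
    (hv : tup f k = v) : eV tup p l v = Sum.inl (k, cl tup l k v) := by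
  have h : ∃ k f, p f ∧ tup f k = v := ⟨k, f, hf, hv⟩
  have e : h.choose = k := by
    obtain ⟨g, hg, hgv⟩ := h.choose_spec
    exact H.uniq g f _ _ hg hf (hgv.trans hv.symm)
  rw [eV, dif_pos h, e]

theorem eV_neg (l : Line {f // p f} ι) {v : V} (h : ¬ ∃ k f, p f ∧ tup f k = v) :
    eV tup p l v = Sum.inr (l, v) := by
  rw [eV, dif_neg h]

theorem eV_inl (H : Hy tup p) {l : Line {f // p f} ι} {v : V} {k : K} {x : ι → V}
    (h : eV tup p l v = Sum.inl (k, x)) : (∃ f, p f ∧ tup f k = v) ∧ cl tup l k v = x := by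
  by_cases hv : ∃ k f, p f ∧ tup f k = v
  · obtain ⟨k', f, hf, e⟩ := hv
    rw [eV_pos H l hf e] at h
    obtain ⟨rfl, e2⟩ := Prod.mk.inj (Sum.inl.inj h)
    exact ⟨⟨f, hf, e⟩, e2⟩
  · rw [eV_neg l hv] at h
    exact absurd h Sum.inr_ne_inl

theorem eV_inr (H : Hy tup p) {l l' : Line {f // p f} ι} {v v' : V}
    (h : eV tup p l v = Sum.inr (l', v')) : l = l' ∧ v = v' := by
  by_cases hv : ∃ k f, p f ∧ tup f k = v
  · obtain ⟨k', f, hf, e⟩ := hv
    rw [eV_pos H l hf e] at h
    exact absurd h Sum.inl_ne_inr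
  · rw [eV_neg l hv] at h
    exact Prod.mk.inj (Sum.inr.inj h)

theorem cl_none {l : Line {f // p f} ι} {i : ι} (h : l.idxFun i = none) (k : K) (v : V) :
    cl tup l k v i = v := by
  simp [cl, h]

theorem cl_some {l : Line {f // p f} ι} {i : ι} {a : {f // p f}} (h : l.idxFun i = some a)
    (k : K) (v : V) : cl tup l k v i = tup a.1 k := by
  simp [cl, h]

theorem eV_inj (H : Hy tup p) (l : Line {f // p f} ι) : Injective (eV tup p l) := by
  intro v w h
  by_cases hw : ∃ k f, p f ∧ tup f k = w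
  · obtain ⟨k, f, hf, e⟩ := hw
    rw [eV_pos H l hf e] at h
    obtain ⟨i, hi⟩ := l.proper
    have := congrFun (eV_inl H h).2 i
    rwa [cl_none hi, cl_none hi] at this
  · rw [eV_neg l hw] at h
    exact (eV_inr H h).2

theorem eE_pos (l : Line {f // p f} ι) (a : {f // p f}) : eE p l a.1 = Sum.inl (l a) := by
  rw [eE, dif_pos a.2]

theorem eE_neg (l : Line {f // p f} ι) (a : {f // ¬ p f}) : eE p l a.1 = Sum.inr (l, a) := by
  rw [eE, dif_neg a.2]

theorem eE_inj (l : Line {f // p f} ι) : Injective (eE p l) := by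
  intro f g h
  by_cases hf : p f <;> by_cases hg : p g
  · rw [eE_pos l ⟨f, hf⟩, eE_pos l ⟨g, hg⟩] at h
    obtain ⟨i, hi⟩ := l.proper
    have := congrFun (Sum.inl.inj h) i
    rw [l.apply_none _ i hi, l.apply_none _ i hi] at this
    exact congrArg Subtype.val this
  · rw [eE_pos l ⟨f, hf⟩, eE_neg l ⟨g, hg⟩] at h
    exact absurd h Sum.inl_ne_inr
  · rw [eE_neg l ⟨f, hf⟩, eE_pos l ⟨g, hg⟩] at h
    exact absurd h Sum.inr_ne_inl
  · rw [eE_neg l ⟨f, hf⟩, eE_neg l ⟨g, hg⟩] at h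
    exact congrArg Subtype.val (Prod.mk.inj (Sum.inr.inj h)).2

theorem tp_eE (H : Hy tup p) (l : Line {f // p f} ι) (f : E) (k : K) :
    tp tup p (eE p l f) k = eV tup p l (tup f k) := by
  by_cases hf : p f
  · rw [eE_pos l ⟨f, hf⟩, eV_pos H l hf rfl, tp]
    congr 2
    funext i
    cases hi : l.idxFun i with
    | none => rw [cl_none hi, l.apply_none _ i hi]
    | some a => rw [cl_some hi, Line.apply_some hi]
  · rw [eE_neg l ⟨f, hf⟩, tp]

/-- The key fact. -/
theorem key (H : Hy tup p) {l l' : Line {f // p f} ι} {v w v' w' : V}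
    (hv : eV tup p l v = eV tup p l' v') (hw : eV tup p l w = eV tup p l' w')
    (hne : ∀ f g k, p f → p g → tup f k = v' → tup g k = w' → False)
    (hno : ∀ f k m, p f → tup f k = v' → tup f m = w' → False) : l = l' := by
  by_cases h1 : ∃ k f, p f ∧ tup f k = v'
  swap
  · rw [eV_neg l' h1] at hv
    exact (eV_inr H hv).1
  by_cases h2 : ∃ k f, p f ∧ tup f k = w'
  swap
  · rw [eV_neg l' h2] at hw
    exact (eV_inr H hw).1
  obtain ⟨k, f, hf, e1⟩ := h1
  obtain ⟨m, g, hg, e2⟩ := h2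
  have hkm : k ≠ m := fun e => hne f g k hf hg e1 (e ▸ e2)
  rw [eV_pos H l' hf e1] at hv
  rw [eV_pos H l' hg e2] at hw
  have c1 := congrFun (eV_inl H hv).2
  have c2 := congrFun (eV_inl H hw).2
  have mv : ∀ i, l'.idxFun i = none → l.idxFun i = none := by
    intro i hi
    cases hl : l.idxFun i with
    | none => rfl
    | some a =>
      have d1 := c1 i
      have d2 := c2 i
      rw [cl_some hl, cl_none hi] at d1 d2
      exact (hno a.1 k m a.2 d1 d2).elim
  obtain ⟨i₀, hi₀⟩ := l'.proper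
  have d1 := c1 i₀
  have d2 := c2 i₀
  rw [cl_none (mv i₀ hi₀), cl_none hi₀] at d1 d2
  subst d1 d2
  ext1
  funext i
  cases hl' : l'.idxFun i with
  | none => exact mv i hl'
  | some b =>
    have d1 := c1 i
    have d2 := c2 i
    cases hl : l.idxFun i with
    | none =>
      rw [cl_none hl, cl_some hl'] at d1 d2
      exact (hno b.1 k m b.2 d1.symm d2.symm).elim
    | some a =>
      rw [cl_some hl, cl_some hl'] at d1 d2
      exact congrArg some (Subtype.ext (H.two _ _ k m k m hkm d1 d2))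

/-- A function on the amalgam that extends a function on the vertices. -/
def ext (p : E → Prop) {X : Type} (φ : V → X) (e : K → X) :
    (K × (ι → V)) ⊕ (Line {f // p f} ι × V) → X
  | Sum.inl q => e q.1
  | Sum.inr q => φ q.2

theorem ext_eV (H : Hy tup p) {X : Type} {φ : V → X} {e : K → X}
    (he : ∀ f k, p f → φ (tup f k) = e k) (l : Line {f // p f} ι) (v : V) :
    ext p φ e (eV tup p l v) = φ v := by
  by_cases hv : ∃ k f, p f ∧ tup f k = v
  · obtain ⟨k, f, hf, e1⟩ := hv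
    rw [eV_pos H l hf e1, ← e1, he f k hf]
    rfl
  · rw [eV_neg l hv]
    rfl

theorem si (H : Hy tup p) {X : Type} {φ : V → X} {e : K → X}
    (he : ∀ f k, p f → φ (tup f k) = e k) (l : Line {f // p f} ι)
    (f' : (ι → {f // p f}) ⊕ (Line {f // p f} ι × {f // ¬ p f})) (v w : V) (hvw : φ v ≠ φ w)
    (hv : eV tup p l v ∈ range (tp tup p f')) (hw : eV tup p l w ∈ range (tp tup p f')) :
    ∃ f, f' = eE p l f := by
  obtain ⟨k, hk⟩ := hv
  obtain ⟨m, hm⟩ := hw
  have hkm : k ≠ m := by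
    rintro rfl
    exact hvw (congrArg φ (eV_inj H l (hk.symm.trans hm)))
  rcases f' with u | ⟨l', g⟩
  · rw [tp] at hk hm
    have c1 := congrFun (eV_inl H hk.symm).2
    have c2 := congrFun (eV_inl H hm.symm).2
    obtain ⟨i₀, hi₀⟩ := l.proper
    refine ⟨(u i₀).1, ?_⟩
    rw [eE_pos]
    congr 1
    funext i
    have d1 := c1 i
    have d2 := c2 i
    cases hl : l.idxFun i with
    | none =>
      have a1 := c1 i₀
      have a2 := c2 i₀
      rw [cl_none hi₀] at a1 a2
      rw [cl_none hl] at d1 d2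
      rw [l.apply_none _ i hl]
      exact Subtype.ext (H.two _ _ k m k m hkm (d1.symm.trans a1) (d2.symm.trans a2))
    | some a =>
      rw [cl_some hl] at d1 d2
      rw [Line.apply_some hl]
      exact Subtype.ext (H.two _ _ k m k m hkm d1.symm d2.symm)
  · rw [tp] at hk hm
    have a1 : φ (tup g.1 k) = φ v := by
      rw [← ext_eV H he l' (tup g.1 k), ← ext_eV H he l v]
      exact congrArg _ hk
    have a2 : φ (tup g.1 m) = φ w := by
      rw [← ext_eV H he l' (tup g.1 m), ← ext_eV H he l w]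
      exact congrArg _ hm
    have : l = l' := by
      refine key H hk.symm hm.symm (fun f f₂ j hf hf₂ e1 e2 => hvw ?_) fun f j j' hf e1 e2 => ?_
      · rw [← a1, ← a2, ← e1, ← e2, he f j hf, he f₂ j hf₂]
      · exact g.2 (H.two g.1 f k m j j' hkm e1.symm e2.symm ▸ hf)
    subst this
    exact ⟨g.1, (eE_neg l g).symm⟩

theorem lin_aux (H : Hy tup p) {X : Type} {φ : V → X} {e : K → X}
    (he : ∀ f k, p f → φ (tup f k) = e k) (hφ : ∀ f, Injective fun k => φ (tup f k))
    (q : Line {f // p f} ι × {f // ¬ p f})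
    (f' : (ι → {f // p f}) ⊕ (Line {f // p f} ι × {f // ¬ p f})) {k m : K} (hkm : k ≠ m)
    (hk : tp tup p (Sum.inr q) k ∈ range (tp tup p f'))
    (hm : tp tup p (Sum.inr q) m ∈ range (tp tup p f')) : f' = Sum.inr q := by
  obtain ⟨l, g⟩ := q
  rw [tp] at hk hm
  obtain ⟨f, rfl⟩ := si H he l f' _ _ (fun e => hkm (hφ g.1 e)) hk hm
  obtain ⟨k', hk'⟩ := hk
  obtain ⟨m', hm'⟩ := hm
  rw [tp_eE H] at hk' hm'
  rw [← H.two g.1 f k m k' m' hkm (eV_inj H l hk').symm (eV_inj H l hm').symm]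
  exact eE_neg l g

theorem lin (H : Hy tup p) {X : Type} {φ : V → X} {e : K → X}
    (he : ∀ f k, p f → φ (tup f k) = e k) (hφ : ∀ f, Injective fun k => φ (tup f k)) :
    Lin fun f : (ι → {f // p f}) ⊕ (Line {f // p f} ι × {f // ¬ p f}) => range (tp tup p f) := by
  rintro f₁ f₂ hne x ⟨hx1, hx2⟩ y ⟨hy1, hy2⟩
  by_contra hxy
  refine hne ?_
  rcases f₁ with u₁ | q₁
  · rcases f₂ with u₂ | q₂
    · obtain ⟨k, rfl⟩ := hx1
      obtain ⟨m, rfl⟩ := hy1
      obtain ⟨k', hk⟩ := hx2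
      obtain ⟨m', hm⟩ := hy2
      have hkm : k ≠ m := fun e => hxy (congrArg _ e)
      rw [tp, tp] at hk hm
      have c1 := congrFun (Prod.mk.inj (Sum.inl.inj hk)).2
      have c2 := congrFun (Prod.mk.inj (Sum.inl.inj hm)).2
      congr 1
      funext i
      exact Subtype.ext (H.two _ _ k m k' m' hkm (c1 i).symm (c2 i).symm)
    · obtain ⟨k, rfl⟩ := hx2
      obtain ⟨m, rfl⟩ := hy2
      exact lin_aux H he hφ q₂ _ (fun e => hxy (congrArg _ e)) hx1 hy1
  · obtain ⟨k, rfl⟩ := hx1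
    obtain ⟨m, rfl⟩ := hy1
    exact (lin_aux H he hφ q₁ _ (fun e => hxy (congrArg _ e)) hx2 hy2).symm

theorem par_aux (H : Hy tup p) {τ : K → I} {A : Set I} {lab : V → I} (h : LinHG τ A tup lab)
    (q : Line {f // p f} ι × {f // ¬ p f})
    (f' : (ι → {f // p f}) ⊕ (Line {f // p f} ι × {f // ¬ p f})) (hne : Sum.inr q ≠ f') (k : K)
    (hk : tp tup p (Sum.inr q) k ∈ range (tp tup p f')) :
    ext p lab τ (tp tup p (Sum.inr q) k) ∈ A := by
  obtain ⟨l, g⟩ := q
  rw [tp] at hk ⊢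
  rw [ext_eV H fun f k _ => h.hlab f k]
  by_cases hv : ∃ j f, p f ∧ tup f j = tup g.1 k
  · obtain ⟨j, f, hf, e⟩ := hv
    exact h.par f g.1 (fun e => g.2 (e ▸ hf)) _ ⟨j, e⟩ ⟨k, rfl⟩
  · rw [eV_neg _ hv] at hk
    obtain ⟨j, hj⟩ := hk
    rcases f' with u | ⟨l', g'⟩
    · rw [tp] at hj
      exact absurd hj Sum.inl_ne_inr
    · rw [tp] at hj
      obtain ⟨e1, e2⟩ := eV_inr H hj
      refine h.par g'.1 g.1 (fun e => hne ?_) _ ⟨j, e2⟩ ⟨k, rfl⟩
      have e3 : l' = l := e1
      rw [e3, Subtype.ext e]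

theorem par (H : Hy tup p) {τ : K → I} {A : Set I} {lab : V → I} (h : LinHG τ A tup lab)
    (f₁ f₂ : (ι → {f // p f}) ⊕ (Line {f // p f} ι × {f // ¬ p f})) (hne : f₁ ≠ f₂) (x)
    (hx1 : x ∈ range (tp tup p f₁)) (hx2 : x ∈ range (tp tup p f₂)) : ext p lab τ x ∈ A := by
  rcases f₁ with u₁ | q₁
  · rcases f₂ with u₂ | q₂
    · obtain ⟨k, rfl⟩ := hx1
      obtain ⟨k', hk⟩ := hx2
      rw [tp, tp] at hk
      have c1 := congrFun (Prod.mk.inj (Sum.inl.inj hk)).2
      obtain ⟨i, hi⟩ := Function.ne_iff.1 fun e => hne (congrArg Sum.inl e)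
      have := h.par (u₁ i).1 (u₂ i).1 (fun e => hi (Subtype.ext e)) _ ⟨k, rfl⟩ ⟨k', c1 i⟩
      rwa [h.hlab] at this
    · obtain ⟨k, rfl⟩ := hx2
      exact par_aux H h q₂ _ hne.symm k hx1
  · obtain ⟨k, rfl⟩ := hx1
    exact par_aux H h q₁ _ hne k hx2

end NR1Aux

/-- One amalgamation over the tuple `e`, by the Hales-Jewett theorem
(`Combinatorics.Line.exists_mono_in_high_dimension`) for the alphabet `α = {f // ψ ∘ tup f = e}`.
`V' = (K × (ι → V)) ⊕ (Line × V)`, `E' = (ι → α) ⊕ (Line × {f // ψ ∘ tup f ≠ e})`, `J = Line α ι`.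
If `v = tup f k` for some `f : α` (then `k` is unique, as `ψ v = e k` and `e` is injective) put
`ηV l v = inl (k, fun i => if l is moving at i then v else tup (l i) k)`, else `ηV l v = inr (l, v)`.
`tup' (inl w) k = inl (k, fun i => tup (w i) k)`, `tup' (inr (l, f)) = ηV l ∘ tup f`,
`ηE l f = inl (l f)` for `f : α`, else `inr (l, f)`; `ψ' (inl (k, _)) = e k`, label `τ k`.
Key fact: if `ηV l v = ηV l' v'`, `ηV l w = ηV l' w'`, `ψ v ≠ ψ w`, and no `f : α` contains `v'` and
`w'`, then `l = l'`. (A coordinate moving in `l'` and fixed in `l` puts `v', w'` in one edge; so a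
moving coordinate of `l'` gives `v = v'`, `w = w'`; a coordinate moving in `l` and fixed in `l'` puts
them in one edge again; at a coordinate fixed in both the two edges share two points.)
The last part says: two points of the standard copy `l` over different points of `Fin N` that lie
in one edge `f'` come from one edge of the copy. -/
theorem nr_step [LinearOrder K] [Finite K] [Finite V] [Finite E] {τ : K → I} {A : Set I}
    {tup : E → K → V} {lab : V → I} (h : LinHG τ A tup lab) {N : ℕ} (ψ : V → Fin N)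
    (hψ : ∀ f, StrictMono fun k => ψ (tup f k)) (e : K → Fin N) (κ : Type) [Finite κ] [Nonempty κ] :
    ∃ (V' E' J : Type) (_ : Finite V') (_ : Finite E') (_ : Finite J) (tup' : E' → K → V')
      (lab' : V' → I) (ηV : J → V → V') (ηE : J → E → E') (ψ' : V' → Fin N),
      LinHG τ A tup' lab' ∧ (∀ f, StrictMono fun k => ψ' (tup' f k)) ∧
      (∀ j, Injective (ηV j)) ∧ (∀ j, Injective (ηE j)) ∧ (∀ j x, lab' (ηV j x) = lab x) ∧
      (∀ j f k, tup' (ηE j f) k = ηV j (tup f k)) ∧ (∀ j x, ψ' (ηV j x) = ψ x) ∧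
      (∀ c : E' → κ, ∃ j γ, ∀ f, (fun k => ψ (tup f k)) = e → c (ηE j f) = γ) ∧
      ∀ j f' v w, ψ v ≠ ψ w → ηV j v ∈ range (tup' f') → ηV j w ∈ range (tup' f') →
        ∃ f, f' = ηE j f := by
  classical
  let p : E → Prop := fun f => (fun k => ψ (tup f k)) = e
  have he : ∀ f k, p f → ψ (tup f k) = e k := fun f k hf => congrFun hf k
  have H : NR1Aux.Hy tup p := by
    refine ⟨fun f f' k m k' m' hkm e1 e2 => ?_, fun f f' k k' hf hf' e1 => ?_⟩
    · by_contra hne
      have := h.lin f f' hne (x := tup f k) ⟨⟨k, rfl⟩, k', e1.symm⟩ (y := tup f m)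
        ⟨⟨m, rfl⟩, m', e2.symm⟩
      exact hkm ((hψ f).injective (congrArg ψ this))
    · refine (hψ f).injective ?_
      show ψ (tup f k) = ψ (tup f k')
      rw [e1, he f' k' hf', he f k' hf]
  obtain ⟨ι, _, hι⟩ := Combinatorics.Line.exists_mono_in_high_dimension {f // p f} κ
  have hfin : Finite (Combinatorics.Line {f // p f} ι) :=
    Finite.of_injective Combinatorics.Line.idxFun fun _ _ e => Combinatorics.Line.ext e
  obtain ⟨i₀, -⟩ := (hι fun _ => Classical.arbitrary κ).choose.proper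
  have hl := fun (l : Combinatorics.Line {f // p f} ι) v =>
    NR1Aux.ext_eV H (φ := lab) (e := τ) (fun f k _ => h.hlab f k) l v
  have hp := fun (l : Combinatorics.Line {f // p f} ι) v => NR1Aux.ext_eV H he l v
  refine ⟨_, _, Combinatorics.Line {f // p f} ι, inferInstance, inferInstance, hfin,
    NR1Aux.tp tup p, NR1Aux.ext p lab τ, NR1Aux.eV tup p, NR1Aux.eE p, NR1Aux.ext p ψ e,
    ⟨?_, NR1Aux.lin H he fun f => (hψ f).injective, NR1Aux.par H h⟩, ?_, NR1Aux.eV_inj H,
    NR1Aux.eE_inj, hl, NR1Aux.tp_eE H, hp, fun c => ?_, NR1Aux.si H he⟩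
  · rintro (u | q) k
    · rfl
    · rw [NR1Aux.tp, hl, h.hlab]
  · rintro (u | q)
    · have : StrictMono e := (u i₀).2 ▸ hψ (u i₀).1
      exact this
    · simp only [NR1Aux.tp, hp]
      exact hψ q.2.1
  · obtain ⟨l, γ, hγ⟩ := hι fun w => c (Sum.inl w)
    exact ⟨l, γ, fun f hf => by rw [NR1Aux.eE_pos l ⟨f, hf⟩]; exact hγ _⟩

end Pool.Agent.Lib.MP_781e3b_co.RR
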