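import Pool.Agent.Lib.MP_781e3b_co.RR.NR0
import Pool.Agent.Lib.MP_781e3b_co.RR.NR1

/-!
The Nesetril-Rodl theorem for ordered linear hypergraphs with labels.
-/

namespace Pool.Agent.Lib.MP_781e3b_co.RR

open Set Function

variable {I K V E V' E' J : Type}

namespace NRAux

/-- A picture in which the tuples of `S` have been treated. -/
def Pic [LinearOrder K] (τ : K → I) (A : Set I) (tup : E → K → V) (lab : V → I) (ρ : V → ℕ)
    (κ : Type) (N : ℕ) (S : Set (K → Fin N)) : Prop :=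
  ∃ (V' E' J : Type) (_ : Finite V') (_ : Finite E') (_ : Finite J) (tup' : E' → K → V')
    (lab' : V' → I) (ηV : J → V → V') (ηE : J → E → E') (ψ : V' → Fin N),
    LinHG τ A tup' lab' ∧ Cop tup lab tup' lab' ηV ηE ∧
    (∀ f, StrictMono fun k => ψ (tup' f k)) ∧
    (∀ j x y, ρ x < ρ y → ψ (ηV j x) < ψ (ηV j y)) ∧
    ∀ c : E' → κ, ∃ c' : (K → Fin N) → κ, ∀ s : V → Fin N, (∀ x y, ρ x < ρ y → s x < s y) →
      ∃ j, (∀ x, ψ (ηV j x) = s x) ∧
        ∀ f, (fun k => s (tup f k)) ∈ S → c (ηE j f) = c' fun k => s (tup f k)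

theorem pic_empty [LinearOrder K] [Finite V] [Finite E] {τ : K → I} {A : Set I}
    {tup : E → K → V} {lab : V → I} (h : LinHG τ A tup lab) (ρ : V → ℕ)
    (hm : ∀ f, StrictMono fun k => ρ (tup f k)) (κ : Type) [Nonempty κ] (N : ℕ) :
    Pic τ A tup lab ρ κ N ∅ := by
  let J : Type := {s : V → Fin N // ∀ x y, ρ x < ρ y → s x < s y}
  refine ⟨J × V, J × E, J, inferInstance, inferInstance, inferInstance,
    fun p k => (p.1, tup p.2 k), fun p => lab p.2, fun j x => (j, x), fun j f => (j, f),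
    fun p => p.1.1 p.2, ⟨fun p k => h.hlab p.2 k, ?_, ?_⟩, ⟨?_, ?_, fun _ _ => rfl,
      fun _ _ _ => rfl, ?_⟩, fun p k k' hk => p.1.2 _ _ (hm p.2 hk), fun j x y hxy => j.2 x y hxy,
    fun c => ⟨fun _ => Classical.arbitrary κ, fun s hs => ⟨⟨s, hs⟩, fun _ => rfl,
      fun f hf => hf.elim⟩⟩⟩
  · rintro ⟨j, f⟩ ⟨j', f'⟩ hne u ⟨⟨a, rfl⟩, a', ha⟩ u' ⟨⟨b, rfl⟩, b', hb⟩
    obtain ⟨rfl, ha⟩ := Prod.mk.inj ha
    have hb := (Prod.mk.inj hb).2
    have hf : f ≠ f' := fun e => hne (by rw [e])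
    exact congrArg (Prod.mk j') (h.lin f f' hf ⟨⟨a, rfl⟩, a', ha⟩ ⟨⟨b, rfl⟩, b', hb⟩)
  · rintro ⟨j, f⟩ ⟨j', f'⟩ hne u ⟨a, rfl⟩ ⟨a', ha⟩
    obtain ⟨rfl, ha⟩ := Prod.mk.inj ha
    exact h.par f f' (fun e => hne (by rw [e])) _ ⟨a, rfl⟩ ⟨a', ha⟩
  · exact fun j x y e => (Prod.mk.inj e).2
  · exact fun j x y e => (Prod.mk.inj e).2
  · rintro j ⟨j', f⟩ hf u ⟨⟨a, rfl⟩, x, hx⟩
    obtain ⟨rfl, -⟩ := Prod.mk.inj hx
    exact (hf ⟨f, rfl⟩).elim

theorem pic_insert [LinearOrder K] [Finite K] {τ : K → I} {A : Set I}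
    {tup : E → K → V} {lab : V → I} {ρ : V → ℕ} (hρ : Injective ρ) {κ : Type} [Finite κ]
    [Nonempty κ] {N : ℕ} {S : Set (K → Fin N)} (h : Pic τ A tup lab ρ κ N S) (e : K → Fin N) :
    Pic τ A tup lab ρ κ N (insert e S) := by
  classical
  obtain ⟨V₁, E₁, J, _, _, _, tup₁, lab₁, ηV, ηE, ψ, hL, hC, hψ, hmono, hR⟩ := h
  obtain ⟨V₂, E₂, L, _, _, _, tup₂, lab₂, θV, θE, ψ₂, hL₂, hψ₂, vinj, einj, hlab, htup, hproj,
    hram, hsi⟩ := nr_step hL ψ hψ e κ
  refine ⟨V₂, E₂, L × J, inferInstance, inferInstance, inferInstance, tup₂, lab₂,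
    fun p x => θV p.1 (ηV p.2 x), fun p f => θE p.1 (ηE p.2 f), ψ₂, hL₂,
    ⟨fun p => (vinj p.1).comp (hC.vinj p.2), fun p => (einj p.1).comp (hC.einj p.2),
      fun p x => (hlab _ _).trans (hC.hlab _ _), fun p f k => by rw [htup, hC.htup], ?_⟩, hψ₂,
    fun p x y hxy => by rw [hproj, hproj]; exact hmono _ _ _ hxy, fun c => ?_⟩
  · rintro ⟨l, j⟩ f₂ hf u ⟨hu, x, rfl⟩ u' ⟨hu', y, rfl⟩
    by_cases hxy : x = y
    · rw [hxy]
    have hne : ψ (ηV j x) ≠ ψ (ηV j y) := by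
      rcases lt_or_gt_of_ne (fun e => hxy (hρ e) : ρ x ≠ ρ y) with h1 | h1
      · exact (hmono j _ _ h1).ne
      · exact (hmono j _ _ h1).ne'
    obtain ⟨f₁, rfl⟩ := hsi l f₂ _ _ hne hu hu'
    have hf₁ : f₁ ∉ range (ηE j) := by
      rintro ⟨f, rfl⟩
      exact hf ⟨f, rfl⟩
    have key : ∀ z, θV l z ∈ range (tup₂ (θE l f₁)) → z ∈ range (tup₁ f₁) := by
      rintro z ⟨k, hk⟩
      rw [htup] at hk
      exact ⟨k, vinj l hk⟩
    exact congrArg (θV l) (hC.si j f₁ hf₁ ⟨key _ hu, x, rfl⟩ ⟨key _ hu', y, rfl⟩)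
  · obtain ⟨l, γ, hγ⟩ := hram c
    obtain ⟨c', hc'⟩ := hR fun f => c (θE l f)
    refine ⟨Function.update c' e γ, fun s hs => ?_⟩
    obtain ⟨j, hj, hS⟩ := hc' s hs
    refine ⟨(l, j), fun x => (hproj _ _).trans (hj x), fun f hf => ?_⟩
    by_cases he : (fun k => s (tup f k)) = e
    · rw [he, Function.update_self]
      refine hγ _ ?_
      rw [← he]
      funext k
      rw [hC.htup, hj]
    · rw [Function.update_of_ne he]
      exact hS f (hf.resolve_left he)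

theorem pic_univ [LinearOrder K] [Finite K] [Finite V] [Finite E] {τ : K → I} {A : Set I}
    {tup : E → K → V} {lab : V → I} (h : LinHG τ A tup lab) (ρ : V → ℕ) (hρ : Injective ρ)
    (hm : ∀ f, StrictMono fun k => ρ (tup f k)) (κ : Type) [Finite κ] [Nonempty κ] (N : ℕ) :
    Pic τ A tup lab ρ κ N univ := by
  have key : ∀ S : Set (K → Fin N), S.Finite → Pic τ A tup lab ρ κ N S := by
    intro S hS
    induction S, hS using Set.Finite.induction_on with
    | empty => exact pic_empty h ρ hm κ N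
    | insert _ _ ih => exact pic_insert hρ ih _
  exact key _ (toFinite _)

end NRAux

/-- Partite construction over `Fin N` from `ramsey_ord K V κ` (order on `V` by `ρ`). Induction on a
finite set `S` of tuples `K → Fin N`: there is a picture `(V', E', tup', lab', ψ)` with copies
`ηV, ηE` indexed by a finite `J` (`LinHG`, `Cop`, `ψ ∘ tup' f` strictly monotone, `ψ ∘ ηV j` strictly
monotone for `ρ`) such that for every `c : E' → κ` there is `c' : (K → Fin N) → κ` so that for every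
strictly monotone `s : V → Fin N` some `j` has `ψ ∘ ηV j = s` and `c (ηE j f) = c' (s ∘ tup f)`
whenever `s ∘ tup f ∈ S`. Start: one disjoint copy for each `s`. Step: `nr_step`, copies are the
compositions. End: `S = univ`, and `ρ' v = ψ v * M + enc v` with `enc` injective and below `M`. -/
theorem nr [LinearOrder K] [Finite K] [Finite V] [Finite E] {τ : K → I} {A : Set I}
    {tup : E → K → V} {lab : V → I} (h : LinHG τ A tup lab) (ρ : V → ℕ) (hρ : Injective ρ)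
    (hm : ∀ f, StrictMono fun k => ρ (tup f k)) (κ : Type) [Finite κ] [Nonempty κ] :
    ∃ (V' E' J : Type) (_ : Finite V') (_ : Finite E') (_ : Finite J) (tup' : E' → K → V')
      (lab' : V' → I) (ηV : J → V → V') (ηE : J → E → E') (ρ' : V' → ℕ),
      LinHG τ A tup' lab' ∧ Cop tup lab tup' lab' ηV ηE ∧ Injective ρ' ∧
      (∀ f, StrictMono fun k => ρ' (tup' f k)) ∧
      (∀ j x y, ρ x < ρ y → ρ' (ηV j x) < ρ' (ηV j y)) ∧
      ∀ c : E' → κ, ∃ j γ, ∀ f, c (ηE j f) = γ := by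
  let _ : LinearOrder V := LinearOrder.lift' ρ hρ
  obtain ⟨N, hN⟩ := ramsey_ord K V κ
  obtain ⟨V', E', J, _, _, _, tup', lab', ηV, ηE, ψ, hL, hC, hψ, hmono, hR⟩ :=
    NRAux.pic_univ h ρ hρ hm κ N
  let enc : V' → Fin (Nat.card V') := Finite.equivFin V'
  have hlt : ∀ a b : V', ψ a < ψ b →
      (ψ a : ℕ) * Nat.card V' + enc a < (ψ b : ℕ) * Nat.card V' + enc b := by
    intro a b hab
    have h1 : (ψ a : ℕ) + 1 ≤ ψ b := hab
    have h2 := Nat.mul_le_mul_right (Nat.card V') h1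
    have h3 := (enc a).2
    rw [Nat.add_mul, Nat.one_mul] at h2
    omega
  refine ⟨V', E', J, inferInstance, inferInstance, inferInstance, tup', lab', ηV, ηE,
    fun v => (ψ v : ℕ) * Nat.card V' + enc v, hL, hC, fun a b hab => ?_,
    fun f k k' hk => hlt _ _ (hψ f hk), fun j x y hxy => hlt _ _ (hmono j x y hxy), fun c => ?_⟩
  · rcases lt_trichotomy (ψ a) (ψ b) with h1 | h1 | h1
    · exact ((hlt a b h1).ne hab).elim
    · have hab' : (ψ a : ℕ) * Nat.card V' + enc a = (ψ b : ℕ) * Nat.card V' + enc b := hab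
      rw [h1] at hab'
      exact (Finite.equivFin V').injective (Fin.ext (Nat.add_left_cancel hab'))
    · exact ((hlt b a h1).ne' hab).elim
  · obtain ⟨c', hc'⟩ := hR c
    obtain ⟨s, hs, γ, hγ⟩ := hN c'
    obtain ⟨j, -, hj⟩ := hc' s fun x y hxy => hs hxy
    exact ⟨j, γ, fun f => (hj f (mem_univ _)).trans (hγ (tup f) fun k k' hk => hm f hk)⟩

end Pool.Agent.Lib.MP_781e3b_co.RR
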