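import Pool.Agent.Lib.MP_781e3b_co.RR.Emb
import Pool.Agent.Lib.MP_781e3b_co.RR.NR

/-!
Extension process, first part: the wagons of level one become edges.
-/

namespace Pool.Agent.Lib.MP_781e3b_co.RR

open Set Function

variable {I K : Type}

/-- The disjoint union of the wagons of level one. -/
abbrev Tr.VW (F : Tr I K) : Type := {p : F.W 1 × F.V // p.2 ∈ F.N 1 p.1}

open Classical in
/-- For each `j` a copy of `F` in which every wagon `X` of level one is filled up to a tuple indexed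
by `V'`, the vertex `v` of `X` at the place `η j (X, v)`. -/
noncomputable def extF (F : Tr I K) {V' J : Type} [Finite V'] [Finite J] (lab' : V' → I)
    (η : J → F.VW → V') : Tr I V' where
  V := J × (F.V ⊕ F.W 1 × V')
  W μ := J × F.W (μ + 1)
  finV := inferInstance
  finW _ := inferInstance
  par μ z := (z.1, F.par (μ + 1) z.2)
  N μ z := {u | u.1 = z.1 ∧ ((∃ v ∈ F.N (μ + 1) z.2, u.2 = Sum.inl v) ∨
    ∃ X k, u.2 = Sum.inr (X, k) ∧ anc (W := fun μ => F.W (μ + 1)) (fun μ => F.par (μ + 1)) μ X = z.2 ∧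
      ∀ p : F.VW, p.1.1 = X → η z.1 p ≠ k)}
  tup z k := if h : ∃ p : F.VW, p.1.1 = z.2 ∧ η z.1 p = k then (z.1, Sum.inl h.choose.1.2)
    else (z.1, Sum.inr (z.2, k))
  lab u := Sum.elim F.lab (fun q => lab' q.2) u.2

variable {F : Tr I K} {V' J : Type} [Finite V'] [Finite J] {lab' : V' → I} {η : J → F.VW → V'}

namespace ExtAAux

theorem tup_cases (z : J × F.W 1) (k : V') :
    (∃ p : F.VW, p.1.1 = z.2 ∧ η z.1 p = k ∧ (extF F lab' η).tup z k = (z.1, Sum.inl p.1.2)) ∨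
      ((∀ p : F.VW, p.1.1 = z.2 → η z.1 p ≠ k) ∧
        (extF F lab' η).tup z k = (z.1, Sum.inr (z.2, k))) := by
  by_cases h : ∃ p : F.VW, p.1.1 = z.2 ∧ η z.1 p = k
  · exact Or.inl ⟨h.choose, h.choose_spec.1, h.choose_spec.2, dif_pos h⟩
  · exact Or.inr ⟨fun p h1 h2 => h ⟨p, h1, h2⟩, dif_neg h⟩

theorem shared {μ : ℕ} {z z' : J × F.W (μ + 1)} (hne : z ≠ z') {u : J × (F.V ⊕ F.W 1 × V')}
    (hu : u ∈ (extF F lab' η).N μ z) (hu' : u ∈ (extF F lab' η).N μ z') :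
    z.1 = z'.1 ∧ z.2 ≠ z'.2 ∧
      ∃ v, u = (z.1, Sum.inl v) ∧ v ∈ F.N (μ + 1) z.2 ∧ v ∈ F.N (μ + 1) z'.2 := by
  obtain ⟨a1, a2⟩ := hu
  obtain ⟨b1, b2⟩ := hu'
  have e1 : z.1 = z'.1 := a1.symm.trans b1
  have e2 : z.2 ≠ z'.2 := fun e => hne (Prod.ext e1 e)
  refine ⟨e1, e2, ?_⟩
  rcases a2 with ⟨v, hv, a2⟩ | ⟨X, k, a2, a3, -⟩ <;> rcases b2 with ⟨v', hv', b2⟩ | ⟨X', k', b2, b3, -⟩
  · obtain rfl : v = v' := Sum.inl_injective (a2.symm.trans b2)
    exact ⟨v, Prod.ext a1 a2, hv, hv'⟩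
  · exact absurd (a2.symm.trans b2) Sum.inl_ne_inr
  · exact absurd (b2.symm.trans a2) Sum.inl_ne_inr
  · obtain rfl : X = X' := congrArg Prod.fst (Sum.inr_injective (a2.symm.trans b2))
    exact absurd (a3.symm.trans b3) e2

theorem exists_rank (α : Type) [Finite α] [LinearOrder α] :
    ∃ (i : α → ℕ) (M : ℕ), StrictMono i ∧ 0 < M ∧ ∀ k, 1 + i k < M := by
  classical
  have := Fintype.ofFinite α
  refine ⟨fun k => (Finset.univ.filter fun l => l < k).card, Fintype.card α + 2, fun k k' hk => ?_,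
    by omega, fun k => ?_⟩
  · refine Finset.card_lt_card ⟨fun l hl => ?_, fun hs => ?_⟩
    · simp only [Finset.mem_filter, Finset.mem_univ, true_and] at hl ⊢
      exact hl.trans hk
    · have := hs (Finset.mem_filter.2 ⟨Finset.mem_univ k, hk⟩)
      simp at this
  · have := Finset.card_le_univ (Finset.univ.filter fun l => l < k)
    dsimp only
    omega

end ExtAAux

open ExtAAux

theorem extF_tup (hη : ∀ j, Injective (η j)) (j : J) (p : F.VW) :
    (extF F lab' η).tup (j, p.1.1) (η j p) = (j, Sum.inl p.1.2) := by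
  rcases tup_cases (lab' := lab') (η := η) (j, p.1.1) (η j p) with ⟨q, -, h2, h3⟩ | ⟨h1, -⟩
  · rw [h3, hη j h2]
  · exact absurd rfl (h1 p rfl)

variable [LinearOrder K] {τ : K → I} {m : ℕ} {A : ℕ → Set I}

/-- Points `inr (X, k)` lie in one wagon on each level, so shared points are `inl v`. For `ord` let
`i : V' → ℕ` be strictly monotone with values below `M - 1`; give `(j, inl v)` the value
`(ρ v + 1) M` and `(j, inr (X, k))` the value `a M + 1 + i k`, where `a` is the largest `ρ v + 1` with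
`v ∈ N 1 X`, `η j (X, v) < k` (`0` if there is none; `Finset.sup`). -/
theorem extF_good [LinearOrder V'] (h : Good τ (m + 1) A F) (hη : ∀ j, Injective (η j))
    (hl : ∀ j p, lab' (η j p) = F.lab p.1.2) (ρ : F.V → ℕ) (hρ : Injective ρ)
    (ho : ∀ j p q, p.1.1 = q.1.1 → ρ p.1.2 < ρ q.1.2 → η j p < η j q) :
    Good lab' m (fun μ => A (μ + 1)) (extF F lab' η) := by
  classical
  refine ⟨fun f => ?_, fun f k => ?_, fun μ hμ z u hu => ?_, fun μ hμ z z' hne hp u hu hu' => ?_, ?_⟩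
  · ext u
    constructor
    · rintro ⟨a1, ⟨v, hv, a2⟩ | ⟨X, k, a2, a3, a4⟩⟩
      · exact ⟨η f.1 ⟨(f.2, v), hv⟩, (extF_tup hη f.1 ⟨(f.2, v), hv⟩).trans (Prod.ext a1 a2).symm⟩
      · obtain rfl : X = f.2 := a3
        rcases tup_cases (lab' := lab') (η := η) f k with ⟨q, b1, b2, -⟩ | ⟨-, b2⟩
        · exact absurd b2 (a4 q b1)
        · exact ⟨k, b2.trans (Prod.ext a1 a2).symm⟩
    · rintro ⟨k, rfl⟩
      rcases tup_cases (lab' := lab') (η := η) f k with ⟨q, b1, -, b3⟩ | ⟨b1, b2⟩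
      · rw [b3]
        exact ⟨rfl, Or.inl ⟨q.1.2, b1 ▸ q.2, rfl⟩⟩
      · rw [b2]
        exact ⟨rfl, Or.inr ⟨f.2, k, rfl, rfl, b1⟩⟩
  · rcases tup_cases (lab' := lab') (η := η) f k with ⟨q, -, b2, b3⟩ | ⟨-, b2⟩
    · rw [b3, ← b2]
      exact (hl _ _).symm
    · rw [b2]
      rfl
  · obtain ⟨a1, ⟨v, hv, a2⟩ | ⟨X, k, a2, a3, a4⟩⟩ := hu
    · exact ⟨a1, Or.inl ⟨v, h.sub (μ + 1) (by omega) z.2 hv, a2⟩⟩
    · exact ⟨a1, Or.inr ⟨X, k, a2, congrArg (F.par (μ + 1)) a3, a4⟩⟩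
  · obtain ⟨-, e2, v, rfl, hv, hv'⟩ := shared hne hu hu'
    have := h.sib (μ + 1) (by omega) z.2 z'.2 e2
      (fun hlt => congrArg Prod.snd (hp (by omega))) v hv hv'
    exact ⟨by omega, this.2⟩
  · obtain ⟨i, M, hi, hM, hiM⟩ := exists_rank V'
    have := Fintype.ofFinite F.VW
    have key : ∀ j (p q : F.VW), p.1.1 = q.1.1 → η j p < η j q → ρ p.1.2 < ρ q.1.2 := by
      intro j p q e hlt
      rcases lt_trichotomy (ρ p.1.2) (ρ q.1.2) with h1 | h1 | h1
      · exact h1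
      · obtain rfl : p = q := Subtype.ext (Prod.ext e (hρ h1))
        exact absurd hlt (lt_irrefl _)
      · exact absurd (ho j q p e.symm h1) hlt.not_gt
    let a : J → F.W 1 → V' → ℕ := fun j X k =>
      (Finset.univ.filter fun p : F.VW => p.1.1 = X ∧ η j p < k).sup fun p => ρ p.1.2 + 1
    refine ⟨fun u => Sum.elim (fun v => (ρ v + 1) * M) (fun q => a u.1 q.1 q.2 * M + 1 + i q.2) u.2,
      fun f k k' hk => ?_⟩
    rcases tup_cases (lab' := lab') (η := η) f k with ⟨p, a1, a2, a3⟩ | ⟨-, a3⟩ <;>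
      rcases tup_cases (lab' := lab') (η := η) f k' with ⟨q, b1, b2, b3⟩ | ⟨-, b3⟩ <;>
      simp only [a3, b3, Sum.elim_inl, Sum.elim_inr]
    · have := key f.1 p q (a1.trans b1.symm) (by rw [a2, b2]; exact hk)
      exact Nat.mul_lt_mul_of_pos_right (by omega) hM
    · have h1 : ρ p.1.2 + 1 ≤ a f.1 f.2 k' :=
        Finset.le_sup (f := fun p : F.VW => ρ p.1.2 + 1)
          (Finset.mem_filter.2 ⟨Finset.mem_univ p, a1, a2 ▸ hk⟩)
      have := Nat.mul_le_mul_right M h1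
      omega
    · have h1 : a f.1 f.2 k ≤ ρ q.1.2 := Finset.sup_le fun p hp => by
        obtain ⟨-, c1, c2⟩ := Finset.mem_filter.1 hp
        exact key f.1 p q (c1.trans b1.symm) (by rw [b2]; exact c2.trans hk)
      have h2 := Nat.mul_le_mul_right M h1
      have h3 := hiM k
      rw [add_mul, one_mul]
      omega
    · have h1 : a f.1 f.2 k ≤ a f.1 f.2 k' := Finset.sup_mono fun p hp => by
        obtain ⟨c0, c1, c2⟩ := Finset.mem_filter.1 hp
        exact Finset.mem_filter.2 ⟨c0, c1, c2.trans hk⟩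
      have h2 := Nat.mul_le_mul_right M h1
      have h3 := hi hk
      omega

/-- `Gir.nest` over `J` (the copies are disjoint), `SF.pull` inside a copy. -/
theorem extF_gir {μ n : ℕ} (h : Gir (F.N (μ + 1)) n) : Gir ((extF F lab' η).N μ) n := by
  classical
  refine Gir.nest (Nb := fun j : J => {j' : J | j' = j})
    (gir_of_disjoint (fun _ _ hne v hv hv' => hne (hv.symm.trans hv')) n) Prod.fst (fun _ _ => False)
    (fun _ _ _ h => h.elim) (fun X hX hs => ?_) fun z z' hne u hu hu' => absurd (hu.1.symm.trans hu'.1) hne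
  refine (h (X.image Prod.snd) (Finset.card_image_le.trans hX)).pull Prod.snd
    (fun u v => ∃ z ∈ X, u = (z.1, Sum.inl v)) ?_ _ (fun z hz => ?_)
    (fun z hz z' hz' e => Prod.ext (hs z hz z' hz') e) fun z hz z' _ hne u hu hu' => ?_
  · rintro u u' v ⟨z, hz, rfl⟩ ⟨z', hz', rfl⟩
    rw [hs z hz z' hz']
  · exact Finset.mem_coe.2 (Finset.mem_image_of_mem _ hz)
  · obtain ⟨-, -, v, e, hv, hv'⟩ := shared hne hu hu'
    exact ⟨v, ⟨z, hz, e⟩, hv, hv'⟩

/-- `fp_sum` with `o = Prod.fst`. -/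
theorem extF_fp (μ n : ℕ) :
    FP (⟨fun j => range fun v => (j, Sum.inl v), fun j => range fun z => (j, z),
      (extF F lab' η).N μ⟩ : Sys J (J × F.W (μ + 1)) (J × (F.V ⊕ F.W 1 × V'))) False n := by
  refine fp_sum _ False n Prod.fst (fun z P => ⟨?_, ?_⟩) ?_ ?_ (fun z z' hne u hu hu' => ?_) False.elim
  · rintro ⟨y, rfl⟩
    rfl
  · rintro rfl
    exact ⟨z.2, rfl⟩
  · rintro P P' hne _ ⟨v, rfl⟩ ⟨v', e⟩
    exact hne (congrArg Prod.fst e).symm
  · rintro z P _ hu ⟨v, rfl⟩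
    exact hu.1.symm
  · obtain ⟨-, -, v, e, -⟩ := shared (lab' := lab') (η := η) hne hu hu'
    exact ⟨v, e.symm⟩

end Pool.Agent.Lib.MP_781e3b_co.RR
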