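import Pool.Agent.Lib.MP_781e3b_co.RR.ExtA

/-!
Extension process, second part.
-/

namespace Pool.Agent.Lib.MP_781e3b_co.RR

open Set Function

variable {I K : Type}

/-- Put the hypergraph `tup'` on every edge of `H`. -/
def extH {V' E' : Type} [Finite E'] (H : Tr I V') (tup' : E' → K → V') : Tr I K where
  V := H.V
  W := fun | 0 => H.W 0 × E' | μ + 1 => H.W μ
  finV := inferInstance
  finW := fun | 0 => inferInstanceAs (Finite (H.W 0 × E')) | μ + 1 => H.finW μ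
  par := fun | 0 => Prod.fst | μ + 1 => H.par μ
  N := fun | 0 => fun z => range fun k => H.tup z.1 (tup' z.2 k) | μ + 1 => H.N μ
  tup z k := H.tup z.1 (tup' z.2 k)
  lab := H.lab

namespace ExtBAux

/-- A ranking of a finite type can be refined to an injective one. -/
theorem refine_ord {V : Type} [Finite V] (ρ₀ : V → ℕ) :
    ∃ ρ : V → ℕ, Injective ρ ∧ ∀ x y, ρ₀ x < ρ₀ y → ρ x < ρ y := by
  obtain ⟨M, ⟨enc⟩⟩ := Finite.exists_equiv_fin V
  have key : ∀ x y, ρ₀ x < ρ₀ y → ρ₀ x * M + (enc x : ℕ) < ρ₀ y * M + (enc y : ℕ) := by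
    intro x y h
    have h1 := (enc x).isLt
    have h2 : (ρ₀ x + 1) * M ≤ ρ₀ y * M := Nat.mul_le_mul_right M h
    rw [Nat.add_mul, Nat.one_mul] at h2
    omega
  refine ⟨fun x => ρ₀ x * M + (enc x : ℕ), fun x y h => ?_, key⟩
  rcases lt_trichotomy (ρ₀ x) (ρ₀ y) with h1 | h1 | h1
  · exact absurd h (key x y h1).ne
  · simp only [h1, Nat.add_right_inj] at h
    exact enc.injective (Fin.ext h)
  · exact absurd h (key y x h1).ne'

theorem extF_tup_inv {F : Tr I K} {V' J : Type} [Finite V'] [Finite J] {lab' : V' → I}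
    {η : J → F.VW → V'} {j j' : J} {X : F.W 1} {k : V'} {x : F.V}
    (h : (extF F lab' η).tup (j', X) k = (j, Sum.inl x)) :
    j' = j ∧ ∃ p : F.VW, p.1.1 = X ∧ p.1.2 = x ∧ η j p = k := by
  simp only [extF] at h
  split_ifs at h with hp
  · obtain ⟨rfl, h2⟩ := Prod.mk.inj h
    exact ⟨rfl, hp.choose, hp.choose_spec.1, Sum.inl.inj h2, hp.choose_spec.2⟩
  · exact absurd (Prod.mk.inj h).2 Sum.inr_ne_inl

variable [LinearOrder K] {τ : K → I} {m : ℕ} {A : ℕ → Set I} {F : Tr I K}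

/-- The edges of `F` inside the disjoint union of the wagons of level one. -/
def tupW (h : Good τ (m + 1) A F) (f : F.W 0) (k : K) : F.VW :=
  ⟨(F.par 0 f, F.tup f k), h.sub 0 (Nat.succ_pos m) f (by rw [h.N0]; exact ⟨k, rfl⟩)⟩

theorem linW (h : Good τ (m + 1) A F) (hl : Lin (F.N 0)) :
    LinHG τ (A 0) (tupW h) fun p => F.lab p.1.2 where
  hlab := h.lab
  lin := by
    rintro f f' hne _ ⟨⟨k, rfl⟩, k', hk⟩ _ ⟨⟨l, rfl⟩, l', hl'⟩
    have e1 : F.tup f' k' = F.tup f k := congrArg (fun p : F.VW => p.1.2) hk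
    have e2 : F.tup f' l' = F.tup f l := congrArg (fun p : F.VW => p.1.2) hl'
    have : F.tup f k = F.tup f l := hl f f' hne
      ⟨by rw [h.N0]; exact ⟨k, rfl⟩, by rw [h.N0]; exact ⟨k', e1⟩⟩
      ⟨by rw [h.N0]; exact ⟨l, rfl⟩, by rw [h.N0]; exact ⟨l', e2⟩⟩
    exact Subtype.ext (Prod.ext rfl this)
  par := by
    rintro f f' hne _ ⟨k, rfl⟩ ⟨k', hk⟩
    have e1 : F.tup f' k' = F.tup f k := congrArg (fun p : F.VW => p.1.2) hk
    have e2 : F.par 0 f' = F.par 0 f := congrArg (fun p : F.VW => p.1.1) hk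
    exact (h.sib 0 (Nat.zero_le _) f f' hne (fun _ => e2.symm) (F.tup f k)
      (by rw [h.N0]; exact ⟨k, rfl⟩) (by rw [h.N0]; exact ⟨k', e1⟩)).2

variable {V' E' J : Type} [Finite V'] [Finite E'] [Finite J] {tup' : E' → K → V'} {lab' : V' → I}
  {ηV : J → F.VW → V'} {ηE : J → F.W 0 → E'} {H : Tr I V'}

omit [Finite E'] in
theorem tup_emb (h : Good τ (m + 1) A F)
    (hC : Cop (tupW h) (fun p => F.lab p.1.2) tup' lab' ηV ηE) (e : Emb m (extF F lab' ηV) H)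
    (j : J) (f : F.W 0) (k : K) :
    H.tup (e.w 0 (j, F.par 0 f)) (tup' (ηE j f) k) = e.v (j, Sum.inl (F.tup f k)) := by
  rw [e.tup, hC.htup]
  exact congrArg e.v (extF_tup hC.vinj j (tupW h f k))

/-- The copy of `F` in the host that belongs to the pair `(e, j)`. -/
def emb (h : Good τ (m + 1) A F) (hC : Cop (tupW h) (fun p => F.lab p.1.2) tup' lab' ηV ηE)
    (e : Emb m (extF F lab' ηV) H) (j : J) : Emb (m + 1) F (extH H tup') where
  v x := e.v (j, Sum.inl x)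
  w := fun | 0 => fun f => (e.w 0 (j, F.par 0 f), ηE j f) | μ + 1 => fun z => e.w μ (j, z)
  par := fun | 0 => fun _ => rfl | μ + 1 => fun z => e.par μ (j, z)
  N := fun
    | 0 => fun _ z x hx => by
        rw [h.N0] at hx
        obtain ⟨k, rfl⟩ := hx
        exact ⟨k, tup_emb h hC e j z k⟩
    | μ + 1 => fun hμ z x hx =>
        e.N μ (Nat.le_of_succ_le_succ hμ) (j, z) (j, Sum.inl x) ⟨rfl, Or.inl ⟨x, hx, rfl⟩⟩
  tup f k := tup_emb h hC e j f k
  lab x := e.lab (j, Sum.inl x)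
  vinj _ _ hxy := Sum.inl.inj (Prod.mk.inj (e.vinj hxy)).2
  winj := fun
    | 0 => fun _ _ _ hxy => hC.einj j (Prod.mk.inj hxy).2
    | μ + 1 => fun hμ _ _ hxy => (Prod.mk.inj (e.winj μ (Nat.le_of_succ_le_succ hμ) hxy)).2
  ind := fun
    | 0 => fun _ z x hx => by
        obtain ⟨k, hk⟩ := hx
        have h1 := (tup_emb h hC e j z k).symm.trans hk
        rw [h.N0]
        exact ⟨k, Sum.inl.inj (Prod.mk.inj (e.vinj h1)).2⟩
    | μ + 1 => fun hμ z x hx => by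
        obtain ⟨_, ⟨v, hv, h1⟩ | ⟨X, k, h1, _⟩⟩ :=
          e.ind μ (Nat.le_of_succ_le_succ hμ) (j, z) (j, Sum.inl x) hx
        · exact Sum.inl.inj h1 ▸ hv
        · exact absurd h1 Sum.inl_ne_inr

omit [Finite V'] in
theorem good_extH [LinearOrder V'] (hH : Good lab' m (fun μ => A (μ + 1)) H)
    (hL : LinHG τ (A 0) tup' lab') (hm : ∀ f, StrictMono (tup' f)) :
    Good τ (m + 1) A (extH H tup') where
  N0 _ := rfl
  lab z k := (hH.lab z.1 (tup' z.2 k)).trans (hL.hlab z.2 k)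
  sub := fun
    | 0 => fun _ z => by
        rintro _ ⟨k, rfl⟩
        change _ ∈ H.N 0 z.1
        rw [hH.N0]
        exact ⟨_, rfl⟩
    | μ + 1 => fun hμ z => hH.sub μ (Nat.lt_of_succ_lt_succ hμ) z
  sib := fun
    | 0 => fun _ z z' hne hp => by
        rintro _ ⟨k, rfl⟩ ⟨k', hk⟩
        obtain ⟨Z, f⟩ := z
        obtain ⟨Z', f'⟩ := z'
        obtain rfl : Z = Z' := hp (Nat.succ_pos m)
        have h1 : tup' f' k' = tup' f k := hH.inj Z hk
        refine ⟨Nat.succ_pos m, ?_⟩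
        change H.lab (H.tup Z (tup' f k)) ∈ A 0
        rw [hH.lab]
        exact hL.par f f' (fun e => hne (e ▸ rfl)) _ ⟨k, rfl⟩ ⟨k', h1⟩
    | μ + 1 => fun hμ z z' hne hp v hv hv' =>
        let ⟨a, b⟩ := hH.sib μ (Nat.le_of_succ_le_succ hμ) z z' hne
          (fun h => hp (Nat.succ_lt_succ h)) v hv hv'
        ⟨Nat.succ_lt_succ a, b⟩
  ord :=
    let ⟨ρ, hρ⟩ := hH.ord
    ⟨ρ, fun z => (hρ z.1).comp (hm z.2)⟩

omit [LinearOrder K] [Finite V'] in
theorem lin_extH [LinearOrder V'] (hH : Good lab' m (fun μ => A (μ + 1)) H) (hl : Lin (H.N 0))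
    (hL : LinHG τ (A 0) tup' lab') : Lin ((extH H tup').N 0) := by
  rintro ⟨Z, f⟩ ⟨Z', f'⟩ hne _ ⟨⟨k, rfl⟩, k', hk⟩ _ ⟨⟨l, rfl⟩, l', hl'⟩
  by_cases hZ : Z = Z'
  · subst hZ
    have h1 : tup' f' k' = tup' f k := hH.inj Z hk
    have h2 : tup' f' l' = tup' f l := hH.inj Z hl'
    have : tup' f k = tup' f l := hL.lin f f' (fun e => hne (e ▸ rfl)) ⟨⟨k, rfl⟩, k', h1⟩
      ⟨⟨l, rfl⟩, l', h2⟩
    exact congrArg (H.tup Z) this
  · exact hl Z Z' hZ ⟨by rw [hH.N0]; exact ⟨_, rfl⟩, by rw [hH.N0]; exact ⟨_, hk⟩⟩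
      ⟨by rw [hH.N0]; exact ⟨_, rfl⟩, by rw [hH.N0]; exact ⟨_, hl'⟩⟩

theorem si_emb [LinearOrder V'] (h : Good τ (m + 1) A F)
    (hC : Cop (tupW h) (fun p => F.lab p.1.2) tup' lab' ηV ηE)
    (hH : Good lab' m (fun μ => A (μ + 1)) H) (e : Emb m (extF F lab' ηV) H)
    (hs : ∀ Z, Z ∉ range (e.w 0) → (H.N 0 Z ∩ range e.v).Subsingleton) (j : J)
    (z : (extH H tup').W 0) (hz : z ∉ range ((emb h hC e j).w 0)) :
    ((extH H tup').N 0 z ∩ range (emb h hC e j).v).Subsingleton := by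
  obtain ⟨Z, f'⟩ := z
  rintro _ ⟨⟨k, hk⟩, x, rfl⟩ _ ⟨⟨l, hl⟩, y, rfl⟩
  change H.tup Z (tup' f' k) = e.v (j, Sum.inl x) at hk
  change H.tup Z (tup' f' l) = e.v (j, Sum.inl y) at hl
  by_contra hne
  have hZ : Z ∈ range (e.w 0) := by
    by_contra hZ
    exact hne (hs Z hZ ⟨by rw [hH.N0]; exact ⟨_, hk⟩, _, rfl⟩
      ⟨by rw [hH.N0]; exact ⟨_, hl⟩, _, rfl⟩)
  obtain ⟨⟨j', X⟩, rfl⟩ := hZ
  rw [e.tup] at hk hl
  obtain ⟨rfl, p, hp1, hp2, hp3⟩ := extF_tup_inv (e.vinj hk)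
  obtain ⟨-, q, -, hq2, hq3⟩ := extF_tup_inv (e.vinj hl)
  have hf : f' ∈ range (ηE j') := by
    by_contra hf
    have h1 : ηV j' p = ηV j' q :=
      hC.si j' f' hf ⟨⟨k, hp3.symm⟩, p, rfl⟩ ⟨⟨l, hq3.symm⟩, q, rfl⟩
    have h2 : x = y := by rw [← hp2, ← hq2, hC.vinj j' h1]
    exact hne (h2 ▸ rfl)
  obtain ⟨f, rfl⟩ := hf
  rw [hC.htup] at hp3
  obtain rfl := hC.vinj j' hp3
  exact hz ⟨f, hp1 ▸ rfl⟩

end ExtBAux

open ExtBAux in
/-- Make the order `ρ` of `F` injective. Apply `nr` to the vertices `F.VW`, the edges `F.W 0` with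
`tup f k = (par f, tup f k)`, parameter `A 0`, and the order `ρ v * M + enc X` of `(X, v)`. Order `V'`
by `ρ'` (`LinearOrder.lift'`). Apply `h` to `extF F lab' ηV` with the colours `J × κ` (`J` is not
empty by the Ramsey property; level `0` is linear by girth `n 0 ≥ 2` or by `Good.gir_top`). The host
is `extH H tup'`, the copies are indexed by pairs `(c, j)`: `v ↦ (e c).v (j, inl v)`,
`f ↦ ((e c).w 0 (j, par f), ηE j f)`, `z ↦ (e c).w μ (j, z)` on level `μ + 1` (`extF_tup`).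
Ramsey: colour the edge `Z` of `H` by `(j, γ)` with `c (Z, ηE j f) = γ` for all `f`.
`si`: two points of `(Z, f')` in the copy give `Z = (e c).w 0 (j', X)` (`si` of `H`); by `ind` and
injectivity `j' = j` and the points sit at places `ηV j (X, v)`, `ηV j (X, w)` of `f'`; `Cop.si` gives
`f' = ηE j f` and then `par f = X`. `fp`: `FP.one` on level `0`, `fp_comp` with `extF_fp` above. -/
theorem dia_ext {m : ℕ} {n : ℕ → ℕ} (h : Dia m n) (h2 : 2 ≤ n 0) : Dia (m + 1) (cons 1 n) := by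
  intro I K _ _ τ A κ _ _ F hF hl hg
  obtain ⟨ρ₀, hρ₀⟩ := hF.ord
  obtain ⟨ρ, hρ, hρρ⟩ := refine_ord ρ₀
  obtain ⟨ρW, hW, hWρ⟩ := refine_ord fun p : F.VW => ρ p.1.2
  obtain ⟨V', E', J, _, _, _, tup', lab', ηV, ηE, ρ', hL, hC, hρ', hm', hmono, hram⟩ :=
    nr (linW hF hl) ρW hW (fun f k k' hk => hWρ _ _ (hρρ _ _ (hρ₀ f hk))) κ
  let _ : LinearOrder V' := LinearOrder.lift' ρ' hρ'
  have : Nonempty J := let ⟨j, _⟩ := hram fun _ => Classical.arbitrary κ; ⟨j⟩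
  have hG : Good lab' m (fun μ => A (μ + 1)) (extF F lab' ηV) :=
    extF_good hF hC.vinj hC.hlab ρ hρ fun j p q _ hpq => hmono j p q (hWρ p q hpq)
  have hlin : Lin ((extF F lab' ηV).N 0) := by
    rcases Nat.eq_zero_or_pos m with rfl | hm
    · exact (hG.gir_top 2).lin le_rfl
    · exact (extF_gir (hg 1 le_rfl (Nat.succ_lt_succ hm))).lin h2
  obtain ⟨H, C, e, hO⟩ := h I V' lab' (fun μ => A (μ + 1)) (J × κ) (extF F lab' ηV) hG hlin
    fun μ _ hμ => extF_gir (hg (μ + 1) (Nat.succ_pos μ) (Nat.succ_lt_succ hμ))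
  have := hO.fin
  refine ⟨extH H tup', C × J, fun P => emb hF hC (e P.1) P.2, inferInstance,
    good_extH hO.good hL hm', lin_extH hO.good hO.lin hL,
    fun P => si_emb hF hC hO.good (e P.1) (hO.si P.1) P.2, fun c => ?_, fun μ hμ => ?_⟩
  · choose j γ hj using fun Z : H.W 0 => hram fun f' => c (Z, f')
    obtain ⟨P, ⟨j₀, γ₀⟩, hP⟩ := hO.ram fun Z => (j Z, γ Z)
    refine ⟨(P, j₀), γ₀, fun f => ?_⟩
    obtain ⟨h1, h3⟩ := Prod.mk.inj (hP (j₀, F.par 0 f))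
    have h4 := hj ((e P).w 0 (j₀, F.par 0 f)) f
    rw [h1, h3] at h4
    exact h4
  · cases μ with
    | zero => exact FP.one _ _
    | succ μ =>
      have hμ' := Nat.lt_of_succ_lt_succ hμ
      refine FP.weaken (full := False) ?_ (Nat.succ_ne_zero μ)
      exact fp_comp (SH := sys e μ)
        (SL := (⟨fun j => range fun v => (j, Sum.inl v), fun j => range fun z => (j, z),
          (extF F lab' ηV).N μ⟩ : Sys J (J × F.W (μ + 1)) (J × (F.V ⊕ F.W 1 × V'))))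
        (fun c => (e c).v) (fun c => (e c).w μ) (fun c => (e c).vinj)
        (fun c => (e c).winj μ hμ'.le) (fun _ => rfl) (fun _ => rfl)
        (fun c y u => ⟨(e c).ind μ hμ'.le y u, (e c).N μ hμ'.le y u⟩)
        (fun c j => range_comp (e c).v fun v => (j, Sum.inl v))
        (fun c j => range_comp ((e c).w μ) fun z => (j, z)) rfl (hO.fp μ hμ') (extF_fp μ (n μ))

end Pool.Agent.Lib.MP_781e3b_co.RR
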