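import Pool.Agent.Lib.MP_781e3b_co.RR.FinDefs

/-!
The 2-density, and a Ramsey graph that keeps it locally.
-/

namespace Pool.Agent.Lib.MP_781e3b_co.RR

open Set Function

namespace FinAAux

theorem two_le_degree {U : Type} [Fintype U] (H : SimpleGraph U) [DecidableRel H.Adj]
    (ha : 3 ≤ Fintype.card U) (h2 : ∀ v, (H.induce {v}ᶜ).Connected) (v : U) : 2 ≤ H.degree v := by
  classical
  by_contra hlt
  have h1 : (H.neighborFinset v).card ≤ 1 := by
    rw [H.card_neighborFinset_eq_degree]; omega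
  obtain ⟨w, hwv, hw⟩ : ∃ w, w ≠ v ∧ ∀ t, H.Adj v t → t = w := by
    by_cases hex : ∃ w, H.Adj v w
    · obtain ⟨w, hw⟩ := hex
      exact ⟨w, hw.ne', fun t ht => Finset.card_le_one.1 h1 t (by simpa using ht) w
        (by simpa using hw)⟩
    · have : Nontrivial U := Fintype.one_lt_card_iff_nontrivial.1 (by omega)
      obtain ⟨w, hw⟩ := exists_ne v
      exact ⟨w, hw, fun t ht => (hex ⟨t, ht⟩).elim⟩
  obtain ⟨u, hu⟩ : ∃ u, u ∉ ({v, w} : Finset U) := by
    by_contra hno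
    push Not at hno
    have h3 : (Finset.univ : Finset U).card ≤ ({v, w} : Finset U).card :=
      Finset.card_le_card fun u _ => hno u
    have h4 : ({v, w} : Finset U).card ≤ 2 := Finset.card_le_two
    rw [Finset.card_univ] at h3
    omega
  simp only [Finset.mem_insert, Finset.mem_singleton, not_or] at hu
  have hr := (h2 w).preconnected ⟨v, hwv.symm⟩ ⟨u, hu.2⟩
  rw [SimpleGraph.reachable_iff_reflTransGen] at hr
  rcases hr.cases_head with h | ⟨t, ht, -⟩
  · exact hu.1 (congrArg Subtype.val h).symm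
  · exact t.2 (hw t.1 ht)

theorem le_card_DE {a : ℕ} (H : SimpleGraph (Fin a)) {U : Type} [Fintype U] (J : SimpleGraph U)
    (ha : 3 ≤ Fintype.card U) (h2 : ∀ v, (J.induce {v}ᶜ).Connected)
    (hJ : Pool.Agent.Lib.MP_781e3b_co.Emb J H.Adj) :
    ∃ (K : Finset (Fin a)) (D : Finset (DE H)), 3 ≤ K.card ∧ Ins DE.x DE.y K D ∧
      K.card ≤ D.card := by
  classical
  obtain ⟨j, j1, j2⟩ := hJ
  have hK : (Finset.univ.image j).card = Fintype.card U := by
    rw [Finset.card_image_of_injective _ j1, Finset.card_univ]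
  refine ⟨Finset.univ.image j, Finset.univ.filter fun d : DE H =>
    d.x ∈ Finset.univ.image j ∧ d.y ∈ Finset.univ.image j, hK.symm ▸ ha,
    fun d hd => (Finset.mem_filter.1 hd).2, ?_⟩
  have h1 := J.sum_degrees_eq_twice_card_edges
  have h3 : ∑ _v : U, 2 ≤ ∑ v, J.degree v :=
    Finset.sum_le_sum fun v _ => two_le_degree J ha h2 v
  have h4 : J.edgeFinset.image (Sym2.map j) ⊆ (Finset.univ.filter fun d : DE H =>
      d.x ∈ Finset.univ.image j ∧ d.y ∈ Finset.univ.image j).image fun d : DE H => s(d.x, d.y) := by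
    intro e he0
    obtain ⟨e, he, rfl⟩ := Finset.mem_image.1 he0
    induction e using Sym2.ind with
    | _ u v =>
      rw [SimpleGraph.mem_edgeFinset, SimpleGraph.mem_edgeSet] at he
      have hu := Finset.mem_image_of_mem j (Finset.mem_univ u)
      have hv := Finset.mem_image_of_mem j (Finset.mem_univ v)
      obtain ⟨d, hd | hd⟩ := DE.of_adj (j2 u v he)
      · exact Finset.mem_image.2 ⟨d, Finset.mem_filter.2 ⟨Finset.mem_univ _, hd.1 ▸ hu, hd.2 ▸ hv⟩,
          by rw [hd.1, hd.2, Sym2.map_mk]⟩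
      · exact Finset.mem_image.2 ⟨d, Finset.mem_filter.2 ⟨Finset.mem_univ _, hd.1 ▸ hv, hd.2 ▸ hu⟩,
          by rw [hd.1, hd.2, Sym2.map_mk, Sym2.eq_swap]⟩
  have h5 := (Finset.card_le_card h4).trans Finset.card_image_le
  rw [Finset.card_image_of_injective _ (Sym2.map.injective j1)] at h5
  simp only [Finset.sum_const, Finset.card_univ, smul_eq_mul] at h3
  omega

theorem card_le_one {a : ℕ} {H : SimpleGraph (Fin a)} {K : Finset (Fin a)} {D : Finset (DE H)}
    (hK : K.card = 2) (hD : Ins DE.x DE.y K D) : D.card ≤ 1 := by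
  obtain ⟨p, q, -, rfl⟩ := Finset.card_eq_two.1 hK
  refine Finset.card_le_one.2 fun d hd d' hd' => ?_
  by_contra hne
  have h1 := hD d hd
  have h2 := hD d' hd'
  have h3 := d.ne
  have h4 := d'.ne
  simp only [Finset.mem_insert, Finset.mem_singleton] at h1 h2
  refine h3 (DE.simple d d' hne ⟨Or.inl rfl, ?_⟩ ⟨Or.inr rfl, ?_⟩) <;>
    simp only [mem_insert_iff, mem_singleton_iff] <;> omega

end FinAAux

/-- Among the pairs `(K, D)` with `3 ≤ |K|` and `D` inside `K` let `m` be the largest value of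
`(|D| - 1) / (|K| - 2)`; among the pairs that attain it take one with least `|K|`. `Wk` for `|K| = 2`:
at most one edge (`DE.simple`). `1 < m` from the pair `K₀, D₀`. -/
theorem exists_density {a : ℕ} (H : SimpleGraph (Fin a)) {K₀ : Finset (Fin a)}
    {D₀ : Finset (DE H)} (ha : 3 ≤ K₀.card) (h0 : Ins DE.x DE.y K₀ D₀) (h2 : K₀.card ≤ D₀.card) :
    ∃ (m : ℝ) (n : ℕ), 1 < m ∧ 3 ≤ n ∧ Wk (DE.x (H := H)) DE.y m univ ∧
      ∃ K D, MT (DE.x (H := H)) DE.y m n K D := by
  classical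
  let T : Finset (Finset (Fin a) × Finset (DE H)) :=
    Finset.univ.filter fun p => 3 ≤ p.1.card ∧ Ins DE.x DE.y p.1 p.2
  have hT : ∀ K D, (K, D) ∈ T ↔ 3 ≤ K.card ∧ Ins DE.x DE.y K D := fun K D => by simp [T]
  let r : Finset (Fin a) × Finset (DE H) → ℝ := fun p => ((p.2.card : ℝ) - 1) / (p.1.card - 2)
  have hu : (K₀, D₀) ∈ T := (hT _ _).2 ⟨ha, h0⟩
  obtain ⟨p₀, hp₀, hmax⟩ := T.exists_max_image r ⟨_, hu⟩
  obtain ⟨⟨K, D⟩, hp, hmin⟩ := (T.filter fun p => r p = r p₀).exists_min_image (fun p => p.1.card)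
    ⟨p₀, Finset.mem_filter.2 ⟨hp₀, rfl⟩⟩
  obtain ⟨hp, hr⟩ := Finset.mem_filter.1 hp
  have pos : ∀ K : Finset (Fin a), 3 ≤ K.card → (0 : ℝ) < K.card - 2 := fun K hK => by
    have : (3 : ℝ) ≤ K.card := by exact_mod_cast hK
    linarith
  have hle : ∀ (K : Finset (Fin a)) (D : Finset (DE H)), 3 ≤ K.card → Ins DE.x DE.y K D →
      (D.card : ℝ) ≤ r p₀ * (K.card - 2) + 1 := by
    intro K D hK hD
    have := (div_le_iff₀ (pos K hK)).1 (hmax (K, D) ((hT K D).2 ⟨hK, hD⟩))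
    linarith
  have heq : ∀ (K : Finset (Fin a)) (D : Finset (DE H)), 3 ≤ K.card →
      (r (K, D) = r p₀ ↔ (D.card : ℝ) = r p₀ * (K.card - 2) + 1) := by
    intro K D hK
    rw [← sub_eq_iff_eq_add]
    exact div_eq_iff (pos K hK).ne'
  obtain ⟨hK, hD⟩ := (hT K D).1 hp
  refine ⟨r p₀, K.card, ?_, hK, fun K' D' h2' _ hD' => ?_, K, D, rfl, hD, (heq K D hK).1 hr,
    fun K' hK' h3 D' _ hD' => ?_⟩
  · have h1 := hle _ _ ha h0
    have h3 : (K₀.card : ℝ) ≤ D₀.card := by exact_mod_cast h2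
    have h4 : (3 : ℝ) ≤ K₀.card := by exact_mod_cast ha
    by_contra hm
    push Not at hm
    nlinarith
  · rcases h2'.eq_or_lt with h | h
    · have h1 : (D'.card : ℝ) ≤ 1 := by exact_mod_cast FinAAux.card_le_one h.symm hD'
      rw [← h]
      simpa using h1
    · exact hle K' D' h hD'
  · refine lt_of_le_of_ne (hle K' D' h3 hD') fun e => ?_
    have := hmin (K', D') (Finset.mem_filter.2 ⟨(hT _ _).2 ⟨h3, hD'⟩, (heq K' D' h3).2 e⟩)
    exact absurd (Finset.card_lt_card hK') (not_lt.2 this)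

/-- `girth_ramsey` for `tee DE.x DE.y α β` with `P = Unit`, `K = Fin 2`, `α = 0`, `β = 1`, colours
`Fin 2` and `n = card (DE H₂)` (`tee_good`, `tee_lin`). `G` joins `tup z 0` and `tup z 1`. A colouring
of pairs colours `z` by the colour of `(tup z 0, tup z 1)`; a monochromatic copy `e j` gives the map
`u ↦ (e j).v ((), inl u)`. For a copy `f` of `H₂` in `G` choose for each `d` an edge `z d` of the host
with the ends `f d.x`, `f d.y` in some order (`z` is injective); cover these by a forest; `pot_forest`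
with `fl = False`, `n = 3` (`sys_whole`, `pot_map`, `tee_pot`, `Hom.N0`) gives `Wk` for the host edges;
apply it to `K.image f`, `D.image z`. -/
theorem host_dense {a b : ℕ} (H₁ : SimpleGraph (Fin a)) (H₂ : SimpleGraph (Fin b)) {m : ℝ}
    (hm : 1 < m) (h : Wk (DE.x (H := H₁)) DE.y m univ) :
    ∃ (U : Type) (_ : Fintype U) (G : SimpleGraph U), Arrows G H₁ 2 ∧
      (Pool.Agent.Lib.MP_781e3b_co.Emb H₂ G.Adj → Wk (DE.x (H := H₂)) DE.y m univ) := by
  classical
  let α : Unit → DE H₁ → Fin 2 := fun _ _ => 0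
  let β : Unit → DE H₁ → Fin 2 := fun _ _ => 1
  have hF : Good (fun _ => ()) 1 (fun _ => univ) (tee (DE.x (H := H₁)) DE.y α β) :=
    tee_good (fun _ _ => Fin.zero_lt_one) Fin.val fun d => d.2.1
  obtain ⟨T, J, e, hT, hram, hfp⟩ := girth_ramsey (tee (DE.x (H := H₁)) DE.y α β) hF
    (tee_lin DE.simple) (Fin 2) (Fintype.card (DE H₂))
  have t0 : ∀ z, ttup (DE.x (H := H₁)) DE.y α β z 0 = (z.1, Sum.inl z.2.x) := fun z => by
    simp [ttup, α]
  have t1 : ∀ z, ttup (DE.x (H := H₁)) DE.y α β z 1 = (z.1, Sum.inl z.2.y) := fun z => by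
    simp [ttup, α, β]
  have hne : ∀ z, T.tup z 0 ≠ T.tup z 1 := fun z h => Fin.zero_ne_one (hT.inj z h)
  refine ⟨T.V, Fintype.ofFinite _,
    SimpleGraph.fromRel fun u v => ∃ z, T.tup z 0 = u ∧ T.tup z 1 = v, fun c hc => ?_, ?_⟩
  · obtain ⟨j, γ, hj⟩ := hram fun z => c (T.tup z 0) (T.tup z 1)
    refine ⟨γ, fun u => (e j).v ((), Sum.inl u), fun u v h => ?_, fun u v huv => ?_⟩
    · exact Sum.inl_injective (congrArg Prod.snd ((e j).vinj h))
    · have key : ∀ d : DE H₁, T.tup ((e j).w 0 ((), d)) 0 = (e j).v ((), Sum.inl d.x) ∧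
          T.tup ((e j).w 0 ((), d)) 1 = (e j).v ((), Sum.inl d.y) := fun d =>
        ⟨((e j).tup _ _).trans (congrArg _ (t0 _)), ((e j).tup _ _).trans (congrArg _ (t1 _))⟩
      obtain ⟨d, hd⟩ := DE.of_adj huv
      have h1 := hne ((e j).w 0 ((), d))
      have h2 := hj ((), d)
      simp only [(key d).1, (key d).2] at h1 h2
      rw [SimpleGraph.fromRel_adj]
      rcases hd with ⟨rfl, rfl⟩ | ⟨rfl, rfl⟩
      · exact ⟨⟨h1, Or.inl ⟨_, key d⟩⟩, h2⟩
      · exact ⟨⟨h1.symm, Or.inr ⟨_, key d⟩⟩, (hc _ _).trans h2⟩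
  · rintro ⟨f, hf, hadj⟩
    have hz : ∀ d : DE H₂, ∃ z, (T.tup z 0 = f d.x ∧ T.tup z 1 = f d.y) ∨
        (T.tup z 0 = f d.y ∧ T.tup z 1 = f d.x) := by
      intro d
      obtain ⟨-, ⟨z, h⟩ | ⟨z, h⟩⟩ := (SimpleGraph.fromRel_adj _ _ _).1 (hadj _ _ d.2.2)
      · exact ⟨z, Or.inl h⟩
      · exact ⟨z, Or.inr h⟩
    choose z hz using hz
    have zinj : Injective z := by
      intro d d' hdd
      by_contra hn
      have h1 := hz d
      have h2 := hz d'
      rw [← hdd] at h2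
      have h3 : d.x ∈ ({d'.x, d'.y} : Set (Fin b)) ∧ d.y ∈ ({d'.x, d'.y} : Set (Fin b)) := by
        rcases h1 with ⟨p, q⟩ | ⟨p, q⟩ <;> rcases h2 with ⟨p', q'⟩ | ⟨p', q'⟩
        · exact ⟨Or.inl (hf (p.symm.trans p')), Or.inr (hf (q.symm.trans q'))⟩
        · exact ⟨Or.inr (hf (p.symm.trans p')), Or.inl (hf (q.symm.trans q'))⟩
        · exact ⟨Or.inr (hf (q.symm.trans q')), Or.inl (hf (p.symm.trans p'))⟩
        · exact ⟨Or.inl (hf (q.symm.trans q')), Or.inr (hf (p.symm.trans p'))⟩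
      exact d.ne (DE.simple d d' hn ⟨Or.inl rfl, h3.1⟩ ⟨Or.inr rfl, h3.2⟩)
    obtain ⟨Cs, Z, R, hFo, hcov⟩ := hfp ∅ (Finset.univ.image z)
      (by simpa using (Finset.card_image_le (s := Finset.univ) (f := z)))
    obtain ⟨p1, p2, -⟩ := tee_pot (x := DE.x (H := H₁)) (y := DE.y) (α := α) (β := β) (n := 3)
      DE.ne (fun _ _ => Fin.zero_ne_one) (t₀ := 0) (t₁ := 1) Fin.zero_ne_one
      (fun _ _ => Or.inl ⟨rfl, rfl⟩) hm le_rfl h
    have hW : Wk (fun z => T.tup z 0) (fun z => T.tup z 1) m ((sys e 0).BW Cs Z) := by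
      refine (pot_forest (n := 3) False hFo (sys_whole e hT) (fun z => ?_) (fun z => ?_) hne hm
        le_rfl fun j => ?_).1
      · exact (hT.N0 z).ge (mem_range_self 0)
      · exact (hT.N0 z).ge (mem_range_self 1)
      · obtain ⟨q1, q2, -⟩ := pot_map (n := 3) (x' := fun z => T.tup z 0)
          (y' := fun z => T.tup z 1) (N' := T.N 0) ((e j).winj 0 (Nat.zero_le _)) (e j).vinj
          (fun d => (e j).tup d 0) (fun d => (e j).tup d 1) ((e j).toHom.N0 hF hT)
          (fun d h => Fin.zero_ne_one (hF.inj d h)) hm le_rfl p1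
        exact ⟨q1, q2 p2, False.elim⟩
    intro K D hK _ hD
    have h1 := hW (K.image f) (D.image z) (by rwa [Finset.card_image_of_injective _ hf])
      (fun w hw => ?_) (fun w hw => ?_)
    · rwa [Finset.card_image_of_injective _ hf, Finset.card_image_of_injective _ zinj] at h1
    · obtain ⟨d, -, rfl⟩ := Finset.mem_image.1 hw
      exact Or.inr (hcov.wg _ (Finset.mem_image_of_mem z (Finset.mem_univ d)))
    · obtain ⟨d, hd, rfl⟩ := Finset.mem_image.1 hw
      have hx := Finset.mem_image_of_mem f (hD d hd).1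
      have hy := Finset.mem_image_of_mem f (hD d hd).2
      change T.tup (z d) 0 ∈ _ ∧ T.tup (z d) 1 ∈ _
      rcases hz d with ⟨p, q⟩ | ⟨p, q⟩ <;> rw [p, q]
      · exact ⟨hx, hy⟩
      · exact ⟨hy, hx⟩

end Pool.Agent.Lib.MP_781e3b_co.RR
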