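import Pool.Agent.Lib.MP_781e3b_co.RR.FinDefs

/-!
A Ramsey graph for `H₂` that splits into two parts without `H₁`.
-/

namespace Pool.Agent.Lib.MP_781e3b_co.RR

open Set Function

namespace FinBAux

theorem mt_map {W V W' V' : Type} {x y : W → V} {x' y' : W' → V'} {m : ℝ} {n : ℕ} {f : V → V'}
    {z : W → W'} (hf : Injective f) (hz : Injective z)
    (he : ∀ d, (f (x d) = x' (z d) ∧ f (y d) = y' (z d)) ∨ (f (y d) = x' (z d) ∧ f (x d) = y' (z d)))
    {K : Finset V} {D : Finset W} (h : MT x y m n K D) :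
    MT x' y' m n (K.map ⟨f, hf⟩) (D.map ⟨z, hz⟩) := by
  obtain ⟨h1, h2, h3, h4⟩ := h
  refine ⟨by rw [Finset.card_map, h1], ?_, by rw [Finset.card_map, Finset.card_map, h3], ?_⟩
  · intro d' hd'
    obtain ⟨d, hd, rfl⟩ := Finset.mem_map.1 hd'
    have hx := Finset.mem_map_of_mem ⟨f, hf⟩ (h2 d hd).1
    have hy := Finset.mem_map_of_mem ⟨f, hf⟩ (h2 d hd).2
    rcases he d with ⟨e1, e2⟩ | ⟨e1, e2⟩
    · exact ⟨e1 ▸ hx, e2 ▸ hy⟩
    · exact ⟨e1 ▸ hy, e2 ▸ hx⟩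
  · intro K' hK' h3' D' hD' hI
    obtain ⟨K'', hK'', rfl⟩ := Finset.subset_map_iff.1 hK'.subset
    obtain ⟨D'', hD'', rfl⟩ := Finset.subset_map_iff.1 hD'
    rw [Finset.card_map] at h3'
    rw [Finset.card_map, Finset.card_map]
    refine h4 K'' (Finset.map_ssubset_map.1 hK') h3' D'' hD'' fun d hd => ?_
    obtain ⟨hx, hy⟩ := hI _ (Finset.mem_map_of_mem ⟨z, hz⟩ hd)
    have key : ∀ u, f u ∈ K''.map ⟨f, hf⟩ → u ∈ K'' := fun u hu => (Finset.mem_map' ⟨f, hf⟩).1 hu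
    rcases he d with ⟨e1, e2⟩ | ⟨e1, e2⟩
    · exact ⟨key _ (e1 ▸ hx), key _ (e2 ▸ hy)⟩
    · exact ⟨key _ (e2 ▸ hy), key _ (e1 ▸ hx)⟩

theorem has_nbr {U : Type} [Fintype U] (H : SimpleGraph U) (ha : 3 ≤ Fintype.card U)
    (h2 : ∀ v, (H.induce {v}ᶜ).Connected) (u : U) : ∃ w, H.Adj u w := by
  classical
  obtain ⟨v, w, hv, hw, hvw⟩ : ∃ v w : U, v ≠ u ∧ w ≠ u ∧ w ≠ v := by
    have hc : 1 < (Finset.univ.erase u).card := by
      rw [Finset.card_erase_of_mem (Finset.mem_univ u), Finset.card_univ]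
      omega
    obtain ⟨v, hv, w, hw, hvw⟩ := Finset.one_lt_card.1 hc
    exact ⟨v, w, Finset.ne_of_mem_erase hv, Finset.ne_of_mem_erase hw, hvw.symm⟩
  obtain ⟨p⟩ := (h2 v).preconnected ⟨u, hv.symm⟩ ⟨w, hvw⟩
  have hn : ¬ p.Nil := SimpleGraph.Walk.not_nil_of_ne fun e => hw (congrArg Subtype.val e).symm
  exact ⟨_, p.adj_snd hn⟩

theorem ttup_α {U E K P : Type} (x y : E → U) (α β : P → E → K) (p : P) (d : E) :
    ttup x y α β (p, d) (α p d) = (p, Sum.inl (x d)) := by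
  simp [ttup]

theorem ttup_β {U E K P : Type} (x y : E → U) (α β : P → E → K) (p : P) (d : E)
    (h : α p d ≠ β p d) : ttup x y α β (p, d) (β p d) = (p, Sum.inl (y d)) := by
  simp [ttup, h.symm]

theorem de_inj {a : ℕ} {H : SimpleGraph (Fin a)} {V W : Type} {x' y' : W → V} {f : Fin a → V}
    (hf : Injective f) {z : DE H → W}
    (he : ∀ d, (f d.x = x' (z d) ∧ f d.y = y' (z d)) ∨ (f d.y = x' (z d) ∧ f d.x = y' (z d))) :
    Injective z := by
  intro d d' e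
  by_contra hne
  refine d.ne (DE.simple d d' hne ⟨Or.inl rfl, ?_⟩ ⟨Or.inr rfl, ?_⟩)
  · rcases he d with ⟨e1, e2⟩ | ⟨e1, e2⟩ <;> rcases he d' with ⟨e3, e4⟩ | ⟨e3, e4⟩ <;>
      rw [← e] at e3 e4
    exacts [Or.inl (hf (e1.trans e3.symm)), Or.inr (hf (e1.trans e3.symm)),
      Or.inr (hf (e2.trans e4.symm)), Or.inl (hf (e2.trans e4.symm))]
  · rcases he d with ⟨e1, e2⟩ | ⟨e1, e2⟩ <;> rcases he d' with ⟨e3, e4⟩ | ⟨e3, e4⟩ <;>
      rw [← e] at e3 e4
    exacts [Or.inr (hf (e2.trans e4.symm)), Or.inl (hf (e2.trans e4.symm)),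
      Or.inl (hf (e1.trans e3.symm)), Or.inr (hf (e1.trans e3.symm))]

/-- The abstract form, for any ordered set of places. -/
theorem core {a b : ℕ} (H₁ : SimpleGraph (Fin a)) (H₂ : SimpleGraph (Fin b)) {X : Type} [Fintype X]
    (B : SimpleGraph X) (ha : 3 ≤ Fintype.card X) (h2 : ∀ v, (B.induce {v}ᶜ).Connected)
    (hB : Pool.Agent.Lib.MP_781e3b_co.Emb B H₁.Adj) {m : ℝ} {n : ℕ} (hm : 1 < m) (hn : 3 ≤ n)
    {K : Finset (Fin a)} {D : Finset (DE H₁)} (hK : MT DE.x DE.y m n K D)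
    (h : Wk (DE.x (H := H₂)) DE.y m univ) (d₀ : DE H₂) (F : Set (DE H₂)) (hF : Acy DE.x DE.y F)
    (hhit : NoMT DE.x DE.y m n Fᶜ) {L : Type} [LinearOrder L] [Finite L] (ι : Fin b → L)
    (hι : StrictMono ι) (t₀ t₁ : L) (ht : t₀ < t₁) (h0 : ∀ u, ι u ≠ t₀) (h1 : ∀ u, ι u ≠ t₁)
    (α β : DE H₂ → DE H₂ → L) (hin : ∀ p, ∀ d ∈ F, α p d = ι p.x ∧ β p d = ι p.y)
    (hout : ∀ p, ∀ d ∉ F, α p d = t₀ ∧ β p d = t₁) :
    ∃ (U : Type) (_ : Fintype U) (G : SimpleGraph U), Arrows G H₂ 2 ∧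
      (Arrows G H₁ 2 → Pool.Agent.Lib.MP_781e3b_co.Emb B H₂.Adj) := by
  classical
  have hαβ : ∀ p d, α p d < β p d := by
    intro p d
    by_cases hd : d ∈ F
    · rw [(hin p d hd).1, (hin p d hd).2]; exact hι p.2.1
    · rw [(hout p d hd).1, (hout p d hd).2]; exact ht
  have hT := tee_good (x := DE.x (H := H₂)) (y := DE.y) hαβ (fun u => u.val) fun d => d.2.1
  obtain ⟨H, J, e, hH, hram, hfp⟩ := girth_ramsey (tee (DE.x (H := H₂)) DE.y α β) hT
    (tee_lin DE.simple) ((DE H₂ → Fin 2) × Fin 2) (Fintype.card (DE H₁))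
  let R₁ : H.V → H.V → Prop := fun u v =>
    ∃ z, ∃ p : DE H₂, u = H.tup z (ι p.x) ∧ v = H.tup z (ι p.y)
  let R₂ : H.V → H.V → Prop := fun u v => ∃ z, u = H.tup z t₀ ∧ v = H.tup z t₁
  have htup : ∀ j (f : DE H₂ × DE H₂) k,
      H.tup ((e j).w 0 f) k = (e j).v (ttup DE.x DE.y α β f k) := fun j f k => (e j).tup f k
  have hN : ∀ j (f : DE H₂ × DE H₂),
      H.N 0 ((e j).w 0 f) = (e j).v '' range (ttup DE.x DE.y α β f) := fun j f =>
    (e j).toHom.N0 hT hH f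
  have cover : ∀ z : DE H₁ → H.W 0, ∃ Cs Z R, Fo (sys e 0) True Cs Z R ∧
      ∀ d, z d ∈ (sys e 0).BW Cs Z := by
    intro z
    obtain ⟨Cs, Z, R, hFo, hc⟩ := hfp ∅ (Finset.univ.image z) (by
      rw [Finset.card_empty, zero_add]; exact Finset.card_image_le)
    exact ⟨Cs, Z, R, hFo, fun d => Or.inr (hc.wg _ (Finset.mem_image_of_mem z (Finset.mem_univ d)))⟩
  refine ⟨H.V, Fintype.ofFinite _, SimpleGraph.fromRel fun u v => R₁ u v ∨ R₂ u v, ?_, ?_⟩
  · intro c hc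
    obtain ⟨j, ⟨χ, γ⟩, hj⟩ := hram fun z =>
      (fun p => c (H.tup z (ι p.x)) (H.tup z (ι p.y)), c (H.tup z t₀) (H.tup z t₁))
    have hχ : ∀ f (p : DE H₂), c (H.tup ((e j).w 0 f) (ι p.x)) (H.tup ((e j).w 0 f) (ι p.y)) = χ p :=
      fun f p => congrFun (congrArg Prod.fst (hj f)) p
    have hγ : ∀ f, c (H.tup ((e j).w 0 f) t₀) (H.tup ((e j).w 0 f) t₁) = γ :=
      fun f => congrArg Prod.snd (hj f)
    have fin : ∀ (i : Fin 2) (g : Fin b → H.V), Injective g →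
        (∀ d : DE H₂, (R₁ (g d.x) (g d.y) ∨ R₂ (g d.x) (g d.y)) ∧ c (g d.x) (g d.y) = i) →
        ∃ i : Fin 2, ∃ f : Fin b → H.V, Injective f ∧ ∀ u v, H₂.Adj u v →
          (SimpleGraph.fromRel fun u v => R₁ u v ∨ R₂ u v).Adj (f u) (f v) ∧ c (f u) (f v) = i := by
      intro i g hg hd
      refine ⟨i, g, hg, fun u v huv => ?_⟩
      obtain ⟨d, ⟨rfl, rfl⟩ | ⟨rfl, rfl⟩⟩ := DE.of_adj huv
      · exact ⟨(SimpleGraph.fromRel_adj _ _ _).2 ⟨hg.ne huv.ne, Or.inl (hd d).1⟩, (hd d).2⟩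
      · exact ⟨(SimpleGraph.fromRel_adj _ _ _).2 ⟨hg.ne huv.ne, Or.inr (hd d).1⟩,
          (hc _ _).trans (hd d).2⟩
    by_cases hp : ∃ p, χ p = γ
    · obtain ⟨p, hp⟩ := hp
      refine fin γ (fun u => (e j).v (p, Sum.inl u))
        (fun u v huv => Sum.inl_injective (congrArg Prod.snd ((e j).vinj huv))) fun d => ?_
      have ex : (e j).v (p, Sum.inl d.x) = H.tup ((e j).w 0 (p, d)) (α p d) := by
        rw [htup, ttup_α]
      have ey : (e j).v (p, Sum.inl d.y) = H.tup ((e j).w 0 (p, d)) (β p d) := by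
        rw [htup, ttup_β _ _ _ _ _ _ (hαβ p d).ne]
      simp only [ex, ey]
      by_cases hd : d ∈ F
      · rw [(hin p d hd).1, (hin p d hd).2]
        exact ⟨Or.inl ⟨_, p, rfl, rfl⟩, (hχ _ p).trans hp⟩
      · rw [(hout p d hd).1, (hout p d hd).2]
        exact ⟨Or.inr ⟨_, rfl, rfl⟩, hγ _⟩
    · refine fin (χ d₀) (fun u => H.tup ((e j).w 0 (d₀, d₀)) (ι u))
        ((hH.inj _).comp hι.injective) fun d => ⟨Or.inl ⟨_, d, rfl, rfl⟩, (hχ _ d).trans ?_⟩
      have a1 : χ d ≠ γ := fun e => hp ⟨d, e⟩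
      have a2 : χ d₀ ≠ γ := fun e => hp ⟨d₀, e⟩
      omega
  · intro hA
    obtain ⟨i, f, hf, hadj⟩ := hA (fun u v => if R₂ u v ∨ R₂ v u then 0 else 1)
      fun u v => by simp only [or_comm]
    by_cases hi : i = 0
    · exfalso
      have ex : ∀ d : DE H₁, ∃ z, (f d.x = H.tup z t₀ ∧ f d.y = H.tup z t₁) ∨
          (f d.y = H.tup z t₀ ∧ f d.x = H.tup z t₁) := by
        intro d
        have h3 := (hadj _ _ d.2.2).2
        by_cases h4 : R₂ (f d.x) (f d.y) ∨ R₂ (f d.y) (f d.x)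
        · rcases h4 with ⟨z, h4⟩ | ⟨z, h4⟩
          exacts [⟨z, Or.inl h4⟩, ⟨z, Or.inr h4⟩]
        · simp only [if_neg h4, hi] at h3
          exact absurd h3 (by decide)
      choose z hz using ex
      obtain ⟨Cs, Z, R, hFo, hc⟩ := cover z
      obtain ⟨p1, p2, p3⟩ := tee_pot (x := DE.x (H := H₂)) (y := DE.y) (α := α) (β := β) (n := n)
        DE.ne (fun p d => (hαβ p d).ne) ht.ne (fun p d => by
          by_cases hd : d ∈ F
          · rw [(hin p d hd).1, (hin p d hd).2]; exact Or.inr ⟨h0 _, h1 _, h0 _, h1 _⟩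
          · exact Or.inl (hout p d hd)) hm hn h
      have p4 := p3 fun p => by
        have : {d | α p d = t₀} = Fᶜ := by
          ext d
          exact ⟨fun h5 hd => h0 _ ((hin p d hd).1.symm.trans h5), fun hd => (hout p d hd).1⟩
        rw [this]; exact hhit
      have := (pot_forest (x := fun z => H.tup z t₀) (y := fun z => H.tup z t₁) (m := m) (n := n)
        True hFo (sys_whole e hH) (fun z => by
          change _ ∈ H.N 0 z
          rw [hH.N0]; exact ⟨_, rfl⟩) (fun z => by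
          change _ ∈ H.N 0 z
          rw [hH.N0]; exact ⟨_, rfl⟩) (fun z => (hH.inj z).ne ht.ne) hm hn fun j => by
          obtain ⟨q1, q2, q3⟩ := pot_map (x' := fun z => H.tup z t₀) (y' := fun z => H.tup z t₁)
            (N' := H.N 0) (n := n) ((e j).winj 0 (Nat.zero_le _)) (e j).vinj
            (fun d => htup j d t₀) (fun d => htup j d t₁) (hN j)
            (fun d => (hT.inj d).ne ht.ne) hm hn p1
          exact ⟨q1, q2 p2, fun _ => q3 p4⟩).2 trivial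
      refine this _ _ ?_ (mt_map (x' := fun z => H.tup z t₀) (y' := fun z => H.tup z t₁) hf
        (de_inj (x' := fun z => H.tup z t₀) (y' := fun z => H.tup z t₁) hf hz) hz hK)
      intro w hw
      obtain ⟨d, -, rfl⟩ := Finset.mem_map.1 hw
      exact hc d
    · have ex : ∀ d : DE H₁, ∃ z, ∃ p : DE H₂,
          (f d.x = H.tup z (ι p.x) ∧ f d.y = H.tup z (ι p.y)) ∨
          (f d.y = H.tup z (ι p.x) ∧ f d.x = H.tup z (ι p.y)) := by
        intro d
        obtain ⟨h3, h4⟩ := hadj _ _ d.2.2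
        have h5 : ¬ (R₂ (f d.x) (f d.y) ∨ R₂ (f d.y) (f d.x)) := fun h5 => by
          simp only [if_pos h5] at h4
          exact hi h4.symm
        rcases ((SimpleGraph.fromRel_adj _ _ _).1 h3).2 with (⟨z, p, h6⟩ | h6) | (⟨z, p, h6⟩ | h6)
        exacts [⟨z, p, Or.inl h6⟩, (h5 (Or.inl h6)).elim, ⟨z, p, Or.inr h6⟩, (h5 (Or.inr h6)).elim]
      choose z p hz using ex
      obtain ⟨Cs, Z, R, hFo, hc⟩ := cover z
      have hh : ∀ w, H.tup w '' range ι ⊆ H.N 0 w := fun w => by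
        rw [hH.N0]; exact image_subset_range _ _
      have hs := sep_forest (h := fun w => H.tup w '' range ι) hFo (sys_whole e hH) hh fun j =>
        Sep.map (N' := H.N 0) (h' := fun w => H.tup w '' range ι) (e j).vinj (hN j)
          (fun d => (image_congr fun k _ => htup j d k).trans (image_image _ _ _).symm)
          (tee_sep (x := DE.x (H := H₂)) (y := DE.y) (fun p d => (hαβ p d).ne) F hF (range ι)
            fun p d hd => by
              rw [(hout p d hd).1, (hout p d hd).2]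
              exact ⟨fun ⟨u, hu⟩ => h0 u hu, fun ⟨u, hu⟩ => h1 u hu⟩)
      choose dd hdd using fun u v (huv : H₁.Adj u v) => DE.of_adj huv
      have mem : ∀ d, f d.x ∈ H.tup (z d) '' range ι ∧ f d.y ∈ H.tup (z d) '' range ι := by
        intro d
        rcases hz d with ⟨e1, e2⟩ | ⟨e1, e2⟩
        · exact ⟨⟨_, ⟨_, rfl⟩, e1.symm⟩, _, ⟨_, rfl⟩, e2.symm⟩
        · exact ⟨⟨_, ⟨_, rfl⟩, e2.symm⟩, _, ⟨_, rfl⟩, e1.symm⟩
      have mem' : ∀ u v huv, f u ∈ H.tup (z (dd u v huv)) '' range ι ∧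
          f v ∈ H.tup (z (dd u v huv)) '' range ι := by
        intro u v huv
        have := mem (dd u v huv)
        rcases hdd u v huv with ⟨e1, e2⟩ | ⟨e1, e2⟩ <;> rw [e1, e2] at this
        exacts [this, this.symm]
      obtain ⟨j, j1, j2⟩ := hB
      obtain ⟨w, -, hw⟩ := two_conn_sep B ha h2 hh hs (f ∘ j) (hf.comp j1)
        (fun u v huv => z (dd _ _ (j2 u v huv))) fun u v huv => ⟨hc _, mem' _ _ (j2 u v huv)⟩
      have ex : ∀ u, ∃ k, f (j u) = H.tup w (ι k) := by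
        intro u
        obtain ⟨v, huv⟩ := has_nbr B ha h2 u
        obtain ⟨_, ⟨k, rfl⟩, hk⟩ := (mem' _ _ (j2 u v huv)).1
        exact ⟨k, by rw [← hk, hw u v huv]⟩
      choose g hg using ex
      have hinj : ∀ u k, f (j u) = H.tup w (ι k) → g u = k := fun u k hk =>
        hι.injective (hH.inj w ((hg u).symm.trans hk))
      refine ⟨g, fun u v huv => j1 (hf (by rw [hg u, hg v, huv])), fun u v huv => ?_⟩
      have h3 := hz (dd _ _ (j2 u v huv))
      have h4 := (p (dd _ _ (j2 u v huv))).2.2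
      rw [hw u v huv] at h3
      rcases hdd _ _ (j2 u v huv) with ⟨e1, e2⟩ | ⟨e1, e2⟩ <;> rw [e1, e2] at h3 <;>
        rcases h3 with ⟨e3, e4⟩ | ⟨e3, e4⟩ <;> rw [hinj _ _ e3, hinj _ _ e4]
      exacts [h4, h4.symm, h4.symm, h4]

end FinBAux

/-- `girth_ramsey` for `tee DE.x DE.y α β` with `P = DE H₂`, `K = Fin b ⊕ₗ Fin 2` (or `Fin (b + 2)`),
`(α p d, β p d) = (inl p.x, inl p.y)` for `d ∈ F` and `(t₀, t₁) = (inr 0, inr 1)` for `d ∉ F`, colours
`(DE H₂ → Fin 2) × Fin 2`, `n = card (DE H₁)`. `G` joins `tup z t₀` with `tup z t₁` (type 2) and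
`tup z (inl p.x)` with `tup z (inl p.y)` for all `p : DE H₂` (type 1).
`G → H₂`: colour `z` by the colours of these pairs; let `e j` be monochromatic with colour `(χ, γ)`.
If `χ p = γ` for some `p`, then `u ↦ (e j).v (p, inl u)` is a copy of colour `γ`. Else `χ` is constant
(two colours) and `u ↦ tup z (inl u)` is a monochromatic copy for `z = (e j).w 0 (d₀, d₀)`.
`G → H₁`: give the pairs of type 2 the colour `0`, all others `1`, and take a monochromatic copy `f`.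
Choose for each edge of `H₁` a host edge `z` that contains it in the right way and cover these by a
forest. Colour `0`: `pot_forest` with `fl = True` (`sys_whole`, `pot_map`, `tee_pot`, `Hom.N0`) gives
`NoMT`, but the images of `K, D` form an `MT` pair. Colour `1`: `sep_forest` (`Sep.map`, `tee_sep`
with `Hs = range inl`) and `two_conn_sep` put all edges of `B` in one `z`; every vertex has an edge,
so `f u = tup z (inl (g u))`, and `g` is a copy of `B` in `H₂` (`Good.inj`). -/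
theorem host_split {a b : ℕ} (H₁ : SimpleGraph (Fin a)) (H₂ : SimpleGraph (Fin b)) {X : Type}
    [Fintype X] (B : SimpleGraph X) (ha : 3 ≤ Fintype.card X)
    (h2 : ∀ v, (B.induce {v}ᶜ).Connected) (hB : Pool.Agent.Lib.MP_781e3b_co.Emb B H₁.Adj)
    {m : ℝ} {n : ℕ} (hm : 1 < m) (hn : 3 ≤ n)
    {K : Finset (Fin a)} {D : Finset (DE H₁)} (hK : MT DE.x DE.y m n K D)
    (h : Wk (DE.x (H := H₂)) DE.y m univ) (d₀ : DE H₂) (F : Set (DE H₂)) (hF : Acy DE.x DE.y F)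
    (hhit : NoMT DE.x DE.y m n Fᶜ) :
    ∃ (U : Type) (_ : Fintype U) (G : SimpleGraph U), Arrows G H₂ 2 ∧
      (Arrows G H₁ 2 → Pool.Agent.Lib.MP_781e3b_co.Emb B H₂.Adj) := by
  classical
  refine FinBAux.core H₁ H₂ B ha h2 hB hm hn hK h d₀ F hF hhit (L := Fin (b + 2)) (Fin.castAdd 2)
    (Fin.strictMono_castAdd 2) ⟨b, by omega⟩ ⟨b + 1, by omega⟩ (Fin.mk_lt_mk.2 (by omega))
    (fun u e => ?_) (fun u e => ?_)
    (fun p d => if d ∈ F then Fin.castAdd 2 p.x else ⟨b, by omega⟩)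
    (fun p d => if d ∈ F then Fin.castAdd 2 p.y else ⟨b + 1, by omega⟩)
    (fun p d hd => ⟨if_pos hd, if_pos hd⟩) fun p d hd => ⟨if_neg hd, if_neg hd⟩
  · have := congrArg Fin.val e
    have := u.2
    simp only [Fin.val_castAdd] at *
    omega
  · have := congrArg Fin.val e
    have := u.2
    simp only [Fin.val_castAdd] at *
    omega

end Pool.Agent.Lib.MP_781e3b_co.RR
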