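import Pool.Agent.Lib.MP_781e3b_co.RR.PotDefs

/-!
The density potential in a forest of copies.
-/

namespace Pool.Agent.Lib.MP_781e3b_co.RR

open Set Function

variable {C W V W' V' : Type} {x y : W → V} {m : ℝ} {n : ℕ}

namespace Pot1Aux

theorem two_le {K : Finset V} {a b : V} (hab : a ≠ b) (ha : a ∈ K) (hb : b ∈ K) : 2 ≤ K.card :=
  Finset.one_lt_card.2 ⟨a, ha, b, hb, hab⟩

theorem split {B₁ B₂ : Set W} {V₁ V₂ : Set V} (hxy : ∀ d, x d ≠ y d) (hm : 1 < m)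
    (h₁ : Wk x y m B₁) (h₂ : Wk x y m B₂) (e₁ : ∀ d ∈ B₁, x d ∈ V₁ ∧ y d ∈ V₁)
    (e₂ : ∀ d ∈ B₂, x d ∈ V₂ ∧ y d ∈ V₂) (hs : (V₁ ∩ V₂).Subsingleton) {K : Finset V}
    {D : Finset W} (hD : ↑D ⊆ B₁ ∪ B₂) (hI : Ins x y K D) :
    ↑D ⊆ B₁ ∨ ↑D ⊆ B₂ ∨ (D.card : ℝ) < m * (K.card - 2) + 1 := by
  classical
  by_cases c₁ : ↑D ⊆ B₁
  · exact Or.inl c₁
  by_cases c₂ : ↑D ⊆ B₂
  · exact Or.inr (Or.inl c₂)
  refine Or.inr (Or.inr ?_)
  obtain ⟨d₂, hd₂, n₂⟩ := Set.not_subset.1 c₁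
  obtain ⟨d₁, hd₁, n₁⟩ := Set.not_subset.1 c₂
  have b₂ : d₂ ∈ B₂ := (hD hd₂).resolve_left n₂
  have b₁ : d₁ ∈ B₁ := (hD hd₁).resolve_right n₁
  have k₁ : 2 ≤ (K.filter (· ∈ V₁)).card :=
    two_le (hxy d₁) (Finset.mem_filter.2 ⟨(hI d₁ hd₁).1, (e₁ d₁ b₁).1⟩)
      (Finset.mem_filter.2 ⟨(hI d₁ hd₁).2, (e₁ d₁ b₁).2⟩)
  have k₂ : 2 ≤ (K.filter (· ∈ V₂)).card :=
    two_le (hxy d₂) (Finset.mem_filter.2 ⟨(hI d₂ hd₂).1, (e₂ d₂ b₂).1⟩)
      (Finset.mem_filter.2 ⟨(hI d₂ hd₂).2, (e₂ d₂ b₂).2⟩)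
  have w₁ := h₁ (K.filter (· ∈ V₁)) (D.filter (· ∈ B₁)) k₁
    (fun d hd => (Finset.mem_filter.1 (Finset.mem_coe.1 hd)).2)
    (fun d hd => by
      obtain ⟨hd, hb⟩ := Finset.mem_filter.1 hd
      exact ⟨Finset.mem_filter.2 ⟨(hI d hd).1, (e₁ d hb).1⟩,
        Finset.mem_filter.2 ⟨(hI d hd).2, (e₁ d hb).2⟩⟩)
  have w₂ := h₂ (K.filter (· ∈ V₂)) (D.filter (¬ · ∈ B₁)) k₂
    (fun d hd => by
      obtain ⟨hd, hb⟩ := Finset.mem_filter.1 (Finset.mem_coe.1 hd)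
      exact (hD hd).resolve_left hb)
    (fun d hd => by
      obtain ⟨hd, hb⟩ := Finset.mem_filter.1 hd
      have hb : d ∈ B₂ := (hD hd).resolve_left hb
      exact ⟨Finset.mem_filter.2 ⟨(hI d hd).1, (e₂ d hb).1⟩,
        Finset.mem_filter.2 ⟨(hI d hd).2, (e₂ d hb).2⟩⟩)
  have cD : (D.filter (· ∈ B₁)).card + (D.filter (¬ · ∈ B₁)).card = D.card :=
    Finset.card_filter_add_card_filter_not _
  have cU : (K.filter (· ∈ V₁) ∪ K.filter (· ∈ V₂)).card ≤ K.card :=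
    Finset.card_le_card (Finset.union_subset (Finset.filter_subset _ _) (Finset.filter_subset _ _))
  have cI : (K.filter (· ∈ V₁) ∩ K.filter (· ∈ V₂)).card ≤ 1 := by
    refine Finset.card_le_one.2 fun a ha b hb => hs ?_ ?_
    · exact ⟨(Finset.mem_filter.1 (Finset.mem_inter.1 ha).1).2,
        (Finset.mem_filter.1 (Finset.mem_inter.1 ha).2).2⟩
    · exact ⟨(Finset.mem_filter.1 (Finset.mem_inter.1 hb).1).2,
        (Finset.mem_filter.1 (Finset.mem_inter.1 hb).2).2⟩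
  have cS := Finset.card_union_add_card_inter (K.filter (· ∈ V₁)) (K.filter (· ∈ V₂))
  have cK : (K.filter (· ∈ V₁)).card + (K.filter (· ∈ V₂)).card ≤ K.card + 1 := by omega
  have cK' : ((K.filter (· ∈ V₁)).card : ℝ) + (K.filter (· ∈ V₂)).card ≤ K.card + 1 := by
    exact_mod_cast cK
  have cD' : ((D.filter (· ∈ B₁)).card : ℝ) + (D.filter (¬ · ∈ B₁)).card = D.card := by
    exact_mod_cast cD
  have := mul_le_mul_of_nonneg_left cK' (zero_le_one.trans hm.le)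
  nlinarith

theorem exists_map {fW : W → W'} (hW : Injective fW) {D' : Finset W'} (h : ↑D' ⊆ range fW) :
    ∃ D : Finset W, D' = D.map ⟨fW, hW⟩ := by
  refine ⟨D'.preimage fW hW.injOn, ?_⟩
  ext d'
  simp only [Finset.mem_map, Finset.mem_preimage, Function.Embedding.coeFn_mk]
  constructor
  · intro hd
    obtain ⟨d, rfl⟩ := h hd
    exact ⟨d, hd, rfl⟩
  · rintro ⟨d, hd, rfl⟩
    exact hd

theorem exists_pull {fV : V → V'} (hV : Injective fV) (K' : Finset V') :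
    ∃ K : Finset V, (∀ v, v ∈ K ↔ fV v ∈ K') ∧ K.card ≤ K'.card := by
  refine ⟨K'.preimage fV hV.injOn, fun v => Finset.mem_preimage, ?_⟩
  exact Finset.card_le_card_of_injOn fV (fun v hv => Finset.mem_preimage.1 hv) hV.injOn

end Pot1Aux

/-- Split `D` into `D₁ ⊆ B₁` and the rest, `Kᵢ = K ∩ Vᵢ`; if both parts are non-empty then
`|Kᵢ| ≥ 2`, `|K₁| + |K₂| ≤ |K| + 1`, so `|D| ≤ m (|K| - 3) + 2 < m (|K| - 2) + 1`. -/
theorem Wk.unionV {B₁ B₂ : Set W} {V₁ V₂ : Set V} (hxy : ∀ d, x d ≠ y d) (hm : 1 < m)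
    (h₁ : Wk x y m B₁) (h₂ : Wk x y m B₂) (e₁ : ∀ d ∈ B₁, x d ∈ V₁ ∧ y d ∈ V₁)
    (e₂ : ∀ d ∈ B₂, x d ∈ V₂ ∧ y d ∈ V₂) (hs : (V₁ ∩ V₂).Subsingleton) : Wk x y m (B₁ ∪ B₂) := by
  intro K D hK hD hI
  rcases Pot1Aux.split hxy hm h₁ h₂ e₁ e₂ hs hD hI with c | c | c
  · exact h₁ K D hK c hI
  · exact h₂ K D hK c hI
  · exact c.le

/-- As above: the strict bound shows that `D` lies in `B₁` or in `B₂`. -/
theorem NoMT.unionV {B₁ B₂ : Set W} {V₁ V₂ : Set V} (hxy : ∀ d, x d ≠ y d) (hm : 1 < m)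
    (h₁ : Wk x y m B₁) (h₂ : Wk x y m B₂) (e₁ : ∀ d ∈ B₁, x d ∈ V₁ ∧ y d ∈ V₁)
    (e₂ : ∀ d ∈ B₂, x d ∈ V₂ ∧ y d ∈ V₂) (hs : (V₁ ∩ V₂).Subsingleton)
    (n₁ : NoMT x y m n B₁) (n₂ : NoMT x y m n B₂) : NoMT x y m n (B₁ ∪ B₂) := by
  intro K D hD hM
  rcases Pot1Aux.split hxy hm h₁ h₂ e₁ e₂ hs hD hM.2.1 with c | c | c
  · exact n₁ K D c hM
  · exact n₂ K D c hM
  · exact c.ne hM.2.2.1

/-- Pull `K` back along `fV` (points outside the range only help; if fewer than two points of `K`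
are in the range then `D` is empty) and `D` along `fW`. For `MT` every point of `K` is in the range,
else drop it and use `Wk` (`1 < m`, `3 ≤ n`). -/
theorem pot_map {x' y' : W' → V'} {N : W → Set V} {N' : W' → Set V'} {fW : W → W'} {fV : V → V'}
    (hW : Injective fW) (hV : Injective fV) (hx : ∀ d, x' (fW d) = fV (x d))
    (hy : ∀ d, y' (fW d) = fV (y d)) (hN : ∀ d, N' (fW d) = fV '' N d) (hxy : ∀ d, x d ≠ y d)
    (hm : 1 < m) (hn : 3 ≤ n) (h : Wk x y m univ) :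
    Wk x' y' m (range fW) ∧ (Rl x y N m univ → Rl x' y' N' m (range fW)) ∧
      (NoMT x y m n univ → NoMT x' y' m n (range fW)) := by
  have m0 : 0 < m := zero_lt_one.trans hm
  have ins : ∀ {K : Finset V} {K' : Finset V'} {D : Finset W}, (∀ v, v ∈ K ↔ fV v ∈ K') →
      Ins x' y' K' (D.map ⟨fW, hW⟩) → Ins x y K D := by
    intro K K' D hK hI d hd
    have := hI (fW d) (Finset.mem_map_of_mem ⟨fW, hW⟩ hd)
    rw [hx, hy] at this
    exact ⟨(hK _).2 this.1, (hK _).2 this.2⟩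
  refine ⟨?_, ?_, ?_⟩
  · intro K' D' hK' hD' hI
    obtain ⟨D, rfl⟩ := Pot1Aux.exists_map hW hD'
    obtain ⟨K, hK, cK⟩ := Pot1Aux.exists_pull hV K'
    have hI' := ins hK hI
    have k2 : (2 : ℝ) ≤ K'.card := by exact_mod_cast hK'
    rw [Finset.card_map]
    rcases D.eq_empty_or_nonempty with rfl | ⟨d, hd⟩
    · have := mul_nonneg m0.le (sub_nonneg.2 k2)
      simp only [Finset.card_empty, Nat.cast_zero]
      linarith
    · have w := h K D (Pot1Aux.two_le (hxy d) (hI' d hd).1 (hI' d hd).2) (subset_univ _) hI'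
      have cK' : (K.card : ℝ) ≤ K'.card := by exact_mod_cast cK
      have := mul_le_mul_of_nonneg_left cK' m0.le
      linarith
  · rintro hR _ ⟨z, rfl⟩ K' D' hD' hz hI
    obtain ⟨D, rfl⟩ := Pot1Aux.exists_map hW hD'
    obtain ⟨K, hK, cK⟩ := Pot1Aux.exists_pull hV K'
    have w := hR z (mem_univ _) K D (subset_univ _)
      (fun hzD => hz (Finset.mem_map_of_mem ⟨fW, hW⟩ hzD)) (fun d hd => by
        have := hI (fW d) (Finset.mem_map_of_mem ⟨fW, hW⟩ hd)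
        rw [hx, hy, hN, hV.mem_set_image, hV.mem_set_image, ← hK, ← hK] at this
        exact this)
    have cK' : (K.card : ℝ) ≤ K'.card := by exact_mod_cast cK
    have := mul_le_mul_of_nonneg_left cK' m0.le
    rw [Finset.card_map]
    linarith
  · intro hN K' D' hD' hM
    obtain ⟨D, rfl⟩ := Pot1Aux.exists_map hW hD'
    obtain ⟨K, hK, cK⟩ := Pot1Aux.exists_pull hV K'
    obtain ⟨kn, hI, hc, hmin⟩ := hM
    have hI' := ins hK hI
    rw [Finset.card_map] at hc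
    have k3 : (3 : ℝ) ≤ K'.card := by exact_mod_cast kn ▸ hn
    have hne : D.Nonempty := by
      rw [← Finset.card_pos, ← Nat.cast_pos (α := ℝ), hc]
      have := mul_nonneg m0.le (by linarith : (0 : ℝ) ≤ K'.card - 2)
      linarith
    obtain ⟨d, hd⟩ := hne
    have w := h K D (Pot1Aux.two_le (hxy d) (hI' d hd).1 (hI' d hd).2) (subset_univ _) hI'
    have ge : (K'.card : ℝ) ≤ K.card := by
      have : m * (K'.card : ℝ) ≤ m * K.card := by linarith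
      exact le_of_mul_le_mul_left this m0
    have e : K.card = K'.card := le_antisymm cK (by exact_mod_cast ge)
    refine hN K D (subset_univ _) ⟨e.trans kn, hI', by rw [hc, e], ?_⟩
    intro K₁ hK₁ c₁ D₁ hD₁ hI₁
    have := hmin (K₁.map ⟨fV, hV⟩) ?_ (by rwa [Finset.card_map]) (D₁.map ⟨fW, hW⟩)
      (Finset.map_subset_map.2 hD₁) ?_
    · rwa [Finset.card_map, Finset.card_map] at this
    · refine Finset.ssubset_iff_subset_ne.2 ⟨?_, ?_⟩
      · intro v hv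
        obtain ⟨u, hu, rfl⟩ := Finset.mem_map.1 hv
        exact (hK u).1 (hK₁.subset hu)
      · intro he
        have := Finset.card_lt_card hK₁
        rw [e, ← he, Finset.card_map] at this
        exact lt_irrefl _ this
    · intro d' hd'
      obtain ⟨u, hu, rfl⟩ := Finset.mem_map.1 hd'
      simp only [Function.Embedding.coeFn_mk, hx, hy]
      exact ⟨Finset.mem_map_of_mem ⟨fV, hV⟩ (hI₁ u hu).1,
        Finset.mem_map_of_mem ⟨fV, hV⟩ (hI₁ u hu).2⟩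

end Pool.Agent.Lib.MP_781e3b_co.RR
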