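import Pool.Agent.Lib.MP_781e3b_co.RR.Fo
import Pool.Agent.Lib.MP_781e3b_co.RR.Pot1

/-!
The density potential in a forest of copies.
-/

namespace Pool.Agent.Lib.MP_781e3b_co.RR

open Set Function

variable {C W V W' V' : Type} {x y : W → V} {m : ℝ} {n : ℕ}

namespace PotAux

open Classical

variable {N : W → Set V} {B B₁ B₂ : Set W} {V₁ V₂ : Set V}

theorem cardK (K : Finset V) (T : Set V) :
    ((K.filter (· ∈ T)).card : ℝ) + (K.filter (· ∉ T)).card = K.card := by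
  exact_mod_cast Finset.card_filter_add_card_filter_not (s := K) (fun v => v ∈ T)

theorem two_le (hxy : ∀ d, x d ≠ y d) {K : Finset V} {d : W} (h1 : x d ∈ K) (h2 : y d ∈ K) :
    2 ≤ K.card := Finset.one_lt_card.2 ⟨_, h1, _, h2, hxy d⟩

theorem small (hB : B.Subsingleton) (hm : 1 < m) (hn : 3 ≤ n) :
    Wk x y m B ∧ Rl x y N m B ∧ NoMT x y m n B := by
  have key : ∀ D : Finset W, ↑D ⊆ B → (D.card : ℝ) ≤ 1 := fun D hD => by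
    exact_mod_cast Finset.card_le_one.2 fun a ha b hb => hB (hD ha) (hD hb)
  refine ⟨fun K D hK hD _ => ?_, fun z hz K D hD hzD _ => ?_, fun K D hD h => ?_⟩
  · have h1 : (2 : ℝ) ≤ K.card := by exact_mod_cast hK
    nlinarith [key D hD]
  · have : D = ∅ := Finset.eq_empty_of_forall_notMem fun d hd => hzD (hB (hD hd) hz ▸ hd)
    rw [this, Finset.card_empty, Nat.cast_zero]
    exact mul_nonneg (by linarith) (Nat.cast_nonneg _)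
  · have h1 : (3 : ℝ) ≤ K.card := by
      rw [h.1]
      exact_mod_cast hn
    nlinarith [key D hD, h.2.2.1]

/-- The part of `D` in `B₁`, relative to `N z`. -/
theorem rl_one (hx : ∀ z, x z ∈ N z) (hy : ∀ z, y z ∈ N z) (r₁ : Rl x y N m B₁)
    (e₁ : ∀ z ∈ B₁, N z ⊆ V₁) {z : W} (hz : z ∈ B₁) {K : Finset V} {D : Finset W} (hzD : z ∉ D)
    (h : ∀ d ∈ D, (x d ∈ K ∨ x d ∈ N z) ∧ (y d ∈ K ∨ y d ∈ N z)) :
    ((D.filter (· ∈ B₁)).card : ℝ) ≤ m * (K.filter (· ∈ V₁)).card := by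
  refine r₁ z hz _ _ (fun d hd => (Finset.mem_filter.1 hd).2)
    (fun hd => hzD (Finset.mem_filter.1 hd).1) fun d hd => ?_
  obtain ⟨h1, h2⟩ := Finset.mem_filter.1 hd
  exact ⟨(h d h1).1.imp_left fun q => Finset.mem_filter.2 ⟨q, e₁ d h2 (hx d)⟩,
    (h d h1).2.imp_left fun q => Finset.mem_filter.2 ⟨q, e₁ d h2 (hy d)⟩⟩

/-- The part of `D` outside `B₁`, when the sides share at most a point. -/
theorem restV (hx : ∀ z, x z ∈ N z) (hy : ∀ z, y z ∈ N z) (hxy : ∀ d, x d ≠ y d) (hm : 1 < m)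
    (w₂ : Wk x y m B₂) (e₂ : ∀ z ∈ B₂, N z ⊆ V₂) (hs : (V₁ ∩ V₂).Subsingleton) {K : Finset V}
    {D : Finset W} (hD : ↑D ⊆ B₁ ∪ B₂)
    (h : ∀ d ∈ D, (x d ∈ K ∨ x d ∈ V₁) ∧ (y d ∈ K ∨ y d ∈ V₁)) :
    ((D.filter (· ∉ B₁)).card : ℝ) ≤ m * (K.filter (· ∉ V₁)).card := by
  rcases (D.filter (· ∉ B₁)).eq_empty_or_nonempty with he | ⟨d₀, hd₀⟩
  · rw [he, Finset.card_empty, Nat.cast_zero]
    exact mul_nonneg (by linarith) (Nat.cast_nonneg _)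
  have hB : ∀ d ∈ D.filter (· ∉ B₁), d ∈ B₂ := fun d hd =>
    (hD (Finset.mem_filter.1 hd).1).resolve_left (Finset.mem_filter.1 hd).2
  have mem : ∀ u, u ∈ V₂ → (u ∈ K ∨ u ∈ V₁) →
      u ∈ K.filter (· ∉ V₁) ∪ hs.finite.toFinset := fun u h2 h1 => by
    by_cases hu : u ∈ V₁
    · exact Finset.mem_union_right _ (hs.finite.mem_toFinset.2 ⟨hu, h2⟩)
    · exact Finset.mem_union_left _ (Finset.mem_filter.2 ⟨h1.resolve_right hu, hu⟩)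
  have ins : Ins x y (K.filter (· ∉ V₁) ∪ hs.finite.toFinset) (D.filter (· ∉ B₁)) := fun d hd =>
    ⟨mem _ (e₂ d (hB d hd) (hx d)) (h d (Finset.mem_filter.1 hd).1).1,
      mem _ (e₂ d (hB d hd) (hy d)) (h d (Finset.mem_filter.1 hd).1).2⟩
  have h1 := w₂ _ _ (two_le hxy (ins d₀ hd₀).1 (ins d₀ hd₀).2) hB ins
  have h2 : hs.finite.toFinset.card ≤ 1 := Finset.card_le_one.2 fun a ha b hb =>
    hs (hs.finite.mem_toFinset.1 ha) (hs.finite.mem_toFinset.1 hb)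
  have h3 : ((K.filter (· ∉ V₁) ∪ hs.finite.toFinset).card : ℝ) ≤
      (K.filter (· ∉ V₁)).card + 1 := by
    exact_mod_cast (Finset.card_union_le _ _).trans (Nat.add_le_add_left h2 _)
  nlinarith

/-- The part of `D` outside `B₁`, when the sides share points of `N z₀` only. -/
theorem restW (hx : ∀ z, x z ∈ N z) (hy : ∀ z, y z ∈ N z) (r₂ : Rl x y N m B₂)
    (e₂ : ∀ z ∈ B₂, N z ⊆ V₂) {z₀ : W} (z₁ : z₀ ∈ B₁) (z₂ : z₀ ∈ B₂)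
    (hs : ∀ v ∈ V₁, v ∈ V₂ → v ∈ N z₀) {K : Finset V} {D : Finset W} (hD : ↑D ⊆ B₁ ∪ B₂)
    (h : ∀ d ∈ D, (x d ∈ K ∨ x d ∈ V₁) ∧ (y d ∈ K ∨ y d ∈ V₁)) :
    ((D.filter (· ∉ B₁)).card : ℝ) ≤ m * (K.filter (· ∉ V₁)).card := by
  have hB : ∀ d ∈ D.filter (· ∉ B₁), d ∈ B₂ := fun d hd =>
    (hD (Finset.mem_filter.1 hd).1).resolve_left (Finset.mem_filter.1 hd).2
  have mem : ∀ u, u ∈ V₂ → (u ∈ K ∨ u ∈ V₁) → u ∈ K.filter (· ∉ V₁) ∨ u ∈ N z₀ :=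
    fun u h2 h1 => by
      by_cases hu : u ∈ V₁
      · exact Or.inr (hs u hu h2)
      · exact Or.inl (Finset.mem_filter.2 ⟨h1.resolve_right hu, hu⟩)
  exact r₂ z₀ z₂ _ _ hB (fun hd => (Finset.mem_filter.1 hd).2 z₁) fun d hd =>
    ⟨mem _ (e₂ d (hB d hd) (hx d)) (h d (Finset.mem_filter.1 hd).1).1,
      mem _ (e₂ d (hB d hd) (hy d)) (h d (Finset.mem_filter.1 hd).1).2⟩

/-- The bound for the part of `D` outside `B₁`. -/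
def Rest (x y : W → V) (m : ℝ) (B₁ B₂ : Set W) (V₁ : Set V) : Prop :=
  ∀ (K : Finset V) (D : Finset W), ↑D ⊆ B₁ ∪ B₂ →
    (∀ d ∈ D, (x d ∈ K ∨ x d ∈ V₁) ∧ (y d ∈ K ∨ y d ∈ V₁)) →
    ((D.filter (· ∉ B₁)).card : ℝ) ≤ m * (K.filter (· ∉ V₁)).card

theorem rl_side (hx : ∀ z, x z ∈ N z) (hy : ∀ z, y z ∈ N z) (r₁ : Rl x y N m B₁)
    (e₁ : ∀ z ∈ B₁, N z ⊆ V₁) (t : Rest x y m B₁ B₂ V₁) {z : W} (hz : z ∈ B₁) {K : Finset V}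
    {D : Finset W} (hD : ↑D ⊆ B₁ ∪ B₂) (hzD : z ∉ D)
    (h : ∀ d ∈ D, (x d ∈ K ∨ x d ∈ N z) ∧ (y d ∈ K ∨ y d ∈ N z)) :
    (D.card : ℝ) ≤ m * K.card := by
  have h1 := rl_one hx hy r₁ e₁ hz hzD h
  have h2 := t K D hD fun d hd =>
    ⟨(h d hd).1.imp_right fun q => e₁ z hz q, (h d hd).2.imp_right fun q => e₁ z hz q⟩
  rw [← cardK D B₁, ← cardK K V₁, mul_add]
  exact add_le_add h1 h2

theorem rl_union (hx : ∀ z, x z ∈ N z) (hy : ∀ z, y z ∈ N z) (r₁ : Rl x y N m B₁)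
    (r₂ : Rl x y N m B₂) (e₁ : ∀ z ∈ B₁, N z ⊆ V₁) (e₂ : ∀ z ∈ B₂, N z ⊆ V₂)
    (t₁ : Rest x y m B₁ B₂ V₁) (t₂ : Rest x y m B₂ B₁ V₂) : Rl x y N m (B₁ ∪ B₂) := by
  rintro z (hz | hz) K D hD hzD h
  · exact rl_side hx hy r₁ e₁ t₁ hz hD hzD h
  · exact rl_side hx hy r₂ e₂ t₂ hz (union_comm B₁ B₂ ▸ hD) hzD h

theorem ins_one (hx : ∀ z, x z ∈ N z) (hy : ∀ z, y z ∈ N z) (e₁ : ∀ z ∈ B₁, N z ⊆ V₁)
    {K : Finset V} {D : Finset W} (h : Ins x y K D) :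
    Ins x y (K.filter (· ∈ V₁)) (D.filter (· ∈ B₁)) := fun d hd => by
  obtain ⟨h1, h2⟩ := Finset.mem_filter.1 hd
  exact ⟨Finset.mem_filter.2 ⟨(h d h1).1, e₁ d h2 (hx d)⟩,
    Finset.mem_filter.2 ⟨(h d h1).2, e₁ d h2 (hy d)⟩⟩

theorem wk_union (hx : ∀ z, x z ∈ N z) (hy : ∀ z, y z ∈ N z) (hxy : ∀ d, x d ≠ y d)
    (w₁ : Wk x y m B₁) (w₂ : Wk x y m B₂) (e₁ : ∀ z ∈ B₁, N z ⊆ V₁)
    (t : Rest x y m B₁ B₂ V₁) : Wk x y m (B₁ ∪ B₂) := by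
  intro K D hK hD h
  rcases (D.filter (· ∈ B₁)).eq_empty_or_nonempty with he | ⟨d₀, hd₀⟩
  · exact w₂ K D hK (fun d hd => (hD hd).resolve_left fun q =>
      Finset.filter_eq_empty_iff.1 he hd q) h
  have ins := ins_one hx hy e₁ h
  have h1 := w₁ _ _ (two_le hxy (ins d₀ hd₀).1 (ins d₀ hd₀).2)
    (fun d hd => (Finset.mem_filter.1 hd).2) ins
  have h2 := t K D hD fun d hd => ⟨Or.inl (h d hd).1, Or.inl (h d hd).2⟩
  rw [← cardK D B₁, ← cardK K V₁]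
  linarith

theorem mt_side (hx : ∀ z, x z ∈ N z) (hy : ∀ z, y z ∈ N z) (hxy : ∀ d, x d ≠ y d)
    (w₁ : Wk x y m B₁) (e₁ : ∀ z ∈ B₁, N z ⊆ V₁) (t : Rest x y m B₁ B₂ V₁) {K : Finset V}
    {D : Finset W} (hD : ↑D ⊆ B₁ ∪ B₂) (h : MT x y m n K D) (h₁ : ¬ ↑D ⊆ B₁) :
    ((D.filter (· ∈ B₁)).card : ℝ) ≤ 1 := by
  rcases (D.filter (· ∈ B₁)).eq_empty_or_nonempty with he | ⟨d₀, hd₀⟩
  · rw [he, Finset.card_empty, Nat.cast_zero]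
    exact zero_le_one
  obtain ⟨-, hi, he, hmin⟩ := h
  have ins := ins_one hx hy e₁ hi
  have k2 := two_le hxy (ins d₀ hd₀).1 (ins d₀ hd₀).2
  have h1 := w₁ _ _ k2 (fun d hd => (Finset.mem_filter.1 hd).2) ins
  have h2 := t K D hD fun d hd => ⟨Or.inl (hi d hd).1, Or.inl (hi d hd).2⟩
  rcases k2.eq_or_lt with k3 | k3
  · rw [← k3] at h1
    simpa using h1
  exfalso
  have ss : K.filter (· ∈ V₁) ⊂ K := by
    refine Finset.filter_ssubset.2 ?_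
    by_contra hc
    have e0 : K.filter (· ∉ V₁) = ∅ :=
      Finset.filter_eq_empty_iff.2 fun v hv q => hc ⟨v, hv, q⟩
    rw [e0, Finset.card_empty, Nat.cast_zero, mul_zero] at h2
    have e1 : (D.filter (· ∉ B₁)).card = 0 := by exact_mod_cast le_antisymm h2 (Nat.cast_nonneg _)
    exact h₁ fun d hd => by
      by_contra q
      exact Finset.filter_eq_empty_iff.1 (Finset.card_eq_zero.1 e1) hd q
  have h3 := hmin _ ss k3 _ (Finset.filter_subset _ _) ins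
  rw [← cardK D B₁, ← cardK K V₁] at he
  linarith

theorem mt_union (hx : ∀ z, x z ∈ N z) (hy : ∀ z, y z ∈ N z) (hxy : ∀ d, x d ≠ y d) (hm : 1 < m)
    (hn : 3 ≤ n) (w₁ : Wk x y m B₁) (w₂ : Wk x y m B₂) (e₁ : ∀ z ∈ B₁, N z ⊆ V₁)
    (e₂ : ∀ z ∈ B₂, N z ⊆ V₂) (t₁ : Rest x y m B₁ B₂ V₁) (t₂ : Rest x y m B₂ B₁ V₂)
    (n₁ : NoMT x y m n B₁) (n₂ : NoMT x y m n B₂) : NoMT x y m n (B₁ ∪ B₂) := by
  intro K D hD h
  have h1 := mt_side hx hy hxy w₁ e₁ t₁ hD h fun q => n₁ K D q h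
  have h2 := mt_side hx hy hxy w₂ e₂ t₂ (union_comm B₁ B₂ ▸ hD) h fun q => n₂ K D q h
  have h3 : ((D.filter (· ∉ B₁)).card : ℝ) ≤ (D.filter (· ∈ B₂)).card := by
    exact_mod_cast Finset.card_le_card fun d hd => Finset.mem_filter.2
      ⟨(Finset.mem_filter.1 hd).1,
        (hD (Finset.mem_filter.1 hd).1).resolve_left (Finset.mem_filter.1 hd).2⟩
  have h4 : (3 : ℝ) ≤ K.card := by
    rw [h.1]
    exact_mod_cast hn
  have h5 := cardK D B₁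
  nlinarith [h.2.2.1]

theorem bv {S : Sys C W V} {Cs : Set C} {Z : Set W} {R : Set (W × V)} (h : Fo S True Cs Z R)
    (hw : S.Whole) : ∀ z ∈ S.BW Cs Z, S.N z ⊆ S.BV Cs R := by
  rintro z (⟨P, hP, hz⟩ | hz) v hv
  · exact Or.inl ⟨P, hP, hw P z hz hv⟩
  · exact Or.inr ⟨z, h.fullst trivial hz hv⟩

theorem forest {S : Sys C W V} {Cs : Set C} {Z : Set W} {R : Set (W × V)} (fl : Prop)
    (h : Fo S True Cs Z R) (hw : S.Whole) (hx : ∀ z, x z ∈ S.N z) (hy : ∀ z, y z ∈ S.N z)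
    (hxy : ∀ d, x d ≠ y d) (hm : 1 < m) (hn : 3 ≤ n)
    (hP : ∀ P, Wk x y m (S.wb P) ∧ Rl x y S.N m (S.wb P) ∧ (fl → NoMT x y m n (S.wb P))) :
    Wk x y m (S.BW Cs Z) ∧ Rl x y S.N m (S.BW Cs Z) ∧ (fl → NoMT x y m n (S.BW Cs Z)) := by
  have both : ∀ {B₁ B₂ : Set W} {V₁ V₂ : Set V}, (∀ z ∈ B₁, S.N z ⊆ V₁) → (∀ z ∈ B₂, S.N z ⊆ V₂) →
      Rest x y m B₁ B₂ V₁ → Rest x y m B₂ B₁ V₂ →
      (Wk x y m B₁ ∧ Rl x y S.N m B₁ ∧ (fl → NoMT x y m n B₁)) →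
      (Wk x y m B₂ ∧ Rl x y S.N m B₂ ∧ (fl → NoMT x y m n B₂)) →
      Wk x y m (B₁ ∪ B₂) ∧ Rl x y S.N m (B₁ ∪ B₂) ∧ (fl → NoMT x y m n (B₁ ∪ B₂)) :=
    fun e₁ e₂ t₁ t₂ a b => ⟨wk_union hx hy hxy a.1 b.1 e₁ t₁,
      rl_union hx hy a.2.1 b.2.1 e₁ e₂ t₁ t₂,
      fun f => mt_union hx hy hxy hm hn a.1 b.1 e₁ e₂ t₁ t₂ (a.2.2 f) (b.2.2 f)⟩
  induction h with
  | empty =>
    have := small (x := x) (y := y) (N := S.N) (B := S.BW ∅ ∅)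
      (fun z hz => by simp [Sys.BW] at hz) hm hn
    exact ⟨this.1, this.2.1, fun _ => this.2.2⟩
  | atom P Z R h1 _ _ =>
    have : S.BW {P} Z = S.wb P := by
      ext z
      constructor
      · rintro (⟨Q, rfl, hz⟩ | hz)
        exacts [hz, h1 hz]
      · exact fun hz => Or.inl ⟨P, rfl, hz⟩
    rw [this]
    exact hP P
  | star z R _ _ =>
    have := small (x := x) (y := y) (N := S.N) (B := S.BW ∅ {z})
      (fun a ha b hb => by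
        simp only [Sys.BW, mem_empty_iff_false, false_and, exists_false, false_or] at ha hb
        exact ha.trans hb.symm) hm hn
    exact ⟨this.1, this.2.1, fun _ => this.2.2⟩
  | glueV f₁ f₂ _ _ hs ih₁ ih₂ =>
    rw [S.BW_union]
    exact both (bv f₁ hw) (bv f₂ hw)
      (fun _ _ hD q => restV hx hy hxy hm ih₂.1 (bv f₂ hw) hs hD q)
      (fun _ _ hD q => restV hx hy hxy hm ih₁.1 (bv f₁ hw) (inter_comm _ _ ▸ hs) hD q) ih₁ ih₂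
  | glueW z f₁ f₂ _ z₁ z₂ _ hs ih₁ ih₂ =>
    rw [S.BW_union]
    exact both (bv f₁ hw) (bv f₂ hw)
      (fun _ _ hD q => restW hx hy ih₂.2.1 (bv f₂ hw) (Or.inr z₁) (Or.inr z₂)
        (fun v a b => (f₁.sound (hs v a b).1).2) hD q)
      (fun _ _ hD q => restW hx hy ih₁.2.1 (bv f₁ hw) (Or.inr z₂) (Or.inr z₁)
        (fun v a b => (f₁.sound (hs v b a).1).2) hD q) ih₁ ih₂

end PotAux

/-- Induction on the forest for `Wk ∧ Rl ∧ (fl → NoMT)` of `BW`. Note `N z ⊆ BV` for `z ∈ BW`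
(`Whole`, `Fo.fullst`). A star has `BW = {z}`. `glueV`: the two lemmas above; `Rl` at `z` on side 1:
`|D₁| ≤ m |K ∩ BV₁|`, and `D₂` lies inside `L = (K \ BV₁) ∪ (BV₁ ∩ BV₂)`, so `D₂ = ∅` or
`|D₂| ≤ m (|L| - 2) + 1 ≤ m |K \ BV₁|`. `glueW z₀` (common points lie in `N z₀ ⊆ BV₁ ∩ BV₂`): put
`K₁ = K ∩ BV₁`, `D₁ = D ∩ BW₁`, `D₂ = D \ BW₁`; `Rl` on side 2 at `z₀` gives
`|D₂| ≤ m |K \ BV₁|`. `Wk`: if `|K₁| ≥ 2` add `Wk` on side 1; same with the sides exchanged; else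
`D = ∅`. `Rl` at `z` on side 1 (also `z = z₀`): add `Rl` on side 1. `MT K D`: if `|K₁| ≥ 2` then both
bounds are equalities, so `|K₁| = 2` or `K₁ = K` by minimality; `K₁ = K` gives `D₂ = ∅` and
`D ⊆ BW₁`. Same for side 2. If `|K ∩ BV₁|, |K ∩ BV₂| ≤ 2` then `|D| ≤ 2 < m (|K| - 2) + 1`. -/
theorem pot_forest {S : Sys C W V} {Cs : Set C} {Z : Set W} {R : Set (W × V)} (fl : Prop)
    (h : Fo S True Cs Z R) (hw : S.Whole) (hx : ∀ z, x z ∈ S.N z) (hy : ∀ z, y z ∈ S.N z)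
    (hxy : ∀ d, x d ≠ y d) (hm : 1 < m) (hn : 3 ≤ n)
    (hP : ∀ P, Wk x y m (S.wb P) ∧ Rl x y S.N m (S.wb P) ∧ (fl → NoMT x y m n (S.wb P))) :
    Wk x y m (S.BW Cs Z) ∧ (fl → NoMT x y m n (S.BW Cs Z)) :=
  let h' := PotAux.forest fl h hw hx hy hxy hm hn hP
  ⟨h'.1, h'.2.2⟩

end Pool.Agent.Lib.MP_781e3b_co.RR
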