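import Pool.Agent.Lib.MP_781e3b_co.RR.Fo
import Pool.Agent.Lib.MP_781e3b_co.RR.PotDefs

/-!
Separation in a forest of copies.
-/

namespace Pool.Agent.Lib.MP_781e3b_co.RR

open Set Function

variable {C W V W' V' : Type}

namespace SepAux

/-- One step through a set `h z'` with `z' ∈ B`, `z' ≠ z`. -/
def Jn (h : W → Set V) (B : Set W) (z : W) (a b : V) : Prop :=
  ∃ z' ∈ B, z' ≠ z ∧ a ∈ h z' ∧ b ∈ h z'

theorem Jn.symm {h : W → Set V} {B : Set W} {z : W} {a b : V} (hab : Jn h B z a b) :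
    Jn h B z b a :=
  let ⟨z', h1, h2, h3, h4⟩ := hab
  ⟨z', h1, h2, h4, h3⟩

theorem walk_symm {h : W → Set V} {B : Set W} {z : W} {a b : V}
    (hab : Relation.ReflTransGen (Jn h B z) a b) : Relation.ReflTransGen (Jn h B z) b a := by
  induction hab with
  | refl => exact .refl
  | tail _ hs ih => exact .head hs.symm ih

/-- Gluing at one point, seen from side 1. -/
theorem glueV {N h : W → Set V} (hh : ∀ z, h z ⊆ N z) {B₁ B₂ B : Set W} {V₁ V₂ : Set V}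
    (hB : ∀ z ∈ B, z ∈ B₁ ∨ z ∈ B₂) (h₁ : ∀ z ∈ B₁, N z ⊆ V₁) (h₂ : ∀ z ∈ B₂, N z ⊆ V₂)
    (hs : (V₁ ∩ V₂).Subsingleton) (s₁ : Sep N h B₁) {z : W} (hz : z ∈ B₁) {u w : V}
    (hu : u ∈ N z) (hw : w ∈ N z) (hwk : Relation.ReflTransGen (Jn h B z) u w) : u = w := by
  have key : ∀ a, Relation.ReflTransGen (Jn h B z) u a →
      (a ∈ V₁ ∧ Relation.ReflTransGen (Jn h B₁ z) u a) ∨
        (a ∈ V₂ ∧ ∃ s ∈ V₁ ∩ V₂, Relation.ReflTransGen (Jn h B₁ z) u s) := by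
    intro a ha
    induction ha with
    | refl => exact Or.inl ⟨h₁ z hz hu, .refl⟩
    | @tail a b _ hab ih =>
      obtain ⟨z', hz', hne, ha, hb⟩ := hab
      rcases hB z' hz' with hz1 | hz2
      · have ha1 := h₁ z' hz1 (hh z' ha)
        refine Or.inl ⟨h₁ z' hz1 (hh z' hb), .tail ?_ ⟨z', hz1, hne, ha, hb⟩⟩
        rcases ih with ih | ⟨ha2, s, hs', ih⟩
        · exact ih.2
        · exact hs hs' ⟨ha1, ha2⟩ ▸ ih
      · refine Or.inr ⟨h₂ z' hz2 (hh z' hb), ?_⟩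
        rcases ih with ih | ih
        · exact ⟨a, ⟨ih.1, h₂ z' hz2 (hh z' ha)⟩, ih.2⟩
        · exact ih.2
  refine s₁ z hz u hu w hw ?_
  rcases key w hwk with ih | ⟨ha2, s, hs', ih⟩
  · exact ih.2
  · exact hs hs' ⟨h₁ z hz hw, ha2⟩ ▸ ih

/-- Gluing along one wagon, seen from side 1. -/
theorem glueW {N h : W → Set V} (hh : ∀ z, h z ⊆ N z) {B₁ B₂ B : Set W} {V₁ V₂ : Set V}
    (hB : ∀ z ∈ B, z ∈ B₁ ∨ z ∈ B₂) (h₁ : ∀ z ∈ B₁, N z ⊆ V₁) (h₂ : ∀ z ∈ B₂, N z ⊆ V₂)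
    {z₀ : W} (hz₁ : z₀ ∈ B₁) (hz₂ : z₀ ∈ B₂) (hs : ∀ v ∈ V₁, v ∈ V₂ → v ∈ N z₀)
    (s₁ : Sep N h B₁) (s₂ : Sep N h B₂) {z : W} (hz : z ∈ B₁) {u w : V}
    (hu : u ∈ N z) (hw : w ∈ N z) (hwk : Relation.ReflTransGen (Jn h B z) u w) : u = w := by
  have back : ∀ s ∈ N z₀, ∀ a ∈ V₁, Relation.ReflTransGen (Jn h B₂ z₀) s a → s = a := by
    intro s hs0 a ha hsa
    rcases hsa.cases_tail with e | ⟨c, _, z', hz', _, _, hb⟩
    · exact e.symm
    · exact s₂ z₀ hz₂ s hs0 a (hs a ha (h₂ z' hz' (hh z' hb))) hsa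
  have key : ∀ a, Relation.ReflTransGen (Jn h B z) u a →
      (a ∈ V₁ ∧ Relation.ReflTransGen (Jn h B₁ z) u a) ∨
        ∃ s ∈ N z₀, Relation.ReflTransGen (Jn h B₁ z) u s ∧
          Relation.ReflTransGen (Jn h B₂ z₀) s a := by
    intro a ha
    induction ha with
    | refl => exact Or.inl ⟨h₁ z hz hu, .refl⟩
    | @tail a b _ hab ih =>
      obtain ⟨z', hz', hne, ha, hb⟩ := hab
      by_cases hz1 : z' ∈ B₁
      · have ha1 := h₁ z' hz1 (hh z' ha)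
        refine Or.inl ⟨h₁ z' hz1 (hh z' hb), .tail ?_ ⟨z', hz1, hne, ha, hb⟩⟩
        rcases ih with ih | ⟨s, hs0, ih, hsa⟩
        · exact ih.2
        · exact back s hs0 a ha1 hsa ▸ ih
      · have hz2 : z' ∈ B₂ := (hB z' hz').resolve_left hz1
        have st : Jn h B₂ z₀ a b := ⟨z', hz2, fun e => hz1 (e ▸ hz₁), ha, hb⟩
        refine Or.inr ?_
        rcases ih with ih | ⟨s, hs0, ih, hsa⟩
        · exact ⟨a, hs a ih.1 (h₂ z' hz2 (hh z' ha)), ih.2, .single st⟩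
        · exact ⟨s, hs0, ih, hsa.tail st⟩
  refine s₁ z hz u hu w hw ?_
  rcases key w hwk with ih | ⟨s, hs0, ih, hsa⟩
  · exact ih.2
  · exact back s hs0 w (h₁ z hz hw) hsa ▸ ih

theorem sub_BV {S : Sys C W V} {Cs : Set C} {Z : Set W} {R : Set (W × V)}
    (hF : Fo S True Cs Z R) (hw : S.Whole) : ∀ z ∈ S.BW Cs Z, S.N z ⊆ S.BV Cs R := by
  rintro z (⟨P, hP, hz⟩ | hz) v hv
  · exact Or.inl ⟨P, hP, hw P z hz hv⟩
  · exact Or.inr ⟨z, hF.fullst trivial hz hv⟩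

end SepAux

/-- A walk that starts in the range of `fV` stays there and pulls back. -/
theorem Sep.map {N h : W → Set V} {N' h' : W' → Set V'} {fW : W → W'} {fV : V → V'}
    (hV : Injective fV) (hN : ∀ d, N' (fW d) = fV '' N d) (hh : ∀ d, h' (fW d) = fV '' h d)
    (hs : Sep N h univ) : Sep N' h' (range fW) := by
  rintro _ ⟨d, rfl⟩ u hu w hw hwk
  rw [hN] at hu hw
  obtain ⟨u, hu, rfl⟩ := hu
  obtain ⟨w, hw, rfl⟩ := hw
  have key : ∀ a, Relation.ReflTransGen (SepAux.Jn h' (range fW) (fW d)) (fV u) a →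
      ∃ a₀, fV a₀ = a ∧ Relation.ReflTransGen (SepAux.Jn h univ d) u a₀ := by
    intro a ha
    induction ha with
    | refl => exact ⟨u, rfl, .refl⟩
    | tail _ hab ih =>
      obtain ⟨_, ⟨d', rfl⟩, hne, ha, hb⟩ := hab
      obtain ⟨a₀, rfl, ih⟩ := ih
      rw [hh] at ha hb
      obtain ⟨a₁, ha, e⟩ := ha
      obtain ⟨b₀, hb, rfl⟩ := hb
      obtain rfl := hV e
      exact ⟨b₀, rfl, ih.tail ⟨d', mem_univ _, fun e => hne (congrArg fW e), ha, hb⟩⟩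
  obtain ⟨w₀, e, hk⟩ := key _ hwk
  obtain rfl := hV e
  exact congrArg fV (hs d (mem_univ _) u hu _ hw hk)

/-- Induction on the forest; `h z ⊆ N z ⊆ BV` for `z ∈ BW` (`Whole`, `Fo.fullst`). Let `z` be on side
1 and `u ∈ N z`; write `~₁` for walks on side 1 avoiding `z`. `glueV`: along a walk from `u` keep
`(a ∈ BV₁ ∧ u ~₁ a) ∨ (a ∈ BV₂ ∧ ∃ s ∈ BV₁ ∩ BV₂, u ~₁ s)`. `glueW z₀`: keep
`(a ∈ BV₁ ∧ u ~₁ a) ∨ ∃ s ∈ N z₀, u ~₁ s ∧ s ~₂ a` with `~₂` the walks on side 2 avoiding `z₀`; if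
`a ∈ BV₁` in the second case then `a = s` or `a ∈ BV₂`, so `a ∈ N z₀`, and `Sep` on side 2 gives
`a = s`. A step through `z' ∈ BW₁` starts in `BV₁`; a step through `z' ∈ BW₂`, `z' ≠ z₀`, that starts in
`BV₁` starts in `N z₀`. -/
theorem sep_forest {S : Sys C W V} {Cs : Set C} {Z : Set W} {R : Set (W × V)} {h : W → Set V}
    (hF : Fo S True Cs Z R) (hw : S.Whole) (hh : ∀ z, h z ⊆ S.N z)
    (hP : ∀ P, Sep S.N h (S.wb P)) : Sep S.N h (S.BW Cs Z) := by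
  induction hF with
  | empty =>
    rintro z (⟨P, hP, _⟩ | hz)
    · exact hP.elim
    · exact hz.elim
  | atom P Z R hZ _ _ =>
    have e : S.BW {P} Z = S.wb P := by
      ext z
      constructor
      · rintro (⟨Q, rfl, hz⟩ | hz)
        · exact hz
        · exact hZ hz
      · exact fun hz => Or.inl ⟨P, rfl, hz⟩
    rw [e]
    exact hP P
  | star y R _ _ =>
    have e : ∀ z ∈ S.BW ∅ {y}, z = y := by
      rintro z (⟨P, hP, _⟩ | hz)
      · exact hP.elim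
      · exact hz
    intro z hz u _ w _ hwk
    rcases hwk.cases_tail with e' | ⟨c, _, z', hz', hne, _⟩
    · exact e'.symm
    · exact (hne ((e z' hz').trans (e z hz).symm)).elim
  | glueV h₁ h₂ _ _ hs ih₁ ih₂ =>
    rw [S.BW_union]
    rintro z (hz | hz) u hu w hw' hwk
    · exact SepAux.glueV hh (fun _ h => h) (SepAux.sub_BV h₁ hw) (SepAux.sub_BV h₂ hw) hs ih₁ hz
        hu hw' hwk
    · exact SepAux.glueV hh (fun _ h => Or.symm h) (SepAux.sub_BV h₂ hw) (SepAux.sub_BV h₁ hw)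
        (inter_comm _ _ ▸ hs) ih₂ hz hu hw' hwk
  | glueW z₀ h₁ h₂ _ hz₁ hz₂ _ hs ih₁ ih₂ =>
    rw [S.BW_union]
    rintro z (hz | hz) u hu w hw' hwk
    · exact SepAux.glueW hh (fun _ h => h) (SepAux.sub_BV h₁ hw) (SepAux.sub_BV h₂ hw)
        (Or.inr hz₁) (Or.inr hz₂) (fun v h h' => (h₁.sound (hs v h h').1).2) ih₁ ih₂ hz hu hw' hwk
    · exact SepAux.glueW hh (fun _ h => Or.symm h) (SepAux.sub_BV h₂ hw) (SepAux.sub_BV h₁ hw)
        (Or.inr hz₂) (Or.inr hz₁) (fun v h h' => (h₁.sound (hs v h' h).1).2) ih₂ ih₁ hz hu hw' hwk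

/-- A 2-connected graph whose edges lie in the sets `h z` lies in one of them. Take an edge `ab` in
`h z`. Suppose `f w ∉ N z`. Call a vertex `c` good if `f w` and `f c` are joined avoiding `z`. At
most one good vertex `u` has `f u ∈ N z` (`Sep`); pick such `u`, or `u = a` if there is none. One of
`a, b` is not `u`, call it `a'`. Along a walk from `w` to `a'` in `J - u` every vertex is good and
outside `N z` (an edge from a vertex outside `N z` lies in some `h z'`, `z' ≠ z`): contradiction. So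
all vertices are in `N z`; an edge in `h z'`, `z' ≠ z`, contradicts `Sep`. -/
theorem two_conn_sep {U : Type} [Fintype U] (J : SimpleGraph U) (h3 : 3 ≤ Fintype.card U)
    (h2 : ∀ v, (J.induce {v}ᶜ).Connected) {N h : W → Set V} {B : Set W} (hh : ∀ z, h z ⊆ N z)
    (hs : Sep N h B) (f : U → V) (hf : Injective f) (e : ∀ a b, J.Adj a b → W)
    (he : ∀ a b hab, e a b hab ∈ B ∧ f a ∈ h (e a b hab) ∧ f b ∈ h (e a b hab)) :
    ∃ z, (∀ a, f a ∈ N z) ∧ ∀ a b hab, e a b hab = z := by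
  have walk : ∀ u p q (hp : p ≠ u) (hq : q ≠ u),
      Relation.ReflTransGen (J.induce {u}ᶜ).Adj ⟨p, hp⟩ ⟨q, hq⟩ := fun u p q hp hq =>
    (SimpleGraph.reachable_iff_reflTransGen _ _).1 ((h2 u).preconnected _ _)
  obtain ⟨a, b, hab⟩ : ∃ a b, J.Adj a b := by
    obtain ⟨p, q, r, hpq, hpr, hqr⟩ := Fintype.two_lt_card_iff.1 (show 2 < Fintype.card U by omega)
    rcases (walk r p q hpr hqr).cases_head with e' | ⟨c, hc, _⟩
    · exact (hpq (congrArg Subtype.val e')).elim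
    · exact ⟨p, c.1, hc⟩
  obtain ⟨hzB, hfa, hfb⟩ := he a b hab
  generalize e a b hab = z at hzB hfa hfb
  have hfa := hh z hfa
  have hfb := hh z hfb
  have all : ∀ w, f w ∈ N z := by
    intro w
    by_contra hw
    obtain ⟨u, hu, huniq⟩ : ∃ u, f u ∈ N z ∧
        ∀ c, Relation.ReflTransGen (SepAux.Jn h B z) (f w) (f c) → f c ∈ N z → c = u := by
      by_cases hex : ∃ u, Relation.ReflTransGen (SepAux.Jn h B z) (f w) (f u) ∧ f u ∈ N z
      · obtain ⟨u, hg, hu⟩ := hex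
        exact ⟨u, hu, fun c hc hcN => hf (hs z hzB _ hcN _ hu ((SepAux.walk_symm hc).trans hg))⟩
      · exact ⟨a, hfa, fun c hc hcN => (hex ⟨c, hc, hcN⟩).elim⟩
    have hwu : w ≠ u := fun e' => hw (e' ▸ hu)
    have key : ∀ c : ({u}ᶜ : Set U), Relation.ReflTransGen (J.induce {u}ᶜ).Adj ⟨w, hwu⟩ c →
        Relation.ReflTransGen (SepAux.Jn h B z) (f w) (f c.1) ∧ f c.1 ∉ N z := by
      intro c hc
      induction hc with
      | refl => exact ⟨.refl, hw⟩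
      | @tail c c' _ hcc ih =>
        have hadj : J.Adj c.1 c'.1 := hcc
        obtain ⟨h1, h2', h3'⟩ := he _ _ hadj
        have hg : Relation.ReflTransGen (SepAux.Jn h B z) (f w) (f c'.1) :=
          ih.1.tail ⟨_, h1, fun e' => ih.2 (e' ▸ hh _ h2'), h2', h3'⟩
        exact ⟨hg, fun hc' => c'.2 (huniq _ hg hc')⟩
    by_cases hau : a = u
    · have hbu : b ≠ u := fun e' => hab.ne (hau.trans e'.symm)
      exact (key ⟨b, hbu⟩ (walk u w b hwu hbu)).2 hfb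
    · exact (key ⟨a, hau⟩ (walk u w a hwu hau)).2 hfa
  refine ⟨z, all, fun p q hpq => ?_⟩
  by_contra hne
  obtain ⟨h1, h2', h3'⟩ := he p q hpq
  exact hpq.ne (hf (hs z hzB _ (all p) _ (all q) (.single ⟨_, h1, hne, h2', h3'⟩)))

end Pool.Agent.Lib.MP_781e3b_co.RR
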