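import Pool.Agent.Lib.MP_781e3b_co.RR.Amal

/-!
The gain step on the level of edges.
-/

namespace Pool.Agent.Lib.MP_781e3b_co.RR

open Set Function

variable {CH WH VH CL WL VL W V : Type} {SH : Sys CH WH VH} {SL : Sys CL WL VL}
  {S : Sys (CH × CL) W V}

namespace GainAux

/-- The forest sees only the ground part and the standard copies with host in `D`. -/
structure Inv (a : Amal SH SL S True) (D : Set CH) (Cs : Set (CH × CL)) (Z : Set W)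
    (R : Set (W × V)) : Prop where
  fo : Fo S True Cs Z R
  hC : ∀ P ∈ Cs, P.1 ∈ D
  hW : ∀ z ∈ S.BW Cs Z, z ∈ range a.iW ∨ ∃ c ∈ D, z ∈ range (a.sW c)
  hV : ∀ v ∈ S.BV Cs R, v ∈ range a.iV ∨ ∃ c ∈ D, v ∈ range (a.sV c)

variable {a : Amal SH SL S True} {D : Set CH} {Cs : Set (CH × CL)} {Z : Set W} {R : Set (W × V)}

theorem Inv.dw (h : Inv a D Cs Z R) {c : CH} (hc : c ∉ D) {y : WL}
    (hy : a.sW c y ∈ S.BW Cs Z) : y ∈ a.DW := by
  rcases h.hW _ hy with h1 | ⟨c', hc', y', e⟩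
  · exact (a.dW c y).1 h1
  · exact (a.sepW c c' y y' e.symm).resolve_left fun e => hc (e ▸ hc')

theorem Inv.dv (h : Inv a D Cs Z R) {c : CH} (hc : c ∉ D) {u : VL}
    (hu : a.sV c u ∈ S.BV Cs R) : u ∈ a.DV := by
  rcases h.hV _ hu with h1 | ⟨c', hc', u', e⟩
  · exact (a.dV c u).1 h1
  · exact (a.sepV c c' u u' e.symm).resolve_left fun e => hc (e ▸ hc')

theorem Inv.ext (h : Inv a D Cs Z R) {c : CH} {C₂ : Set (CH × CL)} {Z₂ : Set W} {R₂ : Set (W × V)}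
    (hf : Fo S True (Cs ∪ C₂) (Z ∪ Z₂) (R ∪ R₂)) (h1 : ∀ P ∈ C₂, P.1 = c)
    (h2 : ∀ z ∈ S.BW C₂ Z₂, z ∈ range (a.sW c)) (h3 : ∀ v ∈ S.BV C₂ R₂, v ∈ range (a.sV c)) :
    Inv a (insert c D) (Cs ∪ C₂) (Z ∪ Z₂) (R ∪ R₂) where
  fo := hf
  hC P hP := hP.elim (fun hP => Or.inr (h.hC P hP)) fun hP => Or.inl (h1 P hP)
  hW z hz := by
    rw [Sys.BW_union] at hz
    rcases hz with hz | hz
    · exact (h.hW z hz).imp id fun ⟨c', hc', e⟩ => ⟨c', Or.inr hc', e⟩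
    · exact Or.inr ⟨c, Or.inl rfl, h2 z hz⟩
  hV v hv := by
    rw [Sys.BV_union] at hv
    rcases hv with hv | hv
    · exact (h.hV v hv).imp id fun ⟨c', hc', e⟩ => ⟨c', Or.inr hc', e⟩
    · exact Or.inr ⟨c, Or.inl rfl, h3 v hv⟩

theorem mem_N (a : Amal SH SL S True) {c : CH} {y : WL} {v : V} (hv : v ∈ S.N (a.sW c y)) :
    ∃ u ∈ SL.N y, a.sV c u = v := by
  obtain ⟨u, rfl⟩ := a.fs trivial c y hv
  exact ⟨u, (a.sN c y u).1 hv, rfl⟩

/-- A new copy. -/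
theorem Inv.addP (h : Inv a D Cs Z R) (wL : SL.Whole)
    (t1 : ∀ P, ∀ y ∈ SL.wb P, ∀ y' ∈ SL.wb P, y ∈ a.DW → y' ∈ a.DW → y = y')
    (t2 : ∀ P, ∀ y ∈ SL.wb P, y ∈ a.DW → SL.vb P ∩ a.DV ⊆ SL.N y)
    (t3 : ∀ P, (∀ y ∈ SL.wb P, y ∉ a.DW) → (SL.vb P ∩ a.DV).Subsingleton)
    {c : CH} (hc : c ∉ D) (Q : CL) (hZ : ∀ y ∈ SL.wb Q, y ∈ a.DW → a.sW c y ∈ Z) :
    ∃ Cs' Z' R', Inv a (insert c D) Cs' Z' R' ∧ Cs ⊆ Cs' ∧ Z ⊆ Z' ∧ (c, Q) ∈ Cs' := by
  have hd : Disjoint Cs {(c, Q)} := disjoint_singleton_right.2 fun hP => hc (h.hC _ hP)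
  have h1 : ∀ P ∈ ({(c, Q)} : Set (CH × CL)), P.1 = c := by
    rintro P rfl; rfl
  by_cases hy : ∃ y ∈ SL.wb Q, y ∈ a.DW
  · obtain ⟨y, hy, hyD⟩ := hy
    have bw : ∀ z ∈ S.BW {(c, Q)} {a.sW c y}, ∃ y' ∈ SL.wb Q, a.sW c y' = z := by
      rintro z (⟨P, rfl, hz⟩ | rfl)
      · rwa [a.wb] at hz
      · exact ⟨y, hy, rfl⟩
    have bv : ∀ v ∈ S.BV {(c, Q)} ({a.sW c y} ×ˢ S.N (a.sW c y)),
        ∃ u ∈ SL.vb Q, a.sV c u = v := by
      rintro v (⟨P, rfl, hv⟩ | ⟨z, -, hv⟩)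
      · rwa [a.vb] at hv
      · obtain ⟨u, hu, e⟩ := mem_N a hv
        exact ⟨u, wL Q y hy hu, e⟩
    have at1 : Fo S True {(c, Q)} {a.sW c y} ({a.sW c y} ×ˢ S.N (a.sW c y)) := by
      refine .atom _ _ _ ?_ ?_ ?_
      · rintro z rfl
        rw [a.wb]
        exact ⟨y, hy, rfl⟩
      · rintro z v ⟨rfl, hv⟩
        refine ⟨rfl, ?_, hv⟩
        obtain ⟨u, hu, e⟩ := mem_N a hv
        rw [a.vb]
        exact ⟨u, wL Q y hy hu, e⟩
      · rintro - z rfl v hv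
        exact ⟨rfl, hv⟩
    refine ⟨_, _, _, h.ext (.glueW (a.sW c y) h.fo at1 hd (hZ y hy hyD) rfl ?_ ?_) h1 ?_ ?_,
      subset_union_left, subset_union_left, Or.inr rfl⟩
    · intro z hz hz'
      obtain ⟨y', hy', rfl⟩ := bw z hz'
      rw [t1 Q y' hy' y hy (h.dw hc hz) hyD]
    · intro v hv hv'
      obtain ⟨u, hu, rfl⟩ := bv v hv'
      have : a.sV c u ∈ S.N (a.sW c y) := (a.sN c y u).2 (t2 Q y hy hyD ⟨hu, h.dv hc hv⟩)
      exact ⟨h.fo.fullst trivial (hZ y hy hyD) this, rfl, this⟩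
    · intro z hz
      obtain ⟨y', -, e⟩ := bw z hz
      exact ⟨y', e⟩
    · intro v hv
      obtain ⟨u, -, e⟩ := bv v hv
      exact ⟨u, e⟩
  · have hy' : ∀ y ∈ SL.wb Q, y ∉ a.DW := fun y h1 h2 => hy ⟨y, h1, h2⟩
    have bw : ∀ z ∈ S.BW {(c, Q)} ∅, ∃ y' ∈ SL.wb Q, a.sW c y' = z := by
      rintro z (⟨P, rfl, hz⟩ | hz)
      · rwa [a.wb] at hz
      · exact hz.elim
    have bv : ∀ v ∈ S.BV {(c, Q)} ∅, ∃ u ∈ SL.vb Q, a.sV c u = v := by
      rintro v (⟨P, rfl, hv⟩ | ⟨z, hv⟩)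
      · rwa [a.vb] at hv
      · exact hv.elim
    have at1 : Fo S True {(c, Q)} ∅ ∅ :=
      .atom _ _ _ (empty_subset _) (fun _ _ h => h.elim) fun _ _ h => h.elim
    refine ⟨_, _, _, h.ext (.glueV h.fo at1 hd ?_ ?_) h1 ?_ ?_,
      subset_union_left, subset_union_left, Or.inr rfl⟩
    · refine disjoint_left.2 fun z hz hz' => ?_
      obtain ⟨y', hy'', rfl⟩ := bw z hz'
      exact hy' y' hy'' (h.dw hc hz)
    · intro v hv v' hv'
      obtain ⟨u, hu, rfl⟩ := bv v hv.2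
      obtain ⟨u', hu', rfl⟩ := bv v' hv'.2
      rw [t3 Q hy' ⟨hu, h.dv hc hv.1⟩ ⟨hu', h.dv hc hv'.1⟩]
    · intro z hz
      obtain ⟨y', -, e⟩ := bw z hz
      exact ⟨y', e⟩
    · intro v hv
      obtain ⟨u, -, e⟩ := bv v hv
      exact ⟨u, e⟩

/-- A new wagon. -/
theorem Inv.addW (h : Inv a D Cs Z R) (t4 : ∀ y, y ∉ a.DW → (SL.N y ∩ a.DV).Subsingleton)
    {c : CH} (hc : c ∉ D) {y : WL} (hy : y ∉ a.DW) :
    ∃ Cs' Z' R', Inv a (insert c D) Cs' Z' R' ∧ Cs ⊆ Cs' ∧ Z ⊆ Z' ∧ a.sW c y ∈ Z' := by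
  have bw : ∀ z ∈ S.BW ∅ {a.sW c y}, a.sW c y = z := by
    rintro z (⟨P, hP, -⟩ | rfl)
    · exact hP.elim
    · rfl
  have bv : ∀ v ∈ S.BV ∅ ({a.sW c y} ×ˢ S.N (a.sW c y)), ∃ u ∈ SL.N y, a.sV c u = v := by
    rintro v (⟨P, hP, -⟩ | ⟨z, -, hv⟩)
    · exact hP.elim
    · exact mem_N a hv
  have st : Fo S True ∅ {a.sW c y} ({a.sW c y} ×ˢ S.N (a.sW c y)) :=
    .star _ _ (fun _ _ h => ⟨h.1, h.2⟩) fun _ _ h => ⟨rfl, h⟩
  refine ⟨_, _, _, h.ext (.glueV h.fo st (disjoint_empty _) ?_ ?_) (fun _ h => h.elim) ?_ ?_,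
    subset_union_left, subset_union_left, Or.inr rfl⟩
  · refine disjoint_left.2 fun z hz hz' => ?_
    obtain rfl := bw z hz'
    exact hy (h.dw hc hz)
  · intro v hv v' hv'
    obtain ⟨u, hu, rfl⟩ := bv v hv.2
    obtain ⟨u', hu', rfl⟩ := bv v' hv'.2
    rw [t4 y hy ⟨hu, h.dv hc hv.1⟩ ⟨hu', h.dv hc hv'.1⟩]
  · exact fun z hz => ⟨y, bw z hz⟩
  · intro v hv
    obtain ⟨u, -, e⟩ := bv v hv
    exact ⟨u, e⟩

/-- Add elements with different hosts one by one. -/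
theorem iter {ι : Type} (h0 : Inv a ∅ Cs Z R) (hs : ι → CH)
    (ok : ι → Set (CH × CL) → Set W → Prop)
    (mono : ∀ i C₁ Z₁ C₂ Z₂, C₁ ⊆ C₂ → Z₁ ⊆ Z₂ → ok i C₁ Z₁ → ok i C₂ Z₂) (B : Finset ι)
    (hinj : InjOn hs B)
    (step : ∀ i ∈ B, ∀ D C₁ Z₁ R₁, hs i ∉ D → Z ⊆ Z₁ → Inv a D C₁ Z₁ R₁ →
      ∃ C₂ Z₂ R₂, Inv a (insert (hs i) D) C₂ Z₂ R₂ ∧ C₁ ⊆ C₂ ∧ Z₁ ⊆ Z₂ ∧ ok i C₂ Z₂) :
    ∃ C₁ Z₁ R₁, Inv a (hs '' B) C₁ Z₁ R₁ ∧ Z ⊆ Z₁ ∧ ∀ i ∈ B, ok i C₁ Z₁ := by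
  classical
  induction B using Finset.induction_on with
  | empty => exact ⟨Cs, Z, R, by simpa using h0, Subset.rfl, by simp⟩
  | insert i B hi ih =>
    obtain ⟨C₁, Z₁, R₁, h1, h2, h3⟩ := ih (hinj.mono (by simp))
      fun j hj => step j (Finset.mem_insert_of_mem hj)
    obtain ⟨C₂, Z₂, R₂, k1, k2, k3, k4⟩ := step i (Finset.mem_insert_self _ _) _ C₁ Z₁ R₁ (by
      rintro ⟨j, hj, e⟩
      have : j = i := hinj (by simp [Finset.mem_coe.1 hj]) (by simp) e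
      exact hi (this ▸ hj)) h2 h1
    refine ⟨C₂, Z₂, R₂, by rwa [Finset.coe_insert, image_insert_eq], h2.trans k3, fun j hj => ?_⟩
    rcases Finset.mem_insert.1 hj with rfl | hj
    · exact k4
    · exact mono j _ _ _ _ k2 k3 (h3 j hj)

theorem sf_image (a : Amal SH SL S True) {T : Set WH} (h : SF SH.N T) : SF S.N (a.iW '' T) := by
  have un : ∀ X : Set WH, ∀ v ∈ Un S.N (a.iW '' X), ∃ u ∈ Un SH.N X, a.iV u = v := by
    rintro X v ⟨_, ⟨y, hy, rfl⟩, hv⟩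
    obtain ⟨u, rfl⟩ := a.fi trivial y hv
    exact ⟨u, ⟨y, hy, (a.iN y u).1 hv⟩, rfl⟩
  induction h with
  | empty => rw [image_empty]; exact .empty
  | single z => rw [image_singleton]; exact .single _
  | glue _ _ hd hs ih₁ ih₂ =>
    rw [image_union]
    refine .glue ih₁ ih₂ ((disjoint_image_iff a.iWinj).2 hd) ?_
    intro v hv v' hv'
    obtain ⟨u₁, h₁, rfl⟩ := un _ v hv.1
    obtain ⟨u₂, h₂, e₂⟩ := un _ _ hv.2
    obtain ⟨u₃, h₃, rfl⟩ := un _ v' hv'.1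
    obtain ⟨u₄, h₄, e₄⟩ := un _ _ hv'.2
    rw [hs ⟨h₁, a.iVinj e₂ ▸ h₂⟩ ⟨h₃, a.iVinj e₄ ▸ h₄⟩]

theorem starUps {C W V : Type} {S : Sys C W V} {Cs : Set C} {Z : Set W} {R : Set (W × V)}
    (h : Fo S True Cs Z R) (hw : S.Whole) (X : Finset W)
    (hX : ∀ z ∈ X, z ∈ Z ∨ ∃ P ∈ Cs, z ∈ S.wb P) :
    ∃ Z' R', Fo S True Cs Z' R' ∧ Z ⊆ Z' ∧ ∀ z ∈ X, z ∈ Z' := by
  classical
  induction X using Finset.induction_on with
  | empty => exact ⟨Z, R, h, Subset.rfl, by simp⟩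
  | insert z X _ ih =>
    obtain ⟨Z', R', h1, h2, h3⟩ := ih fun y hy => hX y (Finset.mem_insert_of_mem hy)
    rcases hX z (Finset.mem_insert_self _ _) with hz | ⟨P, hP, hz⟩
    · refine ⟨Z', R', h1, h2, fun y hy => ?_⟩
      rcases Finset.mem_insert.1 hy with rfl | hy
      exacts [h2 hz, h3 y hy]
    · refine ⟨_, _, h1.starUp hP hz (T := S.N z) (fun v hv => ⟨hw P z hz hv, hv⟩)
        fun _ => Subset.rfl, h2.trans (subset_insert _ _), fun y hy => ?_⟩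
      rcases Finset.mem_insert.1 hy with rfl | hy
      exacts [Or.inl rfl, Or.inr (h3 y hy)]

end GainAux

/-- Let `XP, XW` have at most `g + 1` elements. The host of `(c, P) ∈ XP` is `c`; the host of
`z ∈ XW`, `z ∉ range iW`, is the unique `c` with `z ∈ range (sW c)` (`cov`, `sepW`, `dW`). `HC` = the
set of hosts, `Y` = the `y` with `iW y ∈ XW` that lie in no `SH.wb c`, `c ∈ HC`.
Case `|HC| + |Y| ≤ g`: cover `HC, Y` by `hH`, star the other `y` with `iW y ∈ XW` by `Fo.starUp` (with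
`wH`, induction on the finite set), and use `Amal.cover`: for `h1`, if both wagons are in
`range iW` then `t1` makes them equal, else the host of the one outside is `P.1`; for `h2`,
`v ∉ range iV` gives `z ∉ range iW` by `fi`, so `c` is the host of `z`.
Else all hosts are different and every `y` with `iW y ∈ XW` is in `Y`. Then no copy holds two
wagons of `XW`. Let `T` = these `y` together with, for each `(c, P) ∈ XP` having `y₀ ∈ wb P ∩ DW`,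
the `y` with `iW y = sW c y₀`; `|T| ≤ g + 1`, so `hg` gives a forest `SF SH.N T`, hence
`SF S.N (iW '' T)` (`SF.pull`, `fi`, `iN`) and `SF.toFo`. Add the other elements one by one
(induction on a finite set; the forest so far sees only points in `range iV`, `range iW` and in
the standard copies of the hosts used): a copy with `y₀` as the atom starred at `sW c y₀` by `glueW`
(`t1`, `t2`, `wL`), a copy without as an atom by `glueV` (`t3`), a wagon as a star by `glueV` (`t4`,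
`fs`). -/
theorem Amal.gain (a : Amal SH SL S True) {g : ℕ} (hH : FP SH True g) (hg : Gir SH.N (g + 1))
    (hL : FP SL True (g + 1)) (wH : SH.Whole) (wL : SL.Whole)
    (t1 : ∀ P, ∀ y ∈ SL.wb P, ∀ y' ∈ SL.wb P, y ∈ a.DW → y' ∈ a.DW → y = y')
    (t2 : ∀ P, ∀ y ∈ SL.wb P, y ∈ a.DW → SL.vb P ∩ a.DV ⊆ SL.N y)
    (t3 : ∀ P, (∀ y ∈ SL.wb P, y ∉ a.DW) → (SL.vb P ∩ a.DV).Subsingleton)
    (t4 : ∀ y, y ∉ a.DW → (SL.N y ∩ a.DV).Subsingleton) : FP S True (g + 1) := by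
  classical
  intro XP XW hn
  let O := {p : CH × WL // p.2 ∉ a.DW}
  let φ : O → W := fun p => a.sW p.1.1 p.1.2
  have φinj : Injective φ := by
    rintro ⟨⟨c, y⟩, hy⟩ ⟨⟨c', y'⟩, hy'⟩ e
    obtain rfl : c = c' := (a.sepW c c' y y' e).resolve_right hy
    obtain rfl : y = y' := a.sWinj c e
    rfl
  let XI : Finset WH := XW.preimage a.iW a.iWinj.injOn
  let XO : Finset O := XW.preimage φ φinj.injOn
  have mI : ∀ y, y ∈ XI ↔ a.iW y ∈ XW := fun y => Finset.mem_preimage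
  have mO : ∀ p, p ∈ XO ↔ φ p ∈ XW := fun p => Finset.mem_preimage
  have hcard : XI.card + XO.card ≤ XW.card := by
    rw [← Finset.card_disjSum]
    refine Finset.card_le_card_of_injOn (Sum.elim a.iW φ) ?_ ?_
    · rintro (y | p) h
      · exact (mI y).1 (by simpa using h)
      · exact (mO p).1 (by simpa using h)
    · rintro (y | p) - (y' | p') - e
      · rw [a.iWinj e]
      · exact (p'.2 ((a.dW _ _).1 ⟨y, e⟩)).elim
      · exact (p.2 ((a.dW _ _).1 ⟨y', e.symm⟩)).elim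
      · rw [φinj e]
  let hs : (CH × CL) ⊕ O → CH := Sum.elim Prod.fst fun p => p.1.1
  let B : Finset ((CH × CL) ⊕ O) := XP.disjSum XO
  let HC : Finset CH := B.image hs
  have hP : ∀ P ∈ XP, P.1 ∈ HC := fun P h =>
    Finset.mem_image.2 ⟨.inl P, Finset.inl_mem_disjSum.2 h, rfl⟩
  have hB : ∀ c y (hy : y ∉ a.DW), a.sW c y ∈ XW → Sum.inr (⟨(c, y), hy⟩ : O) ∈ B :=
    fun c y hy h => Finset.inr_mem_disjSum.2 ((mO _).2 h)
  have hO : ∀ c y, y ∉ a.DW → a.sW c y ∈ XW → c ∈ HC := fun c y hy h =>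
    Finset.mem_image.2 ⟨_, hB c y hy h, rfl⟩
  let Y : Finset WH := XI.filter fun y => ∀ c ∈ HC, y ∉ SH.wb c
  by_cases hcase : HC.card + Y.card ≤ g
  · obtain ⟨CsH, ZH, RH, hT, hcov⟩ := hH HC Y hcase
    obtain ⟨ZH', RH', hT', -, hI⟩ := GainAux.starUps hT wH XI fun y hy => by
      by_cases hyY : y ∈ Y
      · exact Or.inl (hcov.wg y hyY)
      · by_contra hcon
        exact hyY (Finset.mem_filter.2 ⟨hy, fun c hc hyc => hcon (Or.inr ⟨c, hcov.cp c hc, hyc⟩)⟩)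
    refine a.cover hL hT' XP XW hn (fun P h => hcov.cp _ (hP P h)) ?_ ?_ ?_ ?_
    · intro z hz hz'
      obtain ⟨c, y, rfl⟩ := (a.cov z).resolve_left hz'
      exact ⟨c, hcov.cp c (hO c y (fun h => hz' ((a.dW c y).2 h)) hz), y, rfl⟩
    · intro y hy
      exact ⟨hI y ((mI y).2 hy), fun u hu => hT'.fullst trivial (hI y ((mI y).2 hy)) hu⟩
    · rintro ⟨c, Q⟩ z hz z' hz' hne h1 h2
      rw [a.wb] at h1 h2
      obtain ⟨y, hy, rfl⟩ := h1
      obtain ⟨y', hy', rfl⟩ := h2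
      by_cases d : y ∈ a.DW
      · by_cases d' : y' ∈ a.DW
        · exact (hne (by rw [t1 Q y hy y' hy' d d'])).elim
        · exact hcov.cp c (hO c y' d' hz')
      · exact hcov.cp c (hO c y d hz)
    · rintro c _ hz z' - - ⟨y, rfl⟩ - v hv - hvn -
      refine hcov.cp c (hO c y (fun d => ?_) hz)
      obtain ⟨y₁, e⟩ := (a.dW c y).2 d
      exact hvn (a.fi trivial y₁ (e ▸ hv))
  · have c1 : HC.card ≤ B.card := Finset.card_image_le
    have c2 : B.card = XP.card + XO.card := Finset.card_disjSum _ _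
    have c3 : Y.card ≤ XI.card := Finset.card_filter_le _ _
    have hinj : InjOn hs B := Finset.card_image_iff.1 (show HC.card = B.card by omega)
    have hY : ∀ y, a.iW y ∈ XW → ∀ c ∈ HC, y ∉ SH.wb c := by
      have : Y = XI := Finset.eq_of_subset_of_card_le (Finset.filter_subset _ _) (by omega)
      intro y hy
      exact (Finset.mem_filter.1 (show y ∈ Y from this ▸ (mI y).2 hy)).2
    have ss : ∀ P : CH × CL, {y | a.iW y ∈ S.wb P}.Subsingleton := by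
      rintro ⟨c, Q⟩ y hy y' hy'
      simp only [mem_ofPred_eq, a.wb] at hy hy'
      obtain ⟨x, hx, e⟩ := hy
      obtain ⟨x', hx', e'⟩ := hy'
      obtain rfl := t1 Q x hx x' hx' ((a.dW c x).1 ⟨y, e.symm⟩) ((a.dW c x').1 ⟨y', e'.symm⟩)
      exact a.iWinj (e.symm.trans e')
    let T : Finset WH := XI ∪ XP.biUnion fun P => (ss P).finite.toFinset
    have hT : T.card ≤ g + 1 := by
      have k1 : (XP.biUnion fun P => (ss P).finite.toFinset).card ≤ XP.card * 1 :=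
        Finset.card_biUnion_le_card_mul _ _ _ fun P _ => Finset.card_le_one.2 fun y hy y' hy' =>
          ss P ((Finite.mem_toFinset _).1 hy) ((Finite.mem_toFinset _).1 hy')
      have k2 : T.card ≤ _ := Finset.card_union_le _ _
      omega
    have h0 : GainAux.Inv a ∅ ∅ (a.iW '' T) {p | p.1 ∈ a.iW '' T ∧ p.2 ∈ S.N p.1} := by
      refine ⟨(GainAux.sf_image a (hg T hT)).toFo, fun _ h => h.elim, ?_, ?_⟩
      · rintro z (⟨P, hP, -⟩ | ⟨y, -, e⟩)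
        · exact hP.elim
        · exact Or.inl ⟨y, e⟩
      · rintro v (⟨P, hP, -⟩ | ⟨z, ⟨y, -, e⟩, hv⟩)
        · exact hP.elim
        · exact Or.inl (a.fi trivial y (e ▸ hv))
    obtain ⟨Cs, Z, R, hI, hZ, hok⟩ := GainAux.iter h0 hs
      (fun i Cs Z => Sum.elim (fun P => P ∈ Cs) (fun p => φ p ∈ Z) i)
      (by rintro (P | p) C₁ Z₁ C₂ Z₂ k1 k2 k; exacts [k1 k, k2 k]) B hinj (by
        rintro (⟨c, Q⟩ | ⟨⟨c, y⟩, hy⟩) hi D C₁ Z₁ R₁ hc hZ hI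
        · refine hI.addP wL t1 t2 t3 hc Q fun y hy d => hZ ?_
          obtain ⟨y₁, e⟩ := (a.dW c y).2 d
          refine ⟨y₁, Finset.mem_union_right _ (Finset.mem_biUnion.2
            ⟨(c, Q), Finset.inl_mem_disjSum.1 hi, (Finite.mem_toFinset _).2 ?_⟩), e⟩
          rw [mem_ofPred_eq, a.wb]
          exact ⟨y, hy, e.symm⟩
        · exact hI.addW t4 hc hy)
    have wg : ∀ z ∈ XW, z ∈ Z := by
      intro z hz
      by_cases hz' : z ∈ range a.iW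
      · obtain ⟨y, rfl⟩ := hz'
        exact hZ ⟨y, Finset.mem_union_left _ ((mI y).2 hz), rfl⟩
      · obtain ⟨c, y, rfl⟩ := (a.cov z).resolve_left hz'
        exact hok _ (hB c y (fun h => hz' ((a.dW c y).2 h)) hz)
    refine ⟨Cs, Z, R, hI.fo, fun P h => hok _ (Finset.inl_mem_disjSum.2 h), wg,
      fun z hz v hv => hI.fo.fullst trivial (wg z hz) hv, ?_⟩
    rintro ⟨c, Q⟩ z hz z' hz' hne h1 h2
    rw [a.wb] at h1 h2
    obtain ⟨y, hy, rfl⟩ := h1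
    obtain ⟨y', hy', rfl⟩ := h2
    have mix : ∀ x x', a.sW c x ∈ XW → a.sW c x' ∈ XW → x ∈ a.DW → x' ∈ a.DW := by
      intro x x' hx hx' d
      by_contra d'
      obtain ⟨y₁, e⟩ := (a.dW c x).2 d
      exact hY y₁ (e ▸ hx) c (hO c x' d' hx') ((a.hwb c y₁).2 ⟨x, e.symm⟩)
    exfalso
    by_cases d : y ∈ a.DW
    · exact hne (by rw [t1 Q y hy y' hy' d (mix y y' hz hz' d)])
    · have d' : y' ∉ a.DW := fun d' => d (mix y' y hz' hz d')
      have e := hinj (hB c y d hz) (hB c y' d' hz') rfl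
      exact hne (congrArg φ (Sum.inr.inj e))

end Pool.Agent.Lib.MP_781e3b_co.RR
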