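import Pool.Agent.Lib.MP_781e3b_co.RR.PicDefs
import Pool.Agent.Lib.MP_781e3b_co.RR.Gain

/-!
Forests in the next picture.
-/

namespace Pool.Agent.Lib.MP_781e3b_co.RR

open Set Function

variable {I K : Type} {m : ℕ} {F G : Tr I K} [LinearOrder K] {τ : K → I} {A : ℕ → Set I}
  {J : Type} {b : J → Emb m F G} (Q : Pic b) (hG : Good τ m A G) (a : G.W 0)
  {H : Tr K K} {L : Type} [Finite L] (φ : L → Emb m (con Q.ψ a) H)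

/-- The amalgam structure on level `μ`: `iV = inl`, `iW = inl`, `sV`, `sW μ`; all fields follow from
the lemmas of `PicDefs`. For `fi`, `fs` (`μ = 0`) use `N0` of the three good trains. -/
theorem next_amal (hT : Good τ m A Q.T) (hH : Good id m (fun μ => τ ⁻¹' A μ) H)
    (hN : Good τ m A (Q.next hG a φ hH.lab).T) {μ : ℕ} (hμ : μ ≤ m) :
    ∃ x : Amal (sys φ μ) (sys Q.e μ) (sys (Q.next hG a φ hH.lab).e μ) (μ = 0),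
      x.DV = {v | Q.ψ.v v ∈ range (G.tup a)} ∧ x.DW = {z | Q.ψ.w μ z = anc G.par μ a} := by
  refine ⟨
    { iV := Sum.inl, iW := Sum.inl, sV := sV Q.ψ a φ, sW := sW Q.ψ a φ μ
      DV := {v | Q.ψ.v v ∈ range (G.tup a)}, DW := {z | Q.ψ.w μ z = anc G.par μ a}
      iVinj := Sum.inl_injective, iWinj := Sum.inl_injective
      sVinj := sV_inj Q.ψ a φ, sWinj := sW_inj Q.ψ a φ hμ
      vb := fun c P => range_comp (sV Q.ψ a φ c) (Q.e P).v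
      wb := fun c P => range_comp (sW Q.ψ a φ μ c) ((Q.e P).w μ)
      iN := am_iN Q.ψ a φ hμ
      sN := am_sN Q.ψ a φ hμ
      inc := ?_, cov := ?_
      dV := fun c u => ⟨fun ⟨_, hx⟩ => (sV_eq_inl Q.ψ a φ hx.symm).fst,
        fun h => ⟨_, (sV_pos Q.ψ a φ c h).symm⟩⟩
      dW := fun c u => ⟨fun ⟨_, hx⟩ => (sW_eq_inl Q.ψ a φ hx.symm).fst,
        fun h => ⟨_, (sW_pos Q.ψ a φ μ c h).symm⟩⟩
      sepV := fun _ _ _ _ h => sV_sep Q.ψ a φ h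
      sepW := fun _ _ _ _ h => sW_sep Q.ψ a φ h
      hvb := fun c u => ⟨?_, ?_⟩
      hwb := fun c u => ⟨?_, ?_⟩
      fi := ?_, fs := ?_ }, rfl, rfl⟩
  · rintro z v (⟨u, y, rfl, rfl, -⟩ | ⟨c, u, y, rfl, rfl, -⟩)
    · exact Or.inl ⟨⟨u, rfl⟩, y, rfl⟩
    · exact Or.inr ⟨c, ⟨u, rfl⟩, y, rfl⟩
  · rintro (z | ⟨c, z, hz⟩)
    · exact Or.inl ⟨z, rfl⟩
    · exact Or.inr ⟨c, z, sW_neg Q.ψ a φ μ c hz⟩
  · rintro ⟨x, rfl⟩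
    exact ⟨x.1, sV_pos Q.ψ a φ c x.2⟩
  · rintro ⟨x, hx⟩
    obtain ⟨h, rfl⟩ := sV_eq_inl Q.ψ a φ hx
    exact ⟨_, rfl⟩
  · rintro ⟨x, rfl⟩
    exact ⟨x.1, sW_pos Q.ψ a φ μ c x.2⟩
  · rintro ⟨x, hx⟩
    obtain ⟨h, rfl⟩ := sW_eq_inl Q.ψ a φ hx
    exact ⟨_, rfl⟩
  · rintro rfl y v hv
    obtain ⟨k, rfl⟩ := (hN.N0 (Sum.inl y)).subset hv
    exact ⟨_, rfl⟩
  · rintro rfl c y v hv
    obtain ⟨k, rfl⟩ := (hN.N0 (sW Q.ψ a φ 0 c y)).subset hv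
    exact ⟨_, ((amE Q.ψ a φ c).tup y k).symm⟩

/-- `Amal.gain` with `next_amal` for `μ = 0`. `t1`: `ψw` and `winj` of `b`. `t2`: if the edge
`(e p).w 0 f` is over `a`, a vertex `(e p).v x` over `G.tup a k = (b j).v (F.tup f k)` has
`x = F.tup f k`. `t3`: `a` is not in the copy `b (base p)`, so `hsi` applies (`vinj`). `t4`: the edge
`ψ.w 0 y ≠ a` meets `a` in at most one point (`hlin`), and `ψ.v` is injective on the tuple of `y`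
(`ψ.tup`, `Good.inj`). -/
theorem next_fp_zero (hF : Good τ m A F) (hT : Good τ m A Q.T)
    (hH : Good id m (fun μ => τ ⁻¹' A μ) H) (hN : Good τ m A (Q.next hG a φ hH.lab).T)
    (hlin : Lin (G.N 0))
    (hsi : ∀ j f, f ∉ range ((b j).w 0) → (G.N 0 f ∩ range (b j).v).Subsingleton) {g : ℕ}
    (h1 : FP (sys φ 0) True g) (h2 : Gir (H.N 0) (g + 1)) (h3 : FP (sys Q.e 0) True (g + 1)) :
    FP (sys (Q.next hG a φ hH.lab).e 0) True (g + 1) := by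
  obtain ⟨x, hV, hW⟩ := next_amal Q hG a φ hT hH hN (Nat.zero_le m)
  have ovw : ∀ p f, (Q.e p).w 0 f ∈ x.DW ↔ (b (Q.base p)).w 0 f = a := fun p f => by
    rw [hW, ← Q.ψw]; rfl
  have ov : ∀ v, v ∈ x.DV ↔ Q.ψ.v v ∈ G.N 0 a := fun v => by rw [hV, hG.N0]; rfl
  refine Amal.gain { x with fi := fun _ => x.fi rfl, fs := fun _ => x.fs rfl } h1 h2 h3
    (sys_whole φ hH) (sys_whole Q.e hT) ?_ ?_ ?_ ?_
  · rintro p _ ⟨f, rfl⟩ _ ⟨f', rfl⟩ hf hf'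
    rw [(b (Q.base p)).winj 0 (Nat.zero_le m) (((ovw p f).1 hf).trans ((ovw p f').1 hf').symm)]
  · rintro p _ ⟨f, rfl⟩ hf _ ⟨⟨u, rfl⟩, hu⟩
    have h4 := (ov _).1 hu
    rw [Q.ψv, ← (ovw p f).1 hf] at h4
    exact (Q.e p).N 0 (Nat.zero_le m) f u ((b (Q.base p)).ind 0 (Nat.zero_le m) f u h4)
  · rintro p hp _ ⟨⟨u, rfl⟩, hu⟩ _ ⟨⟨u', rfl⟩, hu'⟩
    have h4 := (ov _).1 hu
    have h5 := (ov _).1 hu'
    rw [Q.ψv] at h4 h5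
    have h6 : a ∉ range ((b (Q.base p)).w 0) := fun ⟨f, hf⟩ => hp _ ⟨f, rfl⟩ ((ovw p f).2 hf)
    rw [(b (Q.base p)).vinj (hsi _ a h6 ⟨h4, u, rfl⟩ ⟨h5, u', rfl⟩)]
  · rintro y hy u ⟨hu, hd⟩ u' ⟨hu', hd'⟩
    have h4 : Q.ψ.w 0 y ≠ a := fun h => hy (by change y ∈ x.DW; rw [hW]; exact h)
    have h5 := hlin _ _ h4 ⟨Q.ψ.N 0 (Nat.zero_le m) y u hu, (ov _).1 hd⟩
      ⟨Q.ψ.N 0 (Nat.zero_le m) y u' hu', (ov _).1 hd'⟩
    obtain ⟨k, rfl⟩ := (hT.N0 y).subset hu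
    obtain ⟨k', rfl⟩ := (hT.N0 y).subset hu'
    rw [← Q.ψ.tup, ← Q.ψ.tup] at h5
    rw [hG.inj _ h5]

end Pool.Agent.Lib.MP_781e3b_co.RR
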