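import Pool.Agent.Lib.MP_781e3b_co.RR.PicDefs

/-!
The amalgam is a train.
-/

namespace Pool.Agent.Lib.MP_781e3b_co.RR

open Set Function

variable {I K : Type} {m : ℕ} {G T : Tr I K} [LinearOrder K] {τ : K → I} {A : ℕ → Set I}

/-- Write `Ψ = amH ψ a φ hG hH.lab`. `ord`: compose the order of `G` with `Ψ.v` (`Ψ.tup`). `lab` and
`sub`: cases on `inl`, `inr` (use `amE`: `par`, `tup`, `lab`, and `hH.sub`, `hT.sub`). `N0`: for
`inl z` a point `sV c u` with `sW 0 c f = inl z`, `u = tup f k` is `inl (H.tup z k)`; for `inr` only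
the standard copy itself occurs.
`sib` for `Y ≠ Y'` on level `μ` with a common point `v`: if `Ψ.w μ Y ≠ Ψ.w μ Y'` use `hG.sib` for the
projections (`Ψ.par`, `Ψ.N`, `Ψ.lab`). Else both are `inl` or both are `inr`. Both `inl z`, `inl z'`: if
`v = inl u` use `am_iN` and `hH.sib` (the label of `v` is `τ (H.lab u)`); if `v = inr (c, u)` then
`Y = sW c X`, `Y' = sW c X'` with `u ∈ T.N X ∩ T.N X'`, and equal parents pass to `T` by `amE.par`
and `winj`; use `hT.sib`. Both `inr (c, X)`, `inr (c', X')`: if `c = c'` use `hT.sib` in the same way.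
Else `v = inl u` (`sV_sep`), so `Ψ.v v = G.tup a _` lies in `G.N μ (anc μ a)` (`Good.tup_anc`) and in
`G.N μ (ψ.w μ X)`, these two wagons of `G` differ, and for `μ < m` they have the same parent, since
`sW c (par X) = sW c' (par X')` gives `ψ.w (par X) = anc (μ + 1) a` (`sW_sep`); use `hG.sib`. -/
theorem am_good (ψ : Hom m T G) (a : G.W 0) {H : Tr K K} {L : Type} [Finite L]
    (φ : L → Emb m (con ψ a) H) (hG : Good τ m A G) (hT : Good τ m A T)
    (hH : Good id m (fun μ => τ ⁻¹' A μ) H) : Good τ m A (am ψ a φ) := by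
  let Ψ := amH ψ a φ hG hH.lab
  refine ⟨fun f => Subset.antisymm ?_ ?_, fun f k => ?_, fun μ hμ Y => ?_,
    fun μ hμ Y Y' hne hp v hv hv' => ?_, ?_⟩
  · rintro v (⟨u, z, rfl, rfl, h⟩ | ⟨c, u, z, rfl, rfl, h⟩)
    · rw [hH.N0] at h
      obtain ⟨k, rfl⟩ := h
      exact ⟨k, rfl⟩
    · rw [hT.N0] at h
      obtain ⟨k, rfl⟩ := h
      exact ⟨k, (amE ψ a φ c).tup z k⟩
  · rintro _ ⟨k, rfl⟩
    rcases f with z | p
    · exact Or.inl ⟨_, z, rfl, rfl, hH.N0 z ▸ ⟨k, rfl⟩⟩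
    · exact Or.inr ⟨p.1, _, p.2.1, rfl, (sW_neg ψ a φ 0 p.1 p.2.2).symm, hT.N0 _ ▸ ⟨k, rfl⟩⟩
  · rw [← Ψ.lab, ← Ψ.tup, hG.lab]
  · rintro v (⟨u, z, rfl, rfl, h⟩ | ⟨c, u, z, rfl, rfl, h⟩)
    · exact Or.inl ⟨u, H.par μ z, rfl, rfl, hH.sub μ hμ z h⟩
    · exact Or.inr ⟨c, u, T.par μ z, rfl, ((amE ψ a φ c).par μ z).symm, hT.sub μ hμ z h⟩
  · by_cases hw : Ψ.w μ Y = Ψ.w μ Y'
    swap
    · rw [← Ψ.lab]
      exact hG.sib μ hμ _ _ hw (fun h => by rw [← Ψ.par, ← Ψ.par, hp h]) _ (Ψ.N μ hμ _ _ hv)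
        (Ψ.N μ hμ _ _ hv')
    have hin : ∀ u z z', v = Sum.inl u → Y = Sum.inl z → Y' = Sum.inl z' →
        μ < m ∧ (am ψ a φ).lab v ∈ A μ := by
      rintro u z z' rfl rfl rfl
      obtain ⟨h1, h2⟩ := hH.sib μ hμ z z' (fun e => hne (congrArg Sum.inl e))
        (fun h => Sum.inl_injective (hp h)) u ((am_iN ψ a φ hμ z u).1 hv)
        ((am_iN ψ a φ hμ z' u).1 hv')
      refine ⟨h1, ?_⟩
      change G.lab (G.tup a (H.lab u)) ∈ A μ
      rw [hG.lab]
      exact h2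
    have hl : ∀ z, Y = Sum.inl z → ∃ z', Y' = Sum.inl z' := by
      rintro z rfl
      rcases Y' with z' | p
      · exact ⟨z', rfl⟩
      · exact (p.2.2 hw.symm).elim
    have hl' : ∀ z', Y' = Sum.inl z' → ∃ z, Y = Sum.inl z := by
      rintro z' rfl
      rcases Y with z | p
      · exact ⟨z, rfl⟩
      · exact (p.2.2 hw).elim
    rcases hv with ⟨u, z, h1, h2, -⟩ | ⟨c, u, X, h1, h2, h3⟩
    · obtain ⟨z', h⟩ := hl z h2
      exact hin u z z' h1 h2 h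
    rcases hv' with ⟨u', z', h1', h2', -⟩ | ⟨c', u', X', h1', h2', h3'⟩
    · obtain ⟨z, h⟩ := hl' z' h2'
      exact hin u' z z' h1' h h2'
    have hlab : (am ψ a φ).lab v = T.lab u := h1 ▸ (amE ψ a φ c).lab u
    have hpar : μ < m → sW ψ a φ (μ + 1) c (T.par μ X) = sW ψ a φ (μ + 1) c' (T.par μ X') :=
      fun h => ((amE ψ a φ c).par μ X).trans (Eq.trans (by
        have := hp h
        rw [h2, h2'] at this
        exact this) ((amE ψ a φ c').par μ X').symm)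
    by_cases hc : c = c'
    · subst hc
      obtain rfl : u = u' := sV_inj ψ a φ c (h1.symm.trans h1')
      rw [hlab]
      exact hT.sib μ hμ X X' (fun e => hne (by rw [h2, h2', e]))
        (fun h => sW_inj ψ a φ h c (hpar h)) u h3 h3'
    have hu := (sV_sep ψ a φ (h1.symm.trans h1')).resolve_left hc
    by_cases hX : ψ.w μ X = anc G.par μ a
    · have h4 := h2.trans (sW_pos ψ a φ μ c hX)
      obtain ⟨z', h⟩ := hl _ h4
      exact hin _ _ z' (h1.trans (sV_pos ψ a φ c hu)) h4 h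
    · obtain ⟨k, hk⟩ := hu
      rw [hlab, ← ψ.lab]
      exact hG.sib μ hμ _ _ hX (fun h => (ψ.par μ X).symm.trans
        ((sW_sep ψ a φ (hpar h)).resolve_left hc)) _ (ψ.N μ hμ X u h3) (hk ▸ hG.tup_anc a k hμ)
  · obtain ⟨ρ, hρ⟩ := hG.ord
    refine ⟨fun v => ρ (Ψ.v v), fun f => ?_⟩
    simpa only [Ψ.tup] using hρ (Ψ.w 0 f)

end Pool.Agent.Lib.MP_781e3b_co.RR
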