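import Pool.Agent.Lib.MP_781e3b_co.RR.RevA

/-!
The partite lemma for trains with a revision.
-/

namespace Pool.Agent.Lib.MP_781e3b_co.RR

open Set Function

variable {I K : Type}

/-- Insert a level between the levels `0` and `1`. -/
def Tr.ins (F : Tr I K) {W' : Type} [Finite W'] (N' : W' → Set F.V) (p' : F.W 0 → W')
    (q : W' → F.W 1) : Tr I K where
  V := F.V
  W := fun | 0 => F.W 0 | 1 => W' | μ + 2 => F.W (μ + 1)
  finV := inferInstance
  finW := fun | 0 => F.finW 0 | 1 => inferInstanceAs (Finite W') | μ + 2 => F.finW (μ + 1)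
  par := fun | 0 => p' | 1 => q | μ + 2 => F.par (μ + 1)
  N := fun | 0 => F.N 0 | 1 => N' | μ + 2 => F.N (μ + 1)
  tup := F.tup
  lab := F.lab

/-- Delete level `1`. -/
def Tr.del (F : Tr I K) : Tr I K where
  V := F.V
  W := fun | 0 => F.W 0 | μ + 1 => F.W (μ + 2)
  finV := inferInstance
  finW := fun | 0 => F.finW 0 | μ + 1 => F.finW (μ + 2)
  par := fun | 0 => fun f => F.par 1 (F.par 0 f) | μ + 1 => F.par (μ + 2)
  N := fun | 0 => F.N 0 | μ + 1 => F.N (μ + 2)
  tup := F.tup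
  lab := F.lab

theorem hor_one {m : ℕ} {n : ℕ → ℕ} (h : Dia (m + 1) (cons 1 n)) : Hor 1 m n := by
  intro K _ _ A κ _ _ F hF hl hg _
  obtain ⟨H, J, e, he⟩ := h K K id A κ F hF hl hg
  exact ⟨H, J, e, he, he.lin.gir⟩

namespace RevBAux

variable {m : ℕ} {F H : Tr I K} {W' : Type} [Finite W'] {N' : W' → Set F.V} {p' : F.W 0 → W'}
  {q : W' → F.W 1}

/-- An embedding without level `1`. -/
def drop (hq : ∀ f, F.par 0 f = q (p' f)) (e : Emb (m + 2) (F.ins N' p' q) H) :
    Emb (m + 1) F H.del where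
  v := e.v
  w := fun | 0 => e.w 0 | μ + 1 => e.w (μ + 2)
  par := fun
    | 0, z => (congrArg (e.w 2) (hq z)).trans ((e.par 1 (p' z)).trans (congrArg (H.par 1) (e.par 0 z)))
    | μ + 1, z => e.par (μ + 2) z
  N := fun
    | 0, _ => e.N 0 (by omega)
    | μ + 1, h => e.N (μ + 2) (by omega)
  tup := e.tup
  lab := e.lab
  vinj := e.vinj
  winj := fun
    | 0, _ => e.winj 0 (by omega)
    | μ + 1, h => e.winj (μ + 2) (by omega)
  ind := fun
    | 0, _ => e.ind 0 (by omega)
    | μ + 1, h => e.ind (μ + 2) (by omega)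

variable [LinearOrder K] {τ : K → I} {A : ℕ → Set I} {B : Set I}

theorem good_ins (hF : Good τ (m + 1) A F) (hq : ∀ f, F.par 0 f = q (p' f))
    (h0 : ∀ f, F.N 0 f ⊆ N' (p' f)) (h1 : ∀ y, N' y ⊆ F.N 1 (q y))
    (h2 : ∀ y y', y ≠ y' → q y = q y' → ∀ v ∈ N' y, v ∈ N' y' → F.lab v ∈ B) :
    Good τ (m + 2) (cons (A 0) (cons B fun μ => A (μ + 1))) (F.ins N' p' q) where
  N0 := hF.N0
  lab := hF.lab
  sub := fun
    | 0, _ => h0
    | 1, _ => h1
    | μ + 2, h => hF.sub (μ + 1) (by omega)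
  sib := fun
    | 0, _ => fun z z' a b v c d => ⟨by omega, (hF.sib 0 (by omega) z z' a
        (fun _ => (hq z).trans ((congrArg q (b (by omega))).trans (hq z').symm)) v c d).2⟩
    | 1, _ => fun z z' a b v c d => ⟨by omega, h2 z z' a (b (by omega)) v c d⟩
    | μ + 2, h => fun z z' a b v c d =>
        let ⟨k, l⟩ := hF.sib (μ + 1) (by omega) z z' a (fun _ => b (by omega)) v c d
        ⟨by omega, l⟩
  ord := hF.ord

theorem good_del (hH : Good τ (m + 2) (cons (A 0) (cons B fun μ => A (μ + 1))) H) (hB : B ⊆ A 0) :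
    Good τ (m + 1) A H.del where
  N0 := hH.N0
  lab := hH.lab
  sub := fun
    | 0, _ => fun z => (hH.sub 0 (by omega) z).trans (hH.sub 1 (by omega) _)
    | μ + 1, h => hH.sub (μ + 2) (by omega)
  sib := fun
    | 0, _ => fun z z' a b v c d => ⟨by omega, by
        by_cases k : H.par 0 z = H.par 0 z'
        · exact (hH.sib 0 (by omega) z z' a (fun _ => k) v c d).2
        · exact hB (hH.sib 1 (by omega) _ _ k (fun _ => b (by omega)) v (hH.sub 0 (by omega) z c)
            (hH.sub 0 (by omega) z' d)).2⟩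
    | μ + 1, h => fun z z' a b v c d =>
        let ⟨k, l⟩ := hH.sib (μ + 2) (by omega) z z' a (fun _ => b (by omega)) v c d
        ⟨by omega, l⟩
  ord := hH.ord

end RevBAux

open RevBAux

/-- Induction on `M` for all `m, n, A, F`. `M = 0`: `F` is good for `cons B (fun μ => A (μ + 1))`; apply
`hP`, then `Good.mono`; the host has `Rev … 0` with the same `B`. `M + 1`: apply the induction to
`F.ins N' p' q` of height `m + 2` with the parameters `A 0, B, A 1, A 2, …` and the sequence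
`cons g n` (`hP` gives `Dia (m + 1) (cons g n)`), take `H.del` and the embeddings without level `1`;
the new level of the revision is level `1` of `H`, of girth larger than `g` by `Out.gir`. -/
theorem dia_rev {g : ℕ} (hg : 2 ≤ g)
    (hP : ∀ m (n : ℕ → ℕ), g ≤ n 0 → Dia m n → Dia (m + 1) (cons g n))
    [LinearOrder K] [Finite K] (κ : Type) [Finite κ] [Nonempty κ] (M : ℕ) :
    ∀ (m : ℕ) (n : ℕ → ℕ) (A : ℕ → Set K) (F : Tr K K), g ≤ n 0 → Dia m n → Good id (m + 1) A F →
      Lin (F.N 0) → (∀ μ, 1 ≤ μ → μ < m + 1 → Gir (F.N μ) (cons g n μ)) →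
      Rev F.lab g (A 0) (F.N 0) M (F.W 1) (F.N 1) (F.par 0) →
      ∃ (H : Tr K K) (J : Type) (e : J → Emb (m + 1) F H),
        Out id (m + 1) (cons g n) A κ e ∧ H.HasRev g (A 0) := by
  induction M with
  | zero =>
    rintro m n A F hn hD hF hl hgir ⟨B, hB, hBs, -, h2⟩
    have hF' : Good id (m + 1) (cons B fun μ => A (μ + 1)) F :=
      ⟨hF.N0, hF.lab, hF.sub, fun
        | 0, _ => fun z z' a b v c d => ⟨by omega, h2 z z' a (b (by omega)) v c d⟩
        | μ + 1, h => hF.sib (μ + 1) h, hF.ord⟩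
    obtain ⟨H, J, e, he⟩ := hP m n hn hD K K id _ κ F hF' hl hgir
    refine ⟨H, J, e, ⟨he.fin, he.good.mono ?_, he.lin, he.si, he.ram, he.fp⟩, 0, B, hB, hBs,
      he.good.sub 0 (by omega), fun f f' a b v c d =>
        (he.good.sib 0 (by omega) f f' a (fun _ => b) v c d).2⟩
    rintro (_ | μ) -
    · exact hB
    · exact Subset.rfl
  | succ M ih =>
    rintro m n A F hn hD hF hl hgir ⟨W', N', p', q, B, _, hR, hq, hN, hB, hBs, h1, h2⟩
    obtain ⟨H, J, e, he, M', hH⟩ := ih (m + 1) (cons g n) _ (F.ins N' p' q) le_rfl (hP m n hn hD)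
      (good_ins hF hq hR.sub h1 h2) hl (fun
        | 0, h, _ => absurd h (by omega)
        | 1, _, _ => hN
        | μ + 2, _, h => hgir (μ + 1) (by omega) (by omega)) hR
    refine ⟨H.del, J, fun j => drop hq (e j),
      ⟨he.fin, good_del he.good hB, he.lin, he.si, he.ram, fun
        | 0, _ => he.fp 0 (by omega)
        | μ + 1, h => (he.fp (μ + 2) (by omega)).weaken (by omega)⟩,
      M' + 1, H.W 1, H.N 1, H.par 0, H.par 1, B, inferInstance, hH, fun _ => rfl,
      he.gir (μ := 1) (by omega) hN, hB, hBs, he.good.sub 1 (by omega), fun y y' a b v c d =>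
        (he.good.sib 1 (by omega) y y' a (fun _ => b) v c d).2⟩

/-- `dia_rev` and `Rev.gain`; level `1` of the host has girth larger than `g + 1` by `Out.gir`
(`m ≥ 1`) or `Good.gir_top` (`m = 0`). -/
theorem hor_of {g m : ℕ} {n : ℕ → ℕ} (hg : 2 ≤ g)
    (hP : ∀ m (n : ℕ → ℕ), g ≤ n 0 → Dia m n → Dia (m + 1) (cons g n)) (hn : g + 1 ≤ n 0)
    (h : Dia m n) : Hor g m n := by
  rintro K _ _ A κ _ _ F hF hl hgir ⟨M, hM⟩
  obtain ⟨H, J, e, he, M', hH⟩ := dia_rev hg hP κ M m n A F (by omega) h hF hl hgir hM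
  refine ⟨H, J, e, he, hH.gain (fun f => ?_) ?_⟩
  · rw [he.good.N0]
    rintro _ ⟨k, rfl⟩ _ ⟨k', rfl⟩ a
    rw [he.good.lab, he.good.lab] at a
    exact congrArg _ a
  · rcases m with _ | m
    · exact he.good.gir_top _
    · exact (he.gir (μ := 1) (by omega) (hgir 1 le_rfl (by omega))).mono hn

end Pool.Agent.Lib.MP_781e3b_co.RR
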