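import Pool.Agent.Lib.MP_781e3b_co.RR.Emb

/-!
Height zero: matchings.
-/

namespace Pool.Agent.Lib.MP_781e3b_co.RR

open Set Function

namespace ZeroAux

variable {I K : Type}

/-- `E` on level zero, one point above -/
def WW (E : Type) : ℕ → Type
  | 0 => E
  | _ + 1 => Unit

/-- the matching with edge set `E` and the vertices of `F` as isolated vertices -/
def host [Finite K] (τ : K → I) (F : Tr I K) (E : Type) [Finite E] : Tr I K where
  V := (E × K) ⊕ F.V
  W := WW E
  finV := inferInstance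
  finW μ := match μ with
    | 0 => ‹Finite E›
    | _ + 1 => (inferInstance : Finite Unit)
  par _ _ := ()
  N μ := match μ with
    | 0 => fun z => range fun k => Sum.inl (z, k)
    | _ + 1 => fun _ => ∅
  tup z k := Sum.inl (z, k)
  lab := Sum.elim (fun x => τ x.2) F.lab

variable [LinearOrder K] [Finite K] {τ : K → I} {A : ℕ → Set I} {F : Tr I K} {E : Type} [Finite E]

theorem tup_inj (hF : Good τ 0 A F) {f f' : F.W 0} {k k' : K} (h : F.tup f k = F.tup f' k') :
    f = f' ∧ k = k' := by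
  obtain rfl : f = f' := by
    by_contra hne
    exact hF.top f f' hne (F.tup f k) ((hF.N0 f).ge ⟨k, rfl⟩) ((hF.N0 f').ge ⟨k', h.symm⟩)
  exact ⟨rfl, hF.inj f h⟩

open Classical in
/-- the vertex map of a copy -/
noncomputable def vm (F : Tr I K) (φ : F.W 0 → E) (v : F.V) : (E × K) ⊕ F.V :=
  if h : ∃ p : F.W 0 × K, F.tup p.1 p.2 = v then Sum.inl (φ h.choose.1, h.choose.2) else Sum.inr v

omit [LinearOrder K] [Finite K] [Finite E] in
theorem vm_cases (φ : F.W 0 → E) (v : F.V) :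
    (∃ f k, F.tup f k = v ∧ vm F φ v = Sum.inl (φ f, k)) ∨ vm F φ v = Sum.inr v := by
  unfold vm
  split_ifs with h
  · exact Or.inl ⟨_, _, h.choose_spec, rfl⟩
  · exact Or.inr rfl

omit [Finite E] in
theorem vm_tup (hF : Good τ 0 A F) (φ : F.W 0 → E) (f : F.W 0) (k : K) :
    vm F φ (F.tup f k) = Sum.inl (φ f, k) := by
  have h : ∃ p : F.W 0 × K, F.tup p.1 p.2 = F.tup f k := ⟨(f, k), rfl⟩
  rw [vm, dif_pos h, (tup_inj hF h.choose_spec).1, (tup_inj hF h.choose_spec).2]

omit [LinearOrder K] [Finite K] [Finite E] in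
theorem vm_inl {φ : F.W 0 → E} {v : F.V} {z : E} {k : K} (h : Sum.inl (z, k) = vm F φ v) :
    ∃ f, F.tup f k = v ∧ φ f = z := by
  rcases vm_cases φ v with ⟨f, k', h1, h2⟩ | h2
  · rw [h2, Sum.inl.injEq, Prod.mk.injEq] at h
    exact ⟨f, h.2 ▸ h1, h.1.symm⟩
  · rw [h2] at h
    exact absurd h Sum.inl_ne_inr

/-- the copy given by an injection of the edges -/
noncomputable def emb (hF : Good τ 0 A F) (φ : F.W 0 ↪ E) : Emb 0 F (host τ F E) where
  v := vm F φ
  w μ := match μ with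
    | 0 => φ
    | _ + 1 => fun _ => ()
  par _ _ := rfl
  N μ hμ z x hx := by
    obtain rfl := Nat.le_zero.1 hμ
    rw [hF.N0] at hx
    obtain ⟨k, rfl⟩ := hx
    exact ⟨k, (vm_tup hF φ z k).symm⟩
  tup f k := (vm_tup hF φ f k).symm
  lab x := by
    rcases vm_cases φ x with ⟨f, k, rfl, h2⟩ | h2
    · rw [h2, hF.lab]
      rfl
    · rw [h2]
      rfl
  vinj x y h := by
    rcases vm_cases φ x with ⟨f, k, rfl, h2⟩ | h2
    · obtain ⟨f', h3, h4⟩ := vm_inl (h2.symm.trans h)
      rw [← h3, φ.injective h4]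
    · rcases vm_cases φ y with ⟨f, k, rfl, h3⟩ | h3
      · exact absurd (h3.symm.trans (h.symm.trans h2)) Sum.inl_ne_inr
      · exact Sum.inr_injective (h2.symm.trans (h.trans h3))
  winj μ hμ := by
    obtain rfl := Nat.le_zero.1 hμ
    exact φ.injective
  ind μ hμ z x hx := by
    obtain rfl := Nat.le_zero.1 hμ
    obtain ⟨k, hk⟩ := hx
    obtain ⟨f, h1, h2⟩ := vm_inl hk
    rw [hF.N0, ← φ.injective h2]
    exact ⟨k, h1⟩

omit [LinearOrder K] in
theorem host_disj {z z' : E} (hne : z ≠ z') {v : (host τ F E).V} (h : v ∈ (host τ F E).N 0 z)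
    (h' : v ∈ (host τ F E).N 0 z') : False := by
  obtain ⟨k, rfl⟩ := h
  obtain ⟨k', e⟩ := h'
  exact hne (congrArg Prod.fst (Sum.inl_injective e)).symm

end ZeroAux

open ZeroAux in
/-- The edges of `F` are disjoint (`Good.top`). `H` has the edges `κ × F.W 0`, the vertices
`((κ × F.W 0) × K) ⊕ F.V`, `tup z k = inl (z, k)`, and `Unit` on all higher levels. Copies: all
injections `φ : F.W 0 ↪ κ × F.W 0`, with `tup f k ↦ inl (φ f, k)` and `v ↦ inr v` for `v` in no edge.
Pigeonhole (`Fintype.exists_le_card_fiber_of_mul_le_card`) gives a colour class with at least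
`card (F.W 0)` edges. -/
theorem dia_zero (n : ℕ → ℕ) : Dia 0 n := by
  classical
  intro I K _ _ τ A κ _ _ F hF _ _
  refine ⟨host τ F (κ × F.W 0), F.W 0 ↪ κ × F.W 0, emb hF, inferInstance,
    ⟨fun _ => rfl, fun _ _ => rfl, fun μ hμ => absurd hμ (Nat.not_lt_zero _),
      fun μ hμ z z' hne _ v h h' => ?_, ?_⟩, fun z z' hne v hv => (host_disj hne hv.1 hv.2).elim,
    fun φ z hz v hv => ?_, fun c => ?_, fun μ hμ => absurd hμ (Nat.not_lt_zero _)⟩
  · obtain rfl := Nat.le_zero.1 hμ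
    exact (host_disj hne h h').elim
  · have := Fintype.ofFinite K
    exact ⟨Sum.elim (fun x => ((Fintype.orderIsoFinOfCardEq K rfl).symm x.2 : ℕ)) fun _ => 0,
      fun _ k k' h => (Fintype.orderIsoFinOfCardEq K rfl).symm.strictMono h⟩
  · obtain ⟨⟨k, rfl⟩, x, hx⟩ := hv
    obtain ⟨f, -, h⟩ := vm_inl hx.symm
    exact absurd ⟨f, h⟩ hz
  · have := Fintype.ofFinite κ
    have := Fintype.ofFinite (F.W 0)
    obtain ⟨γ, hγ⟩ := Fintype.exists_le_card_fiber_of_mul_le_card (α := κ × F.W 0) c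
      (n := Fintype.card (F.W 0)) (Fintype.card_prod _ _).ge
    obtain ⟨φ⟩ := Function.Embedding.nonempty_of_card_le (α := F.W 0)
      (β := {x : κ × F.W 0 // c x = γ}) (by rwa [Fintype.card_subtype])
    exact ⟨φ.trans (Function.Embedding.subtype _), γ, fun f => (φ f).2⟩

end Pool.Agent.Lib.MP_781e3b_co.RR
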