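import Pool.Agent.Lib.MP_781e3b_co.RR.PicRev
import Pool.Agent.Lib.MP_781e3b_co.RR.PicFP
import Pool.Agent.Lib.MP_781e3b_co.RR.PicGood
import Pool.Agent.Lib.MP_781e3b_co.RR.RevB
import Pool.Agent.Lib.MP_781e3b_co.RR.ExtB
import Pool.Agent.Lib.MP_781e3b_co.RR.Zero

/-!
The partite construction and the girth Ramsey theorem.
-/

namespace Pool.Agent.Lib.MP_781e3b_co.RR

open Set Function

theorem dia_step {g m : ℕ} {n : ℕ → ℕ} (hV : Dia (m + 1) (cons 1 n)) (hH : Hor g m n) (hg : 1 ≤ g)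
    (hn : g + 1 ≤ n 0) : Dia (m + 1) (cons (g + 1) n) := by
  intro I K _ _ τ A κ _ _ F hF hl hgir
  have hgir' : ∀ x μ, 1 ≤ μ → μ < m + 1 → Gir (F.N μ) (cons x n μ) := by
    intro x μ h1 h2
    obtain ⟨μ, rfl⟩ := Nat.exists_eq_add_of_le' h1
    exact hgir (μ + 1) h1 h2
  obtain ⟨G, J, b, hb⟩ := hV I K τ A κ F hF hl (hgir' 1)
  have := hb.fin
  have hlinQ : ∀ (Q : Pic b) S, Q.Inv τ A g (cons (g + 1) n) κ S → Lin (Q.T.N 0) := fun Q S h =>
    (gir_of_fp Q.e (Nat.zero_le _) ((h.fp 0 (Nat.succ_pos m)).mono (n' := 2)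
      (Nat.succ_le_succ hg)) hl.gir).lin le_rfl
  have key : ∀ S : Finset (G.W 0), ∃ Q : Pic b, Q.Inv τ A g (cons (g + 1) n) κ ↑S := by
    classical
    intro S
    induction S using Finset.induction_on with
    | empty => simpa using pic_zero b (Nat.succ_pos m) hF g _ κ
    | insert a S ha ih =>
      obtain ⟨Q, hQ⟩ := ih
      have gT : ∀ μ, 1 ≤ μ → μ < m + 1 → Gir (Q.T.N μ) (cons g n μ) := by
        intro μ h1 h2
        obtain ⟨μ, rfl⟩ := Nat.exists_eq_add_of_le' h1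
        exact gir_of_fp Q.e h2.le (hQ.fp _ h2) (hgir _ h1 h2)
      obtain ⟨H, L, φ, hφ, hH0⟩ := hH K (fun μ => τ ⁻¹' A μ) κ (con Q.ψ a)
        (con_good Q.ψ a hb.good hQ.good) ((con_gir Q.ψ a (hlinQ Q _ hQ).gir).lin le_rfl)
        (fun μ h1 h2 => con_gir Q.ψ a (gT μ h1 h2)) (hQ.rev a ha)
      have := hφ.fin
      have hN : Good τ (m + 1) A (Q.next hb.good a φ hφ.good.lab).T :=
        am_good Q.ψ a φ hb.good hQ.good hφ.good
      refine ⟨Q.next hb.good a φ hφ.good.lab, hN, fun μ hμ => ?_, ?_, fun a' ha' => ?_⟩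
      · rcases μ with _ | μ
        · exact (next_fp_zero Q hb.good a φ hF hQ.good hφ.good hN hb.lin hb.si
            ((hφ.fp 0 hμ).weaken fun _ => rfl) hH0
            ((hQ.fp 0 hμ).weaken fun _ => rfl)).weaken fun _ => trivial
        · obtain ⟨x, -⟩ := next_amal Q hb.good a φ hQ.good hφ.good hN hμ.le
          exact x.fp (hφ.fp _ hμ) (hQ.fp _ hμ)
      · rw [Finset.coe_insert]
        exact Q.next_ram hb.good a φ _ hQ.ram hφ.ram
      · rw [Finset.coe_insert, mem_insert_iff, not_or] at ha'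
        refine am_rev Q.ψ a φ (Nat.succ_pos m) hb.good hQ.good hφ.good hb.lin
          (hφ.fp 0 (Nat.succ_pos m)) ?_ ha'.1 (hQ.rev a' ha'.2)
        rcases m with _ | m
        · exact hQ.good.gir_top g
        · exact (gT 1 le_rfl (by omega)).mono (Nat.le_of_succ_le hn)
  have := Fintype.ofFinite (G.W 0)
  obtain ⟨Q, hQ⟩ := key Finset.univ
  refine ⟨Q.T, Q.P, Q.e, inferInstance, hQ.good, hlinQ Q _ hQ, fun j f hf => ?_, fun c => ?_, hQ.fp⟩
  · exact (hQ.fp 0 (Nat.succ_pos m)).si (Nat.succ_le_succ hg) (hlinQ Q _ hQ) hf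
  · obtain ⟨c', hc'⟩ := hQ.ram c
    obtain ⟨j, γ, hj⟩ := hb.ram c'
    obtain ⟨p, -, hp⟩ := hc' j
    exact ⟨p, γ, fun f => (hp f (by simp)).trans (hj f)⟩

theorem dia_cons (g : ℕ) (hg : 2 ≤ g) :
    ∀ m (n : ℕ → ℕ), g ≤ n 0 → Dia m n → Dia (m + 1) (cons g n) := by
  induction g, hg using Nat.le_induction with
  | base => exact fun m n hn h => dia_step (dia_ext h hn) (hor_one (dia_ext h hn)) le_rfl hn
  | succ g hg ih =>
    exact fun m n hn h => dia_step (dia_ext h (by omega)) (hor_of hg ih hn h) (by omega) hn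

/-- The girth Ramsey theorem: a Ramsey system of copies of a linear hypergraph in which any `n`
copies and edges lie in a forest of copies. -/
theorem girth_ramsey {K : Type} [LinearOrder K] [Finite K] (F : Tr Unit K)
    (hF : Good (fun _ => ()) 1 (fun _ => univ) F) (hl : Lin (F.N 0)) (κ : Type) [Finite κ]
    [Nonempty κ] (n : ℕ) :
    ∃ (H : Tr Unit K) (J : Type) (e : J → Emb 1 F H), Good (fun _ => ()) 1 (fun _ => univ) H ∧
      (∀ c : H.W 0 → κ, ∃ j γ, ∀ f, c ((e j).w 0 f) = γ) ∧ FP (sys e 0) True n := by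
  obtain ⟨H, J, e, he⟩ := dia_cons (n + 2) (by omega) 0 (fun _ => n + 2) le_rfl (dia_zero _)
    Unit K _ _ κ F hF hl fun μ h1 h2 => by omega
  exact ⟨H, J, e, he.good, he.ram,
    ((he.fp 0 Nat.one_pos).weaken fun _ => rfl).mono (Nat.le_add_right n 2)⟩

end Pool.Agent.Lib.MP_781e3b_co.RR
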