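import Pool.Agent.Lib.MP_781e3b_co.RR.PotDefs

/-!
The padded graph is a linear train, and it is separated.
-/

namespace Pool.Agent.Lib.MP_781e3b_co.RR

open Set Function

variable {U E K P : Type} [Finite U] [Finite E] [Finite K] [Finite P] [LinearOrder K]
  {x y : E → U} {α β : P → E → K}

namespace TeeAAux

omit [Finite U] [Finite E] [Finite K] [Finite P] [LinearOrder K] in
theorem cases (z : P × E) (k : K) :
    (k = α z.1 z.2 ∧ ttup x y α β z k = (z.1, Sum.inl (x z.2))) ∨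
    (k = β z.1 z.2 ∧ ttup x y α β z k = (z.1, Sum.inl (y z.2))) ∨
    ttup x y α β z k = (z.1, Sum.inr (z.2, k)) := by
  unfold ttup
  split_ifs with h1 h2
  · exact Or.inl ⟨h1, rfl⟩
  · exact Or.inr (Or.inl ⟨h2, rfl⟩)
  · exact Or.inr (Or.inr rfl)

omit [Finite U] [Finite E] [Finite K] [Finite P] [LinearOrder K] in
theorem both {z z' : P × E} (h : z ≠ z') {k k' : K}
    (e : ttup x y α β z k = ttup x y α β z' k') :
    z.1 = z'.1 ∧ ∃ u, ttup x y α β z k = (z.1, Sum.inl u) ∧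
      u ∈ ({x z.2, y z.2} ∩ {x z'.2, y z'.2} : Set U) := by
  rcases cases (x := x) (y := y) (α := α) (β := β) z k with ⟨-, h1⟩ | ⟨-, h1⟩ | h1 <;>
    rcases cases (x := x) (y := y) (α := α) (β := β) z' k' with ⟨-, h2⟩ | ⟨-, h2⟩ | h2 <;>
    rw [h1, h2] at e <;> simp only [Prod.mk.injEq, Sum.inl.injEq, Sum.inr.injEq, reduceCtorEq,
      and_false] at e
  · exact ⟨e.1, _, h1, Or.inl rfl, Or.inl e.2⟩
  · exact ⟨e.1, _, h1, Or.inl rfl, Or.inr e.2⟩
  · exact ⟨e.1, _, h1, Or.inr rfl, Or.inl e.2⟩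
  · exact ⟨e.1, _, h1, Or.inr rfl, Or.inr e.2⟩
  · exact (h (Prod.ext e.1 e.2.1)).elim

omit [Finite U] [Finite E] in
theorem symm {F : Set E} {d : E} {a b : U} (h : Relation.ReflTransGen (Link x y F d) a b) :
    Relation.ReflTransGen (Link x y F d) b a := by
  induction h with
  | refl => exact .refl
  | tail _ h ih =>
    obtain ⟨d', h1, h2, h3⟩ := h
    exact .head ⟨d', h1, h2, h3.symm⟩ ih

/-- The invariant of a walk that starts at the point `u₀` of the copy `p`. -/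
def Inv (x y : E → U) (F : Set E) (p : P) (d : E) (u₀ : U) : P × (U ⊕ E × K) → Prop
  | (q, Sum.inl u) => q = p ∧ Relation.ReflTransGen (Link x y F d) u₀ u
  | (q, Sum.inr (d', _)) => q = p ∧ d' ∈ F ∧ Relation.ReflTransGen (Link x y F d) u₀ (x d')

omit [Finite U] [Finite E] [Finite K] [Finite P] [LinearOrder K] in
theorem step {F : Set E} {Hs : Set K} (h2 : ∀ p d, d ∉ F → α p d ∉ Hs ∧ β p d ∉ Hs) {p : P}
    {d : E} {u₀ : U} {z : P × E} (hz : z ≠ (p, d)) {k : K} (hk : k ∈ Hs) (k' : K)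
    (h : Inv x y F p d u₀ (ttup x y α β z k)) : Inv x y F p d u₀ (ttup x y α β z k') := by
  have hd : z.1 = p → z.2 ≠ d := fun e e' => hz (Prod.ext e e')
  have key : z.1 = p ∧ z.2 ∈ F ∧ Relation.ReflTransGen (Link x y F d) u₀ (x z.2) := by
    rcases cases (x := x) (y := y) (α := α) (β := β) z k with ⟨h0, h1⟩ | ⟨h0, h1⟩ | h1 <;>
      rw [h1] at h
    · exact ⟨h.1, by_contra fun hF => (h2 z.1 z.2 hF).1 (h0 ▸ hk), h.2⟩
    · have hF : z.2 ∈ F := by_contra fun hF => (h2 z.1 z.2 hF).2 (h0 ▸ hk)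
      exact ⟨h.1, hF, h.2.tail ⟨z.2, hF, hd h.1, Or.inr ⟨rfl, rfl⟩⟩⟩
    · exact h
  rcases cases (x := x) (y := y) (α := α) (β := β) z k' with ⟨-, h1⟩ | ⟨-, h1⟩ | h1 <;> rw [h1]
  · exact ⟨key.1, key.2.2⟩
  · exact ⟨key.1, key.2.2.tail ⟨z.2, key.2.1, hd key.1, Or.inl ⟨rfl, rfl⟩⟩⟩
  · exact key

end TeeAAux

open TeeAAux

/-- For `ord` let `i : K → ℕ` be strictly monotone with values below `M - 1`; give `inl u` the value
`(o u + 1) M`, and `inr (d, k)` in the copy `p` the value `1 + i k`, `(o (x d) + 1) M + 1 + i k` or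
`(o (y d) + 1) M + 1 + i k` as `k < α`, `α < k < β` or `β < k`. Level `1` has one wagon. -/
theorem tee_good (hαβ : ∀ p d, α p d < β p d) (o : U → ℕ) (ho : ∀ d, o (x d) < o (y d)) :
    Good (fun _ => ()) 1 (fun _ => univ) (tee x y α β) := by
  refine ⟨fun _ => rfl, fun _ _ => rfl, fun μ hμ z => ?_, fun μ hμ z z' hne _ v _ _ => ?_, ?_⟩
  · exact subset_univ _
  · cases μ with
    | zero => exact ⟨zero_lt_one, mem_univ _⟩
    | succ μ => exact (hne rfl).elim
  · have := Fintype.ofFinite K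
    let e := (monoEquivOfFin K rfl).symm
    obtain ⟨i, M, hi, hM⟩ : ∃ (i : K → ℕ) (M : ℕ), StrictMono i ∧ ∀ k, i k + 1 < M :=
      ⟨fun k => e k, Fintype.card K + 1, fun a b h => e.strictMono h,
        fun k => Nat.succ_lt_succ (e k).2⟩
    let ρ : P × (U ⊕ E × K) → ℕ := fun
      | (_, Sum.inl u) => (o u + 1) * M
      | (p, Sum.inr (d, k)) => (if i k < i (α p d) then 0 else if i k < i (β p d) then
          (o (x d) + 1) * M else (o (y d) + 1) * M) + 1 + i k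
    refine ⟨ρ, fun z k k' hk => ?_⟩
    have hg : ∀ k, ρ (ttup x y α β z k) = if i k = i (α z.1 z.2) then (o (x z.2) + 1) * M
        else if i k = i (β z.1 z.2) then (o (y z.2) + 1) * M else
        (if i k < i (α z.1 z.2) then 0 else if i k < i (β z.1 z.2) then
          (o (x z.2) + 1) * M else (o (y z.2) + 1) * M) + 1 + i k := fun k => by
      simp only [hi.injective.eq_iff]
      unfold ttup
      by_cases h1 : k = α z.1 z.2
      · rw [if_pos h1, if_pos h1]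
      · rw [if_neg h1, if_neg h1]
        by_cases h2 : k = β z.1 z.2
        · rw [if_pos h2, if_pos h2]
        · rw [if_neg h2, if_neg h2]
    change ρ (ttup x y α β z k) < ρ (ttup x y α β z k')
    rw [hg, hg]
    have h1 := hi hk
    have h2 := hi (hαβ z.1 z.2)
    have h3 := hM k
    have h4 := hM k'
    have h5 : M ≤ (o (x z.2) + 1) * M := Nat.le_mul_of_pos_left _ (Nat.succ_pos _)
    have h6 : (o (x z.2) + 1) * M + M ≤ (o (y z.2) + 1) * M := by
      rw [← Nat.succ_mul]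
      exact Nat.mul_le_mul_right _ (Nat.succ_le_succ (ho z.2))
    generalize (o (x z.2) + 1) * M = A at *
    generalize (o (y z.2) + 1) * M = B at *
    split_ifs <;> omega

/-- Two tuples share only points `inl u` of the same copy `p`. -/
theorem tee_lin (hs : ∀ d d', d ≠ d' → ({x d, y d} ∩ {x d', y d'} : Set U).Subsingleton) :
    Lin ((tee x y α β).N 0) := by
  rintro z z' hne _ ⟨⟨k₁, rfl⟩, k₁', e₁⟩ _ ⟨⟨k₂, rfl⟩, k₂', e₂⟩
  obtain ⟨h0, u₁, h1, h1'⟩ := both hne e₁.symm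
  obtain ⟨-, u₂, h2, h2'⟩ := both hne e₂.symm
  rw [h1, h2, hs _ _ (fun e => hne (Prod.ext h0 e)) h1' h2']

/-- Fix `z = (p, d)`. Label `(p', inl u)` by `p'` and the class of `u` for walks along `F`, without `d`
if `p' = p`; label `(p', inr (d', k))` like `(p', inl (x d'))` if `(p', d') ≠ z`, `d' ∈ F`, by
`(p', d')` if `(p', d') ≠ z`, `d' ∉ F`, and by itself if `(p', d') = z`. The label is constant on
`h z'` for `z' ≠ z` and injective on `N z` (`Acy`; `Link` is symmetric). -/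
theorem tee_sep (hαβ : ∀ p d, α p d ≠ β p d) (F : Set E) (hF : Acy x y F) (Hs : Set K)
    (h2 : ∀ p d, d ∉ F → α p d ∉ Hs ∧ β p d ∉ Hs) :
    Sep (fun z => range (ttup x y α β z)) (fun z => ttup x y α β z '' Hs) univ := by
  rintro z - _ ⟨k, rfl⟩ _ ⟨k', rfl⟩ h
  have hinv : ∀ u₀ a b, Relation.ReflTransGen (fun a b => ∃ z' ∈ (univ : Set (P × E)), z' ≠ z ∧
      a ∈ ttup x y α β z' '' Hs ∧ b ∈ ttup x y α β z' '' Hs) a b →
      Inv x y F z.1 z.2 u₀ a → Inv x y F z.1 z.2 u₀ b := fun u₀ a b hab ha => by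
    induction hab with
    | refl => exact ha
    | tail _ h ih =>
      obtain ⟨z', -, hz, ⟨j, hj, rfl⟩, j', -, rfl⟩ := h
      exact step h2 hz hj j' ih
  have hst : ∀ (z' : P × E) (j j' : K), z' ≠ z → ttup x y α β z' j' ≠ (z.1, Sum.inr (z.2, j)) :=
    fun z' j j' hz e => by
      rcases cases (x := x) (y := y) (α := α) (β := β) z' j' with ⟨-, h1⟩ | ⟨-, h1⟩ | h1 <;>
        rw [h1] at e <;> simp only [Prod.mk.injEq, Sum.inr.injEq, reduceCtorEq, and_false] at e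
      exact hz (Prod.ext e.1 e.2.1)
  rcases h.cases_head with e | ⟨c, ⟨z₁, -, hz₁, ⟨j₁, -, e₁⟩, -⟩, -⟩
  · exact e
  rcases h.cases_tail with e | ⟨c', -, z₂, -, hz₂, -, j₂, -, e₂⟩
  · exact e.symm
  rcases cases (x := x) (y := y) (α := α) (β := β) z k with ⟨-, h3⟩ | ⟨-, h3⟩ | h3 <;>
    rcases cases (x := x) (y := y) (α := α) (β := β) z k' with ⟨-, h4⟩ | ⟨-, h4⟩ | h4
  · exact h3.trans h4.symm
  · rw [h3, h4] at h
    exact (hF z.2 (hinv _ _ _ h ⟨rfl, .refl⟩).2).elim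
  · exact (hst z₂ _ _ hz₂ (e₂.trans h4)).elim
  · rw [h3, h4] at h
    exact (hF z.2 (symm (hinv _ _ _ h ⟨rfl, .refl⟩).2)).elim
  · exact h3.trans h4.symm
  · exact (hst z₂ _ _ hz₂ (e₂.trans h4)).elim
  all_goals exact (hst z₁ _ _ hz₁ (e₁.trans h3)).elim

end Pool.Agent.Lib.MP_781e3b_co.RR
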