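import Pool.Agent.Lib.MP_781e3b_co.RR.Pot1

/-!
The density potential of the padded graph.
-/

namespace Pool.Agent.Lib.MP_781e3b_co.RR

open Set Function

namespace TeeBAux

section
variable {W V C : Type} {X Y : W → V} {m : ℝ} {n : ℕ}

theorem small (hm : 1 < m) (hn : 3 ≤ n) {B : Set W} (hB : B.Subsingleton) :
    Wk X Y m B ∧ NoMT X Y m n B := by
  have h1 : ∀ D : Finset W, ↑D ⊆ B → (D.card : ℝ) ≤ 1 := fun D hD => by
    exact_mod_cast Finset.card_le_one.2 fun a ha b hb => hB (hD ha) (hD hb)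
  refine ⟨fun K D hK hD _ => ?_, fun K D hD hM => ?_⟩
  · have h2 : (2 : ℝ) ≤ K.card := by exact_mod_cast hK
    nlinarith [h1 D hD]
  · have h2 : (3 : ℝ) ≤ K.card := by rw [hM.1]; exact_mod_cast hn
    nlinarith [h1 D hD, hM.2.2.1]

/-- Disjoint unions. -/
theorem fibres [Finite C] (vc : V → C) (hxy : ∀ z, X z ≠ Y z) (hc : ∀ z, vc (Y z) = vc (X z))
    (hm : 1 < m) (hn : 3 ≤ n) (h : ∀ i, Wk X Y m {z | vc (X z) = i}) :
    Wk X Y m univ ∧ ((∀ i, NoMT X Y m n {z | vc (X z) = i}) → NoMT X Y m n univ) := by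
  classical
  have key : ∀ s : Finset C, Wk X Y m {z | vc (X z) ∈ s} ∧
      ((∀ i, NoMT X Y m n {z | vc (X z) = i}) → NoMT X Y m n {z | vc (X z) ∈ s}) := by
    intro s
    induction s using Finset.induction_on with
    | empty =>
      have := small (X := X) (Y := Y) hm hn (B := {z | vc (X z) ∈ (∅ : Finset C)})
        (fun z hz => by simp at hz)
      exact ⟨this.1, fun _ => this.2⟩
    | insert i s hi ih =>
      have e : {z | vc (X z) ∈ insert i s} = {z | vc (X z) = i} ∪ {z | vc (X z) ∈ s} := by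
        ext z
        simp
      have e₁ : ∀ d ∈ {z | vc (X z) = i}, X d ∈ {v | vc v = i} ∧ Y d ∈ {v | vc v = i} :=
        fun d hd => ⟨hd, (hc d).trans hd⟩
      have e₂ : ∀ d ∈ {z | vc (X z) ∈ s}, X d ∈ {v | vc v ∈ s} ∧ Y d ∈ {v | vc v ∈ s} :=
        fun d hd => ⟨hd, by rw [mem_ofPred_eq, hc d]; exact hd⟩
      have hs : ({v | vc v = i} ∩ {v | vc v ∈ s}).Subsingleton := fun v hv =>
        absurd (by rw [← (show vc v = i from hv.1)]; exact hv.2) hi
      rw [e]
      exact ⟨(h i).unionV hxy hm ih.1 e₁ e₂ hs,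
        fun hN => NoMT.unionV hxy hm (h i) ih.1 e₁ e₂ hs (hN i) (ih.2 hN)⟩
  have := Fintype.ofFinite C
  have e : {z | vc (X z) ∈ (Finset.univ : Finset C)} = univ := by
    ext z
    simp
  rw [← e]
  exact key _

theorem sub (B : Set W) (h : Wk X Y m univ) :
    Wk (fun d : B => X d) (fun d : B => Y d) m univ ∧
      (NoMT X Y m n B → NoMT (fun d : B => X d) (fun d : B => Y d) m n univ) := by
  classical
  have hI : ∀ (K : Finset V) (D : Finset B), Ins (fun d : B => X d) (fun d : B => Y d) K D →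
      Ins X Y K (D.map (Embedding.subtype _)) := fun K D hD d hd => by
    obtain ⟨d', h1, rfl⟩ := Finset.mem_map.1 hd
    exact hD d' h1
  refine ⟨fun K D hK _ hD => ?_, fun hN K D _ hM => ?_⟩
  · have := h K _ hK (subset_univ _) (hI K D hD)
    rwa [Finset.card_map] at this
  · refine hN K (D.map (Embedding.subtype _)) (fun d hd => ?_) ⟨hM.1, hI K D hM.2.1, ?_, ?_⟩
    · obtain ⟨d', -, rfl⟩ := Finset.mem_map.1 hd
      exact d'.2
    · rw [Finset.card_map]
      exact hM.2.2.1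
    · intro K' hK' h3 D' hD' hI'
      obtain ⟨D₀, h0, rfl⟩ := Finset.subset_map_iff.1 hD'
      rw [Finset.card_map]
      exact hM.2.2.2 K' hK' h3 D₀ h0 fun d hd => hI' d.1 (Finset.mem_map.2 ⟨d, hd, rfl⟩)

end

variable {U E K P : Type} {x y : E → U} {α β : P → E → K} {m : ℝ} {n : ℕ}

open Classical in
/-- The ends of an edge. -/
noncomputable def q (x : E → U) (t : K) (Q : Set (P × E)) (z : P × E) : P × (U ⊕ E × K) :=
  if z ∈ Q then (z.1, Sum.inl (x z.2)) else (z.1, Sum.inr (z.2, t))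

/-- The component of a point. -/
def vc : P × (U ⊕ E × K) → P ⊕ P × E
  | (p, Sum.inl _) => Sum.inl p
  | (p, Sum.inr e) => Sum.inr (p, e.1)

theorem main [Finite E] [Finite P] (hxy : ∀ d, x d ≠ y d) {t₀ t₁ : K} (ht : t₀ ≠ t₁) (hm : 1 < m)
    (hn : 3 ≤ n) (h : Wk x y m univ) (Q : Set (P × E)) :
    Wk (q x t₀ Q) (q y t₁ Q) m univ ∧
      ((∀ p, NoMT x y m n {d | (p, d) ∈ Q}) → NoMT (q x t₀ Q) (q y t₁ Q) m n univ) := by
  have h1 : ∀ z, q x t₀ Q z ≠ q y t₁ Q z := fun z => by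
    unfold q
    split_ifs
    · simp [hxy z.2]
    · simp [ht]
  have h2 : ∀ z, vc (q y t₁ Q z) = vc (q x t₀ Q z) := fun z => by
    unfold q
    split_ifs <;> rfl
  have h3 : ∀ z₀ : P × E, {z | vc (q x t₀ Q z) = Sum.inr z₀}.Subsingleton := fun z₀ => by
    have : ∀ z ∈ {z | vc (q x t₀ Q z) = Sum.inr z₀}, z = z₀ := fun z hz => by
      simp only [mem_ofPred_eq, q] at hz
      split_ifs at hz
      · simp [vc] at hz
      · simpa [vc] using hz
    exact fun a ha b hb => (this a ha).trans (this b hb).symm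
  have h4 : ∀ p : P, {z | vc (q x t₀ Q z) = Sum.inl p} =
      range fun d : {d | (p, d) ∈ Q} => (p, d.1) := fun p => by
    ext z
    simp only [mem_ofPred_eq, q]
    split_ifs with hz
    · simp only [vc, Sum.inl.injEq]
      constructor
      · rintro rfl
        exact ⟨⟨z.2, hz⟩, rfl⟩
      · rintro ⟨d, rfl⟩
        rfl
    · simp only [vc, reduceCtorEq, false_iff]
      rintro ⟨d, rfl⟩
      exact hz d.2
  have h5 := fun p : P => pot_map (n := n) (x := fun d : {d | (p, d) ∈ Q} => x d)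
    (y := fun d : {d | (p, d) ∈ Q} => y d) (x' := q x t₀ Q) (y' := q y t₁ Q) (N := fun _ => ∅)
    (N' := fun _ => ∅) (fW := fun d => (p, d.1)) (fV := fun u => (p, Sum.inl u))
    (fun a b e => Subtype.ext (congrArg Prod.snd e))
    (fun a b e => Sum.inl_injective (congrArg Prod.snd e)) (fun d => if_pos d.2)
    (fun d => if_pos d.2) (fun _ => (image_empty _).symm) (fun d => hxy d) hm hn
    (sub (n := n) _ h).1
  obtain ⟨a1, a2⟩ := fibres (n := n) vc h1 h2 hm hn fun i => by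
    rcases i with p | z₀
    · rw [h4]
      exact (h5 p).1
    · exact (small hm hn (h3 z₀)).1
  refine ⟨a1, fun hN => a2 fun i => ?_⟩
  rcases i with p | z₀
  · rw [h4]
    exact (h5 p).2.2 ((sub _ h).2 (hN p))
  · exact (small hm hn (h3 z₀)).2

theorem meet {z z' : P × E} (hz : z' ≠ z) {k k' : K} (h : ttup x y α β z k = ttup x y α β z' k') :
    ttup x y α β z' k' = (z.1, Sum.inl (x z.2)) ∨ ttup x y α β z' k' = (z.1, Sum.inl (y z.2)) := by
  by_cases h1 : k = α z.1 z.2
  · exact Or.inl (by rw [← h, ttup, if_pos h1])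
  by_cases h2 : k = β z.1 z.2
  · exact Or.inr (by rw [← h, ttup, if_neg h1, if_pos h2])
  rw [ttup, if_neg h1, if_neg h2, ttup] at h
  split_ifs at h
  · simp at h
  · simp at h
  · simp only [Prod.mk.injEq, Sum.inr.injEq] at h
    exact absurd (Prod.ext h.1 h.2.1).symm hz

end TeeBAux

variable {U E K P : Type} [Finite U] [Finite E] [Finite K] [Finite P]
  {x y : E → U} {α β : P → E → K} {m : ℝ} {n : ℕ}

/-- For a set `Q` of edges `(p, d)` give `z ∈ Q` the ends `(p, inl (x d))`, `(p, inl (y d))` and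
`z ∉ Q` the private ends `(p, inr (d, t₀))`, `(p, inr (d, t₁))`. This graph is a disjoint union of the
graphs `{d | (p, d) ∈ Q}` and of single edges, so `Wk` holds for every `Q`, and `NoMT` holds if it
holds for each `{d | (p, d) ∈ Q}` (induction on finite sets of components with `Wk.unionV`,
`NoMT.unionV`; a single edge is no `MT` as `m (n - 2) + 1 > 1`; `pot_map` on the subtype
`{d // (p, d) ∈ Q}` moves the components). The statement is `Q₀ = {z | α = t₀ ∧ β = t₁}`. For `Rl` at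
`z = (p, d)` use `Wk` for `Q₀ ∪ {z}`, the edges `insert z D` and the points
`K ∪ {(p, inl (x d)), (p, inl (y d))}`: an end of `z' ≠ z` in the tuple of `z` is one of these two. -/
theorem tee_pot (hxy : ∀ d, x d ≠ y d) (hαβ : ∀ p d, α p d ≠ β p d) {t₀ t₁ : K} (ht : t₀ ≠ t₁)
    (hQ : ∀ p d, (α p d = t₀ ∧ β p d = t₁) ∨
      (α p d ≠ t₀ ∧ α p d ≠ t₁ ∧ β p d ≠ t₀ ∧ β p d ≠ t₁))
    (hm : 1 < m) (hn : 3 ≤ n) (h : Wk x y m univ) :
    Wk (fun z => ttup x y α β z t₀) (fun z => ttup x y α β z t₁) m univ ∧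
    Rl (fun z => ttup x y α β z t₀) (fun z => ttup x y α β z t₁)
      (fun z => range (ttup x y α β z)) m univ ∧
    ((∀ p, NoMT x y m n {d | α p d = t₀}) →
      NoMT (fun z => ttup x y α β z t₀) (fun z => ttup x y α β z t₁) m n univ) := by
  classical
  have e0 : ∀ z, ttup x y α β z t₀ =
      TeeBAux.q x t₀ {z : P × E | α z.1 z.2 = t₀ ∧ β z.1 z.2 = t₁} z := fun z => by
    unfold ttup TeeBAux.q
    rcases hQ z.1 z.2 with h1 | h1
    · rw [if_pos h1.1.symm, if_pos (by exact h1)]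
    · rw [if_neg h1.1.symm, if_neg h1.2.2.1.symm, if_neg fun h2 => h1.1 h2.1]
  have e1 : ∀ z, ttup x y α β z t₁ =
      TeeBAux.q y t₁ {z : P × E | α z.1 z.2 = t₀ ∧ β z.1 z.2 = t₁} z := fun z => by
    unfold ttup TeeBAux.q
    rcases hQ z.1 z.2 with h1 | h1
    · rw [if_neg (fun h2 => ht (h1.1.symm.trans h2.symm)), if_pos h1.2.symm, if_pos (by exact h1)]
    · rw [if_neg h1.2.1.symm, if_neg h1.2.2.2.symm, if_neg fun h2 => h1.1 h2.1]
  obtain ⟨a1, a2⟩ := TeeBAux.main hxy ht hm hn h {z : P × E | α z.1 z.2 = t₀ ∧ β z.1 z.2 = t₁}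
  refine ⟨by rw [funext e0, funext e1]; exact a1, fun z _ L D _ hz hD => ?_, fun hN => ?_⟩
  · have b1 := (TeeBAux.main hxy ht hm hn h
      (insert z {z : P × E | α z.1 z.2 = t₀ ∧ β z.1 z.2 = t₁})).1
    have hab : ((z.1, Sum.inl (x z.2)) : P × (U ⊕ E × K)) ≠ (z.1, Sum.inl (y z.2)) := by
      simp [hxy z.2]
    have c1 : 2 ≤ (insert (z.1, Sum.inl (x z.2)) (insert (z.1, Sum.inl (y z.2)) L)).card :=
      Finset.one_lt_card.2 ⟨_, Finset.mem_insert_self _ _, _,
        Finset.mem_insert_of_mem (Finset.mem_insert_self _ _), hab⟩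
    have c2 : (insert (z.1, Sum.inl (x z.2)) (insert (z.1, Sum.inl (y z.2)) L)).card ≤
        L.card + 2 :=
      (Finset.card_insert_le _ _).trans (Nat.succ_le_succ (Finset.card_insert_le _ _))
    have c3 : ∀ z' ∈ D, ∀ k, ttup x y α β z' k ∈ L ∨ ttup x y α β z' k ∈ range (ttup x y α β z) →
        ttup x y α β z' k ∈
          insert (z.1, Sum.inl (x z.2)) (insert (z.1, Sum.inl (y z.2)) L) := by
      rintro z' hz' k (h1 | ⟨k', h1⟩)
      · exact Finset.mem_insert_of_mem (Finset.mem_insert_of_mem h1)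
      · rcases TeeBAux.meet (fun e : z' = z => hz (e ▸ hz')) h1 with h2 | h2 <;> simp [h2]
    have c4 : ∀ {w : E → U} {t : K} {Q : Set (P × E)}, ∀ z' ∈ D,
        TeeBAux.q w t (insert z Q) z' = TeeBAux.q w t Q z' := fun {w t Q} z' hz' => by
      have : z' ≠ z := fun e => hz (e ▸ hz')
      simp [TeeBAux.q, this]
    have b2 := b1 _ (insert z D) c1 (subset_univ _) fun z' hz' => by
      rcases Finset.mem_insert.1 hz' with rfl | h1
      · simp [TeeBAux.q]
      · rw [c4 z' h1, c4 z' h1, ← e0, ← e1]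
        exact ⟨c3 z' h1 _ (hD z' h1).1, c3 z' h1 _ (hD z' h1).2⟩
    rw [Finset.card_insert_of_notMem hz] at b2
    have c5 : ((insert (z.1, Sum.inl (x z.2)) (insert (z.1, Sum.inl (y z.2)) L)).card : ℝ) ≤
        L.card + 2 := by exact_mod_cast c2
    push_cast at b2
    nlinarith
  · rw [funext e0, funext e1]
    exact a2 fun p L D hD => hN p L D fun d hd => (hD hd).1

end Pool.Agent.Lib.MP_781e3b_co.RR
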