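import Pool.Agent.Lib.MP_781e3b_co.Main
import Pool.Agent.Lib.MP_781e3b_co.RR.Step
import Pool.Agent.Lib.MP_781e3b_co.RR.TeeA
import Pool.Agent.Lib.MP_781e3b_co.RR.TeeB
import Pool.Agent.Lib.MP_781e3b_co.RR.Sep
import Pool.Agent.Lib.MP_781e3b_co.RR.Pot

/-!
Edges of a graph on `Fin a`, oriented upwards.
-/

namespace Pool.Agent.Lib.MP_781e3b_co.RR

open Set Function

/-- Edges oriented upwards. -/
abbrev DE {a : ℕ} (H : SimpleGraph (Fin a)) : Type :=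
  {p : Fin a × Fin a // p.1 < p.2 ∧ H.Adj p.1 p.2}

/-- Lower end. -/
abbrev DE.x {a : ℕ} {H : SimpleGraph (Fin a)} (d : DE H) : Fin a := d.1.1

/-- Upper end. -/
abbrev DE.y {a : ℕ} {H : SimpleGraph (Fin a)} (d : DE H) : Fin a := d.1.2

theorem DE.ne {a : ℕ} {H : SimpleGraph (Fin a)} (d : DE H) : d.x ≠ d.y := d.2.1.ne

theorem DE.of_adj {a : ℕ} {H : SimpleGraph (Fin a)} {u v : Fin a} (h : H.Adj u v) :
    ∃ d : DE H, (d.x = u ∧ d.y = v) ∨ (d.x = v ∧ d.y = u) := by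
  rcases lt_or_gt_of_ne h.ne with h' | h'
  · exact ⟨⟨(u, v), h', h⟩, Or.inl ⟨rfl, rfl⟩⟩
  · exact ⟨⟨(v, u), h', h.symm⟩, Or.inr ⟨rfl, rfl⟩⟩

theorem DE.simple {a : ℕ} {H : SimpleGraph (Fin a)} (d d' : DE H) (h : d ≠ d') :
    ({d.x, d.y} ∩ {d'.x, d'.y} : Set (Fin a)).Subsingleton := by
  obtain ⟨⟨p, q⟩, h1, _⟩ := d
  obtain ⟨⟨p', q'⟩, h2, _⟩ := d'
  have h3 : ¬ (p = p' ∧ q = q') := fun e => h (Subtype.ext (Prod.ext e.1 e.2))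
  rintro u ⟨hu, hu'⟩ v ⟨hv, hv'⟩
  simp only [mem_insert_iff, mem_singleton_iff, DE.x, DE.y] at hu hu' hv hv'
  simp only at h1 h2
  omega

end Pool.Agent.Lib.MP_781e3b_co.RR
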