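import Pool.Agent.Lib.MP_781e3b_co.RR.HitClu

/-!
A matching that hits all minimal tight sets when `2 ≤ m`.
-/

namespace Pool.Agent.Lib.MP_781e3b_co.RR

open Finset

variable {W V : Type} [Fintype W] [DecidableEq V] {x y : W → V} {m : ℝ} {n : ℕ}

/-- Take the clusters `S` of `M`. The edge sets `ed (U S)` are pairwise disjoint (`edge`, `cross`) and
lie in `ed (U M)`, so `m (n - 2) |M| + 1 ≤ ∑ (m (|U S| - 2) + 1) ≤ m (|U M| - 2) + 1`. -/
theorem count_minT (h : Wk x y m Set.univ) (hxy : ∀ d, x d ≠ y d) (hm : 1 < m) (hn : 4 ≤ n)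
    (M : Finset (Finset V)) (hM : ∀ K ∈ M, MinT x y m n K) :
    (n - 2) * M.card ≤ (M.biUnion id).card := by
  classical
  rcases M.eq_empty_or_nonempty with rfl | ⟨K₀, hK₀⟩
  · simp
  obtain ⟨C, h1, h2, h3⟩ := clusters h hxy hm hn M hM
  have e1 : M = C.biUnion id := by
    ext K
    simp only [mem_biUnion, id]
    exact ⟨h2 K, fun ⟨S, hS, hK⟩ => (h1 S hS).sub hK⟩
  have e2 : M.card = ∑ S ∈ C, S.card := by
    conv_lhs => rw [e1]
    exact card_biUnion fun S hS S' hS' hne => h3 S hS S' hS' hne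
  have e3 : (C.biUnion fun S => ed x y (S.biUnion id)).card =
      ∑ S ∈ C, (ed x y (S.biUnion id)).card := by
    refine card_biUnion fun S hS S' hS' hne => disjoint_left.2 fun d hd hd' => ?_
    obtain ⟨K, hK, hdK⟩ := (h1 S hS).edge d hd
    obtain ⟨K', hK', hdK'⟩ := (h1 S' hS').edge d hd'
    exact disjoint_left.1 ((h1 S hS).cross K hK K' ((h1 S' hS').sub hK')
      fun c => disjoint_left.1 (h3 S hS S' hS' hne) c hK') hdK hdK'
  have c2 : 2 ≤ (M.biUnion id).card := by
    have := card_le_card (subset_biUnion_of_mem id hK₀)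
    have := (hM K₀ hK₀).1
    simp only [id] at *
    omega
  have w := h (M.biUnion id) (C.biUnion fun S => ed x y (S.biUnion id)) c2 (Set.subset_univ _) (by
    intro d hd
    obtain ⟨S, hS, hd⟩ := mem_biUnion.1 hd
    have hs := biUnion_subset_biUnion_of_subset_left id (h1 S hS).sub
    exact ⟨hs (mem_ed.1 hd).1, hs (mem_ed.1 hd).2⟩)
  have e4 : ∑ S ∈ C, ((ed x y (S.biUnion id)).card : ℝ) =
      ∑ S ∈ C, (m * ((n - 2 : ℕ) : ℝ) * S.card + 1) := by
    refine sum_congr rfl fun S hS => ?_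
    rw [(h1 S hS).tight.2, (h1 S hS).card]
    push_cast
    ring
  obtain ⟨S₀, hS₀, -⟩ := h2 K₀ hK₀
  have c1 : (1 : ℝ) ≤ C.card := by exact_mod_cast card_pos.2 ⟨S₀, hS₀⟩
  rw [e3, Nat.cast_sum, e4, sum_add_distrib, ← mul_sum, ← Nat.cast_sum, ← e2, sum_const,
    nsmul_eq_mul, mul_one] at w
  have : ((n - 2 : ℕ) : ℝ) * M.card ≤ (M.biUnion id).card := by
    refine le_of_mul_le_mul_left ?_ (zero_lt_one.trans hm)
    nlinarith
  exact_mod_cast this

namespace HitBigAux

/-- A subset of a minimal tight set that omits only two points contains an edge. -/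
theorem edge (h : Wk x y m Set.univ) (hxy : ∀ d, x d ≠ y d) (hm : 2 ≤ m) (hn : 4 ≤ n)
    {K R : Finset V} (hK : MinT x y m n K) (hR : R ⊆ K) (hc : R.card = n - 2) :
    ∃ d, x d ∈ R ∧ y d ∈ R := by
  classical
  by_contra hno
  push Not at hno
  obtain ⟨a, b, hab, e⟩ : ∃ a b, a ≠ b ∧ K \ R = {a, b} :=
    card_eq_two.1 (by rw [card_sdiff_of_subset hR, hK.1, hc]; omega)
  have ha : a ∈ K ∧ a ∉ R := mem_sdiff.1 (e ▸ by simp)
  have hb : b ∈ K ∧ b ∉ R := mem_sdiff.1 (e ▸ by simp)
  have hz : ∀ z ∈ K, z ∈ R ∨ z = a ∨ z = b := fun z hz => by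
    by_cases c : z ∈ R
    · exact Or.inl c
    · have : z ∈ K \ R := mem_sdiff.2 ⟨hz, c⟩
      rw [e] at this
      exact Or.inr (by simpa using this)
  have inj : Function.Injective fun d => ({x d, y d} : Finset V) := fun d d' hd => by
    have h0 : ({x d, y d} : Finset V) = {x d', y d'} := hd
    have h1 : x d ∈ ({x d', y d'} : Finset V) := h0 ▸ by simp
    have h2 : y d ∈ ({x d', y d'} : Finset V) := h0 ▸ by simp
    exact h.simple hxy (by simpa using h1) (by simpa using h2)
  set T : Finset (Finset V) :=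
    insert {a, b} ((R.image fun r => {a, r}) ∪ R.image fun r => {b, r}) with hT
  have s1 : (ed x y K).image (fun d => ({x d, y d} : Finset V)) ⊆ T := by
    intro Z hZ
    obtain ⟨d, hd, rfl⟩ := mem_image.1 hZ
    have h0 := hxy d
    have h3 := hno d
    simp only [hT, mem_insert, mem_union, mem_image]
    rcases hz _ (mem_ed.1 hd).1 with h1 | h1 | h1 <;> rcases hz _ (mem_ed.1 hd).2 with h2 | h2 | h2
    · exact (h3 h1 h2).elim
    · exact Or.inr (Or.inl ⟨_, h1, by rw [h2, pair_comm]⟩)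
    · exact Or.inr (Or.inr ⟨_, h1, by rw [h2, pair_comm]⟩)
    · exact Or.inr (Or.inl ⟨_, h2, by rw [h1]⟩)
    · exact (h0 (h1.trans h2.symm)).elim
    · exact Or.inl (by rw [h1, h2])
    · exact Or.inr (Or.inr ⟨_, h2, by rw [h1]⟩)
    · exact Or.inl (by rw [h1, h2, pair_comm])
    · exact (h0 (h1.trans h2.symm)).elim
  have s2 : T.card ≤ 2 * (n - 2) + 1 := by
    have h1 := card_insert_le ({a, b} : Finset V)
      ((R.image fun r => ({a, r} : Finset V)) ∪ R.image fun r => {b, r})
    have h2 := card_union_le (R.image fun r => ({a, r} : Finset V)) (R.image fun r => {b, r})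
    have h3 := card_image_le (s := R) (f := fun r => ({a, r} : Finset V))
    have h4 := card_image_le (s := R) (f := fun r => ({b, r} : Finset V))
    rw [hT]
    omega
  have s3 := card_le_card s1
  rw [card_image_of_injective _ inj] at s3
  have t1 := hK.2.1.2
  have n2 : ((n - 2 : ℕ) : ℝ) = n - 2 := by rw [Nat.cast_sub (by omega)]; norm_num
  have n4 : (4 : ℝ) ≤ n := by exact_mod_cast hn
  rw [hK.1] at t1
  have s4 : ((ed x y K).card : ℝ) ≤ 2 * (n - 2) + 1 := by
    rw [← n2]; exact_mod_cast s3.trans s2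
  have m2 : m = 2 := le_antisymm (by nlinarith) hm
  have s5 : T.card ≤ ((ed x y K).image fun d => ({x d, y d} : Finset V)).card := by
    rw [card_image_of_injective _ inj]
    have : (T.card : ℝ) ≤ (ed x y K).card := by
      rw [t1, m2, ← n2]; exact_mod_cast s2
    exact_mod_cast this
  have s6 := eq_of_subset_of_card_le s1 s5
  obtain ⟨r, hr⟩ : R.Nonempty := card_pos.1 (by omega)
  have ra : a ≠ r := fun c => ha.2 (c ▸ hr)
  have rb : b ≠ r := fun c => hb.2 (c ▸ hr)
  have c3 : ({a, b, r} : Finset V).card = 3 := card_eq_three.2 ⟨a, b, r, hab, ra, rb, rfl⟩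
  have sub : ({a, b, r} : Finset V) ⊆ K := by
    intro z hz
    simp only [mem_insert, mem_singleton] at hz
    rcases hz with rfl | rfl | rfl
    exacts [ha.1, hb.1, hR hr]
  refine hK.2.2 {a, b, r} (Finset.ssubset_iff_subset_ne.2 ⟨sub, fun c => ?_⟩) c3.ge ⟨by omega, ?_⟩
  · have := hK.1
    rw [← c, c3] at this
    omega
  refine le_antisymm (h _ _ (by omega) (Set.subset_univ _) fun d hd => mem_ed.1 hd) ?_
  have s7 : powersetCard 2 ({a, b, r} : Finset V) ⊆
      (ed x y {a, b, r}).image fun d => ({x d, y d} : Finset V) := by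
    intro Z hZ
    obtain ⟨z1, z2⟩ := mem_powersetCard.1 hZ
    have hZT : Z ∈ T := by
      obtain ⟨u, v, huv, rfl⟩ := card_eq_two.1 z2
      have hu := z1 (show u ∈ ({u, v} : Finset V) by simp)
      have hv := z1 (show v ∈ ({u, v} : Finset V) by simp)
      simp only [mem_insert, mem_singleton] at hu hv
      simp only [hT, mem_insert, mem_union, mem_image]
      rcases hu with rfl | rfl | rfl <;> rcases hv with rfl | rfl | rfl
      · exact (huv rfl).elim
      · exact Or.inl rfl
      · exact Or.inr (Or.inl ⟨_, hr, rfl⟩)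
      · exact Or.inl (pair_comm _ _)
      · exact (huv rfl).elim
      · exact Or.inr (Or.inr ⟨_, hr, rfl⟩)
      · exact Or.inr (Or.inl ⟨_, hr, pair_comm _ _⟩)
      · exact Or.inr (Or.inr ⟨_, hr, pair_comm _ _⟩)
      · exact (huv rfl).elim
    rw [← s6] at hZT
    obtain ⟨d, -, rfl⟩ := mem_image.1 hZT
    exact mem_image.2 ⟨d, mem_ed.2 ⟨z1 (by simp), z1 (by simp)⟩, rfl⟩
  have s8 := (card_le_card s7).trans card_image_le
  rw [card_powersetCard, c3] at s8
  have : (3 : ℝ) ≤ (ed x y ({a, b, r} : Finset V)).card := by exact_mod_cast s8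
  rw [c3, m2]
  norm_num
  exact_mod_cast s8

end HitBigAux

/-- Hall's theorem for the index set `{K // MinT K} × Fin (n - 2)` (`count_minT`) gives pairwise
disjoint `R K ⊆ K` with `n - 2` points. `R K` contains an edge: else every edge of `K` meets the
pair `{a, b} = K \ R K`, so `|ed K| ≤ 2 (n - 2) + 1` (`Wk.simple`; or count: for `r ∈ R K` at most two
edges at `r`, one edge inside `{a, b}`), while `|ed K| = m (n - 2) + 1 ≥ 2 (n - 2) + 1`; so `m = 2`,
the edge `ab` and all edges `ra`, `rb` exist, and `{a, b, r}` is a tight proper subset of `K`.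
`F` = the chosen edges; they are pairwise disjoint, so from `x d` only `x d` and the other end of
the edge of `F - d` at `x d` are reached, and that end is not `y d` (`Wk.simple`). -/
theorem hit_big [Finite V] (h : Wk x y m Set.univ) (hxy : ∀ d, x d ≠ y d) (hm : 2 ≤ m) (hn : 4 ≤ n) :
    ∃ F : Set W, Acy x y F ∧ ∀ K, MinT x y m n K → ∃ d ∈ ed x y K, d ∈ F := by
  classical
  obtain ⟨f, finj, hf⟩ := (all_card_le_biUnion_card_iff_exists_injective
    fun i : {K : Finset V // MinT x y m n K} × Fin (n - 2) => i.1.1).1 fun s => by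
      have h1 := count_minT h hxy (by linarith) hn (s.image fun i => i.1.1) fun K hK => by
        obtain ⟨i, -, rfl⟩ := mem_image.1 hK
        exact i.1.2
      rw [image_biUnion] at h1
      refine (card_le_mul_card_image (f := fun i => i.1.1) s (n - 2) fun K _ => ?_).trans h1
      refine (card_le_card_of_injOn (t := univ) Prod.snd (fun _ _ => by simp) ?_).trans (by simp)
      intro i hi j hj e
      exact Prod.ext (Subtype.ext ((mem_filter.1 hi).2.trans (mem_filter.1 hj).2.symm)) e
  have hR : ∀ K : {K : Finset V // MinT x y m n K},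
      (univ.image fun j => f (K, j)) ⊆ K.1 := fun K z hz => by
    obtain ⟨j, -, rfl⟩ := mem_image.1 hz
    exact hf (K, j)
  choose c c1 c2 using fun K : {K : Finset V // MinT x y m n K} =>
    HitBigAux.edge h hxy hm hn K.2 (hR K) (by
      rw [card_image_of_injective _ fun j j' e => (Prod.ext_iff.1 (finj e)).2]
      simp)
  have dis : ∀ K K' z, (z = x (c K) ∨ z = y (c K)) → (z = x (c K') ∨ z = y (c K')) → K = K' := by
    intro K K' z hz hz'
    obtain ⟨j, -, e⟩ := mem_image.1 (hz.elim (fun e => e ▸ c1 K) fun e => e ▸ c2 K :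
      z ∈ univ.image fun j => f (K, j))
    obtain ⟨j', -, e'⟩ := mem_image.1 (hz'.elim (fun e => e ▸ c1 K') fun e => e ▸ c2 K' :
      z ∈ univ.image fun j => f (K', j))
    exact (Prod.ext_iff.1 (finj (e.trans e'.symm))).1
  refine ⟨Set.range c, fun d hd => ?_, fun K hK =>
    ⟨c ⟨K, hK⟩, mem_ed.2 ⟨hR _ (c1 _), hR _ (c2 _)⟩, _, rfl⟩⟩
  have key : ∀ z, Relation.ReflTransGen (Link x y (Set.range c) d) (x d) z →
      z = x d ∨ ∃ K, c K ≠ d ∧ (x d = x (c K) ∨ x d = y (c K)) ∧ (z = x (c K) ∨ z = y (c K)) := by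
    intro z hz
    induction hz with
    | refl => exact Or.inl rfl
    | @tail u v _ h2 ih =>
      obtain ⟨_, ⟨K', rfl⟩, hne, h3⟩ := h2
      have hu : u = x (c K') ∨ u = y (c K') :=
        h3.elim (fun e => Or.inl e.1.symm) fun e => Or.inr e.2.symm
      have hv : v = x (c K') ∨ v = y (c K') :=
        h3.elim (fun e => Or.inr e.2.symm) fun e => Or.inl e.1.symm
      rcases ih with rfl | ⟨K, k1, k2, k3⟩
      · exact Or.inr ⟨K', hne, hu, hv⟩
      · obtain rfl := dis K K' u k3 hu
        exact Or.inr ⟨K, k1, k2, hv⟩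
  rcases key _ hd with e | ⟨K, k1, k2, k3⟩
  · exact hxy d e.symm
  · exact k1 (h.simple hxy k2 k3).symm

end Pool.Agent.Lib.MP_781e3b_co.RR
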