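import Pool.Agent.Lib.MP_781e3b_co.RR.HitStar

/-!
A star forest that hits all minimal tight sets when `m < 2`.
-/

namespace Pool.Agent.Lib.MP_781e3b_co.RR

open Finset

variable {W V : Type} [Fintype W] [DecidableEq V] {x y : W → V} {m : ℝ} {n : ℕ}

/-- `M` = all `MinT` sets, `F` = the edges between `z ∈ B` and `ct z`. The root of `v` (`ct v` for
`v ∈ B`, else `v`) is constant along `F`. If the ends of `d` have the same root, then either both
are leaves with the same centre (a triangle, impossible for `m < 2`), or one end `z` is a leaf and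
the other is its centre; then `d` is the only edge of `F` at `z` (`Wk.simple`), so `z` is isolated
in `F - d`. -/
theorem hit_small [Finite V] (h : Wk x y m Set.univ) (hxy : ∀ d, x d ≠ y d) (hm : 1 < m)
    (hm2 : m < 2) (hn : 4 ≤ n) :
    ∃ F : Set W, Acy x y F ∧ ∀ K, MinT x y m n K → ∃ d ∈ ed x y K, d ∈ F := by
  classical
  have := Fintype.ofFinite V
  obtain ⟨B, ct, h1, h2, -⟩ := star_ind hm hm2 hn (univ.filter fun K => MinT x y m n K) x y h hxy
    fun K hK => (mem_filter.1 hK).2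
  let F : Set W := {d | ∃ z ∈ B, (x d = z ∧ y d = ct z) ∨ (x d = ct z ∧ y d = z)}
  refine ⟨F, fun d hd => ?_, fun K hK => ?_⟩
  swap
  · obtain ⟨z, hz, a, b⟩ := h2 K (mem_filter.2 ⟨mem_univ _, hK⟩)
    obtain ⟨d, hd⟩ := (h1 z hz).2.2
    refine ⟨d, mem_ed.2 ?_, z, hz, hd⟩
    rcases hd with ⟨e, e'⟩ | ⟨e, e'⟩ <;> rw [e, e'] <;> exact ⟨by assumption, by assumption⟩
  let r : V → V := fun v => if v ∈ B then ct v else v
  have hr : ∀ e ∈ F, r (x e) = r (y e) := by
    rintro e ⟨z, hz, ⟨a, b⟩ | ⟨a, b⟩⟩ <;> simp [r, a, b, hz, (h1 z hz).1]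
  have hroot : ∀ a b, Relation.ReflTransGen (Link x y F d) a b → r a = r b := fun a b k => by
    induction k with
    | refl => rfl
    | tail _ k ih =>
      obtain ⟨e, he, -, ⟨rfl, rfl⟩ | ⟨rfl, rfl⟩⟩ := k
      · exact ih.trans (hr e he)
      · exact ih.trans (hr e he).symm
  have iso : ∀ z ∈ B, (x d = z ∧ y d = ct z) ∨ (x d = ct z ∧ y d = z) → ∀ e ∈ F,
      x e = z ∨ y e = z → e = d := by
    rintro z hz hdz e ⟨w, hw, he⟩ k
    obtain rfl : w = z := by
      have := (h1 w hw).1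
      rcases he with ⟨a, b⟩ | ⟨a, b⟩ <;> rcases k with k | k
      · exact a.symm.trans k
      · exact (this (b ▸ k ▸ hz)).elim
      · exact (this (a ▸ k ▸ hz)).elim
      · exact b.symm.trans k
    refine h.simple hxy ?_ ?_ <;> rcases he with ⟨a, b⟩ | ⟨a, b⟩ <;>
      rcases hdz with ⟨a', b'⟩ | ⟨a', b'⟩ <;> simp [a, b, a', b']
  have e0 := hroot _ _ hd
  by_cases hx : x d ∈ B <;> by_cases hy : y d ∈ B <;> simp only [r, hx, hy, if_true, if_false] at e0
  · obtain ⟨c1, -, d1, k1⟩ := h1 _ hx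
    obtain ⟨-, -, d2, k2⟩ := h1 _ hy
    rw [← e0] at k2
    have n1 : x d ≠ ct (x d) := fun e => c1 (e ▸ hx)
    have n2 : y d ≠ ct (x d) := fun e => c1 (e ▸ hy)
    have n3 := hxy d
    have cK : ({x d, y d, ct (x d)} : Finset V).card = 3 := card_eq_three.2 ⟨_, _, _, n3, n1, n2, rfl⟩
    have cD : ({d, d1, d2} : Finset W).card = 3 := by
      refine card_eq_three.2 ⟨_, _, _, ?_, ?_, ?_, rfl⟩
      · rintro rfl
        exact k1.elim (fun k => n2 k.2) fun k => n1 k.1
      · rintro rfl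
        exact k2.elim (fun k => n2 k.2) fun k => n1 k.1
      · rintro rfl
        rcases k1 with ⟨a, b⟩ | ⟨a, b⟩ <;> rcases k2 with ⟨a', b'⟩ | ⟨a', b'⟩
        · exact n3 (a.symm.trans a')
        · exact n1 (a.symm.trans a')
        · exact n1 (b.symm.trans b')
        · exact n3 (b.symm.trans b')
    have := h {x d, y d, ct (x d)} {d, d1, d2} (by omega) (Set.subset_univ _) (by
      intro e he
      simp only [mem_insert, mem_singleton] at he
      rcases he with rfl | rfl | rfl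
      · simp
      · rcases k1 with ⟨a, b⟩ | ⟨a, b⟩ <;> simp [a, b]
      · rcases k2 with ⟨a, b⟩ | ⟨a, b⟩ <;> simp [a, b])
    rw [cK, cD] at this
    push_cast at this
    linarith
  · rcases hd.cases_head with k | ⟨c, ⟨e, he, ne, k⟩, -⟩
    · exact hxy d k
    · exact ne (iso _ hx (Or.inl ⟨rfl, e0.symm⟩) e he (k.imp And.left And.right))
  · rcases hd.cases_tail with k | ⟨c, -, e, he, ne, k⟩
    · exact hxy d k.symm
    · exact ne (iso _ hy (Or.inr ⟨e0, rfl⟩) e he (k.symm.imp And.left And.right))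
  · exact hxy d e0

end Pool.Agent.Lib.MP_781e3b_co.RR
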