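import Pool.Agent.Lib.MP_781e3b_co.RR.HitBase

/-!
Two induced forests hit all triangles.
-/

namespace Pool.Agent.Lib.MP_781e3b_co.RR

open Finset

variable {W V : Type} [Fintype W] [DecidableEq V] {x y : W → V} {m : ℝ}

namespace HitThreeAux

omit [Fintype W] in
/-- No parallel edges. -/
theorem simple (h : Wk x y m Set.univ) (hxy : ∀ d, x d ≠ y d) {d d' : W}
    (he : ({x d', y d'} : Finset V) = {x d, y d}) : d' = d := by
  classical
  by_contra hne
  have hK : ({x d, y d} : Finset V).card = 2 := card_pair (hxy d)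
  have h1 := h {x d, y d} {d', d} hK.ge (Set.subset_univ _) (by
    intro e he'
    rcases mem_insert.1 he' with rfl | he'
    · rw [← he]; simp
    · rw [mem_singleton.1 he']; simp)
  rw [card_pair hne, hK] at h1
  norm_num at h1

/-- A vertex of degree at most three. -/
theorem low_deg (h : Wk x y m Set.univ) (hm : m ≤ 2) {K : Finset V} (hK : 2 ≤ K.card) :
    ∃ z ∈ K, ((ed x y K).filter fun d => x d = z ∨ y d = z).card ≤ 3 := by
  classical
  by_contra hcon
  push Not at hcon
  have h1 := h K (ed x y K) hK (Set.subset_univ _) (fun d hd => mem_ed.1 hd)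
  have hK' : (2 : ℝ) ≤ K.card := by exact_mod_cast hK
  have h2 : ((ed x y K).card : ℝ) < 2 * K.card := by nlinarith
  have h3 : (ed x y K).card < 2 * K.card := by exact_mod_cast h2
  have hx : (ed x y K).card = ∑ z ∈ K, ((ed x y K).filter fun d => x d = z).card :=
    card_eq_sum_card_fiberwise (fun d hd => (mem_ed.1 hd).1)
  have hy : (ed x y K).card = ∑ z ∈ K, ((ed x y K).filter fun d => y d = z).card :=
    card_eq_sum_card_fiberwise (fun d hd => (mem_ed.1 hd).2)
  have h4 : ∑ _z ∈ K, 4 ≤ ∑ z ∈ K, (((ed x y K).filter fun d => x d = z).card +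
      ((ed x y K).filter fun d => y d = z).card) := by
    refine sum_le_sum fun z hz => ?_
    have := hcon z hz
    rw [filter_or] at this
    have h5 := card_union_le ((ed x y K).filter fun d => x d = z)
      ((ed x y K).filter fun d => y d = z)
    omega
  rw [sum_add_distrib, ← hx, ← hy, sum_const, smul_eq_mul] at h4
  omega

/-- Of at most three things at most one has the colour `c`. -/
theorem exists_colour {α : Type} {s : Finset α} (hs : s.card ≤ 3) (f : α → Bool) :
    ∃ c, ∀ a ∈ s, ∀ b ∈ s, f a = c → f b = c → a = b := by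
  classical
  have h1 := card_filter_add_card_filter_not (s := s) (fun a => f a = true)
  by_cases h2 : (s.filter fun a => f a = true).card ≤ 1
  · refine ⟨true, fun a ha b hb h3 h4 => ?_⟩
    exact card_le_one.1 h2 a (mem_filter.2 ⟨ha, h3⟩) b (mem_filter.2 ⟨hb, h4⟩)
  · have h3 : (s.filter fun a => ¬ f a = true).card ≤ 1 := by omega
    refine ⟨false, fun a ha b hb h4 h5 => ?_⟩
    exact card_le_one.1 h3 a (mem_filter.2 ⟨ha, by simp [h4]⟩) b (mem_filter.2 ⟨hb, by simp [h5]⟩)

omit [Fintype W] [DecidableEq V] in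
/-- A walk keeps the colour. -/
theorem colour_eq {F : Set W} {π : V → Bool} (hF : ∀ d ∈ F, π (x d) = π (y d)) {d : W} {a b : V}
    (hab : Relation.ReflTransGen (Link x y F d) a b) : π a = π b := by
  induction hab with
  | refl => rfl
  | tail _ hl ih =>
    obtain ⟨e, he, -, ⟨rfl, rfl⟩ | ⟨rfl, rfl⟩⟩ := hl
    · exact ih.trans (hF e he)
    · exact ih.trans (hF e he).symm

omit [Fintype W] [DecidableEq V] in
/-- A walk between points other than a vertex `z` of degree at most one avoids `z`. -/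
theorem avoid (hxy : ∀ d, x d ≠ y d) {F F' : Set W} {z : V}
    (h1 : ∀ e ∈ F, x e ≠ z → y e ≠ z → e ∈ F')
    (h2 : ∀ e ∈ F, ∀ e' ∈ F, (x e = z ∨ y e = z) → (x e' = z ∨ y e' = z) → e = e')
    {d : W} {a b : V} (ha : a ≠ z) (hab : Relation.ReflTransGen (Link x y F d) a b) :
    (b ≠ z ∧ Relation.ReflTransGen (Link x y F' d) a b) ∨
      (b = z ∧ ∃ e ∈ F, ∃ w, ((x e = z ∧ y e = w) ∨ (x e = w ∧ y e = z)) ∧
        Relation.ReflTransGen (Link x y F' d) a w) := by
  induction hab with
  | refl => exact Or.inl ⟨ha, .refl⟩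
  | @tail b c _ hl ih =>
    obtain ⟨e, he, hed, hl⟩ := hl
    rcases ih with ⟨hb, ih⟩ | ⟨hb, e', he', w, hw, ih⟩
    · by_cases hc : c = z
      · refine Or.inr ⟨hc, e, he, b, ?_, ih⟩
        rcases hl with ⟨h3, h4⟩ | ⟨h3, h4⟩
        · exact Or.inr ⟨h3, h4.trans hc⟩
        · exact Or.inl ⟨h3.trans hc, h4⟩
      · refine Or.inl ⟨hc, ih.tail ⟨e, h1 e he ?_ ?_, hed, hl⟩⟩
        · rcases hl with ⟨h3, -⟩ | ⟨h3, -⟩
          · rw [h3]; exact hb
          · rw [h3]; exact hc
        · rcases hl with ⟨-, h3⟩ | ⟨-, h3⟩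
          · rw [h3]; exact hc
          · rw [h3]; exact hb
    · have hee : e = e' := by
        refine h2 e he e' he' ?_ ?_
        · rcases hl with ⟨h3, -⟩ | ⟨-, h3⟩
          · exact Or.inl (h3.trans hb)
          · exact Or.inr (h3.trans hb)
        · rcases hw with ⟨h3, -⟩ | ⟨-, h3⟩
          · exact Or.inl h3
          · exact Or.inr h3
      subst hee
      have hne := hxy e
      have hcw : c = w ∧ c ≠ z := by
        rcases hl with ⟨h3, h4⟩ | ⟨h3, h4⟩ <;> rcases hw with ⟨h5, h6⟩ | ⟨h5, h6⟩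
        · exact ⟨h4.symm.trans h6, fun hc => hne (h5.trans (hc.symm.trans h4.symm))⟩
        · exact absurd ((h3.trans hb).trans h6.symm) hne
        · exact absurd (h5.trans (h4.trans hb).symm) hne
        · exact ⟨h3.symm.trans h5, fun hc => hne ((h3.trans hc).trans h6.symm)⟩
      exact Or.inl ⟨hcw.2, hcw.1 ▸ ih⟩

/-- The step of the induction. -/
theorem step (hxy : ∀ d, x d ≠ y d) {K : Finset V} {z : V}
    (hz : ((ed x y K).filter fun d => x d = z ∨ y d = z).card ≤ 3) {π : V → Bool}
    (hπ : ∀ d ∈ ed x y (K.erase z), ¬ Relation.ReflTransGen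
      (Link x y {d | d ∈ ed x y (K.erase z) ∧ π (x d) = π (y d)} d) (x d) (y d)) :
    ∃ π : V → Bool, ∀ d ∈ ed x y K, ¬ Relation.ReflTransGen
      (Link x y {d | d ∈ ed x y K ∧ π (x d) = π (y d)} d) (x d) (y d) := by
  obtain ⟨c, hc⟩ := exists_colour hz (fun d => π (if x d = z then y d else x d))
  refine ⟨Function.update π z c, fun d hd hw => ?_⟩
  have key : ∀ e, (x e = z ∨ y e = z) →
      Function.update π z c (x e) = Function.update π z c (y e) →
      π (if x e = z then y e else x e) = c := by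
    intro e he h1
    by_cases h2 : x e = z
    · have h3 : y e ≠ z := fun h3 => hxy e (h2.trans h3.symm)
      rw [if_pos h2]
      rw [h2, Function.update_self, Function.update_of_ne h3] at h1
      exact h1.symm
    · rw [if_neg h2]
      rw [he.resolve_left h2, Function.update_self, Function.update_of_ne h2] at h1
      exact h1
  have h2 : ∀ e ∈ {d | d ∈ ed x y K ∧ Function.update π z c (x d) = Function.update π z c (y d)},
      ∀ e' ∈ {d | d ∈ ed x y K ∧ Function.update π z c (x d) = Function.update π z c (y d)},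
      (x e = z ∨ y e = z) → (x e' = z ∨ y e' = z) → e = e' := fun e he e' he' h3 h4 =>
    hc e (mem_filter.2 ⟨he.1, h3⟩) e' (mem_filter.2 ⟨he'.1, h4⟩) (key e h3 he.2) (key e' h4 he'.2)
  have hcol := colour_eq (π := Function.update π z c) (fun e he => he.2) hw
  by_cases hx : x d = z
  · rcases hw.cases_head with h3 | ⟨w, ⟨e, he, hed, h3⟩, -⟩
    · exact hxy d h3
    · refine hed (h2 e he d ⟨hd, hcol⟩ ?_ (Or.inl hx))
      rcases h3 with ⟨h3, -⟩ | ⟨-, h3⟩
      · exact Or.inl (h3.trans hx)
      · exact Or.inr (h3.trans hx)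
  by_cases hy : y d = z
  · rcases hw.cases_tail with h3 | ⟨w, -, ⟨e, he, hed, h3⟩⟩
    · exact hxy d h3.symm
    · refine hed (h2 e he d ⟨hd, hcol⟩ ?_ (Or.inr hy))
      rcases h3 with ⟨-, h3⟩ | ⟨h3, -⟩
      · exact Or.inr (h3.trans hy)
      · exact Or.inl (h3.trans hy)
  have hd' : d ∈ ed x y (K.erase z) :=
    mem_ed.2 ⟨mem_erase.2 ⟨hx, (mem_ed.1 hd).1⟩, mem_erase.2 ⟨hy, (mem_ed.1 hd).2⟩⟩
  rcases avoid hxy (F' := {d | d ∈ ed x y (K.erase z) ∧ π (x d) = π (y d)}) (fun e he h3 h4 =>
    ⟨mem_ed.2 ⟨mem_erase.2 ⟨h3, (mem_ed.1 he.1).1⟩, mem_erase.2 ⟨h4, (mem_ed.1 he.1).2⟩⟩, by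
      have := he.2
      rwa [Function.update_of_ne h3, Function.update_of_ne h4] at this⟩) h2 hx hw with
    ⟨-, h3⟩ | ⟨h3, -⟩
  · exact hπ d hd' h3
  · exact hy h3

/-- The ends of the edges inside `K` are different pairs of points of `K`. -/
theorem image_sub (hxy : ∀ d, x d ≠ y d) (K : Finset V) :
    (ed x y K).image (fun d => ({x d, y d} : Finset V)) ⊆ powersetCard 2 K := by
  intro s hs
  obtain ⟨d, hd, rfl⟩ := mem_image.1 hs
  refine mem_powersetCard.2 ⟨?_, card_pair (hxy d)⟩
  intro v hv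
  rcases mem_insert.1 hv with rfl | hv
  · exact (mem_ed.1 hd).1
  · rw [mem_singleton.1 hv]; exact (mem_ed.1 hd).2

theorem card_image (h : Wk x y m Set.univ) (hxy : ∀ d, x d ≠ y d) (K : Finset V) :
    ((ed x y K).image (fun d => ({x d, y d} : Finset V))).card = (ed x y K).card :=
  card_image_of_injective _ fun _ _ he => simple h hxy he

end HitThreeAux

/-- Induction on `|K|`. Some `z ∈ K` has at most three edges of `ed K` at it (the degrees sum to
`2 |ed K| < 4 |K|`; `|K| = 1` has no edge). Colour `K.erase z`, then give `z` the colour that at most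
one edge at `z` in `ed K` leads to. So `z` has at most one edge in the new `F`; a walk in `F - d`
that starts outside `z` and ends outside `z` can be shortened to avoid `z`, and for a monochromatic
`d` at `z` the vertex `z` is isolated in `F - d`. Ends with different colours are never joined. -/
theorem two_forests (h : Wk x y m Set.univ) (hxy : ∀ d, x d ≠ y d) (hm : m ≤ 2) (hm0 : 1 ≤ m)
    (K : Finset V) :
    ∃ π : V → Bool, ∀ d ∈ ed x y K, ¬ Relation.ReflTransGen
      (Link x y {d | d ∈ ed x y K ∧ π (x d) = π (y d)} d) (x d) (y d) := by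
  induction K using Finset.strongInduction with
  | H K ih =>
    by_cases hK : 2 ≤ K.card
    · obtain ⟨z, hz, hdeg⟩ := HitThreeAux.low_deg h hm hK
      obtain ⟨π, hπ⟩ := ih (K.erase z) (erase_ssubset hz)
      exact HitThreeAux.step hxy hdeg hπ
    · refine ⟨fun _ => true, fun d hd _ => hxy d ?_⟩
      exact card_le_one.1 (by omega) _ (mem_ed.1 hd).1 _ (mem_ed.1 hd).2

/-- No `MinT` set: `F = ∅`. Else a `MinT` set has three points and `m + 1 > 2` edges, at most three
(`Wk.simple`), so `m ≤ 2`; use `two_forests` for `K = univ`. A `MinT` set `{a, b, c}` has at least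
three edges, so all three pairs are edges, and two of the points have the same colour. -/
theorem hit_three [Finite V] (h : Wk x y m Set.univ) (hxy : ∀ d, x d ≠ y d) (hm : 1 < m) :
    ∃ F : Set W, Acy x y F ∧ ∀ K, MinT x y m 3 K → ∃ d ∈ ed x y K, d ∈ F := by
  have hcard : ∀ K, MinT x y m 3 K → ((ed x y K).card : ℝ) = m + 1 := fun K hK => by
    rw [hK.2.1.2, hK.1]; norm_num
  have hpow : ∀ K, MinT x y m 3 K → (powersetCard 2 K).card = 3 := fun K hK => by
    rw [card_powersetCard, hK.1]; rfl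
  by_cases hex : ∃ K, MinT x y m 3 K
  · obtain ⟨K₀, hK₀⟩ := hex
    have h1 := card_le_card (HitThreeAux.image_sub hxy K₀)
    rw [HitThreeAux.card_image h hxy, hpow K₀ hK₀] at h1
    have h2 : ((ed x y K₀).card : ℝ) ≤ 3 := by exact_mod_cast h1
    have hm2 : m ≤ 2 := by linarith [hcard K₀ hK₀]
    cases nonempty_fintype V
    obtain ⟨π, hπ⟩ := two_forests h hxy hm2 hm.le univ
    refine ⟨_, fun d => hπ d (mem_ed.2 ⟨mem_univ _, mem_univ _⟩), fun K hK => ?_⟩
    have h3 : (2 : ℝ) < (ed x y K).card := by linarith [hcard K hK]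
    have h4 : 2 < (ed x y K).card := by exact_mod_cast h3
    have h5 : (ed x y K).image (fun d => ({x d, y d} : Finset V)) = powersetCard 2 K :=
      eq_of_subset_of_card_le (HitThreeAux.image_sub hxy K) (by
        rw [HitThreeAux.card_image h hxy, hpow K hK]; omega)
    obtain ⟨a, ha, b, hb, hab, hc⟩ := exists_ne_map_eq_of_card_lt_of_maps_to
      (s := K) (t := (univ : Finset Bool)) (f := π) (by rw [hK.1]; decide) (fun _ _ => mem_univ _)
    have h6 : ({a, b} : Finset V) ∈ powersetCard 2 K := by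
      refine mem_powersetCard.2 ⟨?_, card_pair hab⟩
      intro v hv
      rcases mem_insert.1 hv with rfl | hv
      · exact ha
      · rw [mem_singleton.1 hv]; exact hb
    rw [← h5] at h6
    obtain ⟨d, hd, he⟩ := mem_image.1 h6
    refine ⟨d, hd, mem_ed.2 ⟨mem_univ _, mem_univ _⟩, ?_⟩
    have hxd : x d ∈ ({a, b} : Finset V) := by rw [← he]; simp
    have hyd : y d ∈ ({a, b} : Finset V) := by rw [← he]; simp
    rcases mem_insert.1 hxd with h7 | h7 <;> rcases mem_insert.1 hyd with h8 | h8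
    · rw [h7, h8]
    · rw [h7, mem_singleton.1 h8, hc]
    · rw [mem_singleton.1 h7, h8, hc]
    · rw [mem_singleton.1 h7, mem_singleton.1 h8]
  · refine ⟨∅, fun d hw => ?_, fun K hK => absurd ⟨K, hK⟩ hex⟩
    rcases hw.cases_head with h1 | ⟨w, ⟨e, he, -⟩, -⟩
    · exact hxy d h1
    · exact he

end Pool.Agent.Lib.MP_781e3b_co.RR
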