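import Pool.Agent.Lib.MP_781e3b_co.RR.FinA
import Pool.Agent.Lib.MP_781e3b_co.RR.FinB
import Pool.Agent.Lib.MP_781e3b_co.RR.HitBig
import Pool.Agent.Lib.MP_781e3b_co.RR.HitSmall
import Pool.Agent.Lib.MP_781e3b_co.RR.HitThree

/-!
Ramsey equivalent graphs have the same 2-connected subgraphs.
-/

namespace Pool.Agent.Lib.MP_781e3b_co.RR

open Set Function

theorem hit {W V : Type} [Finite W] [Finite V] {x y : W → V} {m : ℝ} {n : ℕ}
    (h : Wk x y m univ) (hxy : ∀ d, x d ≠ y d) (hm : 1 < m) (hn : 3 ≤ n) :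
    ∃ F : Set W, Acy x y F ∧ NoMT x y m n Fᶜ := by
  classical
  have := Fintype.ofFinite W
  have key : ∃ F : Set W, Acy x y F ∧ ∀ K, MinT x y m n K → ∃ d ∈ ed x y K, d ∈ F := by
    rcases hn.eq_or_lt with rfl | hn
    · exact hit_three h hxy hm
    · rcases lt_or_ge m 2 with h2 | h2
      · exact hit_small h hxy hm h2 hn
      · exact hit_big h hxy h2 hn
  obtain ⟨F, h1, h2⟩ := key
  refine ⟨F, h1, fun K D hD hK => ?_⟩
  obtain ⟨h3, rfl⟩ := hK.minT h hn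
  obtain ⟨d, h4, h5⟩ := h2 K h3
  exact hD h4 h5

theorem block_emb {a b : ℕ} (H₁ : SimpleGraph (Fin a)) (H₂ : SimpleGraph (Fin b)) {X : Type}
    [Fintype X] (B : SimpleGraph X) (ha : 3 ≤ Fintype.card X)
    (h2 : ∀ v, (B.induce {v}ᶜ).Connected) (hB : Pool.Agent.Lib.MP_781e3b_co.Emb B H₁.Adj)
    (h : RamseyEquiv H₁ H₂ 2) : Pool.Agent.Lib.MP_781e3b_co.Emb B H₂.Adj := by
  obtain ⟨K₀, D₀, k1, k2, k3⟩ := FinAAux.le_card_DE H₁ B ha h2 hB
  obtain ⟨m, n, hm, hn, hW, K, D, hK⟩ := exists_density H₁ k1 k2 k3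
  obtain ⟨U, _, G, h3, h4⟩ := host_dense H₁ H₂ hm hW
  obtain ⟨_, f, f1, f2⟩ := h.imp h3 (fun _ _ => 0) fun _ _ => rfl
  have hW2 := h4 ⟨f, f1, fun u v huv => (f2 u v huv).1⟩
  obtain ⟨F, hF, hhit⟩ := hit hW2 DE.ne hm hn
  rcases isEmpty_or_nonempty (DE H₂) with he | ⟨⟨d₀⟩⟩
  · have hA : Arrows (⊥ : SimpleGraph (Fin b)) H₂ 2 := fun c _ =>
      ⟨0, id, injective_id, fun u v huv => (DE.of_adj huv).elim fun d _ => he.elim d⟩
    obtain ⟨_, g, -, g2⟩ := h.symm.imp hA (fun _ _ => 0) fun _ _ => rfl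
    have hD : D.Nonempty := by
      rw [← Finset.card_pos]
      have h5 : (3 : ℝ) ≤ K.card := by exact_mod_cast hK.1.symm ▸ hn
      have : (0 : ℝ) < D.card := by rw [hK.2.2.1]; nlinarith
      exact_mod_cast this
    obtain ⟨d, -⟩ := hD
    exact (g2 _ _ d.2.2).1.elim
  · obtain ⟨U', _, G', h5, h6⟩ := host_split H₁ H₂ B ha h2 hB hm hn hK hW2 d₀ F hF hhit
    exact h6 (h.symm.imp h5)

end Pool.Agent.Lib.MP_781e3b_co.RR
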