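import Pool.Agent.Lib.MP_781e3b_co.RR.Fo0

/-!
Forests of copies and forests of sets.
-/

namespace Pool.Agent.Lib.MP_781e3b_co.RR

open Set Function

variable {C W V C' W' V' : Type} {S : Sys C W V} {full full' : Prop} {Cs : Set C} {Z : Set W}
  {R : Set (W × V)}

/-- Induction on the forest with the hypothesis `Cs = ∅`; `SF.glue` with `SF.anti` for `glueV`,
`SF.glueW` for `glueW`. -/
theorem Fo.toSF (h : Fo S full Cs Z R) (hC : Cs = ∅) : SF (fun z => {v | (z, v) ∈ R}) Z := by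
  induction h with
  | empty => exact SF.empty
  | atom P Z R _ _ _ => exact absurd hC (singleton_ne_empty P)
  | star z R _ _ => exact SF.single z
  | @glueV C₁ C₂ Z₁ Z₂ R₁ R₂ h₁ h₂ _ hW hV ih₁ ih₂ =>
    have a₁ : ∀ z ∈ Z₁, ∀ u, (z, u) ∈ R₁ ∪ R₂ → (z, u) ∈ R₁ := fun z hz u hu =>
      hu.elim id fun h => (disjoint_left.1 hW (Or.inr hz) (Or.inr (h₂.sound h).1)).elim
    have a₂ : ∀ z ∈ Z₂, ∀ u, (z, u) ∈ R₁ ∪ R₂ → (z, u) ∈ R₂ := fun z hz u hu =>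
      hu.elim (fun h => (disjoint_left.1 hW (Or.inr (h₁.sound h).1) (Or.inr hz)).elim) id
    refine SF.glue
      ((ih₁ (union_empty_iff.1 hC).1).anti Subset.rfl fun z hz z' hz' _ u hu hu' =>
        ⟨a₁ z hz u hu, a₁ z' hz' u hu'⟩)
      ((ih₂ (union_empty_iff.1 hC).2).anti Subset.rfl fun z hz z' hz' _ u hu hu' =>
        ⟨a₂ z hz u hu, a₂ z' hz' u hu'⟩)
      (disjoint_left.2 fun z hz hz' => disjoint_left.1 hW (Or.inr hz) (Or.inr hz')) (hV.anti ?_)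
    rintro u ⟨⟨z, hz, hu⟩, z', hz', hu'⟩
    exact ⟨Or.inr ⟨z, a₁ z hz u hu⟩, Or.inr ⟨z', a₂ z' hz' u hu'⟩⟩
  | @glueW y C₁ C₂ Z₁ Z₂ R₁ R₂ h₁ h₂ _ hy₁ hy₂ hW hV ih₁ ih₂ =>
    refine SF.glueW (ih₁ (union_empty_iff.1 hC).1) (ih₂ (union_empty_iff.1 hC).2) hy₁ hy₂
      (fun z hz hz' => hW z (Or.inr hz) (Or.inr hz')) (fun z v hv => (h₁.sound hv).1)
      (fun z v hv => (h₂.sound hv).1) ?_
    rintro u ⟨z, _, hu⟩ ⟨z', _, hu'⟩
    exact hV u (Or.inr ⟨z, hu⟩) (Or.inr ⟨z', hu'⟩)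

theorem SF.toFo {X : Set W} (h : SF S.N X) :
    Fo S full ∅ X {p | p.1 ∈ X ∧ p.2 ∈ S.N p.1} := by
  induction h with
  | empty =>
    have e : {p : W × V | p.1 ∈ (∅ : Set W) ∧ p.2 ∈ S.N p.1} = ∅ :=
      eq_empty_of_forall_notMem fun p hp => hp.1
    rw [e]
    exact Fo.empty
  | single z =>
    refine Fo.star z _ (fun y v hv => ?_) fun _ v hv => ⟨rfl, hv⟩
    obtain ⟨h1, h2⟩ := hv
    obtain rfl : y = z := h1
    exact ⟨rfl, h2⟩
  | @glue X Y _ _ hd hs ih₁ ih₂ =>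
    have e : {p : W × V | p.1 ∈ X ∪ Y ∧ p.2 ∈ S.N p.1} =
        {p : W × V | p.1 ∈ X ∧ p.2 ∈ S.N p.1} ∪ {p : W × V | p.1 ∈ Y ∧ p.2 ∈ S.N p.1} := by
      ext p
      exact ⟨fun hp => hp.1.elim (fun h => Or.inl ⟨h, hp.2⟩) fun h => Or.inr ⟨h, hp.2⟩,
        fun hp => hp.elim (fun h => ⟨Or.inl h.1, h.2⟩) fun h => ⟨Or.inr h.1, h.2⟩⟩
    have key := Fo.glueV ih₁ ih₂ (empty_disjoint _) (disjoint_left.2 ?_) (hs.anti ?_)
    · rw [union_empty] at key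
      rw [e]
      exact key
    · rintro z (⟨P, hP, _⟩ | hz) (⟨Q, hQ, _⟩ | hz')
      exacts [hP, hP, hQ, disjoint_left.1 hd hz hz']
    · rintro u ⟨⟨P, hP, _⟩ | ⟨z, hz⟩, ⟨Q, hQ, _⟩ | ⟨z', hz'⟩⟩
      exacts [hP.elim, hP.elim, hQ.elim, ⟨⟨z, hz.1, hz.2⟩, z', hz'.1, hz'.2⟩]

/-- Induction: in `glueW z` the common points lie in `N z ∩ T`. -/
theorem Fo.trace (h : Fo S full Cs Z R) (T : Set V) (hT : ∀ z, (S.N z ∩ T).Subsingleton) :
    SF (fun P => S.vb P ∩ T) Cs := by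
  induction h with
  | empty => exact SF.empty
  | atom P Z R _ _ _ => exact SF.single P
  | star z R _ _ => exact SF.empty
  | glueV _ _ hd _ hV ih₁ ih₂ =>
    refine SF.glue ih₁ ih₂ hd (hV.anti ?_)
    rintro u ⟨⟨P, hP, hu⟩, Q, hQ, hu'⟩
    exact ⟨Or.inl ⟨P, hP, hu.1⟩, Or.inl ⟨Q, hQ, hu'.1⟩⟩
  | glueW y h₁ _ hd _ _ _ hV ih₁ ih₂ =>
    refine SF.glue ih₁ ih₂ hd ((hT y).anti ?_)
    rintro u ⟨⟨P, hP, hu⟩, Q, hQ, hu'⟩
    exact ⟨(h₁.sound (hV u (Or.inl ⟨P, hP, hu.1⟩) (Or.inl ⟨Q, hQ, hu'.1⟩)).1).2, hu.2⟩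

theorem FP.trace {n : ℕ} (h : FP S full n) (T : Set V) (hT : ∀ z, (S.N z ∩ T).Subsingleton) :
    Gir (fun P => S.vb P ∩ T) n := by
  intro X hX
  obtain ⟨Cs, Z, R, h1, h2⟩ := h X ∅ (by simpa using hX)
  exact (h1.trace T hT).subset fun P hP => h2.cp P hP

/-- Induction; let `P` be on side 1. `glueV`: if `(z, v)` or `(z, w)` is in `R₂` then `z ∈ Z₂`, so
`z ∉ Z₁`, both are in `R₂`, and `v, w` are two common points. `glueW y`: a pair in `R₂` gives a common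
point, which is in `R₁` with `y`; if `z ≠ y` and `z ∈ Z₂`, then `v, w ∈ N z ∩ N y`. -/
theorem Fo.si (h : Fo S full Cs Z R) (hl : Lin S.N) {P : C} (hP : P ∈ Cs) {z : W} {v w : V}
    (hv : (z, v) ∈ R) (hw : (z, w) ∈ R) (hne : v ≠ w) (hv' : v ∈ S.vb P) (hw' : w ∈ S.vb P) :
    z ∈ S.wb P := by
  induction h with
  | empty => exact hP.elim
  | atom Q Z R hZ hR _ =>
    obtain rfl : P = Q := hP
    exact hZ (hR z v hv).1
  | star y R _ _ => exact hP.elim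
  | @glueV C₁ C₂ Z₁ Z₂ R₁ R₂ h₁ h₂ _ hW hV ih₁ ih₂ =>
    have mix : ∀ a b, (z, a) ∈ R₁ → (z, b) ∈ R₂ → False := fun a b ha hb =>
      disjoint_left.1 hW (Or.inr (h₁.sound ha).1) (Or.inr (h₂.sound hb).1)
    rcases hv with hv | hv <;> rcases hw with hw | hw
    · rcases hP with hP | hP
      · exact ih₁ hP hv hw
      · exact (hne (hV ⟨Or.inr ⟨z, hv⟩, Or.inl ⟨P, hP, hv'⟩⟩
          ⟨Or.inr ⟨z, hw⟩, Or.inl ⟨P, hP, hw'⟩⟩)).elim
    · exact (mix v w hv hw).elim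
    · exact (mix w v hw hv).elim
    · rcases hP with hP | hP
      · exact (hne (hV ⟨Or.inl ⟨P, hP, hv'⟩, Or.inr ⟨z, hv⟩⟩
          ⟨Or.inl ⟨P, hP, hw'⟩, Or.inr ⟨z, hw⟩⟩)).elim
      · exact ih₂ hP hv hw
  | @glueW y C₁ C₂ Z₁ Z₂ R₁ R₂ h₁ h₂ _ hy₁ hy₂ hW hV ih₁ ih₂ =>
    have mix : ∀ a b, (z, a) ∈ R₁ → (z, b) ∈ R₂ → z = y := fun a b ha hb =>
      hW z (Or.inr (h₁.sound ha).1) (Or.inr (h₂.sound hb).1)
    rcases hP with hP | hP
    · have a : ∀ u ∈ S.vb P, (z, u) ∈ R₂ → (y, u) ∈ R₁ := fun u hu h =>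
        (hV u (Or.inl ⟨P, hP, hu⟩) (Or.inr ⟨z, h⟩)).1
      by_cases hzy : z = y
      · subst hzy
        exact ih₁ hP (hv.elim id (a v hv')) (hw.elim id (a w hw'))
      · rcases hv with hv | hv <;> rcases hw with hw | hw
        · exact ih₁ hP hv hw
        · exact (hzy (mix v w hv hw)).elim
        · exact (hzy (mix w v hw hv)).elim
        · exact (hne (hl z y hzy ⟨(h₂.sound hv).2, (h₁.sound (a v hv' hv)).2⟩
            ⟨(h₂.sound hw).2, (h₁.sound (a w hw' hw)).2⟩)).elim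
    · have a : ∀ u ∈ S.vb P, (z, u) ∈ R₁ → (y, u) ∈ R₂ := fun u hu h =>
        (hV u (Or.inr ⟨z, h⟩) (Or.inl ⟨P, hP, hu⟩)).2
      by_cases hzy : z = y
      · subst hzy
        exact ih₂ hP (hv.elim (a v hv') id) (hw.elim (a w hw') id)
      · rcases hv with hv | hv <;> rcases hw with hw | hw
        · exact (hne (hl z y hzy ⟨(h₁.sound hv).2, (h₂.sound (a v hv' hv)).2⟩
            ⟨(h₁.sound hw).2, (h₂.sound (a w hw' hw)).2⟩)).elim
        · exact (hzy (mix v w hv hw)).elim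
        · exact (hzy (mix w v hw hv)).elim
        · exact ih₂ hP hv hw

theorem FP.si {n : ℕ} (h : FP S full n) (hn : 2 ≤ n) (hl : Lin S.N) {P : C} {z : W}
    (hz : z ∉ S.wb P) : (S.N z ∩ S.vb P).Subsingleton := by
  intro v hv w hw
  by_contra hne
  obtain ⟨Cs, Z, R, h1, h2⟩ := h {P} {z} (by simpa using hn)
  exact hz (h1.si hl (h2.cp P (by simp)) (h2.st z (by simp) v hv.1) (h2.st z (by simp) w hw.1) hne
    hv.2 hw.2)

/-- Nothing, one atom without stars, or one star. -/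
theorem FP.one (S : Sys C W V) (full : Prop) : FP S full 1 := by
  intro XP XW hX
  rcases XW.eq_empty_or_nonempty with rfl | ⟨z, hz⟩
  · rcases XP.eq_empty_or_nonempty with rfl | ⟨P, hP⟩
    · exact ⟨∅, ∅, ∅, Fo.empty, fun P hP => by simp at hP, fun z hz => by simp at hz,
        fun z hz => by simp at hz, fun P z hz => by simp at hz⟩
    · have h1 : XP.card ≤ 1 := by omega
      exact ⟨{P}, ∅, ∅, Fo.atom P ∅ ∅ (empty_subset _) (fun _ _ h => h.elim) fun _ _ h => h.elim,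
        fun Q hQ => Finset.card_le_one.1 h1 Q hQ P hP, fun z hz => by simp at hz,
        fun z hz => by simp at hz, fun P z hz => by simp at hz⟩
  · have h0 : 0 < XW.card := Finset.card_pos.2 ⟨z, hz⟩
    have h1 : XW.card ≤ 1 := by omega
    have h2 : XP = ∅ := Finset.card_eq_zero.1 (by omega)
    have e : ∀ y ∈ XW, y = z := fun y hy => Finset.card_le_one.1 h1 y hy z hz
    subst h2
    exact ⟨∅, {z}, {p | p.1 = z ∧ p.2 ∈ S.N z},
      Fo.star z _ (fun _ _ h => h) fun _ _ hv => ⟨rfl, hv⟩, fun P hP => by simp at hP,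
      fun y hy => e y hy, fun y hy v hv => ⟨e y hy, e y hy ▸ hv⟩,
      fun P y hy y' hy' hne => (hne ((e y hy).trans (e y' hy').symm)).elim⟩

theorem FP.gir [IsEmpty C] {n : ℕ} (h : FP S full n) : Gir S.N n := by
  intro X hX
  obtain ⟨Cs, Z, R, h1, h2⟩ := h ∅ X (by simpa using hX)
  exact (h1.toSF (eq_empty_of_isEmpty _)).anti (fun z hz => h2.wg z hz)
    fun z hz z' hz' _ u hu hu' => ⟨h2.st z hz u hu, h2.st z' hz' u hu'⟩

theorem Gir.fp [IsEmpty C] {n : ℕ} (h : Gir S.N n) : FP S full n := fun XP XW hX =>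
  ⟨∅, XW, _, (h XW (by omega)).toFo, fun P => isEmptyElim P, fun _ hz => hz,
    fun _ hz _ hv => ⟨hz, hv⟩, fun P => isEmptyElim P⟩

end Pool.Agent.Lib.MP_781e3b_co.RR
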