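import Pool.Agent.Lib.MP_781e3b_co.RR.SF

/-!
Forests of copies: basic operations.
-/

namespace Pool.Agent.Lib.MP_781e3b_co.RR

open Set Function

variable {C W V C' W' V' : Type} {S : Sys C W V} {full full' : Prop} {Cs : Set C} {Z : Set W}
  {R : Set (W × V)}

theorem Sys.BV_union (S : Sys C W V) (C₁ C₂ : Set C) (R₁ R₂ : Set (W × V)) :
    S.BV (C₁ ∪ C₂) (R₁ ∪ R₂) = S.BV C₁ R₁ ∪ S.BV C₂ R₂ := by
  ext v
  simp only [Sys.BV, mem_ofPred_eq, mem_union]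
  constructor
  · rintro (⟨P, hP | hP, h⟩ | ⟨z, h | h⟩)
    exacts [Or.inl (Or.inl ⟨P, hP, h⟩), Or.inr (Or.inl ⟨P, hP, h⟩), Or.inl (Or.inr ⟨z, h⟩),
      Or.inr (Or.inr ⟨z, h⟩)]
  · rintro ((⟨P, hP, h⟩ | ⟨z, h⟩) | (⟨P, hP, h⟩ | ⟨z, h⟩))
    exacts [Or.inl ⟨P, Or.inl hP, h⟩, Or.inr ⟨z, Or.inl h⟩, Or.inl ⟨P, Or.inr hP, h⟩,
      Or.inr ⟨z, Or.inr h⟩]

theorem Sys.BW_union (S : Sys C W V) (C₁ C₂ : Set C) (Z₁ Z₂ : Set W) :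
    S.BW (C₁ ∪ C₂) (Z₁ ∪ Z₂) = S.BW C₁ Z₁ ∪ S.BW C₂ Z₂ := by
  ext v
  simp only [Sys.BW, mem_ofPred_eq, mem_union]
  constructor
  · rintro (⟨P, hP | hP, h⟩ | h | h)
    exacts [Or.inl (Or.inl ⟨P, hP, h⟩), Or.inr (Or.inl ⟨P, hP, h⟩), Or.inl (Or.inr h),
      Or.inr (Or.inr h)]
  · rintro ((⟨P, hP, h⟩ | h) | (⟨P, hP, h⟩ | h))
    exacts [Or.inl ⟨P, Or.inl hP, h⟩, Or.inr (Or.inl h), Or.inl ⟨P, Or.inr hP, h⟩,
      Or.inr (Or.inr h)]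

theorem Fo.sound (h : Fo S full Cs Z R) {z : W} {v : V} (hz : (z, v) ∈ R) : z ∈ Z ∧ v ∈ S.N z := by
  induction h with
  | empty => exact hz.elim
  | atom P Z R _ h _ => exact ⟨(h z v hz).1, (h z v hz).2.2⟩
  | star y R h _ => exact ⟨(h z v hz).1, (h z v hz).1 ▸ (h z v hz).2⟩
  | glueV _ _ _ _ _ ih₁ ih₂ =>
    exact hz.elim (fun h => ⟨Or.inl (ih₁ h).1, (ih₁ h).2⟩) fun h => ⟨Or.inr (ih₂ h).1, (ih₂ h).2⟩
  | glueW _ _ _ _ _ _ _ _ ih₁ ih₂ =>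
    exact hz.elim (fun h => ⟨Or.inl (ih₁ h).1, (ih₁ h).2⟩) fun h => ⟨Or.inr (ih₂ h).1, (ih₂ h).2⟩

theorem Fo.fullst (h : Fo S full Cs Z R) (hf : full) {z : W} (hz : z ∈ Z) {v : V}
    (hv : v ∈ S.N z) : (z, v) ∈ R := by
  induction h with
  | empty => exact hz.elim
  | atom P Z R _ _ h => exact h hf z hz v hv
  | star y R _ h => obtain rfl : z = y := hz; exact h hf v hv
  | glueV _ _ _ _ _ ih₁ ih₂ => exact hz.elim (fun h => Or.inl (ih₁ h)) fun h => Or.inr (ih₂ h)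
  | glueW _ _ _ _ _ _ _ _ ih₁ ih₂ =>
    exact hz.elim (fun h => Or.inl (ih₁ h)) fun h => Or.inr (ih₂ h)

theorem Fo.weaken (h : Fo S full Cs Z R) (hf : full' → full) : Fo S full' Cs Z R := by
  induction h with
  | empty => exact .empty
  | atom P Z R h1 h2 h3 => exact .atom P Z R h1 h2 fun h => h3 (hf h)
  | star y R h1 h2 => exact .star y R h1 fun h => h2 (hf h)
  | glueV _ _ h1 h2 h3 ih₁ ih₂ => exact .glueV ih₁ ih₂ h1 h2 h3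
  | glueW z _ _ h1 h2 h3 h4 h5 ih₁ ih₂ => exact .glueW z ih₁ ih₂ h1 h2 h3 h4 h5

theorem FP.weaken {n : ℕ} (h : FP S full n) (hf : full' → full) : FP S full' n :=
  fun XP XW hX =>
    let ⟨Cs, Z, R, h1, h2⟩ := h XP XW hX
    ⟨Cs, Z, R, h1.weaken hf, h2⟩

theorem FP.mono {n n' : ℕ} (h : FP S full n) (hn : n' ≤ n) : FP S full n' :=
  fun XP XW hX => h XP XW (hX.trans hn)

end Pool.Agent.Lib.MP_781e3b_co.RR
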