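import Pool.Agent.Lib.MP_781e3b_co.RR.Fo0

/-!
Forests of copies: images, new stars, private points.
-/

namespace Pool.Agent.Lib.MP_781e3b_co.RR

open Set Function

variable {C W V C' W' V' : Type} {S : Sys C W V} {full full' : Prop} {Cs : Set C} {Z : Set W}
  {R : Set (W × V)}

namespace Fo1Aux

theorem BV_map {S' : Sys C' W' V'} {fC : C → C'} {fW : W → W'} {fV : V → V'}
    (hvb : ∀ P, S'.vb (fC P) = fV '' S.vb P) (Cs : Set C) (R : Set (W × V)) :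
    S'.BV (fC '' Cs) (Prod.map fW fV '' R) = fV '' S.BV Cs R := by
  ext v
  constructor
  · rintro (⟨_, ⟨P, hP, rfl⟩, h⟩ | ⟨z, ⟨y, u⟩, h, e⟩)
    · rw [hvb] at h
      obtain ⟨u, hu, rfl⟩ := h
      exact ⟨u, Or.inl ⟨P, hP, hu⟩, rfl⟩
    · exact ⟨u, Or.inr ⟨y, h⟩, congrArg Prod.snd e⟩
  · rintro ⟨u, ⟨P, hP, h⟩ | ⟨y, h⟩, rfl⟩
    · exact Or.inl ⟨fC P, ⟨P, hP, rfl⟩, by rw [hvb]; exact ⟨u, h, rfl⟩⟩
    · exact Or.inr ⟨fW y, (y, u), h, rfl⟩

theorem BW_map {S' : Sys C' W' V'} {fC : C → C'} {fW : W → W'}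
    (hwb : ∀ P, S'.wb (fC P) = fW '' S.wb P) (Cs : Set C) (Z : Set W) :
    S'.BW (fC '' Cs) (fW '' Z) = fW '' S.BW Cs Z := by
  ext v
  constructor
  · rintro (⟨_, ⟨P, hP, rfl⟩, h⟩ | ⟨y, h, e⟩)
    · rw [hwb] at h
      obtain ⟨u, hu, rfl⟩ := h
      exact ⟨u, Or.inl ⟨P, hP, hu⟩, rfl⟩
    · exact ⟨y, Or.inr h, e⟩
  · rintro ⟨u, ⟨P, hP, h⟩ | h, rfl⟩
    · exact Or.inl ⟨fC P, ⟨P, hP, rfl⟩, by rw [hwb]; exact ⟨u, h, rfl⟩⟩
    · exact Or.inr ⟨u, h, rfl⟩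

theorem BV_up {P : C} (hP : P ∈ Cs) (z : W) {T : Set V} (hT : T ⊆ S.vb P) (R : Set (W × V)) :
    S.BV Cs (R ∪ {z} ×ˢ T) = S.BV Cs R := by
  ext v
  constructor
  · rintro (h | ⟨y, h | h⟩)
    exacts [Or.inl h, Or.inr ⟨y, h⟩, Or.inl ⟨P, hP, hT h.2⟩]
  · rintro (h | ⟨y, h⟩)
    exacts [Or.inl h, Or.inr ⟨y, Or.inl h⟩]

theorem BW_up {P : C} (hP : P ∈ Cs) {z : W} (hz : z ∈ S.wb P) (Z : Set W) :
    S.BW Cs (insert z Z) = S.BW Cs Z := by
  ext v
  constructor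
  · rintro (h | rfl | h)
    exacts [Or.inl h, Or.inl ⟨P, hP, hz⟩, Or.inr h]
  · rintro (h | h)
    exacts [Or.inl h, Or.inr (Or.inr h)]

end Fo1Aux

open Fo1Aux

/-- Induction on the forest; images commute with unions, and
`S'.BV (fC '' Cs) (Prod.map fW fV '' R) = fV '' S.BV Cs R`,
`S'.BW (fC '' Cs) (fW '' Z) = fW '' S.BW Cs Z`. -/
theorem Fo.map {S' : Sys C' W' V'} (h : Fo S full Cs Z R) {fC : C → C'} {fW : W → W'} {fV : V → V'}
    (hC : Injective fC) (hW : Injective fW) (hV : Injective fV)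
    (hvb : ∀ P, S'.vb (fC P) = fV '' S.vb P) (hwb : ∀ P, S'.wb (fC P) = fW '' S.wb P)
    (hN : ∀ y, ∀ u ∈ S.N y, fV u ∈ S'.N (fW y))
    (hf : full → ∀ y, S'.N (fW y) ⊆ fV '' S.N y) :
    Fo S' full (fC '' Cs) (fW '' Z) (Prod.map fW fV '' R) := by
  induction h with
  | empty => simpa using Fo.empty
  | atom P Z R h1 h2 h3 =>
    rw [image_singleton]
    refine Fo.atom _ _ _ (by rw [hwb]; exact image_mono h1) ?_ ?_
    · rintro z v ⟨⟨y, u⟩, h, e⟩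
      obtain ⟨rfl, rfl⟩ := Prod.mk.inj e
      obtain ⟨a, b, c⟩ := h2 y u h
      exact ⟨⟨y, a, rfl⟩, by rw [hvb]; exact ⟨u, b, rfl⟩, hN y u c⟩
    · rintro hfu _ ⟨y, hy, rfl⟩ v hv
      obtain ⟨u, hu, rfl⟩ := hf hfu y hv
      exact ⟨(y, u), h3 hfu y hy u hu, rfl⟩
  | star z R h1 h2 =>
    rw [image_singleton, image_empty]
    refine Fo.star _ _ ?_ ?_
    · rintro y' v ⟨⟨y, u⟩, h, e⟩
      obtain ⟨rfl, rfl⟩ := Prod.mk.inj e
      obtain ⟨rfl, c⟩ := h1 y u h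
      exact ⟨rfl, hN y u c⟩
    · rintro hfu v hv
      obtain ⟨u, hu, rfl⟩ := hf hfu z hv
      exact ⟨(z, u), h2 hfu u hu, rfl⟩
  | glueV _ _ h1 h2 h3 ih₁ ih₂ =>
    rw [image_union, image_union, image_union]
    refine Fo.glueV ih₁ ih₂ ((disjoint_image_iff hC).2 h1) ?_ ?_
    · rw [BW_map hwb, BW_map hwb]
      exact (disjoint_image_iff hW).2 h2
    · rw [BV_map hvb, BV_map hvb, ← image_inter hV]
      exact h3.image _
  | glueW z _ _ h1 h2 h3 h4 h5 ih₁ ih₂ =>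
    rw [image_union, image_union, image_union]
    refine Fo.glueW (fW z) ih₁ ih₂ ((disjoint_image_iff hC).2 h1) ⟨z, h2, rfl⟩ ⟨z, h3, rfl⟩ ?_ ?_
    · rw [BW_map hwb, BW_map hwb]
      rintro _ ⟨y, hy, rfl⟩ ⟨y', hy', e⟩
      obtain rfl := hW e
      exact congrArg fW (h4 _ hy hy')
    · rw [BV_map hvb, BV_map hvb]
      rintro _ ⟨u, hu, rfl⟩ ⟨u', hu', e⟩
      obtain rfl := hV e
      obtain ⟨a, b⟩ := h5 _ hu hu'
      exact ⟨⟨(z, u'), a, rfl⟩, (z, u'), b, rfl⟩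

/-- Induction on the forest: go to the side that holds `P`; `BV` and `BW` of that side do not
change. -/
theorem Fo.starUp (h : Fo S full Cs Z R) {P : C} (hP : P ∈ Cs) {z : W} (hz : z ∈ S.wb P)
    {T : Set V} (hT : T ⊆ S.vb P ∩ S.N z) (hf : full → S.N z ⊆ T) :
    Fo S full Cs (insert z Z) (R ∪ {z} ×ˢ T) := by
  have hT1 : T ⊆ S.vb P := fun v hv => (hT hv).1
  induction h with
  | empty => exact hP.elim
  | atom P' Z R h1 h2 h3 =>
    obtain rfl : P = P' := hP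
    refine Fo.atom _ _ _ (insert_subset hz h1) ?_ ?_
    · rintro y v (h | ⟨h, h'⟩)
      · obtain ⟨a, b, c⟩ := h2 y v h
        exact ⟨Or.inr a, b, c⟩
      · obtain rfl : y = z := h
        exact ⟨Or.inl rfl, (hT h').1, (hT h').2⟩
    · rintro hfu y (rfl | hy) v hv
      · exact Or.inr ⟨rfl, hf hfu hv⟩
      · exact Or.inl (h3 hfu y hy v hv)
  | star => exact hP.elim
  | glueV f1 f2 h1 h2 h3 ih₁ ih₂ =>
    rcases hP with hP | hP
    · rw [← insert_union, union_right_comm]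
      exact Fo.glueV (ih₁ hP) f2 h1 (by rwa [BW_up hP hz]) (by rwa [BV_up hP z hT1])
    · rw [← union_insert, union_assoc]
      exact Fo.glueV f1 (ih₂ hP) h1 (by rwa [BW_up hP hz]) (by rwa [BV_up hP z hT1])
  | glueW y f1 f2 h1 h2 h3 h4 h5 ih₁ ih₂ =>
    rcases hP with hP | hP
    · rw [← insert_union, union_right_comm]
      refine Fo.glueW y (ih₁ hP) f2 h1 (Or.inr h2) h3 (by rwa [BW_up hP hz]) ?_
      rw [BV_up hP z hT1]
      exact fun v hv hv' => ⟨Or.inl (h5 v hv hv').1, (h5 v hv hv').2⟩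
    · rw [← union_insert, union_assoc]
      refine Fo.glueW y f1 (ih₂ hP) h1 h2 (Or.inr h3) (by rwa [BW_up hP hz]) ?_
      rw [BV_up hP z hT1]
      exact fun v hv hv' => ⟨(h5 v hv hv').1, Or.inl (h5 v hv hv').2⟩

/-- If `full`, then `T` is empty (`Fo.fullst`). Else `glueW` with the star `{z} ×ˢ T`. -/
theorem Fo.addPriv (h : Fo S full Cs Z R) {z : W} (hz : z ∈ Z) {T : Set V} (hT : T ⊆ S.N z)
    (hd : Disjoint T (S.BV Cs R)) : Fo S full Cs Z (R ∪ {z} ×ˢ T) := by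
  by_cases hfu : full
  · have : T = ∅ := eq_empty_of_forall_notMem fun v hv =>
      disjoint_left.1 hd hv (Or.inr ⟨z, h.fullst hfu hz (hT hv)⟩)
    rw [this, prod_empty, union_empty]
    exact h
  · have hs : Fo S full ∅ {z} ({z} ×ˢ T) :=
      Fo.star z _ (fun y v hv => ⟨hv.1, hT hv.2⟩) fun h => (hfu h).elim
    have := Fo.glueW z h hs (disjoint_empty _) hz rfl
      (by
        rintro y - (⟨P, hP, -⟩ | hy)
        exacts [hP.elim, hy])
      (by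
        rintro v hv (⟨P, hP, -⟩ | ⟨y, hy⟩)
        exacts [hP.elim, (disjoint_left.1 hd hy.2 hv).elim])
    rwa [union_empty, union_eq_self_of_subset_right (singleton_subset_iff.2 hz)] at this

/-- Induction on `X` with `Fo.addPriv` for `T = N z \ BV Cs R`. -/
theorem Fo.addPrivs (h : Fo S full Cs Z R) (X : Finset W) (hX : ∀ z ∈ X, z ∈ Z)
    (h1 : ∀ z ∈ X, ∀ v ∈ S.N z, v ∈ S.BV Cs R → (z, v) ∈ R)
    (h2 : ∀ z ∈ X, ∀ z' ∈ X, z ≠ z' → ∀ v ∈ S.N z, v ∈ S.N z' → v ∈ S.BV Cs R) :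
    Fo S full Cs Z (R ∪ {p | p.1 ∈ X ∧ p.2 ∈ S.N p.1}) := by
  classical
  induction X using Finset.induction_on with
  | empty => simpa using h
  | insert a X ha ih =>
    have m : ∀ z ∈ X, z ∈ insert a X := fun z hz => Finset.mem_insert_of_mem hz
    have ma : a ∈ insert a X := Finset.mem_insert_self a X
    have ih' := ih (fun z hz => hX z (m z hz)) (fun z hz => h1 z (m z hz))
      fun z hz z' hz' => h2 z (m z hz) z' (m z' hz')
    have key := ih'.addPriv (hX a ma) (T := S.N a \ S.BV Cs R) sdiff_subset (by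
      refine disjoint_left.2 ?_
      rintro v ⟨hv, hn⟩ (hb | ⟨y, hb | ⟨hy, hb⟩⟩)
      · exact hn (Or.inl hb)
      · exact hn (Or.inr ⟨y, hb⟩)
      · exact hn (h2 a ma y (m y hy) (fun e => ha (e ▸ hy)) v hv hb))
    convert key using 1
    ext ⟨y, v⟩
    constructor
    · rintro (hb | ⟨hy, hb⟩)
      · exact Or.inl (Or.inl hb)
      · rcases Finset.mem_insert.1 hy with e | hy
        · obtain rfl : y = a := e
          by_cases hv : v ∈ S.BV Cs R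
          · exact Or.inl (Or.inl (h1 y ma v hb hv))
          · exact Or.inr ⟨rfl, hb, hv⟩
        · exact Or.inl (Or.inr ⟨hy, hb⟩)
    · rintro ((hb | ⟨hy, hb⟩) | ⟨e, hb⟩)
      · exact Or.inl hb
      · exact Or.inr ⟨m y hy, hb⟩
      · obtain rfl : y = a := e
        exact Or.inr ⟨ma, hb.1⟩

/-- Disjoint copies, each wagon in the copy `o z`, with private points outside. Take the copies
`XP ∪ XW.image o`; for each of them the atom with `Z = {z ∈ XW | o z = P}` and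
`R = {(z, v) | z ∈ Z, v ∈ vb P ∩ N z}`; join them by `glueV` (induction on the finite set of
copies), then `Fo.addPrivs`. -/
theorem fp_sum (S : Sys C W V) (full : Prop) (n : ℕ) (o : W → C) (ho : ∀ z P, z ∈ S.wb P ↔ o z = P)
    (hd : ∀ P P', P ≠ P' → ∀ v ∈ S.vb P, v ∉ S.vb P')
    (h1 : ∀ z P, ∀ v ∈ S.N z, v ∈ S.vb P → o z = P)
    (h2 : ∀ z z', z ≠ z' → ∀ v ∈ S.N z, v ∈ S.N z' → v ∈ S.vb (o z))
    (hf : full → S.Whole) : FP S full n := by
  classical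
  intro XP XW _
  let Zs : Set C → Set W := fun Y => {z | z ∈ XW ∧ o z ∈ Y}
  let Rs : Set C → Set (W × V) := fun Y =>
    {p | p.1 ∈ XW ∧ o p.1 ∈ Y ∧ p.2 ∈ S.vb (o p.1) ∧ p.2 ∈ S.N p.1}
  have bw : ∀ Y y, y ∈ S.BW Y (Zs Y) → o y ∈ Y := by
    rintro Y y (⟨P, hP, h⟩ | h)
    · exact (ho y P).1 h ▸ hP
    · exact h.2
  have bv : ∀ Y v, v ∈ S.BV Y (Rs Y) → ∃ P ∈ Y, v ∈ S.vb P := by
    rintro Y v (h | ⟨y, h⟩)
    · exact h
    · exact ⟨o y, h.2.1, h.2.2.1⟩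
  have main : ∀ Y : Finset C, Fo S full ↑Y (Zs ↑Y) (Rs ↑Y) := by
    intro Y
    induction Y using Finset.induction_on with
    | empty =>
      have e1 : Zs ∅ = ∅ := eq_empty_of_forall_notMem fun z hz => hz.2
      have e2 : Rs ∅ = ∅ := eq_empty_of_forall_notMem fun z hz => hz.2.1
      rw [Finset.coe_empty, e1, e2]
      exact Fo.empty
    | insert a Y ha ih =>
      have at1 : Fo S full {a} (Zs {a}) (Rs {a}) := by
        refine Fo.atom a _ _ (fun z hz => (ho z a).2 hz.2) ?_ ?_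
        · rintro z v ⟨a1, a2, a3, a4⟩
          exact ⟨⟨a1, a2⟩, (show o z = a from a2) ▸ a3, a4⟩
        · rintro hfu z ⟨a1, a2⟩ v hv
          exact ⟨a1, a2, hf hfu (o z) z ((ho z _).2 rfl) hv, hv⟩
      have := Fo.glueV at1 ih (disjoint_singleton_left.2 ha)
        (disjoint_left.2 fun y h1 h2 => ha ((show o y = a from bw _ y h1) ▸ bw _ y h2))
        (by
          rintro v ⟨hv, hv'⟩
          obtain ⟨P, hP, hu⟩ := bv _ v hv
          obtain ⟨P', hP', hu'⟩ := bv _ v hv'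
          have e0 : P = a := hP
          exact (hd P P' (fun e => ha (e0 ▸ e ▸ hP')) v hu hu').elim)
      rw [Finset.coe_insert, insert_eq]
      convert this using 1
      · ext z
        exact ⟨fun h => h.2.elim (fun e => Or.inl ⟨h.1, e⟩) fun e => Or.inr ⟨h.1, e⟩,
          fun h => h.elim (fun e => ⟨e.1, Or.inl e.2⟩) fun e => ⟨e.1, Or.inr e.2⟩⟩
      · ext z
        exact ⟨fun h => h.2.1.elim (fun e => Or.inl ⟨h.1, e, h.2.2⟩) fun e => Or.inr ⟨h.1, e, h.2.2⟩,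
          fun h => h.elim (fun e => ⟨e.1, Or.inl e.2.1, e.2.2⟩) fun e => ⟨e.1, Or.inr e.2.1, e.2.2⟩⟩
  have mo : ∀ z ∈ XW, o z ∈ (↑(XP ∪ XW.image o) : Set C) := fun z hz =>
    Finset.mem_coe.2 (Finset.mem_union_right _ (Finset.mem_image_of_mem o hz))
  refine ⟨_, _, _, (main (XP ∪ XW.image o)).addPrivs XW (fun z hz => ⟨hz, mo z hz⟩) ?_ ?_, ?_⟩
  · intro z hz v hv hb
    obtain ⟨P, -, hP⟩ := bv _ v hb
    exact ⟨hz, mo z hz, (h1 z P v hv hP).symm ▸ hP, hv⟩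
  · exact fun z hz z' _ hne v hv hv' => Or.inl ⟨o z, mo z hz, h2 z z' hne v hv hv'⟩
  · exact ⟨fun P hP => Finset.mem_coe.2 (Finset.mem_union_left _ hP), fun z hz => ⟨hz, mo z hz⟩,
      fun z hz v hv => Or.inr ⟨hz, hv⟩, fun P z hz _ _ _ hP _ => (ho z P).1 hP ▸ mo z hz⟩

end Pool.Agent.Lib.MP_781e3b_co.RR
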