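import Pool.Agent.Lib.MP_781e3b_co.RR.PotDefs

/-!
Tight sets and clusters of minimal tight sets.
-/

namespace Pool.Agent.Lib.MP_781e3b_co.RR

open Finset

variable {W V : Type} [Fintype W] [DecidableEq V] {x y : W → V} {m : ℝ} {n : ℕ}

namespace HitBaseAux

omit [DecidableEq V] in
theorem wk_ed (h : Wk x y m Set.univ) {K : Finset V} (h2 : 2 ≤ K.card) :
    ((ed x y K).card : ℝ) ≤ m * (K.card - 2) + 1 :=
  h K _ h2 (Set.subset_univ _) fun _ hd => mem_ed.1 hd

end HitBaseAux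

open HitBaseAux

/-- `D ⊆ ed K`, and `Wk` for `ed K` gives `|ed K| ≤ |D|`, so `D = ed K`. For `K' ⊂ K` use
`D' = ed K'`. -/
theorem MT.minT (h : Wk x y m Set.univ) (hn : 3 ≤ n) {K : Finset V} {D : Finset W}
    (hK : MT x y m n K D) : MinT x y m n K ∧ D = ed x y K := by
  obtain ⟨h1, h2, h3, h4⟩ := hK
  have h5 : 2 ≤ K.card := by omega
  have hs : D ⊆ ed x y K := fun d hd => mem_ed.2 (h2 d hd)
  have h6 := wk_ed h h5
  have e : D = ed x y K := eq_of_subset_of_card_le hs (by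
    have : ((ed x y K).card : ℝ) ≤ D.card := by linarith
    exact_mod_cast this)
  refine ⟨⟨h1, ⟨h5, e ▸ h3⟩, fun K' hK' h7 h8 => ?_⟩, e⟩
  have := h4 K' hK' h7 (ed x y K') (fun d hd => by
    rw [e]
    exact mem_ed.2 ⟨hK'.subset (mem_ed.1 hd).1, hK'.subset (mem_ed.1 hd).2⟩)
    fun _ hd => mem_ed.1 hd
  linarith [h8.2]

/-- `Wk` for `K = {x d, y d}` and `D = {d, d'}`: no parallel edges. -/
theorem Wk.simple (h : Wk x y m Set.univ) (hxy : ∀ d, x d ≠ y d) {d d' : W}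
    (h1 : x d' = x d ∨ x d' = y d) (h2 : y d' = x d ∨ y d' = y d) : d' = d := by
  classical
  by_contra hne
  have := h {x d, y d} {d', d} (by rw [card_pair (hxy d)]) (Set.subset_univ _) (by
    intro e he
    simp only [mem_insert, mem_singleton] at he ⊢
    rcases he with rfl | rfl
    · exact ⟨h1, h2⟩
    · exact ⟨Or.inl rfl, Or.inr rfl⟩)
  rw [card_pair (hxy d), card_pair hne] at this
  norm_num at this

/-- `ed K ∪ ed L ⊆ ed (K ∪ L)`, `ed K ∩ ed L = ed (K ∩ L)`, inclusion-exclusion for the cards and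
`Wk` for `K ∪ L` and `K ∩ L`. -/
theorem Tight.union (h : Wk x y m Set.univ) {K L : Finset V} (hK : Tight x y m K)
    (hL : Tight x y m L) (h2 : 2 ≤ (K ∩ L).card) :
    Tight x y m (K ∪ L) ∧ Tight x y m (K ∩ L) ∧
      ∀ d ∈ ed x y (K ∪ L), d ∈ ed x y K ∨ d ∈ ed x y L := by
  classical
  have h3 : 2 ≤ (K ∪ L).card := hK.1.trans (card_le_card subset_union_left)
  have a1 := wk_ed h h2
  have a2 := wk_ed h h3
  have e1 : ed x y K ∩ ed x y L = ed x y (K ∩ L) := by
    ext d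
    simp only [mem_inter, mem_ed]
    tauto
  have e2 : ed x y K ∪ ed x y L ⊆ ed x y (K ∪ L) := by
    intro d hd
    simp only [mem_union, mem_ed] at hd ⊢
    tauto
  have c1 : (((ed x y K ∪ ed x y L).card : ℕ) : ℝ) + (ed x y (K ∩ L)).card =
      (ed x y K).card + (ed x y L).card := by
    rw [← e1]
    exact_mod_cast card_union_add_card_inter _ _
  have c2 : (((K ∪ L).card : ℕ) : ℝ) + (K ∩ L).card = K.card + L.card := by
    exact_mod_cast card_union_add_card_inter _ _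
  have c3 : (((ed x y K ∪ ed x y L).card : ℕ) : ℝ) ≤ (ed x y (K ∪ L)).card := by
    exact_mod_cast card_le_card e2
  have c4 : m * (((K ∪ L).card : ℕ) - 2) + m * (((K ∩ L).card : ℕ) - 2) =
      m * (K.card - 2) + m * (L.card - 2) := by linear_combination m * c2
  have b1 := hK.2
  have b2 := hL.2
  refine ⟨⟨h3, by linarith⟩, ⟨h2, by linarith⟩, fun d hd => ?_⟩
  have e3 : ed x y K ∪ ed x y L = ed x y (K ∪ L) := eq_of_subset_of_card_le e2 (by
    have : (((ed x y (K ∪ L)).card : ℕ) : ℝ) ≤ (ed x y K ∪ ed x y L).card := by linarith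
    exact_mod_cast this)
  rw [← e3] at hd
  exact mem_union.1 hd

/-- `K ∩ L` is tight; it is `K`, or it has two points, and then exactly one edge. -/
theorem MinT.inter (h : Wk x y m Set.univ) (hxy : ∀ d, x d ≠ y d) {K L : Finset V}
    (hK : MinT x y m n K) (hL : Tight x y m L) (h2 : 2 ≤ (K ∩ L).card) :
    K ⊆ L ∨ ∃ d, K ∩ L = {x d, y d} := by
  have ht := (Tight.union h hK.2.1 hL h2).2.1
  by_cases hs : K ⊆ L
  · exact Or.inl hs
  right
  have h3 : K ∩ L ⊂ K :=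
    Finset.ssubset_iff_subset_ne.2 ⟨inter_subset_left, fun e => hs (inter_eq_left.1 e)⟩
  have h4 : (K ∩ L).card = 2 := by
    by_contra hc
    exact hK.2.2 _ h3 (by omega) ht
  have h5 := ht.2
  rw [h4] at h5
  have h6 : 0 < (ed x y (K ∩ L)).card := by
    have : (0 : ℝ) < (ed x y (K ∩ L)).card := by rw [h5]; norm_num
    exact_mod_cast this
  obtain ⟨d, hd⟩ := card_pos.1 h6
  refine ⟨d, (eq_of_subset_of_card_le ?_ (by rw [h4, card_pair (hxy d)])).symm⟩
  intro v hv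
  simp only [mem_insert, mem_singleton] at hv
  rcases hv with rfl | rfl
  · exact (mem_ed.1 hd).1
  · exact (mem_ed.1 hd).2

/-- Minimum degree two: if `z` had at most one neighbour in `K`, then (no parallel edges)
`|ed K| ≤ |ed (K.erase z)| + 1 ≤ m (|K| - 3) + 2 < m (|K| - 2) + 1`. -/
theorem MinT.deg (h : Wk x y m Set.univ) (hxy : ∀ d, x d ≠ y d) (hm : 1 < m) (hn : 3 ≤ n)
    {K : Finset V} (hK : MinT x y m n K) {z : V} (hz : z ∈ K) :
    ∃ a ∈ K, ∃ b ∈ K, a ≠ b ∧ (∃ d, (x d = z ∧ y d = a) ∨ (x d = a ∧ y d = z)) ∧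
      ∃ d, (x d = z ∧ y d = b) ∨ (x d = b ∧ y d = z) := by
  classical
  by_contra hc
  have h1 : ((ed x y K).filter fun d => x d = z ∨ y d = z).card ≤ 1 := by
    rw [card_le_one]
    intro d hd d' hd'
    obtain ⟨a1, a2⟩ := mem_filter.1 hd
    obtain ⟨b1, b2⟩ := mem_filter.1 hd'
    rw [mem_ed] at a1 b1
    by_contra hne
    apply hc
    rcases a2 with a2 | a2 <;> rcases b2 with b2 | b2
    · exact ⟨y d, a1.2, y d', b1.2, fun e => hne (h.simple hxy (Or.inl (a2.trans b2.symm)) (Or.inr e)),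
        ⟨d, Or.inl ⟨a2, rfl⟩⟩, d', Or.inl ⟨b2, rfl⟩⟩
    · exact ⟨y d, a1.2, x d', b1.1, fun e => hne (h.simple hxy (Or.inr (a2.trans b2.symm)) (Or.inl e)),
        ⟨d, Or.inl ⟨a2, rfl⟩⟩, d', Or.inr ⟨rfl, b2⟩⟩
    · exact ⟨x d, a1.1, y d', b1.2, fun e => hne (h.simple hxy (Or.inr e) (Or.inl (a2.trans b2.symm))),
        ⟨d, Or.inr ⟨rfl, a2⟩⟩, d', Or.inl ⟨b2, rfl⟩⟩
    · exact ⟨x d, a1.1, x d', b1.1, fun e => hne (h.simple hxy (Or.inl e) (Or.inr (a2.trans b2.symm))),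
        ⟨d, Or.inr ⟨rfl, a2⟩⟩, d', Or.inr ⟨rfl, b2⟩⟩
  have h2 : ed x y K ⊆ ed x y (K.erase z) ∪ (ed x y K).filter fun d => x d = z ∨ y d = z := by
    intro d hd
    simp only [mem_union, mem_filter, mem_ed, mem_erase] at hd ⊢
    tauto
  have h3 := (card_le_card h2).trans (card_union_le _ _)
  have h4 : (K.erase z).card + 1 = K.card := card_erase_add_one hz
  have h5 := wk_ed h (K := K.erase z) (by have := hK.1; omega)
  have h6 : ((ed x y K).card : ℝ) ≤ (ed x y (K.erase z)).card + 1 := by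
    exact_mod_cast h3.trans (Nat.add_le_add_left h1 _)
  have h7 : (K.card : ℝ) = (K.erase z).card + 1 := by exact_mod_cast h4.symm
  have h8 := hK.2.1.2
  rw [h7] at h8
  linarith

end Pool.Agent.Lib.MP_781e3b_co.RR
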