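import Pool.Agent.Lib.MP_781e3b_co.RR.HitBase

/-!
Clusters of minimal tight sets.
-/

namespace Pool.Agent.Lib.MP_781e3b_co.RR

open Finset

variable {W V : Type} [Fintype W] [DecidableEq V] {x y : W → V} {m : ℝ} {n : ℕ}

namespace HitCluAux

/-- Chains of minimal tight sets. -/
inductive Ch (x y : W → V) (m : ℝ) (n : ℕ) : Finset (Finset V) → Prop
  | one (K : Finset V) : MinT x y m n K → Ch x y m n {K}
  | add (K K₀ : Finset V) (S : Finset (Finset V)) (d : W) : Ch x y m n S → MinT x y m n K →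
      K ∉ S → K₀ ∈ S → d ∈ ed x y K → d ∈ ed x y K₀ → Ch x y m n (insert K S)

structure PA (x y : W → V) (m : ℝ) (n : ℕ) (S : Finset (Finset V)) : Prop where
  mt : ∀ K ∈ S, MinT x y m n K
  ne : S.Nonempty
  tight : Tight x y m (S.biUnion id)
  edge : ∀ d ∈ ed x y (S.biUnion id), ∃ K ∈ S, d ∈ ed x y K
  card : (S.biUnion id).card = (n - 2) * S.card + 2
  mem : ∀ K, MinT x y m n K → K ⊆ S.biUnion id → K ∈ S

theorem sub_U {S : Finset (Finset V)} {K : Finset V} (hK : K ∈ S) : K ⊆ S.biUnion id :=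
  subset_biUnion_of_mem id hK

theorem PA.inter (h : Wk x y m Set.univ) (hxy : ∀ d, x d ≠ y d) {S : Finset (Finset V)}
    (hS : PA x y m n S) {K K₀ : Finset V} {d : W} (hK : MinT x y m n K) (hKS : K ∉ S)
    (h0 : K₀ ∈ S) (hd : d ∈ ed x y K) (hd0 : d ∈ ed x y K₀) :
    K ∩ S.biUnion id = {x d, y d} := by
  have hx : x d ∈ K ∩ S.biUnion id := mem_inter.2 ⟨(mem_ed.1 hd).1, sub_U h0 (mem_ed.1 hd0).1⟩
  have hy : y d ∈ K ∩ S.biUnion id := mem_inter.2 ⟨(mem_ed.1 hd).2, sub_U h0 (mem_ed.1 hd0).2⟩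
  have h2 : 2 ≤ (K ∩ S.biUnion id).card := one_lt_card.2 ⟨_, hx, _, hy, hxy d⟩
  rcases hK.inter h hxy hS.tight h2 with h3 | ⟨d', h3⟩
  · exact (hKS (hS.mem K hK h3)).elim
  · rw [h3] at hx hy
    simp only [mem_insert, mem_singleton] at hx hy
    rw [h3, h.simple hxy hx hy]

theorem Ch.pa (h : Wk x y m Set.univ) (hxy : ∀ d, x d ≠ y d) (hm : 1 < m) (hn : 4 ≤ n)
    {S : Finset (Finset V)} (hS : Ch x y m n S) : PA x y m n S := by
  induction hS with
  | one K hK =>
    have e : ({K} : Finset (Finset V)).biUnion id = K := by simp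
    refine ⟨by simpa using hK, singleton_nonempty _, e.symm ▸ hK.2.1, ?_, ?_, ?_⟩
    · rw [e]; exact fun d hd => ⟨K, mem_singleton_self _, hd⟩
    · rw [e, hK.1, card_singleton]; omega
    · rw [e]
      intro K' hK' hs
      exact mem_singleton.2 (eq_of_subset_of_card_le hs (by rw [hK.1, hK'.1]))
  | add K K₀ S d _ hK hKS h0 hd hd0 ih =>
    have e : (insert K S).biUnion id = K ∪ S.biUnion id := by simp
    have hi := ih.inter h hxy hK hKS h0 hd hd0
    have hc : (K ∩ S.biUnion id).card = 2 := by rw [hi, card_pair (hxy d)]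
    obtain ⟨t1, -, t3⟩ := hK.2.1.union h ih.tight hc.ge
    refine ⟨?_, insert_nonempty _ _, e.symm ▸ t1, ?_, ?_, ?_⟩
    · intro K' hK'
      rcases mem_insert.1 hK' with rfl | hK'
      · exact hK
      · exact ih.mt K' hK'
    · rw [e]
      intro f hf
      rcases t3 f hf with hf | hf
      · exact ⟨K, mem_insert_self _ _, hf⟩
      · obtain ⟨K', h1, h2⟩ := ih.edge f hf
        exact ⟨K', mem_insert_of_mem h1, h2⟩
    · have := card_union_add_card_inter K (S.biUnion id)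
      rw [hc, hK.1, ih.card] at this
      rw [e, card_insert_of_notMem hKS, mul_add, mul_one]
      omega
    · rw [e]
      intro K' hK' hs
      by_cases hU : K' ⊆ S.biUnion id
      · exact mem_insert_of_mem (ih.mem K' hK' hU)
      obtain ⟨w, hw, hwU⟩ := not_subset.1 hU
      have hwK : w ∈ K := (mem_union.1 (hs hw)).resolve_right hwU
      have nb : ∀ a ∈ K', (∃ f, (x f = w ∧ y f = a) ∨ (x f = a ∧ y f = w)) → a ∈ K ∧ a ≠ w := by
        rintro a ha ⟨f, hf⟩
        have hf' : f ∈ ed x y (K ∪ S.biUnion id) := by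
          rw [mem_ed]
          rcases hf with ⟨h1, h2⟩ | ⟨h1, h2⟩ <;> rw [h1, h2]
          · exact ⟨hs hw, hs ha⟩
          · exact ⟨hs ha, hs hw⟩
        have hne := hxy f
        rcases t3 f hf' with h3 | h3 <;> rw [mem_ed] at h3 <;>
          rcases hf with ⟨h1, h2⟩ | ⟨h1, h2⟩ <;> rw [h1, h2] at h3 hne
        · exact ⟨h3.2, hne.symm⟩
        · exact ⟨h3.1, hne⟩
        · exact (hwU h3.1).elim
        · exact (hwU h3.2).elim
      obtain ⟨a, ha, b, hb, hab, ea, eb⟩ := hK'.deg h hxy hm (by omega) hw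
      obtain ⟨a1, a2⟩ := nb a ha ea
      obtain ⟨b1, b2⟩ := nb b hb eb
      have h3 : 2 < (K' ∩ K).card := two_lt_card.2
        ⟨w, mem_inter.2 ⟨hw, hwK⟩, a, mem_inter.2 ⟨ha, a1⟩, b, mem_inter.2 ⟨hb, b1⟩,
          a2.symm, b2.symm, hab⟩
      rcases hK'.inter h hxy hK.2.1 h3.le with h4 | ⟨f, h4⟩
      · rw [eq_of_subset_of_card_le h4 (by rw [hK.1, hK'.1])]
        exact mem_insert_self _ _
      · rw [h4, card_pair (hxy f)] at h3
        exact (lt_irrefl _ h3).elim

/-- `K` meets the other members of `S` only in the ends of `d`. -/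
def Leaf (x y : W → V) (S : Finset (Finset V)) (K : Finset V) (d : W) : Prop :=
  K ∈ S ∧ ∀ z ∈ K, ∀ K' ∈ S, K' ≠ K → z ∈ K' → z = x d ∨ z = y d

theorem Ch.pb (h : Wk x y m Set.univ) (hxy : ∀ d, x d ≠ y d) (hm : 1 < m) (hn : 4 ≤ n)
    {S : Finset (Finset V)} (hS : Ch x y m n S) :
    (∃ K, S = {K}) ∨ ∃ K d K' d', K ≠ K' ∧ Leaf x y S K d ∧ Leaf x y S K' d' := by
  induction hS with
  | one K _ => exact Or.inl ⟨K, rfl⟩
  | add K K₀ S d hS hK hKS h0 hd hd0 ih =>
    right
    have hi := (hS.pa h hxy hm hn).inter h hxy hK hKS h0 hd hd0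
    have hi' : ∀ z ∈ K, ∀ K' ∈ S, z ∈ K' → z = x d ∨ z = y d := by
      intro z hz K' hK' hz'
      have : z ∈ K ∩ S.biUnion id := mem_inter.2 ⟨hz, sub_U hK' hz'⟩
      rw [hi] at this
      simpa using this
    have l1 : Leaf x y (insert K S) K d :=
      ⟨mem_insert_self _ _, fun z hz K' hK' hne hz' =>
        hi' z hz K' ((mem_insert.1 hK').resolve_left hne) hz'⟩
    have keep : ∀ K₁ d₁, Leaf x y S K₁ d₁ → K₀ ≠ K₁ → Leaf x y (insert K S) K₁ d₁ := by
      intro K₁ d₁ hl hne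
      refine ⟨mem_insert_of_mem hl.1, fun z hz K' hK' hne' hz' => ?_⟩
      rcases mem_insert.1 hK' with rfl | hK'
      · refine hl.2 z hz K₀ h0 hne ?_
        rcases hi' z hz' K₁ hl.1 hz with rfl | rfl
        · exact (mem_ed.1 hd0).1
        · exact (mem_ed.1 hd0).2
      · exact hl.2 z hz K' hK' hne' hz'
    rcases ih with ⟨K₁, rfl⟩ | ⟨K₁, d₁, K₂, d₂, hne, l2, l3⟩
    · refine ⟨K, d, K₁, d, fun e => hKS (e ▸ mem_singleton_self _), l1,
        mem_insert_of_mem (mem_singleton_self _), fun z hz K' hK' hne hz' => ?_⟩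
      rcases mem_insert.1 hK' with rfl | hK'
      · exact hi' z hz' K₁ (mem_singleton_self _) hz
      · exact (hne (mem_singleton.1 hK')).elim
    · by_cases e : K₀ = K₁
      · exact ⟨K, d, K₂, d₂, fun e => hKS (e ▸ l3.1), l1, keep K₂ d₂ l3 (e ▸ hne)⟩
      · exact ⟨K, d, K₁, d₁, fun e => hKS (e ▸ l2.1), l1, keep K₁ d₁ l2 e⟩

/-- No other member of `M` shares an edge with a member of `S`. -/
def Cl (x y : W → V) (M S : Finset (Finset V)) : Prop :=
  ∀ K ∈ S, ∀ K' ∈ M, K' ∉ S → Disjoint (ed x y K) (ed x y K')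

theorem Ch.dich {M S S' : Finset (Finset V)} (hS : Ch x y m n S) (hM : S ⊆ M)
    (hc : Cl x y M S') : S ⊆ S' ∨ Disjoint S S' := by
  induction hS with
  | one K _ =>
    by_cases hK : K ∈ S'
    · exact Or.inl (singleton_subset_iff.2 hK)
    · exact Or.inr (disjoint_singleton_left.2 hK)
  | add K K₀ S d _ _ _ h0 hd hd0 ih =>
    have hKM : K ∈ M := hM (mem_insert_self _ _)
    have hSM : S ⊆ M := (subset_insert _ _).trans hM
    rcases ih hSM with h1 | h1
    · left
      refine insert_subset ?_ h1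
      by_contra hK
      exact disjoint_left.1 (hc K₀ (h1 h0) K hKM hK) hd0 hd
    · right
      refine disjoint_insert_left.2 ⟨fun hK => ?_, h1⟩
      exact disjoint_left.1 (hc K hK K₀ (hSM h0) (disjoint_left.1 h1 h0)) hd hd0

theorem exists_cl {M : Finset (Finset V)} (hM : ∀ K ∈ M, MinT x y m n K) {K : Finset V}
    (hK : K ∈ M) : ∃ S ⊆ M, Ch x y m n S ∧ Cl x y M S ∧ K ∈ S := by
  classical
  obtain ⟨S, hS, hmax⟩ := exists_max_image (M.powerset.filter fun S => Ch x y m n S ∧ K ∈ S) card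
    ⟨{K}, mem_filter.2 ⟨mem_powerset.2 (singleton_subset_iff.2 hK), Ch.one K (hM K hK),
      mem_singleton_self _⟩⟩
  obtain ⟨h1, h2, h3⟩ := mem_filter.1 hS
  rw [mem_powerset] at h1
  refine ⟨S, h1, h2, fun K₀ h0 K' hK' hn => disjoint_left.2 fun d hd0 hd => ?_, h3⟩
  have := hmax (insert K' S) (mem_filter.2 ⟨mem_powerset.2 (insert_subset hK' h1),
    Ch.add K' K₀ S d h2 (hM K' hK') hn h0 hd hd0, mem_insert_of_mem h3⟩)
  rw [card_insert_of_notMem hn] at this
  omega

theorem Ch.clu (h : Wk x y m Set.univ) (hxy : ∀ d, x d ≠ y d) (hm : 1 < m) (hn : 4 ≤ n)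
    {M S : Finset (Finset V)} (hS : Ch x y m n S) (hM : S ⊆ M) (hc : Cl x y M S) :
    Clu x y m n M S := by
  have A := hS.pa h hxy hm hn
  refine ⟨hM, A.ne, A.tight, A.edge, A.card, hc, ?_⟩
  have inS : ∀ K ∈ S, ∀ d ∈ ed x y K, ∀ K' ∈ M, d ∈ ed x y K' → K' ∈ S := by
    intro K hK d hd K' hK' hd'
    by_contra hn
    exact disjoint_left.1 (hc K hK K' hK' hn) hd hd'
  rcases hS.pb h hxy hm hn with ⟨K, rfl⟩ | ⟨K₁, d₁, K₂, d₂, hne, l1, l2⟩
  · have hK := mem_singleton_self K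
    refine ⟨K, sub_U hK, (A.mt K hK).1.ge, fun z hz => ⟨K, hK, hz, fun K' hK' _ =>
      mem_singleton.1 hK', ?_⟩⟩
    rintro d hd d' - ⟨K', h1, h2, h3⟩ -
    exact (h2 (mem_singleton.1 (inS K hK d hd K' h1 h3))).elim
  · have priv : ∀ K d, Leaf x y S K d → ∀ z ∈ K \ {x d, y d}, ∀ K' ∈ S, z ∈ K' → K' = K := by
      intro K d l z hz K' hK' hz'
      by_contra hne
      rw [mem_sdiff] at hz
      exact hz.2 (by simpa using l.2 z hz.1 K' hK' hne hz')
    have cd : ∀ K d, Leaf x y S K d → n - 2 ≤ (K \ {x d, y d}).card := by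
      intro K d l
      have := le_card_sdiff ({x d, y d} : Finset V) K
      rwa [(A.mt K l.1).1, card_pair (hxy d)] at this
    have one : ∀ K d, Leaf x y S K d → ∀ f ∈ ed x y K,
        (∃ K' ∈ M, K' ≠ K ∧ f ∈ ed x y K') → f = d := by
      rintro K d l f hf ⟨K', h1, h2, h3⟩
      have h4 := inS K l.1 f hf K' h1 h3
      exact h.simple hxy (l.2 _ (mem_ed.1 hf).1 K' h4 h2 (mem_ed.1 h3).1)
        (l.2 _ (mem_ed.1 hf).2 K' h4 h2 (mem_ed.1 h3).2)
    have fin : ∀ K d, Leaf x y S K d → ∀ z ∈ K \ {x d, y d}, ∃ K ∈ S, z ∈ K ∧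
        (∀ K' ∈ S, z ∈ K' → K' = K) ∧
        ∀ d ∈ ed x y K, ∀ d' ∈ ed x y K, (∃ K' ∈ M, K' ≠ K ∧ d ∈ ed x y K') →
          (∃ K' ∈ M, K' ≠ K ∧ d' ∈ ed x y K') → d = d' := fun K d l z hz =>
      ⟨K, l.1, (mem_sdiff.1 hz).1, priv K d l z hz, fun f hf f' hf' e e' =>
        (one K d l f hf e).trans (one K d l f' hf' e').symm⟩
    refine ⟨K₁ \ {x d₁, y d₁} ∪ K₂ \ {x d₂, y d₂},
      union_subset (sdiff_subset.trans (sub_U l1.1)) (sdiff_subset.trans (sub_U l2.1)), ?_, ?_⟩
    · rw [card_union_of_disjoint (disjoint_left.2 fun z h1 h2 =>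
        hne (priv K₁ d₁ l1 z h1 K₂ l2.1 (mem_sdiff.1 h2).1).symm)]
      have := cd _ _ l1
      have := cd _ _ l2
      omega
    · intro z hz
      rcases mem_union.1 hz with hz | hz
      · exact fin _ _ l1 z hz
      · exact fin _ _ l2 z hz

end HitCluAux

/-- Call `S` a chain if it is `{K}` or `insert K S'` with `S'` a chain, `K ∉ S'` and `K` sharing an
edge with a member of `S'` (inductive predicate, all members `MinT`). Write `U S = S.biUnion id`.
(A) By induction on chains: `U S` is tight, every edge inside `U S` is inside a member,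
`|U S| = (n - 2) |S| + 2`, and every `MinT` set `K ⊆ U S` is a member of `S`. Step: `K ∉ S'`, so
`K ⊄ U S'` and `K ∩ U S' = {x d, y d}` (`MinT.inter`); `Tight.union`. Let `K' ⊆ U S' ∪ K` be
`MinT`, `K' ⊄ U S'`, take `w ∈ K'`, `w ∉ U S'`; its two neighbours in `K'` (`MinT.deg`) are joined to
`w` by edges inside `U S' ∪ K`, hence inside `K`; so `|K' ∩ K| ≥ 3`, `MinT.inter` gives `K' ⊆ K`,
and `K' = K` by the cards.
(B) Call the pair `K, d` a leaf of `S` if `K ∈ S`, `d ∈ ed K` and `K \ {x d, y d}` meets no other member of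
`S`. A chain with at least two members has two leaves with different `K`: adding `K` along `d` gives
the leaf the pair `K, d`; if `S' = {K₀}` then the pair `K₀, d` is a leaf too; else `d` is inside a member of `S'`,
so it cannot meet the private parts of two different leaves, and a leaf whose private part avoids
`x d, y d` stays a leaf. An edge of a leaf `K` that lies in another member has both ends in
`{x d, y d}`, so it is `d` (`Wk.simple`). `L` is the union of the two private parts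
(`2 (n - 2) ≥ n` points), or `K` if `S = {K}`.
(C) Strong induction on a subfamily `M' ⊆ M` closed under sharing an edge with a member of `M`: take
a chain `S ⊆ M'` of largest card; no other member of `M` shares an edge with a member of `S`; go on
with `M' \ S`. -/
theorem clusters (h : Wk x y m Set.univ) (hxy : ∀ d, x d ≠ y d) (hm : 1 < m) (hn : 4 ≤ n)
    (M : Finset (Finset V)) (hM : ∀ K ∈ M, MinT x y m n K) :
    ∃ C : Finset (Finset (Finset V)), (∀ S ∈ C, Clu x y m n M S) ∧ (∀ K ∈ M, ∃ S ∈ C, K ∈ S) ∧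
      ∀ S ∈ C, ∀ S' ∈ C, S ≠ S' → Disjoint S S' := by
  classical
  refine ⟨M.powerset.filter fun S => HitCluAux.Ch x y m n S ∧ HitCluAux.Cl x y M S, ?_, ?_, ?_⟩
  · intro S hS
    obtain ⟨h1, h2, h3⟩ := mem_filter.1 hS
    exact h2.clu h hxy hm hn (mem_powerset.1 h1) h3
  · intro K hK
    obtain ⟨S, h1, h2, h3, h4⟩ := HitCluAux.exists_cl hM hK
    exact ⟨S, mem_filter.2 ⟨mem_powerset.2 h1, h2, h3⟩, h4⟩
  · intro S hS S' hS' hne
    obtain ⟨h1, h2, h3⟩ := mem_filter.1 hS
    obtain ⟨h1', h2', h3'⟩ := mem_filter.1 hS'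
    rcases h2.dich (mem_powerset.1 h1) h3' with a | a
    · rcases h2'.dich (mem_powerset.1 h1') h3 with b | b
      · exact (hne (Subset.antisymm a b)).elim
      · exact b.symm
    · exact a

end Pool.Agent.Lib.MP_781e3b_co.RR
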