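import Pool.Agent.Lib.MP_781e3b_co.RR.HitClu

/-!
A free vertex in a leaf when `m < 2`.
-/

namespace Pool.Agent.Lib.MP_781e3b_co.RR

open Finset

variable {W V : Type} [Fintype W] [DecidableEq V] {x y : W → V} {m : ℝ} {n : ℕ}

namespace HitFreeAux

theorem dcount {α β : Type} [DecidableEq β] (C : Finset α) (U : Finset β) (f : α → Finset β)
    (hf : ∀ S ∈ C, f S ⊆ U) :
    ∑ v ∈ U, (C.filter fun S => v ∈ f S).card = ∑ S ∈ C, (f S).card := by
  simp only [card_filter]
  rw [sum_comm]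
  refine sum_congr rfl fun S hS => ?_
  rw [← card_filter, filter_mem_eq_inter, inter_eq_right.2 (hf S hS)]

theorem arith {m n c u T g e : ℝ} (hm : 1 < m) (hn : 4 ≤ n) (hc : 1 ≤ c)
    (hT : u ≤ T) (h1 : m * T - (2 * m - 1) * c + g ≤ m * (u - 2) + 1)
    (h2 : n * c + 2 * u ≤ 2 * T + 2 * g) (he : e = m * (n - 2) + 1) (he2 : e ≤ 2 * (n - 2)) :
    False := by
  have a1 : T - u ≤ m * (T - u) := by nlinarith
  have a2 : n * c < (4 * m - 2) * c := by nlinarith
  have a3 : n < 4 * m - 2 := lt_of_mul_lt_mul_right a2 (by linarith)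
  have a4 : n * (n - 2) < (4 * m - 2) * (n - 2) := mul_lt_mul_of_pos_right a3 (by linarith)
  nlinarith [sq_nonneg (n - 4)]

end HitFreeAux

/-- Let `C` be the clusters (`c = |C| ≥ 1`), `U = U M`, `t v` the number of clusters `S` with
`v ∈ U S`, `Δ = ∑_{v ∈ U} (t v - 1) = ∑_S |U S| - |U|`, `Γ` the edges inside `U` that are inside no
`U S`. The sets `ed (U S)` and `Γ` are pairwise disjoint in `ed U`, so `Wk` for `U` gives
`∑_S (m (|U S| - 2) + 1) + |Γ| ≤ m (|U| - 2) + 1`, that is `m Δ + |Γ| ≤ (2 m - 1) (c - 1)`.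
Suppose the statement fails. For `S ∈ C` and `z` in its set `L` with member `K`: either `t z ≥ 2`
(this covers `z` in a member of another cluster), or `t z = 1` and there is an edge at `z` inside
`U`, not inside `K`; this edge is in `Γ` (inside `U S` it would be inside a member of `S` that
contains `z`, which is `K`). Counting the pairs `(S, z)`:
`n c ≤ ∑_{t v ≥ 2} t v + 2 |Γ| ≤ 2 Δ + 2 |Γ| ≤ 2 (2 m - 1) (c - 1) < (4 m - 2) c`.
But `m (n - 2) + 1` is the natural number `|ed K|` and `m < 2`, so `m (n - 2) ≤ 2 (n - 2) - 1`, and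
`(4 m - 2) (n - 2) ≤ 6 (n - 2) - 4 ≤ n (n - 2)` because `(n - 4) ^ 2 ≥ 0`. -/
theorem free_vertex (h : Wk x y m Set.univ) (hxy : ∀ d, x d ≠ y d) (hm : 1 < m) (hm2 : m < 2)
    (hn : 4 ≤ n) (M : Finset (Finset V)) (hM : ∀ K ∈ M, MinT x y m n K) (hne : M.Nonempty) :
    ∃ K ∈ M, ∃ z ∈ K, (∀ K' ∈ M, z ∈ K' → K' = K) ∧
      (∀ d ∈ ed x y (M.biUnion id), x d = z ∨ y d = z → d ∈ ed x y K) ∧
      ∀ d ∈ ed x y K, ∀ d' ∈ ed x y K, (∃ K' ∈ M, K' ≠ K ∧ d ∈ ed x y K') →
        (∃ K' ∈ M, K' ≠ K ∧ d' ∈ ed x y K') → d = d' := by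
  classical
  by_contra hcon
  obtain ⟨C, hC, hcov, hdis⟩ := clusters h hxy hm hn M hM
  obtain ⟨K₀, hK₀⟩ := hne
  obtain ⟨S₀, hS₀, -⟩ := hcov K₀ hK₀
  have hleaf : ∀ S : Finset (Finset V), ∃ L : Finset V, S ∈ C → L ⊆ S.biUnion id ∧ n ≤ L.card ∧
      ∀ z ∈ L, ∃ K ∈ S, z ∈ K ∧ (∀ K' ∈ S, z ∈ K' → K' = K) ∧
      ∀ d ∈ ed x y K, ∀ d' ∈ ed x y K, (∃ K' ∈ M, K' ≠ K ∧ d ∈ ed x y K') →
        (∃ K' ∈ M, K' ≠ K ∧ d' ∈ ed x y K') → d = d' := by
    intro S
    by_cases hS : S ∈ C
    · obtain ⟨L, h1, h2⟩ := (hC S hS).leaf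
      exact ⟨L, fun _ => ⟨h1, h2⟩⟩
    · exact ⟨∅, fun h => (hS h).elim⟩
  choose L hL using hleaf
  set U : Finset V := M.biUnion id with hU
  have hsub : ∀ S ∈ C, S.biUnion id ⊆ U := fun S hS =>
    biUnion_subset_biUnion_of_subset_left _ (hC S hS).sub
  have hK₀U : K₀ ⊆ U := subset_biUnion_of_mem id hK₀
  have hUn : n ≤ U.card := (hM K₀ hK₀).1 ▸ card_le_card hK₀U
  set B : Finset W := C.biUnion fun S => ed x y (S.biUnion id) with hB
  have hBU : B ⊆ ed x y U := by
    intro d hd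
    obtain ⟨S, hS, hd⟩ := mem_biUnion.1 hd
    exact mem_ed.2 ⟨hsub S hS (mem_ed.1 hd).1, hsub S hS (mem_ed.1 hd).2⟩
  set G : Finset W := ed x y U \ B with hG
  have hBc : B.card = ∑ S ∈ C, (ed x y (S.biUnion id)).card := by
    refine card_biUnion fun S hS S' hS' hne => ?_
    refine disjoint_left.2 fun d hd hd' => ?_
    obtain ⟨K, hK, hdK⟩ := (hC S hS).edge d hd
    obtain ⟨K', hK', hdK'⟩ := (hC S' hS').edge d hd'
    exact disjoint_left.1 ((hC S hS).cross K hK K' ((hC S' hS').sub hK')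
      fun hh => disjoint_left.1 (hdis S hS S' hS' hne) hh hK') hdK hdK'
  have hGc : G.card + B.card = (ed x y U).card := card_sdiff_add_card_eq_card hBU
  have hW := h U (ed x y U) (by omega) (Set.subset_univ _) fun d hd => mem_ed.1 hd
  set T : ℕ := ∑ S ∈ C, (S.biUnion id).card with hT
  have hBr : (B.card : ℝ) = m * T - (2 * m - 1) * C.card := by
    rw [hBc, hT]
    push_cast
    rw [sum_congr rfl fun S hS => (hC S hS).tight.2, mul_sum, card_eq_sum_ones C]
    push_cast
    rw [mul_sum, ← sum_sub_distrib]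
    exact sum_congr rfl fun S _ => by ring
  have ht : ∑ v ∈ U, (C.filter fun S => v ∈ S.biUnion id).card = T :=
    HitFreeAux.dcount C U _ hsub
  have hl : ∑ v ∈ U, (C.filter fun S => v ∈ L S).card = ∑ S ∈ C, (L S).card :=
    HitFreeAux.dcount C U _ fun S hS => (hL S hS).1.trans (hsub S hS)
  have ht1 : ∀ v ∈ U, 1 ≤ (C.filter fun S => v ∈ S.biUnion id).card := by
    intro v hv
    obtain ⟨K, hK, hvK⟩ := mem_biUnion.1 hv
    obtain ⟨S, hS, hKS⟩ := hcov K hK
    exact card_pos.2 ⟨S, mem_filter.2 ⟨hS, mem_biUnion.2 ⟨K, hKS, hvK⟩⟩⟩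
  have hUT : U.card ≤ T := by
    rw [← ht, card_eq_sum_ones U]
    exact sum_le_sum ht1
  set E : Finset V := G.image x ∪ G.image y with hE
  have hEc : E.card ≤ 2 * G.card := by
    have : E.card ≤ (G.image x).card + (G.image y).card := card_union_le _ _
    have h1 : (G.image x).card ≤ G.card := card_image_le
    have h2 : (G.image y).card ≤ G.card := card_image_le
    omega
  have key : ∀ v ∈ U, (C.filter fun S => v ∈ L S).card + 2 ≤
      2 * (C.filter fun S => v ∈ S.biUnion id).card + if v ∈ E then 1 else 0 := by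
    intro v hv
    have hle : (C.filter fun S => v ∈ L S).card ≤ (C.filter fun S => v ∈ S.biUnion id).card :=
      card_le_card fun S hS => mem_filter.2
        ⟨(mem_filter.1 hS).1, (hL S (mem_filter.1 hS).1).1 (mem_filter.1 hS).2⟩
    have h1 := ht1 v hv
    by_cases h2 : 2 ≤ (C.filter fun S => v ∈ S.biUnion id).card
    · omega
    rcases (C.filter fun S => v ∈ L S).eq_empty_or_nonempty with h0 | ⟨S, hS⟩
    · rw [h0, card_empty]; omega
    obtain ⟨hS, hvL⟩ := mem_filter.1 hS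
    have huniq : ∀ S' ∈ C, v ∈ S'.biUnion id → S' = S := by
      intro S' hS' hv'
      have h3 : (C.filter fun S => v ∈ S.biUnion id).card ≤ 1 := by omega
      exact card_le_one.1 h3 S' (mem_filter.2 ⟨hS', hv'⟩) S (mem_filter.2 ⟨hS, (hL S hS).1 hvL⟩)
    obtain ⟨K, hK, hvK, hone, hlast⟩ := (hL S hS).2.2 v hvL
    have hvE : v ∈ E := by
      by_contra hvE
      refine hcon ⟨K, (hC S hS).sub hK, v, hvK, ?_, ?_, hlast⟩
      · intro K' hK' hvK'
        obtain ⟨S', hS', hK'S⟩ := hcov K' hK'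
        obtain rfl := huniq S' hS' (mem_biUnion.2 ⟨K', hK'S, hvK'⟩)
        exact hone K' hK'S hvK'
      · intro d hd hdv
        by_cases hdB : d ∈ B
        · obtain ⟨S', hS', hd'⟩ := mem_biUnion.1 hdB
          have hv' : v ∈ S'.biUnion id := by
            rcases hdv with rfl | rfl
            · exact (mem_ed.1 hd').1
            · exact (mem_ed.1 hd').2
          obtain rfl := huniq S' hS' hv'
          obtain ⟨K', hK', hdK'⟩ := (hC S' hS').edge d hd'
          have hvK' : v ∈ K' := by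
            rcases hdv with rfl | rfl
            · exact (mem_ed.1 hdK').1
            · exact (mem_ed.1 hdK').2
          exact hone K' hK' hvK' ▸ hdK'
        · have hdG : d ∈ G := mem_sdiff.2 ⟨hd, hdB⟩
          refine (hvE ?_).elim
          rcases hdv with rfl | rfl
          · exact mem_union_left _ (mem_image_of_mem x hdG)
          · exact mem_union_right _ (mem_image_of_mem y hdG)
    rw [if_pos hvE]
    omega
  have hsum := sum_le_sum key
  rw [sum_add_distrib, sum_add_distrib, hl, ← mul_sum, ht, sum_const, smul_eq_mul,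
    ← card_filter] at hsum
  have hfE : (U.filter fun v => v ∈ E).card ≤ E.card :=
    card_le_card fun v hv => (mem_filter.1 hv).2
  have hnc : C.card * n ≤ ∑ S ∈ C, (L S).card := by
    have := card_nsmul_le_sum C (fun S => (L S).card) n fun S hS => (hL S hS).2.1
    simpa using this
  have hfin : n * C.card + 2 * U.card ≤ 2 * T + 2 * G.card := by
    rw [mul_comm n]; omega
  have hc1 : 1 ≤ C.card := card_pos.2 ⟨S₀, hS₀⟩
  have hn' : (4 : ℝ) ≤ n := by exact_mod_cast hn
  have he : ((ed x y K₀).card : ℝ) = m * (n - 2) + 1 := by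
    have := (hM K₀ hK₀).2.1.2
    rwa [(hM K₀ hK₀).1] at this
  have he2 : ((ed x y K₀).card : ℝ) ≤ 2 * (n - 2) := by
    have a : ((ed x y K₀).card : ℝ) + 3 < 2 * n := by nlinarith
    have b : (ed x y K₀).card + 3 < 2 * n := by exact_mod_cast a
    have c : (ed x y K₀).card + 4 ≤ 2 * n := b
    have d : ((ed x y K₀).card : ℝ) + 4 ≤ 2 * n := by exact_mod_cast c
    linarith
  have hGr : (G.card : ℝ) + B.card = (ed x y U).card := by exact_mod_cast hGc
  exact HitFreeAux.arith (c := C.card) (u := U.card) (T := T) (g := G.card) hm hn'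
    (by exact_mod_cast hc1) (by exact_mod_cast hUT) (by linarith) (by exact_mod_cast hfin) he he2

end Pool.Agent.Lib.MP_781e3b_co.RR
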