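import Pool.Agent.Lib.MP_781e3b_co.RR.HitFree

/-!
A star forest that hits all minimal tight sets when `m < 2`.
-/

namespace Pool.Agent.Lib.MP_781e3b_co.RR

open Finset

namespace HitStarAux

variable {W V : Type} {x y : W → V} {m : ℝ} {n : ℕ}

/-- The edge `d` joins `a` and `b`. -/
def Jn (x y : W → V) (a b : V) (d : W) : Prop := (x d = a ∧ y d = b) ∨ (x d = b ∧ y d = a)

/-- End points after adding one new edge. -/
def ex (f : W → V) (a : V) (P : W → Prop) : Option {d // P d} → V :=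
  fun o => o.elim a fun d => f d.1

theorem jn_of_mem (hxy : ∀ d, x d ≠ y d) {a b : V} {d : W} (h1 : x d = a ∨ x d = b)
    (h2 : y d = a ∨ y d = b) : Jn x y a b d := by
  have := hxy d
  unfold Jn
  grind

variable [DecidableEq V]

theorem no_tri (h : Wk x y m Set.univ) (hm2 : m < 2) {a b c : V} (ab : a ≠ b) (ac : a ≠ c)
    (bc : b ≠ c) {d1 d2 d3 : W} (h1 : Jn x y a b d1) (h2 : Jn x y a c d2) (h3 : Jn x y b c d3) :
    False := by
  classical
  unfold Jn at h1 h2 h3
  have cK : ({a, b, c} : Finset V).card = 3 := card_eq_three.2 ⟨_, _, _, ab, ac, bc, rfl⟩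
  have cD : ({d1, d2, d3} : Finset W).card = 3 :=
    card_eq_three.2 ⟨_, _, _, by grind, by grind, by grind, rfl⟩
  have := h {a, b, c} {d1, d2, d3} (by omega) (Set.subset_univ _) (by
    intro e he
    simp only [mem_insert, mem_singleton] at he ⊢
    grind)
  rw [cK, cD] at this
  push_cast at this
  linarith

variable [Fintype W]

theorem wk_new (h : Wk x y m Set.univ) (hxy : ∀ d, x d ≠ y d) (hm : 1 < m) {K : Finset V}
    (hK : Tight x y m K) {a b : V} (ha : a ∈ K) (hb : b ∈ K) (ab : a ≠ b)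
    (nab : ∀ d, ¬ Jn x y a b d) {P : W → Prop}
    (hP : ∀ d ∈ ed x y K, ∀ d' ∈ ed x y K, P d → P d' → d = d') :
    Wk (ex x a P) (ex y b P) m Set.univ := by
  classical
  intro L D' hL _ hI
  obtain ⟨D, hD, cD⟩ : ∃ D : Finset W, (∀ d ∈ D, P d ∧ x d ∈ L ∧ y d ∈ L) ∧
      D.card = D'.eraseNone.card := by
    refine ⟨D'.eraseNone.map (Function.Embedding.subtype P), fun d hd => ?_, card_map _⟩
    obtain ⟨e, he, rfl⟩ := mem_map.1 hd
    exact ⟨e.2, hI (some e) (mem_eraseNone.1 he)⟩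
  by_cases hn : none ∈ D'
  swap
  · rw [← card_eraseNone_of_not_mem hn, ← cD]
    exact h L D hL (Set.subset_univ _) fun d hd => (hD d hd).2
  have c1 : D'.card = D.card + 1 := by
    have := card_pos.2 ⟨_, hn⟩
    rw [cD, card_eraseNone_of_mem hn]
    omega
  have haL : a ∈ L ∩ K := mem_inter.2 ⟨(hI none hn).1, ha⟩
  have hbL : b ∈ L ∩ K := mem_inter.2 ⟨(hI none hn).2, hb⟩
  have h1 := h (L ∪ K) (D ∪ ed x y K) (hL.trans (card_le_card subset_union_left))
    (Set.subset_univ _) fun d hd => (mem_union.1 hd).elim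
      (fun k => ⟨mem_union_left _ (hD d k).2.1, mem_union_left _ (hD d k).2.2⟩)
      fun k => ⟨mem_union_right _ (mem_ed.1 k).1, mem_union_right _ (mem_ed.1 k).2⟩
  have h2 : ((L ∪ K).card : ℝ) + (L ∩ K).card = L.card + K.card := by
    exact_mod_cast card_union_add_card_inter L K
  have h3 : ((D ∪ ed x y K).card : ℝ) + (D ∩ ed x y K).card = D.card + (ed x y K).card := by
    exact_mod_cast card_union_add_card_inter D (ed x y K)
  have h4 : ((D ∩ ed x y K).card : ℝ) + 2 ≤ (L ∩ K).card := by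
    norm_cast
    rcases (D ∩ ed x y K).eq_empty_or_nonempty with e | ⟨d, hd⟩
    · rw [e, card_empty]
      exact one_lt_card.2 ⟨a, haL, b, hbL, ab⟩
    · have e1 : (D ∩ ed x y K).card ≤ 1 := card_le_one.2 fun d hd d' hd' =>
        hP d (mem_inter.1 hd).2 d' (mem_inter.1 hd').2 (hD d (mem_inter.1 hd).1).1
          (hD d' (mem_inter.1 hd').1).1
      obtain ⟨k1, k2⟩ := mem_inter.1 hd
      have e2 : 2 < (L ∩ K).card := by
        by_cases k : x d = a ∨ x d = b
        · have k' : ¬ (y d = a ∨ y d = b) := fun k' => nab d (jn_of_mem hxy k k')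
          exact two_lt_card.2 ⟨a, haL, b, hbL, y d, mem_inter.2 ⟨(hD d k1).2.2, (mem_ed.1 k2).2⟩, ab,
            fun e => k' (Or.inl e.symm), fun e => k' (Or.inr e.symm)⟩
        · exact two_lt_card.2 ⟨a, haL, b, hbL, x d, mem_inter.2 ⟨(hD d k1).2.1, (mem_ed.1 k2).1⟩, ab,
            fun e => k (Or.inl e.symm), fun e => k (Or.inr e.symm)⟩
      omega
  have h5 : (0 : ℝ) ≤ (D ∩ ed x y K).card := Nat.cast_nonneg _
  rw [c1]
  push_cast
  have h6 := hK.2
  have e : ((L ∪ K).card : ℝ) = L.card + K.card - (L ∩ K).card := by linarith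
  rw [e] at h1
  nlinarith

omit [DecidableEq V] in
theorem minT_new {a b : V} {P : W → Prop} [Fintype (Option {d // P d})] {K : Finset V}
    (hK : MinT x y m n K) (hab : ¬ (a ∈ K ∧ b ∈ K)) (hP : ∀ d ∈ ed x y K, P d) :
    MinT (ex x a P) (ex y b P) m n K := by
  have key : ∀ S ⊆ K, (ed x y S).card = (ed (ex x a P) (ex y b P) S).card := fun S hS => by
    refine card_bij (fun d hd => some ⟨d, hP d (mem_ed.2 ((mem_ed.1 hd).imp (@hS _) (@hS _)))⟩)
      (fun d hd => mem_ed.2 (mem_ed.1 hd :)) (fun d _ d' _ e => by simpa using e) ?_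
    rintro (_ | d) hd
    · exact (hab ((mem_ed.1 hd).imp (@hS _) (@hS _))).elim
    · exact ⟨d.1, mem_ed.2 (mem_ed.1 hd :), rfl⟩
  refine ⟨hK.1, ⟨hK.2.1.1, key K Subset.rfl ▸ hK.2.1.2⟩, fun S hS h3 k => hK.2.2 S hS h3 ?_⟩
  exact ⟨k.1, (key S hS.subset).symm ▸ k.2⟩

end HitStarAux

open HitStarAux

/-- Induction on `|M|`, for all edge types `W`. `B` is the set of leaves, `ct` gives the centres.
Take `K, z` from `free_vertex` and two neighbours `a ≠ b` of `z` in `K` (`MinT.deg`); `ab` is no edge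
(a triangle has `3 > m + 1` edges). New edge type `Option {d // d ∉ ed K ∨ ∃ K' ∈ M.erase K, d ∈ ed K'}`
with `none` joining `a` and `b`; family `M.erase K`.
`Wk` stays: let `D` lie inside `L`; if `none ∉ D` use `Wk`. Else `a, b ∈ L`; put `j = |L ∩ K| ≥ 2`,
`ε ≤ 1` = number of edges of `D` inside `K` other than `none` (last part of `free_vertex`), and `j ≥ 3`
if `ε = 1`. `Wk` for `L ∪ K` and the old edges of `D` together with `ed K` gives
`|D| - 1 - ε + m (n - 2) + 1 ≤ m (|L| + n - j - 2) + 1`, so `|D| ≤ m (|L| - 2) + 1 + ε - m (j - 2)`.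
A member `K' ≠ K` does not contain both `a` and `b` (`MinT.inter`), so its edges and the edges of
its subsets are as before and it stays `MinT`. The induction gives `B', ct'`; `z ∉ B'` and `z` is no
centre; `a ∉ B'` or `b ∉ B'`, say `a`. Put `B = insert z B'`, `ct z = a`. -/
theorem star_ind {V : Type} [DecidableEq V] {m : ℝ} {n : ℕ} (hm : 1 < m) (hm2 : m < 2) (hn : 4 ≤ n)
    (M : Finset (Finset V)) {W : Type} [Fintype W] (x y : W → V) (h : Wk x y m Set.univ)
    (hxy : ∀ d, x d ≠ y d) (hM : ∀ K ∈ M, MinT x y m n K) :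
    ∃ (B : Set V) (ct : V → V),
      (∀ z ∈ B, ct z ∉ B ∧ (∃ K ∈ M, z ∈ K ∧ ct z ∈ K) ∧
        ∃ d, (x d = z ∧ y d = ct z) ∨ (x d = ct z ∧ y d = z)) ∧
      (∀ K ∈ M, ∃ z ∈ B, z ∈ K ∧ ct z ∈ K) ∧
      ∀ d, (∀ K ∈ M, d ∉ ed x y K) → x d ∉ B ∨ y d ∉ B := by
  classical
  induction hc : M.card generalizing M W with
  | zero =>
    obtain rfl := card_eq_zero.1 hc
    exact ⟨∅, id, by simp, by simp, by simp⟩
  | succ k ih =>
    obtain ⟨K, hK, z, hz, f1, f2, f3⟩ := free_vertex h hxy hm hm2 hn M hM (card_pos.1 (by omega))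
    obtain ⟨a, ha, b, hb, ab, ⟨da, hda⟩, db, hdb⟩ := (hM K hK).deg h hxy hm (by omega) hz
    have za : z ≠ a := by have := hxy da; grind
    have zb : z ≠ b := by have := hxy db; grind
    have nab : ∀ d, ¬ Jn x y a b d := fun d hd => no_tri h hm2 za zb ab hda hdb hd
    let P : W → Prop := fun d => d ∉ ed x y K ∨ ∃ K' ∈ M.erase K, d ∈ ed x y K'
    have hab : ∀ K' ∈ M.erase K, ¬ (a ∈ K' ∧ b ∈ K') := by
      rintro K' hK' ⟨k1, k2⟩
      obtain ⟨ne, hK'⟩ := mem_erase.1 hK'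
      have m1 := mem_inter.2 ⟨k1, ha⟩
      have m2 := mem_inter.2 ⟨k2, hb⟩
      rcases (hM K' hK').inter h hxy (hM K hK).2.1 (one_lt_card.2 ⟨a, m1, b, m2, ab⟩) with e | ⟨d, e⟩
      · exact ne (eq_of_subset_of_card_le e ((hM K hK).1.trans (hM K' hK').1.symm).le)
      · rw [e, mem_insert, mem_singleton] at m1 m2
        refine nab d ?_
        unfold Jn
        grind
    have hnz : ∀ K' ∈ M.erase K, z ∉ K' := fun K' hK' e =>
      (mem_erase.1 hK').1 (f1 K' (mem_erase.1 hK').2 e)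
    obtain ⟨B, ct, g1, g2, g3⟩ := ih (M.erase K) (ex x a P) (ex y b P)
      (wk_new h hxy hm (hM K hK).2.1 ha hb ab nab fun d hd d' hd' p p' => f3 d hd d' hd'
        (by simpa only [mem_erase, and_assoc, and_left_comm] using p.resolve_left (not_not.2 hd))
        (by simpa only [mem_erase, and_assoc, and_left_comm] using p'.resolve_left (not_not.2 hd')))
      (by
        rintro (_ | d)
        · exact ab
        · exact hxy d.1)
      (fun K' hK' => minT_new (hM K' (mem_erase.1 hK').2) (hab K' hK')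
        fun d hd => Or.inr ⟨K', hK', hd⟩)
      (by rw [card_erase_of_mem hK, hc]; rfl)
    obtain ⟨c, hcK, zc, hcB, dc, hdc⟩ : ∃ c ∈ K, z ≠ c ∧ c ∉ B ∧ ∃ d, Jn x y z c d :=
      (g3 none fun K' hK' e => hab K' hK' (mem_ed.1 e)).elim (fun e => ⟨a, ha, za, e, da, hda⟩)
        fun e => ⟨b, hb, zb, e, db, hdb⟩
    have wz : ∀ w ∈ B, w ≠ z := fun w hw e =>
      let ⟨K', hK', k, _⟩ := (g1 w hw).2.1
      hnz K' hK' (e ▸ k)
    refine ⟨insert z B, Function.update ct z c, ?_, fun K' hK' => ?_, fun d hd => ?_⟩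
    · rintro w (rfl | hw)
      · rw [Function.update_self]
        exact ⟨fun e => e.elim zc.symm hcB, ⟨K, hK, hz, hcK⟩, dc, hdc⟩
      · rw [Function.update_of_ne (wz w hw)]
        obtain ⟨k1, ⟨K', hK', k2, k3⟩, d, k4⟩ := g1 w hw
        refine ⟨fun e => e.elim (fun e => hnz K' hK' (e ▸ k3)) k1,
          ⟨K', (mem_erase.1 hK').2, k2, k3⟩, ?_⟩
        rcases d with _ | d
        · refine (hab K' hK' ?_).elim
          rcases k4 with ⟨e, e'⟩ | ⟨e, e'⟩
          · exact ⟨(show a = w from e) ▸ k2, (show b = ct w from e') ▸ k3⟩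
          · exact ⟨(show a = ct w from e) ▸ k3, (show b = w from e') ▸ k2⟩
        · exact ⟨d.1, k4⟩
    · by_cases e : K' = K
      · exact ⟨z, Or.inl rfl, e ▸ hz, by rw [Function.update_self, e]; exact hcK⟩
      · obtain ⟨w, hw, k1, k2⟩ := g2 K' (mem_erase.2 ⟨e, hK'⟩)
        exact ⟨w, Or.inr hw, k1, by rwa [Function.update_of_ne (wz w hw)]⟩
    · by_contra k
      rw [not_or, not_not, not_not] at k
      have hU : ∀ w ∈ insert z B, w ∈ M.biUnion id := by
        rintro w (rfl | hw)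
        · exact mem_biUnion.2 ⟨K, hK, hz⟩
        · obtain ⟨K', hK', k, -⟩ := (g1 w hw).2.1
          exact mem_biUnion.2 ⟨K', (mem_erase.1 hK').2, k⟩
      refine hd K hK (f2 d (mem_ed.2 ⟨hU _ k.1, hU _ k.2⟩) ?_)
      exact (g3 (some ⟨d, Or.inl (hd K hK)⟩) fun K' hK' e =>
        hd K' (mem_erase.1 hK').2 (mem_ed.2 (mem_ed.1 e :))).imp k.1.resolve_right k.2.resolve_right

end Pool.Agent.Lib.MP_781e3b_co.RR
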