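import Pool.Agent.Lib.MP_781e3b_co.Main

/-!
Isolated vertices.
-/

namespace Pool.Agent.Lib.MP_781e3b_co

open Set Function

theorem emb_of_support {X V U : Type} [Fintype V] [Fintype U] {H : SimpleGraph V} {j : X → V}
    (hj : Injective j) (hS : H.support ⊆ range j) {R : U → U → Prop} (h : Emb (H.comap j) R)
    (hc : Fintype.card V ≤ Fintype.card U) : Emb H R := by
  classical
  obtain ⟨f, f1, f2⟩ := h
  have : Fintype X := Fintype.ofInjective j hj
  obtain ⟨g⟩ : Nonempty (↥(range j)ᶜ ↪ ↥(range f)ᶜ) := by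
    rw [Function.Embedding.nonempty_iff_card_le, Fintype.card_compl_set, Fintype.card_compl_set,
      Set.card_range_of_injective hj, Set.card_range_of_injective f1]
    omega
  let k : V → U := fun v => if hv : v ∈ range j then f hv.choose else g ⟨v, hv⟩
  have k1 : ∀ x, k (j x) = f x := fun x => by
    simp only [k, dif_pos (mem_range_self x)]
    rw [hj (mem_range_self (f := j) x).choose_spec]
  have k2 : ∀ v (hv : v ∉ range j), k v = g ⟨v, hv⟩ := fun v hv => dif_neg hv
  refine ⟨k, fun u v huv => ?_, fun u v huv => ?_⟩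
  · by_cases hu : u ∈ range j <;> by_cases hv : v ∈ range j
    · obtain ⟨x, rfl⟩ := hu
      obtain ⟨y, rfl⟩ := hv
      rw [k1, k1] at huv
      rw [f1 huv]
    · obtain ⟨x, rfl⟩ := hu
      rw [k1, k2 v hv] at huv
      exact ((g ⟨v, hv⟩).2 ⟨x, huv⟩).elim
    · obtain ⟨x, rfl⟩ := hv
      rw [k1, k2 u hu] at huv
      exact ((g ⟨u, hu⟩).2 ⟨x, huv.symm⟩).elim
    · rw [k2 u hu, k2 v hv] at huv
      exact congrArg Subtype.val (g.injective (Subtype.ext huv))
  · obtain ⟨x, rfl⟩ := hS ⟨v, huv⟩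
    obtain ⟨y, rfl⟩ := hS ⟨_, huv.symm⟩
    rw [k1, k1]
    exact f2 x y huv

theorem Arrows.two {U V : Type} {G : SimpleGraph U} {H : SimpleGraph V} {q : ℕ} (hq : 2 ≤ q)
    (h : Arrows G H q) : Arrows G H 2 := by
  intro c hc
  obtain ⟨i, f, f1, f2⟩ := h (fun x y => Fin.castLE hq (c x y)) fun x y => by rw [hc]
  refine ⟨if hi : (i : ℕ) < 2 then ⟨i, hi⟩ else 0, f, f1, fun u v huv => ⟨(f2 u v huv).1, ?_⟩⟩
  have := congrArg Fin.val (f2 u v huv).2
  rw [Fin.val_castLE] at this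
  rw [dif_pos (this ▸ (c _ _).2)]
  exact Fin.ext this

/-- It is enough that `H₂` contains the part of `H₁` that carries the edges. -/
theorem equiv_of_support {a b : ℕ} {H₁ : SimpleGraph (Fin a)} {H₂ : SimpleGraph (Fin b)} {X : Type}
    {j : X → Fin a} (hj : Injective j) (hS : H₁.support ⊆ range j)
    (he : Emb (H₁.comap j) H₂.Adj) (h : RamseyEquiv H₁ H₂ 2) {q : ℕ} (hq : 2 ≤ q) :
    RamseyEquiv H₁ H₂ q := by
  rcases le_total a b with hab | hab
  · exact equiv_of_emb (emb_of_support hj hS he (by simpa using hab)) h hq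
  let e := Fin.castLEEmb hab
  have e1 : Emb H₂ (H₂.map e).Adj :=
    ⟨e, e.injective, fun u v huv => ⟨e.injective.ne huv.ne, u, v, huv, rfl, rfl⟩⟩
  have e2 : (H₂.map e).support ⊆ range e := by
    rintro _ ⟨_, -, u, v, -, rfl, -⟩
    exact mem_range_self u
  have key : ∀ r, 2 ≤ r → RamseyEquiv H₂ (H₂.map e) r := fun r hr n G => by
    refine ⟨fun h1 c hc => ?_, fun h1 c hc => ?_⟩
    · obtain ⟨_, f, f1, -⟩ := (h n G).2 (h1.two hr) (fun _ _ => 0) fun _ _ => rfl
      obtain ⟨i, hi⟩ := h1 c hc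
      refine ⟨i, emb_of_support (R := fun x y => G.Adj x y ∧ c x y = i) e.injective e2 ?_
        (Fintype.card_le_of_injective f f1)⟩
      rwa [SimpleGraph.comap_map_eq]
    · obtain ⟨i, hi⟩ := h1 c hc
      exact ⟨i, e1.trans (R := fun x y => G.Adj x y ∧ c x y = i) hi⟩
  have h3 := equiv_of_emb (emb_of_support hj hS (he.trans e1) le_rfl)
    (fun n G => (h n G).trans (key 2 le_rfl n G)) hq
  exact fun n G => (h3 n G).trans (key q hq n G).symm

end Pool.Agent.Lib.MP_781e3b_co
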