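import Pool.Agent.Lib.MP_781e3b_co.RR.PicDefs

/-!
Constituents, the first picture and the Ramsey property.
-/

namespace Pool.Agent.Lib.MP_781e3b_co.RR

open Set Function

variable {I K : Type} {m : ℕ} {F G T : Tr I K} [LinearOrder K] {τ : K → I} {A : ℕ → Set I}

namespace PicConAux

/-- Disjoint copies of `F`. -/
def sumT (F : Tr I K) (J : Type) [Finite J] : Tr I K where
  V := J × F.V
  W μ := J × F.W μ
  finV := inferInstance
  finW _ := inferInstance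
  par μ p := (p.1, F.par μ p.2)
  N μ p := {q | q.1 = p.1 ∧ q.2 ∈ F.N μ p.2}
  tup p k := (p.1, F.tup p.2 k)
  lab p := F.lab p.2

/-- The projection. -/
def sumH {J : Type} [Finite J] (b : J → Emb m F G) : Hom m (sumT F J) G where
  v p := (b p.1).v p.2
  w μ p := (b p.1).w μ p.2
  par μ p := (b p.1).par μ p.2
  N μ hμ := by
    rintro ⟨j, z⟩ ⟨j', x⟩ ⟨h1, h2⟩
    cases h1
    exact (b j).N μ hμ z x h2
  tup p k := (b p.1).tup p.2 k
  lab p := (b p.1).lab p.2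

/-- The copies. -/
def sumE (m : ℕ) (F : Tr I K) {J : Type} [Finite J] (j : J) : Emb m F (sumT F J) where
  v x := (j, x)
  w _ z := (j, z)
  par _ _ := rfl
  N _ _ _ _ h := ⟨rfl, h⟩
  tup _ _ := rfl
  lab _ := rfl
  vinj _ _ h := congrArg Prod.snd h
  winj _ _ _ _ h := congrArg Prod.snd h
  ind _ _ _ _ h := h.2

theorem sum_good {J : Type} [Finite J] (hF : Good τ m A F) : Good τ m A (sumT F J) where
  N0 := by
    rintro ⟨j, f⟩
    ext ⟨j', x⟩
    constructor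
    · rintro ⟨h1, h2⟩
      cases h1
      have h3 : x ∈ range (F.tup f) := hF.N0 f ▸ h2
      obtain ⟨k, rfl⟩ := h3
      exact ⟨k, rfl⟩
    · rintro ⟨k, h⟩
      cases h
      exact ⟨rfl, hF.tup_anc f k (Nat.zero_le m)⟩
  lab p k := hF.lab p.2 k
  sub μ hμ p _ h := ⟨h.1, hF.sub μ hμ p.2 h.2⟩
  sib μ hμ p p' hne hp v h h' :=
    hF.sib μ hμ p.2 p'.2 (fun e => hne (Prod.ext (h.1.symm.trans h'.1) e))
      (fun hl => congrArg Prod.snd (hp hl)) v.2 h.2 h'.2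
  ord := by
    obtain ⟨ρ, hρ⟩ := hF.ord
    exact ⟨fun p => ρ p.2, fun p => hρ p.2⟩

end PicConAux

/-- The label of `x` in the constituent is the unique `k` with `G.tup a k = ψ.v x` (`con_lab`,
`Good.inj`), and `T.lab x = G.lab (ψ.v x) = τ k`. For `ord` take a strictly monotone `K → ℕ` of the
label (or the order of `T`). -/
theorem con_good (ψ : Hom m T G) (a : G.W 0) (hG : Good τ m A G) (hT : Good τ m A T) :
    Good id m (fun μ => τ ⁻¹' A μ) (con ψ a) := by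
  refine ⟨fun f => ?_, fun f k => hG.inj a ?_, fun μ hμ z x hx => hT.sub μ hμ z.1 hx,
    fun μ hμ z z' hne hp v h h' => ?_, ?_⟩
  · ext x
    constructor
    · intro hx
      have h3 : x.1 ∈ range (T.tup f.1) := hT.N0 f.1 ▸ hx
      obtain ⟨k, hk⟩ := h3
      exact ⟨k, Subtype.ext hk⟩
    · rintro ⟨k, rfl⟩
      exact hT.tup_anc f.1 k (Nat.zero_le m)
  · rw [con_lab]
    change ψ.v (T.tup f.1 k) = G.tup a k
    rw [← ψ.tup, f.2]
    rfl
  · obtain ⟨h1, h2⟩ := hT.sib μ hμ z.1 z'.1 (fun e => hne (Subtype.ext e))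
      (fun hl => congrArg Subtype.val (hp hl)) v.1 h h'
    refine ⟨h1, ?_⟩
    change τ ((con ψ a).lab v) ∈ A μ
    rwa [← hG.lab a, con_lab, ψ.lab]
  · obtain ⟨ρ, hρ⟩ := hT.ord
    exact ⟨fun x => ρ x.1, fun f => hρ f.1⟩

omit [LinearOrder K] in
theorem con_gir (ψ : Hom m T G) (a : G.W 0) {μ n : ℕ} (h : Gir (T.N μ) n) :
    Gir ((con ψ a).N μ) n :=
  h.pull Subtype.val Subtype.val_injective (fun u v => u.1 = v)
    (fun _ _ _ h h' => Subtype.ext (h.trans h'.symm)) fun _ _ _ u hu hu' => ⟨u.1, rfl, hu, hu'⟩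

/-- The first picture: vertices `J × F.V`, wagons `J × F.W μ`, `N μ (j, z) = {(j, v) | v ∈ N μ z}`,
projection `(j, v) ↦ (b j).v v`, copies `v ↦ (j, v)`. `fp`: `fp_sum` with `o = Prod.fst`. `rev`: depth
`0` with `B = ∅`: two edges `(j, f)`, `(j', f')` over `a` with the same parent have `j = j'`, and
`f = f'` by `winj`. -/
theorem pic_zero {J : Type} [Finite J] (b : J → Emb m F G) (hm : 0 < m) (hF : Good τ m A F)
    (g : ℕ) (n : ℕ → ℕ) (κ : Type) [Nonempty κ] : ∃ Q : Pic b, Q.Inv τ A g n κ ∅ := by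
  refine ⟨⟨PicConAux.sumT F J, PicConAux.sumH b, J, inferInstance, PicConAux.sumE m F, id,
    fun _ _ => rfl, fun _ _ _ => rfl⟩, PicConAux.sum_good hF, fun μ _ => ?_,
    fun _ => ⟨fun _ => Classical.arbitrary κ, fun j => ⟨j, rfl, fun _ h => h.elim⟩⟩,
    fun a _ => ⟨0, ∅, empty_subset _, subsingleton_empty,
      fun f x hx => (PicConAux.sum_good hF).sub 0 hm f.1 hx, ?_⟩⟩
  · refine fp_sum _ _ _ Prod.fst ?_ ?_ ?_ ?_ ?_
    · rintro ⟨j, z⟩ P
      exact ⟨fun ⟨_, h⟩ => (congrArg Prod.fst h).symm, fun h => ⟨z, Prod.ext h.symm rfl⟩⟩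
    · rintro P P' hne _ ⟨x, rfl⟩ ⟨y, h⟩
      exact hne (congrArg Prod.fst h).symm
    · rintro z P _ h ⟨x, rfl⟩
      exact h.1.symm
    · intro z _ _ v h _
      exact ⟨v.2, Prod.ext h.1.symm rfl⟩
    · rintro - P _ ⟨z, rfl⟩ v h
      exact ⟨v.2, Prod.ext h.1.symm rfl⟩
  · rintro ⟨⟨j, f⟩, hf⟩ ⟨⟨j', f'⟩, hf'⟩ hne hp
    have hj : j = j' := congrArg (fun p => p.1.1) hp
    subst hj
    exact (hne (Subtype.ext (Prod.ext rfl
      ((b j).winj 0 (Nat.zero_le m) (hf.trans hf'.symm))))).elim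

/-- Restrict the colouring to the edges `inl z`, take a monochromatic copy `c` with colour `γ`, pull
the colouring back along the standard copy `c`, and update `c'` at `a` to `γ` (`sW_pos`). -/
theorem Pic.next_ram {J : Type} {b : J → Emb m F G} (Q : Pic b) (hG : Good τ m A G) (a : G.W 0)
    {H : Tr K K} {L : Type} [Finite L] (φ : L → Emb m (con Q.ψ a) H)
    (hH : ∀ f k, H.lab (H.tup f k) = k) {κ : Type} {S : Set (G.W 0)} (h : Q.Ram κ S)
    (hr : ∀ c : H.W 0 → κ, ∃ j γ, ∀ f, c ((φ j).w 0 f) = γ) :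
    (Q.next hG a φ hH).Ram κ (insert a S) := by
  classical
  intro c
  obtain ⟨l, γ, hl⟩ := hr fun z => c (Sum.inl z)
  obtain ⟨c', hc'⟩ := h fun z => c (sW Q.ψ a φ 0 l z)
  refine ⟨update c' a γ, fun j => ?_⟩
  obtain ⟨p, hp, hq⟩ := hc' j
  refine ⟨(l, p), hp, fun f hf => ?_⟩
  change c (sW Q.ψ a φ 0 l ((Q.e p).w 0 f)) = _
  by_cases ha : (b j).w 0 f = a
  · have h0 : Q.ψ.w 0 ((Q.e p).w 0 f) = anc G.par 0 a := by rw [Q.ψw, hp, ha]; rfl
    rw [sW_pos Q.ψ a φ 0 l h0, ha, update_self]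
    exact hl _
  · rw [update_of_ne ha]
    exact hq f (hf.resolve_left ha)

end Pool.Agent.Lib.MP_781e3b_co.RR
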