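import Pool.Agent.Lib.MP_781e3b_co.RR.Emb

/-!
Pictures, constituents and amalgams.
-/

namespace Pool.Agent.Lib.MP_781e3b_co.RR

open Set Function

variable {I K : Type} {m : ℕ} {F G T : Tr I K}

/-- The constituent over the edge `a` of `G`: vertices over `a`, wagons over the ancestors of `a`. -/
noncomputable def con (ψ : Hom m T G) (a : G.W 0) : Tr K K where
  V := {x : T.V // ψ.v x ∈ range (G.tup a)}
  W μ := {z : T.W μ // ψ.w μ z = anc G.par μ a}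
  finV := inferInstance
  finW _ := inferInstance
  par μ z := ⟨T.par μ z.1, by rw [ψ.par, z.2]; rfl⟩
  N μ z := {x | x.1 ∈ T.N μ z.1}
  tup f k := ⟨T.tup f.1 k, k, by rw [← ψ.tup, f.2]; rfl⟩
  lab x := x.2.choose

theorem con_lab (ψ : Hom m T G) (a : G.W 0) (x : (con ψ a).V) :
    G.tup a ((con ψ a).lab x) = ψ.v x.1 := x.2.choose_spec

section
variable (ψ : Hom m T G) (a : G.W 0) {H : Tr K K} {L : Type} (φ : L → Emb m (con ψ a) H)

/-- Vertices of the amalgam. -/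
abbrev AV (H : Tr K K) (L : Type) : Type := H.V ⊕ L × {x : T.V // ψ.v x ∉ range (G.tup a)}

/-- Wagons of the amalgam. -/
abbrev AW (H : Tr K K) (L : Type) (μ : ℕ) : Type :=
  H.W μ ⊕ L × {z : T.W μ // ψ.w μ z ≠ anc G.par μ a}

open Classical in
noncomputable def sV (c : L) (x : T.V) : AV ψ a H L :=
  if h : ψ.v x ∈ range (G.tup a) then Sum.inl ((φ c).v ⟨x, h⟩) else Sum.inr (c, ⟨x, h⟩)

open Classical in
noncomputable def sW (μ : ℕ) (c : L) (z : T.W μ) : AW ψ a H L μ :=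
  if h : ψ.w μ z = anc G.par μ a then Sum.inl ((φ c).w μ ⟨z, h⟩) else Sum.inr (c, ⟨z, h⟩)

theorem sV_pos (c : L) {x : T.V} (h : ψ.v x ∈ range (G.tup a)) :
    sV ψ a φ c x = Sum.inl ((φ c).v ⟨x, h⟩) := dif_pos h

theorem sV_neg (c : L) {x : T.V} (h : ψ.v x ∉ range (G.tup a)) :
    sV ψ a φ c x = Sum.inr (c, ⟨x, h⟩) := dif_neg h

theorem sW_pos (μ : ℕ) (c : L) {z : T.W μ} (h : ψ.w μ z = anc G.par μ a) :
    sW ψ a φ μ c z = Sum.inl ((φ c).w μ ⟨z, h⟩) := dif_pos h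

theorem sW_neg (μ : ℕ) (c : L) {z : T.W μ} (h : ψ.w μ z ≠ anc G.par μ a) :
    sW ψ a φ μ c z = Sum.inr (c, ⟨z, h⟩) := dif_neg h

/-- The amalgam of one standard copy of `T` for each copy of the constituent in `H`. -/
noncomputable def am [Finite L] : Tr I K where
  V := AV ψ a H L
  W := AW ψ a H L
  finV := inferInstance
  finW _ := inferInstance
  par μ := Sum.elim (fun z => Sum.inl (H.par μ z)) fun p => sW ψ a φ (μ + 1) p.1 (T.par μ p.2.1)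
  N μ Y := {v | (∃ u z, v = Sum.inl u ∧ Y = Sum.inl z ∧ u ∈ H.N μ z) ∨
    ∃ c u z, v = sV ψ a φ c u ∧ Y = sW ψ a φ μ c z ∧ u ∈ T.N μ z}
  tup := Sum.elim (fun z k => Sum.inl (H.tup z k)) fun p k => sV ψ a φ p.1 (T.tup p.2.1 k)
  lab := Sum.elim (fun u => G.lab (G.tup a (H.lab u))) fun p => T.lab p.2.1

theorem sV_inj (c : L) : Injective (sV ψ a φ c) := by
  intro x y h
  by_cases hx : ψ.v x ∈ range (G.tup a) <;> by_cases hy : ψ.v y ∈ range (G.tup a)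
  · rw [sV_pos ψ a φ c hx, sV_pos ψ a φ c hy] at h
    exact congrArg Subtype.val ((φ c).vinj (Sum.inl_injective h))
  · rw [sV_pos ψ a φ c hx, sV_neg ψ a φ c hy] at h; cases h
  · rw [sV_neg ψ a φ c hx, sV_pos ψ a φ c hy] at h; cases h
  · rw [sV_neg ψ a φ c hx, sV_neg ψ a φ c hy] at h
    exact congrArg (fun p => p.2.1) (Sum.inr_injective h)

theorem sW_inj {μ : ℕ} (hμ : μ ≤ m) (c : L) : Injective (sW ψ a φ μ c) := by
  intro x y h
  by_cases hx : ψ.w μ x = anc G.par μ a <;> by_cases hy : ψ.w μ y = anc G.par μ a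
  · rw [sW_pos ψ a φ μ c hx, sW_pos ψ a φ μ c hy] at h
    exact congrArg Subtype.val ((φ c).winj μ hμ (Sum.inl_injective h))
  · rw [sW_pos ψ a φ μ c hx, sW_neg ψ a φ μ c hy] at h; cases h
  · rw [sW_neg ψ a φ μ c hx, sW_pos ψ a φ μ c hy] at h; cases h
  · rw [sW_neg ψ a φ μ c hx, sW_neg ψ a φ μ c hy] at h
    exact congrArg (fun p => p.2.1) (Sum.inr_injective h)

theorem sV_eq_inl {c : L} {x : T.V} {u : H.V} (h : sV ψ a φ c x = Sum.inl u) :
    ∃ hx : ψ.v x ∈ range (G.tup a), (φ c).v ⟨x, hx⟩ = u := by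
  by_cases hx : ψ.v x ∈ range (G.tup a)
  · rw [sV_pos ψ a φ c hx] at h; exact ⟨hx, Sum.inl_injective h⟩
  · rw [sV_neg ψ a φ c hx] at h; cases h

theorem sW_eq_inl {μ : ℕ} {c : L} {x : T.W μ} {u : H.W μ} (h : sW ψ a φ μ c x = Sum.inl u) :
    ∃ hx : ψ.w μ x = anc G.par μ a, (φ c).w μ ⟨x, hx⟩ = u := by
  by_cases hx : ψ.w μ x = anc G.par μ a
  · rw [sW_pos ψ a φ μ c hx] at h; exact ⟨hx, Sum.inl_injective h⟩
  · rw [sW_neg ψ a φ μ c hx] at h; cases h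

theorem sV_sep {c c' : L} {x x' : T.V} (h : sV ψ a φ c x = sV ψ a φ c' x') :
    c = c' ∨ ψ.v x ∈ range (G.tup a) := by
  by_cases hx : ψ.v x ∈ range (G.tup a)
  · exact Or.inr hx
  · by_cases hy : ψ.v x' ∈ range (G.tup a)
    · rw [sV_neg ψ a φ c hx, sV_pos ψ a φ c' hy] at h; cases h
    · rw [sV_neg ψ a φ c hx, sV_neg ψ a φ c' hy] at h
      exact Or.inl (congrArg Prod.fst (Sum.inr_injective h))

theorem sW_sep {μ : ℕ} {c c' : L} {x x' : T.W μ} (h : sW ψ a φ μ c x = sW ψ a φ μ c' x') :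
    c = c' ∨ ψ.w μ x = anc G.par μ a := by
  by_cases hx : ψ.w μ x = anc G.par μ a
  · exact Or.inr hx
  · by_cases hy : ψ.w μ x' = anc G.par μ a
    · rw [sW_neg ψ a φ μ c hx, sW_pos ψ a φ μ c' hy] at h; cases h
    · rw [sW_neg ψ a φ μ c hx, sW_neg ψ a φ μ c' hy] at h
      exact Or.inl (congrArg Prod.fst (Sum.inr_injective h))

variable [Finite L]

theorem am_iN {μ : ℕ} (hμ : μ ≤ m) (z : H.W μ) (u : H.V) :
    (Sum.inl u : AV ψ a H L) ∈ (am ψ a φ).N μ (Sum.inl z) ↔ u ∈ H.N μ z := by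
  refine ⟨?_, fun h => Or.inl ⟨u, z, rfl, rfl, h⟩⟩
  rintro (⟨u', z', h1, h2, h3⟩ | ⟨c, x, y, h1, h2, h3⟩)
  · cases h1; cases h2; exact h3
  · obtain ⟨hx, rfl⟩ := sV_eq_inl ψ a φ h1.symm
    obtain ⟨hy, rfl⟩ := sW_eq_inl ψ a φ h2.symm
    exact (φ c).N μ hμ _ _ h3

theorem am_sN {μ : ℕ} (hμ : μ ≤ m) (c : L) (z : T.W μ) (x : T.V) :
    sV ψ a φ c x ∈ (am ψ a φ).N μ (sW ψ a φ μ c z) ↔ x ∈ T.N μ z := by
  refine ⟨fun h => ?_, fun h => Or.inr ⟨c, x, z, rfl, rfl, h⟩⟩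
  have key : ∀ u y, sV ψ a φ c x = Sum.inl u → sW ψ a φ μ c z = Sum.inl y → x ∈ T.N μ z := by
    intro u y h1 h2
    rw [h1, h2, am_iN ψ a φ hμ] at h
    obtain ⟨hx, rfl⟩ := sV_eq_inl ψ a φ h1
    obtain ⟨hy, rfl⟩ := sW_eq_inl ψ a φ h2
    exact (φ c).ind μ hμ _ _ h
  rcases h with ⟨u', z', h1, h2, -⟩ | ⟨c', x', z', h1, h2, h3⟩
  · exact key _ _ h1 h2
  · by_cases hc : c = c'
    · subst hc
      rw [sV_inj ψ a φ c h1, sW_inj ψ a φ hμ c h2]; exact h3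
    · exact key _ _ (sV_pos ψ a φ c ((sV_sep ψ a φ h1).resolve_left hc))
        (sW_pos ψ a φ μ c ((sW_sep ψ a φ h2).resolve_left hc))

/-- The standard copies. -/
noncomputable def amE (c : L) : Emb m T (am ψ a φ) where
  v := sV ψ a φ c
  w μ := sW ψ a φ μ c
  par μ z := by
    by_cases hz : ψ.w μ z = anc G.par μ a
    · have hp : ψ.w (μ + 1) (T.par μ z) = anc G.par (μ + 1) a := by rw [ψ.par, hz]; rfl
      rw [sW_pos ψ a φ μ c hz, sW_pos ψ a φ (μ + 1) c hp]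
      exact congrArg Sum.inl ((φ c).par μ ⟨z, hz⟩)
    · rw [sW_neg ψ a φ μ c hz]; rfl
  N μ hμ z x h := (am_sN ψ a φ hμ c z x).2 h
  tup f k := by
    by_cases hf : ψ.w 0 f = anc G.par 0 a
    · rw [sW_pos ψ a φ 0 c hf, sV_pos ψ a φ c (x := T.tup f k) ((con ψ a).tup ⟨f, hf⟩ k).2]
      exact congrArg Sum.inl ((φ c).tup ⟨f, hf⟩ k)
    · rw [sW_neg ψ a φ 0 c hf]; rfl
  lab x := by
    by_cases hx : ψ.v x ∈ range (G.tup a)
    · rw [sV_pos ψ a φ c hx]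
      change G.lab (G.tup a (H.lab _)) = _
      rw [(φ c).lab, con_lab, ψ.lab]
    · rw [sV_neg ψ a φ c hx]; rfl
  vinj := sV_inj ψ a φ c
  winj μ hμ := sW_inj ψ a φ hμ c
  ind μ hμ z x h := (am_sN ψ a φ hμ c z x).1 h

/-- Projection of the vertices of the amalgam. -/
def amV : AV ψ a H L → G.V := Sum.elim (fun u => G.tup a (H.lab u)) fun p => ψ.v p.2.1

/-- Projection of the wagons of the amalgam. -/
def amW (μ : ℕ) : AW ψ a H L μ → G.W μ := Sum.elim (fun _ => anc G.par μ a) fun p => ψ.w μ p.2.1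

omit [Finite L] in
theorem amV_sV (c : L) (x : T.V) : amV ψ a (sV ψ a φ c x) = ψ.v x := by
  by_cases hx : ψ.v x ∈ range (G.tup a)
  · rw [sV_pos ψ a φ c hx]
    change G.tup a (H.lab _) = _
    rw [(φ c).lab, con_lab]
  · rw [sV_neg ψ a φ c hx]; rfl

omit [Finite L] in
theorem amW_sW (μ : ℕ) (c : L) (z : T.W μ) : amW ψ a μ (sW ψ a φ μ c z) = ψ.w μ z := by
  by_cases hz : ψ.w μ z = anc G.par μ a
  · rw [sW_pos ψ a φ μ c hz]; exact hz.symm
  · rw [sW_neg ψ a φ μ c hz]; rfl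

/-- The projection of the amalgam to `G`. -/
noncomputable def amH [LinearOrder K] {τ : K → I} {A : ℕ → Set I} (hG : Good τ m A G)
    (hH : ∀ f k, H.lab (H.tup f k) = k) : Hom m (am ψ a φ) G where
  v := amV ψ a
  w := amW ψ a
  par μ := by
    rintro (z | p)
    · rfl
    · exact (amW_sW ψ a φ (μ + 1) p.1 _).trans (ψ.par μ _)
  N μ hμ := by
    rintro Y v (⟨u, z, rfl, rfl, -⟩ | ⟨c, u, z, rfl, rfl, h⟩)
    · exact hG.tup_anc a _ hμ
    · rw [amV_sV, amW_sW]; exact ψ.N μ hμ z u h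
  tup := by
    rintro (z | p) k
    · change G.tup a k = G.tup a (H.lab (H.tup z k))
      rw [hH]
    · exact (ψ.tup _ k).trans (amV_sV ψ a φ p.1 _).symm
  lab := by
    rintro (u | p)
    · rfl
    · exact ψ.lab _

end

/-- A picture over the system `b` of copies of `F` in `G`. -/
structure Pic {J : Type} (b : J → Emb m F G) where
  T : Tr I K
  ψ : Hom m T G
  P : Type
  finP : Finite P
  e : P → Emb m F T
  base : P → J
  ψv : ∀ p x, ψ.v ((e p).v x) = (b (base p)).v x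
  ψw : ∀ p μ z, ψ.w μ ((e p).w μ z) = (b (base p)).w μ z

attribute [instance] Pic.finP

/-- The next picture. -/
noncomputable def Pic.next [LinearOrder K] {τ : K → I} {A : ℕ → Set I} {J : Type}
    {b : J → Emb m F G} (Q : Pic b) (hG : Good τ m A G) (a : G.W 0) {H : Tr K K} {L : Type}
    [Finite L] (φ : L → Emb m (con Q.ψ a) H) (hH : ∀ f k, H.lab (H.tup f k) = k) : Pic b where
  T := am Q.ψ a φ
  ψ := amH Q.ψ a φ hG hH
  P := L × Q.P
  finP := inferInstance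
  e p := (amE Q.ψ a φ p.1).comp (Q.e p.2)
  base p := Q.base p.2
  ψv p x := (amV_sV Q.ψ a φ p.1 _).trans (Q.ψv p.2 x)
  ψw p μ z := (amW_sW Q.ψ a φ μ p.1 _).trans (Q.ψw p.2 μ z)

/-- The Ramsey property after the edges in `S` have been treated. -/
def Pic.Ram {J : Type} {b : J → Emb m F G} (Q : Pic b) (κ : Type) (S : Set (G.W 0)) : Prop :=
  ∀ c : Q.T.W 0 → κ, ∃ c' : G.W 0 → κ, ∀ j, ∃ p, Q.base p = j ∧
    ∀ f, (b j).w 0 f ∈ S → c ((Q.e p).w 0 f) = c' ((b j).w 0 f)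

/-- The invariant of the partite construction. -/
structure Pic.Inv [LinearOrder K] {J : Type} {b : J → Emb m F G} (Q : Pic b) (τ : K → I)
    (A : ℕ → Set I) (g : ℕ) (n : ℕ → ℕ) (κ : Type) (S : Set (G.W 0)) : Prop where
  good : Good τ m A Q.T
  fp : ∀ μ < m, FP (sys Q.e μ) (μ = 0) (n μ)
  ram : Q.Ram κ S
  rev : ∀ a ∉ S, (con Q.ψ a).HasRev g (τ ⁻¹' A 0)

end Pool.Agent.Lib.MP_781e3b_co.RR
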