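import Pool.Agent.Lib.MP_781e3b_co.RR.Emb

/-!
Revisions.
-/

namespace Pool.Agent.Lib.MP_781e3b_co.RR

open Set Function

variable {V K E : Type} {lab : V → K} {g : ℕ} {A : Set K} {NE : E → Set V}

/-- Induction on `M`. -/
theorem Rev.sub {M : ℕ} {W : Type} {NW : W → Set V} {p : E → W} (h : Rev lab g A NE M W NW p)
    (f : E) : NE f ⊆ NW (p f) := by
  induction M generalizing W NW p with
  | zero =>
    obtain ⟨B, -, -, h1, -⟩ := h
    exact h1 f
  | succ M ih =>
    obtain ⟨W', N', p', q, B, -, h1, h2, -, -, -, h3, -⟩ := h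
    rw [h2 f]
    exact (ih h1).trans (h3 _)

/-- Induction on `M`. `M = 0`: every edge has at most one point with label in `B` (`SF.of_pt`).
`M + 1`: if `X.image p'` has at most `g` elements use `SF.nest` with the girth of `N'`, the induction
for the fibres and `Rev.sub`; else `p'` is injective on `X` and `SF.of_pt` applies again. -/
theorem Rev.sf {M : ℕ} {W : Type} {NW : W → Set V} {p : E → W} (h : Rev lab g A NE M W NW p)
    (hl : ∀ f, InjOn lab (NE f)) (X : Finset E) (hX : X.card ≤ g + 1)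
    (hp : ∀ f ∈ X, ∀ f' ∈ X, p f = p f') : SF NE ↑X := by
  classical
  have key : ∀ (B : Set K), B.Subsingleton → ∀ X : Finset E,
      (∀ f ∈ X, ∀ f' ∈ X, f ≠ f' → ∀ v ∈ NE f, v ∈ NE f' → lab v ∈ B) → SF NE ↑X := by
    intro B hB X hX
    refine SF.of_pt X.finite_toSet (fun f => {v | v ∈ NE f ∧ lab v ∈ B}) ?_ ?_
    · intro f _ u hu u' hu'
      exact hl f hu.1 hu'.1 (hB hu.2 hu'.2)
    · intro f hf f' hf' hne u hu hu'
      exact ⟨hu, hX f hf f' hf' hne u hu hu'⟩
  induction M generalizing W NW p X with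
  | zero =>
    obtain ⟨B, -, hB, -, h2⟩ := h
    exact key B hB X fun f hf f' hf' hne => h2 f f' hne (hp f hf f' hf')
  | succ M ih =>
    obtain ⟨W', N', p', q, B, -, h1, h2, hG, -, hB, -, h4⟩ := h
    by_cases hc : (X.image p').card ≤ g
    · refine (hG (X.image p') hc).nest p' Eq (fun _ _ _ h h' => h.trans h'.symm) _
        (fun z hz => by simpa using ⟨z, hz, rfl⟩) (fun y => ?_)
        fun z _ z' _ _ u hu hu' => ⟨u, rfl, h1.sub z hu, h1.sub z' hu'⟩
      have := ih h1 (X.filter fun z => p' z = y) ((Finset.card_filter_le _ _).trans hX) (by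
        intro z hz z' hz'
        rw [(Finset.mem_filter.1 hz).2, (Finset.mem_filter.1 hz').2])
      convert this using 1
      ext z; simp
    · have hinj : InjOn p' ↑X :=
        Finset.card_image_iff.1 (le_antisymm Finset.card_image_le (by omega))
      refine key B hB X fun f hf f' hf' hne v hv hv' => ?_
      refine h4 (p' f) (p' f') (fun e => hne (hinj hf hf' e)) ?_ v (h1.sub f hv) (h1.sub f' hv')
      rw [← h2 f, ← h2 f']
      exact hp f hf f' hf'

theorem Rev.gain {M : ℕ} {W : Type} {NW : W → Set V} {p : E → W} (h : Rev lab g A NE M W NW p)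
    (hl : ∀ f, InjOn lab (NE f)) (hg : Gir NW (g + 1)) : Gir NE (g + 1) :=
  hg.nest p Eq (fun _ _ _ h h' => h.trans h'.symm) (h.sf hl)
    fun f f' _ u hu hu' => ⟨u, rfl, h.sub f hu, h.sub f' hu'⟩

/-- A union of copies of a revision, the copies forming a system of girth larger than `g`.
Induction on `M` for all `W, NW, p`; the new levels are `J × W'`; girth by `Gir.nest` over `J` and
`SF.pull` in the fibres. -/
theorem Rev.union {V' E' J : Type} [Finite J] {lab' : V' → K} {NE' : E' → Set V'} (s : J → V → V')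
    (hs : ∀ j, Injective (s j)) (hl : ∀ j v, lab' (s j v) = lab v)
    (hg : Gir (fun j => range (s j)) g) (ε : E' → J × E) (hε : Injective ε)
    (hN : ∀ f, NE' f = s (ε f).1 '' NE (ε f).2) {M : ℕ} {W : Type} {NW : W → Set V} {p : E → W}
    (h : Rev lab g A NE M W NW p) :
    Rev lab' g A NE' M (J × W) (fun y => s y.1 '' NW y.2) fun f => ((ε f).1, p (ε f).2) := by
  classical
  induction M generalizing W NW p with
  | zero =>
    obtain ⟨B, hA, hB, h1, h2⟩ := h
    refine ⟨B, hA, hB, fun f => ?_, fun f f' hne he v hv hv' => ?_⟩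
    · rw [hN f]
      exact image_mono (h1 _)
    · have e1 : (ε f).1 = (ε f').1 := (Prod.ext_iff.1 he).1
      have e2 : p (ε f).2 = p (ε f').2 := congrArg Prod.snd he
      rw [hN f] at hv
      rw [hN f', ← e1] at hv'
      obtain ⟨a, ha, rfl⟩ := hv
      obtain ⟨a', ha', e⟩ := hv'
      obtain rfl : a' = a := hs _ e
      rw [hl]
      exact h2 _ _ (fun e => hne (hε (Prod.ext e1 e))) e2 _ ha ha'
  | succ M ih =>
    obtain ⟨W', N', p', q, B, hfin, h1, h2, hG, hA, hB, h3, h4⟩ := h
    refine ⟨J × W', fun y => s y.1 '' N' y.2, fun f => ((ε f).1, p' (ε f).2),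
      fun y => (y.1, q y.2), B, inferInstance, ih h1, fun f => Prod.ext rfl (h2 _), ?_, hA, hB,
      fun y => image_mono (h3 _), fun y y' hne he v hv hv' => ?_⟩
    · refine hg.nest Prod.fst Eq (fun _ _ _ h h' => h.trans h'.symm) (fun X hX hj => ?_)
        fun z z' _ u hu hu' => ⟨u, rfl, image_subset_range _ _ hu, image_subset_range _ _ hu'⟩
      refine (hG (X.image Prod.snd) (Finset.card_image_le.trans hX)).pull Prod.snd
        (fun u v => ∃ z ∈ X, u = s z.1 v) ?_ _ (fun z hz => Finset.mem_image_of_mem _ hz)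
        (fun z hz z' hz' e => Prod.ext (hj z hz z' hz') e) ?_
      · rintro u u' v ⟨z, hz, rfl⟩ ⟨z', hz', rfl⟩
        rw [hj z hz z' hz']
      · rintro z hz z' hz' - u ⟨a, ha, rfl⟩ ⟨a', ha', e⟩
        rw [← hj z hz z' hz'] at e
        obtain rfl : a' = a := hs _ e
        exact ⟨a', ⟨z, hz, rfl⟩, ha, ha'⟩
    · have e1 : y.1 = y'.1 := (Prod.ext_iff.1 he).1
      have e2 : q y.2 = q y'.2 := congrArg Prod.snd he
      obtain ⟨a, ha, rfl⟩ := hv
      obtain ⟨a', ha', e⟩ := hv'
      rw [← e1] at e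
      obtain rfl : a' = a := hs _ e
      rw [hl]
      exact h4 _ _ (fun e => hne (Prod.ext e1 e)) e2 _ ha ha'

end Pool.Agent.Lib.MP_781e3b_co.RR
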