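import Pool.Agent.Lib.MP_781e3b_co.RR.PicCon
import Pool.Agent.Lib.MP_781e3b_co.RR.RevA

/-!
The revision of the constituents of the next picture.
-/

namespace Pool.Agent.Lib.MP_781e3b_co.RR

open Set Function

variable {I K : Type} {m : ℕ} {G T : Tr I K} [LinearOrder K] {τ : K → I} {A : ℕ → Set I}

namespace PicRevAux

omit [LinearOrder K] in
/-- A point of a wagon of the amalgam that does not lie over the ancestor of `a` comes from the
standard copy of that wagon. -/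
theorem mem_sW (ψ : Hom m T G) (a : G.W 0) {H : Tr K K} {L : Type} [Finite L]
    (φ : L → Emb m (con ψ a) H) {μ : ℕ} (hμ : μ ≤ m) {c : L} {z : T.W μ}
    (hz : ψ.w μ z ≠ anc G.par μ a) {v : (am ψ a φ).V}
    (hv : v ∈ (am ψ a φ).N μ (sW ψ a φ μ c z)) : ∃ u ∈ T.N μ z, v = sV ψ a φ c u := by
  rcases hv with ⟨u, y, -, h2, -⟩ | ⟨c', u, y, h1, h2, h3⟩
  · exact (hz (sW_eq_inl ψ a φ h2).1).elim
  · obtain rfl : c = c' := (sW_sep ψ a φ h2).resolve_right hz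
    obtain rfl : z = y := sW_inj ψ a φ hμ c h2
    exact ⟨u, h3, h1⟩

/-- The restriction of a standard copy to the constituents over `a'`. -/
noncomputable def s (ψ : Hom m T G) (a : G.W 0) {H : Tr K K} {L : Type} [Finite L]
    (φ : L → Emb m (con ψ a) H) (hG : Good τ m A G) (hH : ∀ f k, H.lab (H.tup f k) = k)
    (a' : G.W 0) (c : L) (x : (con ψ a').V) : (con (amH ψ a φ hG hH) a').V :=
  ⟨sV ψ a φ c x.1, by
    change amV ψ a (sV ψ a φ c x.1) ∈ _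
    rw [amV_sV]; exact x.2⟩

/-- The same for wagons. -/
noncomputable def q (ψ : Hom m T G) (a : G.W 0) {H : Tr K K} {L : Type} [Finite L]
    (φ : L → Emb m (con ψ a) H) (hG : Good τ m A G) (hH : ∀ f k, H.lab (H.tup f k) = k)
    (a' : G.W 0) (μ : ℕ) (y : L × (con ψ a').W μ) : (con (amH ψ a φ hG hH) a').W μ :=
  ⟨sW ψ a φ μ y.1 y.2.1, by
    change amW ψ a μ (sW ψ a φ μ y.1 y.2.1) = _
    rw [amW_sW]; exact y.2.2⟩

variable (ψ : Hom m T G) (a : G.W 0) {H : Tr K K} {L : Type} [Finite L]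
  (φ : L → Emb m (con ψ a) H) (hG : Good τ m A G) (hH : ∀ f k, H.lab (H.tup f k) = k)
  (a' : G.W 0)

theorem s_inj (c : L) : Injective (s ψ a φ hG hH a' c) := fun _ _ h =>
  Subtype.ext (sV_inj ψ a φ c (congrArg Subtype.val h))

theorem s_v (c : L) (x : (con ψ a').V) :
    (amH ψ a φ hG hH).v (s ψ a φ hG hH a' c x).1 = ψ.v x.1 := amV_sV ψ a φ c x.1

theorem s_lab (c : L) (x : (con ψ a').V) :
    (con (amH ψ a φ hG hH) a').lab (s ψ a φ hG hH a' c x) = (con ψ a').lab x :=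
  hG.inj a' (by rw [con_lab, con_lab, s_v])

theorem s_sep {c c' : L} (hc : c ≠ c') {x x' : (con ψ a').V}
    (h : s ψ a φ hG hH a' c x = s ψ a φ hG hH a' c' x') : ψ.v x.1 ∈ range (G.tup a) :=
  (sV_sep ψ a φ (congrArg Subtype.val h)).resolve_left hc

theorem q_surj (ha : a' ≠ a) (f : (con (amH ψ a φ hG hH) a').W 0) :
    ∃ y, q ψ a φ hG hH a' 0 y = f := by
  obtain ⟨z | ⟨c, z, hz⟩, hf⟩ := f
  · exact (ha hf.symm).elim
  · exact ⟨(c, ⟨z, hf⟩), Subtype.ext (sW_neg ψ a φ 0 c hz)⟩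

theorem q_N0 (ha : a' ≠ a) (y : L × (con ψ a').W 0) :
    (con (amH ψ a φ hG hH) a').N 0 (q ψ a φ hG hH a' 0 y) =
      s ψ a φ hG hH a' y.1 '' (con ψ a').N 0 y.2 := by
  ext x
  constructor
  · intro hx
    obtain ⟨u, hu, e⟩ := mem_sW ψ a φ (Nat.zero_le m) (c := y.1) (z := y.2.1)
      (fun h => ha (y.2.2.symm.trans h)) (v := x.1) hx
    have hr : ψ.v u ∈ range (G.tup a') := by
      have := x.2
      change amV ψ a x.1 ∈ _ at this
      rwa [e, amV_sV] at this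
    exact ⟨⟨u, hr⟩, hu, Subtype.ext e.symm⟩
  · rintro ⟨u, hu, rfl⟩
    exact (am_sN ψ a φ (Nat.zero_le m) y.1 y.2.1 u.1).2 hu

theorem q_par (μ : ℕ) (y : L × (con ψ a').W μ) :
    (con (amH ψ a φ hG hH) a').par μ (q ψ a φ hG hH a' μ y) =
      q ψ a φ hG hH a' (μ + 1) (y.1, (con ψ a').par μ y.2) :=
  Subtype.ext ((amE ψ a φ y.1).par μ y.2.1).symm

theorem s_gir (hH0 : ∀ f, H.N 0 f = range (H.tup f)) (hlin : Lin (G.N 0)) {g : ℕ} {full : Prop}
    (h1 : FP (sys φ 0) full g) (ha : a' ≠ a) :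
    Gir (fun c => range (s ψ a φ hG hH a' c)) g := by
  have hT : ∀ z, ((sys φ 0).N z ∩
      {u : H.V | G.tup a (H.lab u) ∈ range (G.tup a')}).Subsingleton := by
    rintro z u ⟨hu, hu'⟩ w ⟨hw, hw'⟩
    change u ∈ H.N 0 z at hu
    change w ∈ H.N 0 z at hw
    rw [hH0] at hu hw
    obtain ⟨k, rfl⟩ := hu
    obtain ⟨k', rfl⟩ := hw
    change G.tup a (H.lab _) ∈ range (G.tup a') at hu' hw'
    rw [hH, ← hG.N0] at hu' hw'
    have := hlin a' a ha ⟨hu', by rw [hG.N0]; exact ⟨k, rfl⟩⟩ ⟨hw', by rw [hG.N0]; exact ⟨k', rfl⟩⟩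
    rw [hG.inj a this]
  refine (h1.trace _ hT).pull id injective_id (fun x u => x.1 = Sum.inl u)
    (fun _ _ _ h h' => Subtype.ext (h.trans h'.symm)) ?_
  rintro c c' hc _ ⟨x, rfl⟩ ⟨x', e⟩
  have hx := s_sep ψ a φ hG hH a' hc e.symm
  have e1 : sV ψ a φ c x.1 = Sum.inl ((φ c).v ⟨x.1, hx⟩) := sV_pos ψ a φ c hx
  have hX : G.tup a (H.lab ((φ c).v ⟨x.1, hx⟩)) ∈ range (G.tup a') := by
    rw [(φ c).lab, con_lab]; exact x.2
  obtain ⟨hx', e2⟩ := sV_eq_inl ψ a φ ((congrArg Subtype.val e).trans e1)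
  exact ⟨_, e1, ⟨⟨_, rfl⟩, hX⟩, ⟨_, e2⟩, hX⟩

end PicRevAux

open PicRevAux in
/-- Let `C = con ψ a'`, `C' = con (amH …) a'`, `s c : C.V → C'.V` the restriction of `sV c`
(`amV_sV`); it keeps the labels (`con_lab`, `Good.inj`). An edge of `C'` is `inr (c, f)` (an edge
`inl z` lies over `a ≠ a'`), which gives `ε`.
The ranges of the `s c` have girth larger than `g`: let `X = {u : H.V | G.tup a (H.lab u) ∈ range
(G.tup a')}`; an edge of `H` has at most one point in `X` (`hlin`, `Good.inj`, `hH.lab`), so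
`FP.trace` gives girth larger than `g` for `c ↦ range (φ c).v ∩ X`, and `Gir.pull` with
`r x u := x.1 = inl u` (`sV_sep`, `sV_eq_inl`).
`Rev.union` gives depth `M` up to the level `L × C.W 1`; add one level: `q (c, X) = sW 1 c X`
(`amW_sW`), `B = {k | G.tup a' k ∈ range (G.tup a) ∧ G.par 0 a = G.par 0 a'}`, a subsingleton by
`hlin`, inside `τ ⁻¹' A 0` by `hG.sib`. The girth of the level `L × C.W 1` is `Gir.nest` with
`con_gir`. If `q (c, X) = q (c', X')` with `c ≠ c'` then `ψ.w 1 X` is `anc 1 a` and `anc 1 a'`, and a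
common point is over `a`; if `c = c'` then `X = X'`. -/
theorem am_rev (ψ : Hom m T G) (a : G.W 0) {H : Tr K K} {L : Type} [Finite L]
    (φ : L → Emb m (con ψ a) H) (hm : 0 < m) (hG : Good τ m A G) (hT : Good τ m A T)
    (hH : Good id m (fun μ => τ ⁻¹' A μ) H) (hlin : Lin (G.N 0)) {g : ℕ} {full : Prop}
    (h1 : FP (sys φ 0) full g) (h2 : Gir (T.N 1) g) {a' : G.W 0} (ha : a' ≠ a)
    (h : (con ψ a').HasRev g (τ ⁻¹' A 0)) :
    (con (amH ψ a φ hG hH.lab) a').HasRev g (τ ⁻¹' A 0) := by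
  classical
  obtain ⟨M, hM⟩ := h
  choose ε hε using q_surj ψ a φ hG hH.lab a' ha
  have hg := s_gir ψ a φ hG hH.lab a' hH.N0 hlin h1 ha
  have hU := Rev.union (lab' := (con (amH ψ a φ hG hH.lab) a').lab)
    (NE' := (con (amH ψ a φ hG hH.lab) a').N 0) (s ψ a φ hG hH.lab a')
    (s_inj ψ a φ hG hH.lab a') (s_lab ψ a φ hG hH.lab a') hg ε
    (fun f f' e => by rw [← hε f, ← hε f', e])
    (fun f => by rw [← q_N0 ψ a φ hG hH.lab a' ha, hε]) hM
  refine ⟨M + 1, L × (con ψ a').W 1, _, _, q ψ a φ hG hH.lab a' 1,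
    {k | G.tup a' k ∈ range (G.tup a) ∧ G.par 0 a = G.par 0 a'}, inferInstance, hU, ?_, ?_, ?_, ?_,
    ?_, ?_⟩
  · intro f
    rw [← q_par, hε]
  · refine hg.nest Prod.fst Eq (fun _ _ _ h h' => h.trans h'.symm) ?_ ?_
    · intro X hX hc
      rcases X.eq_empty_or_nonempty with rfl | ⟨z₀, hz₀⟩
      · rw [Finset.coe_empty]; exact SF.empty
      refine (con_gir ψ a' h2 (X.image Prod.snd) (Finset.card_image_le.trans hX)).pull Prod.snd
        (fun u v => u = s ψ a φ hG hH.lab a' z₀.1 v) (fun _ _ _ h h' => h.trans h'.symm) _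
        (fun z hz => by simpa using ⟨z.1, hz⟩)
        (fun z hz z' hz' e => Prod.ext (hc z hz z' hz') e) ?_
      rintro z hz z' hz' - _ ⟨x, hx, rfl⟩ ⟨x', hx', e⟩
      rw [hc z' hz' z hz] at e
      obtain rfl := s_inj ψ a φ hG hH.lab a' _ e
      exact ⟨x', by rw [hc z hz z₀ hz₀], hx, hx'⟩
    · rintro z z' - _ ⟨x, -, rfl⟩ ⟨x', -, e⟩
      exact ⟨_, rfl, ⟨x, rfl⟩, x', e⟩
  · rintro k ⟨hk, hp⟩
    have := (hG.sib 0 (Nat.zero_le m) a' a ha (fun _ => hp.symm) (G.tup a' k)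
      (by rw [hG.N0]; exact ⟨k, rfl⟩) (by rw [hG.N0]; exact hk)).2
    rwa [hG.lab] at this
  · rintro k ⟨hk, -⟩ k' ⟨hk', -⟩
    exact hG.inj a' (hlin a' a ha ⟨by rw [hG.N0]; exact ⟨k, rfl⟩, by rw [hG.N0]; exact hk⟩
      ⟨by rw [hG.N0]; exact ⟨k', rfl⟩, by rw [hG.N0]; exact hk'⟩)
  · rintro y _ ⟨x, hx, rfl⟩
    exact (am_sN ψ a φ (μ := 1) hm y.1 y.2.1 x.1).2 hx
  · rintro ⟨c, X⟩ ⟨c', X'⟩ hne e _ ⟨x, -, rfl⟩ ⟨x', -, e'⟩
    have e1 : sW ψ a φ 1 c X.1 = sW ψ a φ 1 c' X'.1 := congrArg Subtype.val e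
    have hc : c ≠ c' := by
      rintro rfl
      exact hne (Prod.ext rfl (Subtype.ext (sW_inj ψ a φ (μ := 1) hm c e1)))
    refine ⟨?_, ((sW_sep ψ a φ e1).resolve_left hc).symm.trans X.2⟩
    rw [con_lab, s_v]
    exact s_sep ψ a φ hG hH.lab a' hc e'.symm

end Pool.Agent.Lib.MP_781e3b_co.RR
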