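import Pool.Agent.Lib.MP_781e3b_co.RR.Defs

/-!
Forests of sets.
-/

namespace Pool.Agent.Lib.MP_781e3b_co.RR

open Set Function

variable {W V Wa Wb Va Vb : Type}

theorem SF.of_subsingleton {N : W → Set V} {X : Set W} (h : X.Subsingleton) : SF N X := by
  rcases h.eq_empty_or_singleton with rfl | ⟨z, rfl⟩
  · exact SF.empty
  · exact SF.single z

/-- Forest of parents, forests in the fibres. `r` translates shared points. -/
theorem SF.nest {Na : Wa → Set Va} {Nb : Wb → Set Vb} (j : Wa → Wb) (r : Va → Vb → Prop)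
    (hr : ∀ u u' v, r u v → r u' v → u = u') {Y : Set Wb} (h : SF Nb Y) (X : Set Wa)
    (hX : ∀ z ∈ X, j z ∈ Y) (hf : ∀ y, SF Na {z | z ∈ X ∧ j z = y})
    (hc : ∀ z ∈ X, ∀ z' ∈ X, j z ≠ j z' → ∀ u ∈ Na z, u ∈ Na z' →
      ∃ v, r u v ∧ v ∈ Nb (j z) ∧ v ∈ Nb (j z')) : SF Na X := by
  induction h generalizing X with
  | empty =>
    have : X = ∅ := eq_empty_of_forall_notMem fun z hz => hX z hz
    exact this ▸ SF.empty
  | single y =>
    have : X = {z | z ∈ X ∧ j z = y} := by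
      ext z; exact ⟨fun hz => ⟨hz, hX z hz⟩, fun hz => hz.1⟩
    exact this ▸ hf y
  | @glue Y₁ Y₂ _ _ hd hs ih₁ ih₂ =>
    have key : ∀ Y' : Set Wb, ∀ y, SF Na {z | z ∈ {z | z ∈ X ∧ j z ∈ Y'} ∧ j z = y} := by
      intro Y' y
      by_cases hy : y ∈ Y'
      · have : {z | z ∈ {z | z ∈ X ∧ j z ∈ Y'} ∧ j z = y} = {z | z ∈ X ∧ j z = y} := by
          ext z; exact ⟨fun hz => ⟨hz.1.1, hz.2⟩, fun hz => ⟨⟨hz.1, hz.2 ▸ hy⟩, hz.2⟩⟩
        exact this ▸ hf y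
      · have : {z | z ∈ {z | z ∈ X ∧ j z ∈ Y'} ∧ j z = y} = ∅ :=
          eq_empty_of_forall_notMem fun z hz => hy (hz.2 ▸ hz.1.2)
        exact this ▸ SF.empty
    have h1 := ih₁ {z | z ∈ X ∧ j z ∈ Y₁} (fun z hz => hz.2) (key Y₁)
      fun z hz z' hz' => hc z hz.1 z' hz'.1
    have h2 := ih₂ {z | z ∈ X ∧ j z ∈ Y₂} (fun z hz => hz.2) (key Y₂)
      fun z hz z' hz' => hc z hz.1 z' hz'.1
    have e : X = {z | z ∈ X ∧ j z ∈ Y₁} ∪ {z | z ∈ X ∧ j z ∈ Y₂} := by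
      ext z
      exact ⟨fun hz => (hX z hz).elim (fun h => Or.inl ⟨hz, h⟩) fun h => Or.inr ⟨hz, h⟩,
        fun hz => hz.elim And.left And.left⟩
    rw [e]
    refine SF.glue h1 h2 (disjoint_left.2 fun z h1 h2 => disjoint_left.1 hd h1.2 h2.2) ?_
    have aux : ∀ u ∈ Un Na {z | z ∈ X ∧ j z ∈ Y₁} ∩ Un Na {z | z ∈ X ∧ j z ∈ Y₂},
        ∃ v, r u v ∧ v ∈ Un Nb Y₁ ∩ Un Nb Y₂ := by
      rintro u ⟨⟨z, hz, hu⟩, z', hz', hu'⟩
      obtain ⟨v, h1, h2, h3⟩ := hc z hz.1 z' hz'.1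
        (fun e => disjoint_left.1 hd hz.2 (e ▸ hz'.2)) u hu hu'
      exact ⟨v, h1, ⟨_, hz.2, h2⟩, _, hz'.2, h3⟩
    intro u hu u' hu'
    obtain ⟨v, h1, h2⟩ := aux u hu
    obtain ⟨v', h1', h2'⟩ := aux u' hu'
    exact hr u u' v h1 (hs h2 h2' ▸ h1')

theorem SF.pull {Na : Wa → Set Va} {Nb : Wb → Set Vb} (j : Wa → Wb) (r : Va → Vb → Prop)
    (hr : ∀ u u' v, r u v → r u' v → u = u') {Y : Set Wb} (h : SF Nb Y) (X : Set Wa)
    (hX : ∀ z ∈ X, j z ∈ Y) (hj : InjOn j X)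
    (hc : ∀ z ∈ X, ∀ z' ∈ X, z ≠ z' → ∀ u ∈ Na z, u ∈ Na z' →
      ∃ v, r u v ∧ v ∈ Nb (j z) ∧ v ∈ Nb (j z')) : SF Na X :=
  h.nest j r hr X hX
    (fun _ => SF.of_subsingleton fun _ hz _ hz' => hj hz.1 hz'.1 (hz.2.trans hz'.2.symm))
    fun z hz z' hz' hne => hc z hz z' hz' fun e => hne (congrArg j e)

/-- Smaller index set, smaller intersections. -/
theorem SF.anti {N N' : W → Set V} {X Y : Set W} (h : SF N Y) (hX : X ⊆ Y)
    (hc : ∀ z ∈ X, ∀ z' ∈ X, z ≠ z' → ∀ u ∈ N' z, u ∈ N' z' → u ∈ N z ∧ u ∈ N z') : SF N' X :=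
  h.pull id Eq (fun _ _ _ h h' => h.trans h'.symm) X hX (injOn_id X)
    fun z hz z' hz' hne u hu hu' => ⟨u, rfl, hc z hz z' hz' hne u hu hu'⟩

theorem SF.subset {N : W → Set V} {X Y : Set W} (h : SF N Y) (hX : X ⊆ Y) : SF N X :=
  h.anti hX fun _ _ _ _ _ _ hu hu' => ⟨hu, hu'⟩

/-- Every set has at most one point that it shares. -/
theorem SF.of_pt {N : W → Set V} {X : Set W} (hX : X.Finite) (T : W → Set V)
    (hT : ∀ z ∈ X, (T z).Subsingleton)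
    (h : ∀ z ∈ X, ∀ z' ∈ X, z ≠ z' → ∀ u ∈ N z, u ∈ N z' → u ∈ T z) : SF N X := by
  induction X, hX using Set.Finite.induction_on with
  | empty => exact SF.empty
  | @insert a s ha _ ih =>
    rw [insert_eq]
    refine SF.glue (SF.single a) (ih (fun z hz => hT z (Or.inr hz))
      fun z hz z' hz' => h z (Or.inr hz) z' (Or.inr hz')) (disjoint_singleton_left.2 ha) ?_
    refine (hT a (Or.inl rfl)).anti ?_
    rintro u ⟨⟨z, rfl, hu⟩, z', hz', hu'⟩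
    exact h z (Or.inl rfl) z' (Or.inr hz') (fun e => ha (e ▸ hz')) u hu hu'

theorem SF.inter {N : W → Set V} {X : Set W} (h : SF N X) {z z' : W} (hz : z ∈ X) (hz' : z' ∈ X)
    (hne : z ≠ z') : (N z ∩ N z').Subsingleton := by
  induction h with
  | empty => exact hz.elim
  | single y => exact (hne (hz.trans hz'.symm)).elim
  | glue _ _ _ hs ih₁ ih₂ =>
    rcases hz with hz | hz <;> rcases hz' with hz' | hz'
    · exact ih₁ hz hz'
    · exact hs.anti fun u hu => ⟨⟨_, hz, hu.1⟩, _, hz', hu.2⟩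
    · exact hs.anti fun u hu => ⟨⟨_, hz', hu.2⟩, _, hz, hu.1⟩
    · exact ih₂ hz hz'

theorem Gir.mono {N : W → Set V} {n n' : ℕ} (h : Gir N n) (hn : n' ≤ n) : Gir N n' :=
  fun X hX => h X (hX.trans hn)

theorem Gir.lin {N : W → Set V} {n : ℕ} (h : Gir N n) (hn : 2 ≤ n) : Lin N := by
  classical
  intro z z' hne
  exact (h {z, z'} (Finset.card_le_two.trans hn)).inter (by simp) (by simp) hne

theorem Lin.gir {N : W → Set V} (h : Lin N) : Gir N 2 := by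
  classical
  intro X hX
  refine SF.of_pt X.finite_toSet (fun z => {u | u ∈ N z ∧ ∃ z' ∈ X, z' ≠ z ∧ u ∈ N z'}) ?_
    fun z _ z' hz' hne u hu hu' => ⟨hu, z', hz', hne.symm, hu'⟩
  rintro z hz u ⟨hu, y, hy, hyz, huy⟩ u' ⟨hu', y', hy', hyz', huy'⟩
  have : y = y' := by
    by_contra hne
    have h3 : ({z, y, y'} : Finset W) ⊆ X := by
      intro x hx
      simp only [Finset.mem_insert, Finset.mem_singleton] at hx
      rcases hx with rfl | rfl | rfl <;> assumption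
    have := Finset.card_le_card h3
    rw [Finset.card_eq_three.2 ⟨z, y, y', hyz.symm, hyz'.symm, hne, rfl⟩] at this
    omega
  subst this
  exact h z y hyz.symm ⟨hu, huy⟩ ⟨hu', huy'⟩

theorem gir_of_disjoint {N : W → Set V} (h : ∀ z z', z ≠ z' → ∀ v ∈ N z, v ∉ N z') (n : ℕ) :
    Gir N n := fun X _ =>
  SF.of_pt X.finite_toSet (fun _ => ∅) (fun _ _ => subsingleton_empty)
    fun z _ z' _ hne u hu hu' => h z z' hne u hu hu'

theorem Gir.nest {Na : Wa → Set Va} {Nb : Wb → Set Vb} {n : ℕ} (h : Gir Nb n) (j : Wa → Wb)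
    (r : Va → Vb → Prop) (hr : ∀ u u' v, r u v → r u' v → u = u')
    (hf : ∀ X : Finset Wa, X.card ≤ n → (∀ z ∈ X, ∀ z' ∈ X, j z = j z') → SF Na ↑X)
    (hc : ∀ z z', j z ≠ j z' → ∀ u ∈ Na z, u ∈ Na z' →
      ∃ v, r u v ∧ v ∈ Nb (j z) ∧ v ∈ Nb (j z')) : Gir Na n := by
  classical
  intro X hX
  refine (h (X.image j) (Finset.card_image_le.trans hX)).nest j r hr _
    (fun z hz => by simpa using ⟨z, hz, rfl⟩) (fun y => ?_) fun z _ z' _ => hc z z'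
  have := hf (X.filter fun z => j z = y) ((Finset.card_filter_le _ _).trans hX) (by
    intro z hz z' hz'
    rw [(Finset.mem_filter.1 hz).2, (Finset.mem_filter.1 hz').2])
  convert this using 1
  ext z; simp

theorem Gir.pull {Na : Wa → Set Va} {Nb : Wb → Set Vb} {n : ℕ} (h : Gir Nb n) (j : Wa → Wb)
    (hj : Injective j) (r : Va → Vb → Prop) (hr : ∀ u u' v, r u v → r u' v → u = u')
    (hc : ∀ z z', z ≠ z' → ∀ u ∈ Na z, u ∈ Na z' →
      ∃ v, r u v ∧ v ∈ Nb (j z) ∧ v ∈ Nb (j z')) : Gir Na n :=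
  h.nest j r hr (fun _ _ hX => SF.of_subsingleton fun z hz z' hz' => hj (hX z hz z' hz'))
    fun z z' hne => hc z z' fun e => hne (congrArg j e)

/-- Gluing two forests along a common member. -/
theorem SF.glueW {N₁ N₂ : W → Set V} {X₁ X₂ : Set W} (h₁ : SF N₁ X₁) (h₂ : SF N₂ X₂) {z : W}
    (hz₁ : z ∈ X₁) (hz₂ : z ∈ X₂) (hX : ∀ y ∈ X₁, y ∈ X₂ → y = z)
    (s₁ : ∀ y, ∀ v ∈ N₁ y, y ∈ X₁) (s₂ : ∀ y, ∀ v ∈ N₂ y, y ∈ X₂)
    (hV : ∀ v ∈ Un N₁ X₁, v ∈ Un N₂ X₂ → v ∈ N₁ z ∧ v ∈ N₂ z) :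
    SF (fun y => N₁ y ∪ N₂ y) (X₁ ∪ X₂) := by
  have key : ∀ X : Set W, SF N₁ X → X ⊆ X₁ → z ∈ X → SF (fun y => N₁ y ∪ N₂ y) (X ∪ X₂) := by
    intro X hX1
    induction hX1 with
    | empty => exact fun _ h => h.elim
    | single y =>
      intro _ hy
      obtain rfl : z = y := hy
      rw [union_eq_self_of_subset_left (singleton_subset_iff.2 hz₂)]
      refine h₂.anti Subset.rfl fun y hy y' hy' hne u hu hu' => ?_
      have a : ∀ y ∈ X₂, ∀ y' ∈ X₂, y ≠ y' → u ∈ N₁ y → u ∈ N₁ y' ∪ N₂ y' → u ∈ N₂ y := by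
        intro y hy y' hy' hne hu hu'
        obtain rfl := hX y (s₁ y u hu) hy
        rcases hu' with hu' | hu'
        · exact (hne (hX y' (s₁ y' u hu') hy').symm).elim
        · exact (hV u ⟨_, hz₁, hu⟩ ⟨_, hy', hu'⟩).2
      exact ⟨hu.elim (fun h => a y hy y' hy' hne h hu') id,
        hu'.elim (fun h => a y' hy' y hy hne.symm h hu) id⟩
    | @glue Xa Xb ha hb hd hs iha ihb =>
      intro hsub hz
      have main : ∀ Xa Xb : Set W, SF N₁ Xb → Disjoint Xa Xb →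
          (Un N₁ Xa ∩ Un N₁ Xb).Subsingleton → Xa ∪ Xb ⊆ X₁ → z ∈ Xa →
          SF (fun y => N₁ y ∪ N₂ y) (Xa ∪ X₂) → SF (fun y => N₁ y ∪ N₂ y) (Xa ∪ Xb ∪ X₂) := by
        intro Xa Xb hb hd hs hsub hz ih
        have nb : ∀ y ∈ Xb, y ∉ X₂ := fun y hy hy2 =>
          disjoint_left.1 hd hz (hX y (hsub (Or.inr hy)) hy2 ▸ hy)
        have nb' : ∀ y ∈ Xb, ∀ u ∈ N₁ y ∪ N₂ y, u ∈ N₁ y := fun y hy u hu =>
          hu.elim id fun h => (nb y hy (s₂ y u h)).elim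
        rw [union_right_comm]
        refine SF.glue ih (hb.anti Subset.rfl fun y hy y' hy' _ u hu hu' =>
          ⟨nb' y hy u hu, nb' y' hy' u hu'⟩) (disjoint_left.2 fun y hy hyb =>
            hy.elim (fun h => disjoint_left.1 hd h hyb) (nb y hyb)) (hs.anti ?_)
        rintro u ⟨⟨y, hy, hu⟩, y', hy', hu'⟩
        have hu1 := nb' y' hy' u hu'
        refine ⟨?_, y', hy', hu1⟩
        rcases hu with hu | hu
        · rcases hy with hy | hy
          · exact ⟨y, hy, hu⟩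
          · exact ⟨z, hz, hX y (s₁ y u hu) hy ▸ hu⟩
        · exact ⟨z, hz, (hV u ⟨y', hsub (Or.inr hy'), hu1⟩ ⟨y, s₂ y u hu, hu⟩).1⟩
      rcases hz with hz | hz
      · exact main Xa Xb hb hd hs hsub hz (iha (subset_union_left.trans hsub) hz)
      · rw [union_comm Xa Xb]
        exact main Xb Xa ha hd.symm (inter_comm _ _ ▸ hs) (union_comm Xa Xb ▸ hsub) hz
          (ihb (subset_union_right.trans hsub) hz)
  exact key X₁ h₁ Subset.rfl hz₁

end Pool.Agent.Lib.MP_781e3b_co.RR
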